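import Pool.Agent.Lib.MP_a52643_an.SE.Sym1

/-!
From closed invariant sets of pairs to invariant Borel sets of frames.
-/

open MeasureTheory Set Filter Topology Metric UpperHalfPlane
open scoped ENNReal MatrixGroups Real FourierTransform ComplexConjugate

noncomputable section

namespace Pool.Agent.Lib.MP_a52643_an.SE

open NS

private lemma inv2_fix {k : SL2} (h : bp k = I) : ea k = ed k ∧ eb k + ec k = 0 := by
  have e := ent_sq k
  rw [h, dist_self, Real.cosh_zero, sub_self, mul_zero] at e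
  constructor <;> nlinarith [sq_nonneg (ea k - ed k), sq_nonneg (eb k + ec k)]

private lemma inv2_triv {k : SL2} (h1 : bp k = I) (h2 : bp (k * aG 1) = bp (aG 1)) (z : ℍ) :
    k • z = z := by
  obtain ⟨a1, a2⟩ := inv2_fix h1
  have h3 : bp ((aG 1)⁻¹ * (k * aG 1)) = I := by
    rw [bp_mul, h2, ← bp_mul, inv_mul_cancel, bp_one]
  have a3 := (inv2_fix h3).2
  simp only [aG, eb_mul, ec_mul, ea_mul, ed_mul, ea_inv, eb_inv, ec_inv, ed_inv, ea_mkG, eb_mkG,
    ec_mkG, ed_mkG] at a3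
  have lt : Real.exp (-1 / 2) < Real.exp (1 / 2) := Real.exp_lt_exp.2 (by norm_num)
  have p := Real.exp_pos (-1 / 2)
  have hc : ec k = -eb k := by linarith
  have hb : eb k = 0 := by
    rw [hc] at a3
    have : (Real.exp (1 / 2) ^ 2 - Real.exp (-1 / 2) ^ 2) * eb k = 0 := by linear_combination a3
    exact (mul_eq_zero.1 this).resolve_left (by nlinarith)
  have hd : ed k ≠ 0 := fun e => by
    have := det_eq k
    rw [e, hb] at this
    simp at this
  apply UpperHalfPlane.ext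
  rw [coe_act, hc, hb, a1]
  have : (ed k : ℂ) ≠ 0 := by exact_mod_cast hd
  simp only [neg_zero, Complex.ofReal_zero, zero_mul, add_zero, zero_add]
  field_simp

private lemma inv2_std : StandardBorelSpace SL2 := by
  have := borel_SL2
  have hc : IsClosed {M : Matrix (Fin 2) (Fin 2) ℝ | M.det = 1} :=
    isClosed_eq (continuous_id.matrix_det) continuous_const
  have : PolishSpace (Matrix (Fin 2) (Fin 2) ℝ) :=
    inferInstanceAs (PolishSpace (Fin 2 → Fin 2 → ℝ))
  have : PolishSpace SL2 := hc.polishSpace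
  infer_instance

variable {Γ : Type} [Group Γ] [MulAction Γ ℍ] {e : ℝ}

variable (Γ) in
/-- the orbit of a pair -/
private def inv2O (q : ℍ × ℍ) : Set (ℍ × ℍ) := range fun γ : Γ => (γ • q.1, γ • q.2)

private lemma inv2_dist (H : Act Γ e) (γ : Γ) (q q' : ℍ × ℍ) :
    dist (γ • q.1, γ • q.2) (γ • q'.1, γ • q'.2) = dist q q' := by
  simp only [Prod.dist_eq, H.iso]

private lemma inv2_inf (H : Act Γ e) (γ : Γ) (q p : ℍ × ℍ) :
    infDist (γ • q.1, γ • q.2) (inv2O Γ p) = infDist q (inv2O Γ p) := by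
  have hi : Isometry fun q : ℍ × ℍ => (γ • q.1, γ • q.2) := Isometry.of_dist_eq (inv2_dist H γ)
  have : (fun q : ℍ × ℍ => (γ • q.1, γ • q.2)) '' inv2O Γ p = inv2O Γ p := by
    ext x
    constructor
    · rintro ⟨_, ⟨δ, rfl⟩, rfl⟩
      exact ⟨γ * δ, by simp only [mul_smul]⟩
    · rintro ⟨δ, rfl⟩
      exact ⟨_, ⟨γ⁻¹ * δ, rfl⟩, by simp only [mul_smul, smul_inv_smul]⟩
  rw [← infDist_image hi (x := q), this]

private lemma inv2_sep (H : Act Γ e) {p : ℕ → ℍ × ℍ} (hp : DenseRange p) {q q' : ℍ × ℍ}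
    (h : ∀ n, infDist q (inv2O Γ (p n)) = infDist q' (inv2O Γ (p n))) : q' ∈ inv2O Γ q := by
  obtain ⟨N, hN⟩ := H.orb 1
  obtain ⟨F, -, hF⟩ := hN q.1 q'.1
  have fin : ((fun γ : Γ => (γ • q.1, γ • q.2)) '' (F : Set Γ)).Finite := F.finite_toSet.image _
  refine image_subset_range _ _ (fin.isClosed.closure_subset (Metric.mem_closure_iff.2 fun ε hε => ?_))
  have h2 : 0 < min ε 1 / 2 := half_pos (lt_min hε one_pos)
  obtain ⟨n, hn⟩ := hp.exists_dist_lt q h2
  have m : p n ∈ inv2O Γ (p n) := ⟨1, by simp⟩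
  have l : infDist q' (inv2O Γ (p n)) < min ε 1 / 2 := h n ▸ (infDist_le_dist_of_mem m).trans_lt hn
  obtain ⟨_, ⟨γ, rfl⟩, hγ⟩ := (infDist_lt_iff ⟨_, m⟩).1 l
  have d : dist q' (γ • q.1, γ • q.2) < min ε 1 := by
    have := dist_triangle q' (γ • (p n).1, γ • (p n).2) (γ • q.1, γ • q.2)
    rw [inv2_dist H, dist_comm (p n)] at this
    linarith
  refine ⟨_, ⟨γ, hF γ ?_, rfl⟩, d.trans_le (min_le_left _ _)⟩
  rw [dist_comm]
  exact ((le_max_left _ _).trans d.le).trans (min_le_right _ _)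

theorem Act.ext_inv {Γ : Type} [Group Γ] [MulAction Γ ℍ] {e : ℝ} (H : Act Γ e)
    (hΓ : ∀ γ : Γ, ∃ g : SL2, ∀ z : ℍ, γ • z = g • z) {μ₁ μ₂ : Measure SL2} [IsFiniteMeasure μ₁]
    [IsFiniteMeasure μ₂]
    (h : ∀ C : Set (ℍ × ℍ), IsClosed C → (∀ (γ : Γ), ∀ p ∈ C, (γ • p.1, γ • p.2) ∈ C) →
      μ₁ {g | (bp g, bp (g * aG 1)) ∈ C} = μ₂ {g | (bp g, bp (g * aG 1)) ∈ C})
    {A : Set SL2} (mA : MeasurableSet A) (iA : LI (Lam Γ) A) : μ₁ A = μ₂ A := by
  have := inv2_std
  obtain ⟨p, hp⟩ := TopologicalSpace.exists_dense_seq (ℍ × ℍ)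
  let J : ℍ × ℍ → ℕ → ℝ := fun q n => infDist q (inv2O Γ (p n))
  have cJ : Continuous J := continuous_pi fun n => continuous_infDist_pt _
  let f : SL2 → ℕ → ℝ := fun g => J (bp g, bp (g * aG 1))
  have mf : Measurable f :=
    cJ.measurable.comp (measurable_bp.prodMk (measurable_bp.comp (measurable_mul_const _)))
  have sat : f ⁻¹' (f '' A) = A := by
    refine Subset.antisymm ?_ (subset_preimage_image f A)
    rintro g' ⟨g, hg, e⟩
    obtain ⟨γ, hγ⟩ := inv2_sep H hp (congrFun e)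
    obtain ⟨l, hl⟩ := hΓ γ
    simp only [Prod.mk.injEq, hl] at hγ
    have k : ∀ z : ℍ, (g'⁻¹ * (l * g)) • z = z := by
      refine inv2_triv ?_ ?_
      · rw [bp_mul, bp_mul, hγ.1, ← bp_mul, inv_mul_cancel, bp_one]
      · rw [mul_assoc, mul_assoc, bp_mul, bp_mul l, hγ.2, ← bp_mul, inv_mul_cancel_left]
    have m : g' * g⁻¹ ∈ Lam Γ := ⟨γ, fun z => by
      rw [hl, mul_smul, ← k (g⁻¹ • z), smul_smul, smul_smul]
      congr 1
      group⟩
    have := (iA _ m g).2 hg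
    rwa [inv_mul_cancel_right] at this
  have mB := (mf.measurableSet_preimage_iff_preimage_val (s := f '' A)).1 (sat.symm ▸ mA)
  obtain ⟨B, hB, eB⟩ := MeasurableSpace.measurableSet_comap.1 mB
  have eA : A = f ⁻¹' B := by
    rw [← sat]
    ext g
    exact (Set.ext_iff.1 eB ⟨f g, g, rfl⟩).symm
  have key : ∀ Z : Set (ℕ → ℝ), IsClosed Z → μ₁.map f Z = μ₂.map f Z := fun Z hZ => by
    rw [Measure.map_apply mf hZ.measurableSet, Measure.map_apply mf hZ.measurableSet]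
    refine h (J ⁻¹' Z) (hZ.preimage cJ) fun γ q hq => ?_
    have : J (γ • q.1, γ • q.2) = J q := funext fun n => inv2_inf H γ q _
    rwa [mem_preimage, this]
  have eq : μ₁.map f = μ₂.map f :=
    ext_of_generate_finite _ (by
      rw [BorelSpace.measurable_eq (α := ℕ → ℝ), borel_eq_generateFrom_isClosed])
      isPiSystem_isClosed key (key _ isClosed_univ)
  rw [eA, ← Measure.map_apply mf hB, ← Measure.map_apply mf hB, eq]

end Pool.Agent.Lib.MP_a52643_an.SE
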