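import Pool.Agent.Lib.MP_a52643_an.SE.Inv1
import Pool.Agent.Lib.MP_a52643_an.SE.Inv2

/-!
The limit measure is invariant under the geodesic flow.
-/

open MeasureTheory Set Filter Topology Metric UpperHalfPlane
open scoped ENNReal MatrixGroups Real FourierTransform ComplexConjugate

noncomputable section

namespace Pool.Agent.Lib.MP_a52643_an.SE

open NS

theorem Apx.inv {Γ : Type} [Group Γ] [MulAction Γ ℍ] {e : ℝ} (H : Act Γ e)
    (hΓ : ∀ γ : Γ, ∃ g : SL2, ∀ z : ℍ, γ • z = g • z) {Λ : Set SL2} (hΛ : Λ ⊆ Lam Γ)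
    {μ : Measure SL2} [IsProbabilityMeasure μ] (hμ : Apx Γ Λ μ) (t : ℝ) (A : Set SL2)
    (mA : MeasurableSet A) (iA : LI (Lam Γ) A) : μ (tm t A) = μ A := by
  have m := measurable_mul_const (aG t)
  have := H.ext_inv hΓ (μ₁ := μ.map (· * aG t)) (μ₂ := μ) (fun C hC iC => by
    have mC : MeasurableSet {g | (bp g, bp (g * aG 1)) ∈ C} :=
      (measurable_bp.prodMk (measurable_bp.comp (measurable_mul_const (aG 1)))) hC.measurableSet
    have e0 : ∀ S : Set SL2, tm 0 S = S := fun S => by ext g; simp [tm, aG_zero]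
    have h1 := Apx.closed H hΛ hμ hC iC t 0
    have h2 := Apx.closed H hΛ hμ hC iC 0 t
    rw [e0] at h1 h2
    rw [Measure.map_apply m mC]
    exact le_antisymm h1 h2) mA iA
  rwa [Measure.map_apply m mA] at this

end Pool.Agent.Lib.MP_a52643_an.SE
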