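import Pool.Agent.Lib.MP_a52643_an.NS.Defs

/-!
Words, stationary weights, symbols and names for the strict entropy bound.
-/

open MeasureTheory Set Filter Topology Metric UpperHalfPlane
open scoped ENNReal MatrixGroups Real FourierTransform ComplexConjugate

noncomputable section

namespace Pool.Agent.Lib.MP_a52643_an.SE

open NS

/-! ### words -/

section words

variable {S : Type} [Fintype S] [DecidableEq S]

/-- words of length `n` -/
def words (S : Type) [Fintype S] [DecidableEq S] (n : ℕ) : Finset (List S) :=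
  (Finset.univ : Finset (Fin n → S)).image List.ofFn

lemma mem_words {n : ℕ} {w : List S} : w ∈ words S n ↔ w.length = n := by
  simp only [words, Finset.mem_image, Finset.mem_univ, true_and]
  constructor
  · rintro ⟨f, rfl⟩; simp
  · rintro rfl; exact ⟨w.get, List.ofFn_get w⟩

lemma sum_words_ofFn {M : Type*} [AddCommMonoid M] (n : ℕ) (f : List S → M) :
    ∑ w ∈ words S n, f w = ∑ w : Fin n → S, f (List.ofFn w) :=
  Finset.sum_image fun _ _ _ _ h => List.ofFn_injective h

lemma card_words (n : ℕ) : (words S n).card = Fintype.card S ^ n := by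
  rw [words, Finset.card_image_of_injective _ List.ofFn_injective]; simp

lemma words_zero : words S 0 = {[]} := by
  ext w; simp [mem_words]

lemma sum_words_add {M : Type*} [AddCommMonoid M] (n m : ℕ) (f : List S → M) :
    ∑ w ∈ words S (n + m), f w = ∑ u ∈ words S n, ∑ v ∈ words S m, f (u ++ v) := by
  rw [← Finset.sum_product']
  refine (Finset.sum_nbij' (fun p : List S × List S => p.1 ++ p.2)
    (fun w => (w.take n, w.drop n)) ?_ ?_ ?_ ?_ ?_).symm
  · rintro ⟨u, v⟩ h
    simp only [Finset.mem_product, mem_words] at h ⊢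
    simp [h.1, h.2]
  · intro w h
    simp only [Finset.mem_product, mem_words] at h ⊢
    simp [h]
  · rintro ⟨u, v⟩ h
    simp only [Finset.mem_product, mem_words] at h
    simp [← h.1]
  · intro w _; simp
  · intro _ _; rfl

lemma sum_words_one {M : Type*} [AddCommMonoid M] (f : List S → M) :
    ∑ w ∈ words S 1, f w = ∑ s, f [s] := by
  rw [sum_words_ofFn]
  exact Fintype.sum_equiv (Equiv.funUnique (Fin 1) S) _ _ fun w => by simp

lemma sum_words_rev {M : Type*} [AddCommMonoid M] (n : ℕ) (f : List S → M) :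
    ∑ w ∈ words S n, f w.reverse = ∑ w ∈ words S n, f w :=
  Finset.sum_nbij' List.reverse List.reverse (fun w h => by simpa [mem_words] using h)
    (fun w h => by simpa [mem_words] using h) (fun w _ => by simp) (fun w _ => by simp)
    fun _ _ => rfl

/-- stationary weights on words -/
structure Sta (P : List S → ℝ) : Prop where
  nn : ∀ w, 0 ≤ P w
  nil : P [] = 1
  right : ∀ w, ∑ s, P (w ++ [s]) = P w
  left : ∀ w, ∑ s, P (s :: w) = P w

variable {P : List S → ℝ}

omit [DecidableEq S] in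
lemma Sta.rev (h : Sta P) : Sta fun w => P w.reverse :=
  ⟨fun _ => h.nn _, h.nil, fun w => by simpa using h.left w.reverse,
    fun w => by simpa using h.right w.reverse⟩

lemma Sta.sum_right (h : Sta P) (u : List S) (m : ℕ) : ∑ v ∈ words S m, P (u ++ v) = P u := by
  induction m with
  | zero => simp [words_zero]
  | succ m ih =>
    rw [sum_words_add, ← ih]
    refine Finset.sum_congr rfl fun v _ => ?_
    rw [sum_words_one fun w => P (u ++ (v ++ w)), ← h.right (u ++ v)]
    simp

lemma Sta.sum_left (h : Sta P) (u : List S) (m : ℕ) : ∑ v ∈ words S m, P (v ++ u) = P u := by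
  have := h.rev.sum_right u.reverse m
  rw [← sum_words_rev] at this
  simpa using this

lemma Sta.sum_one (h : Sta P) (n : ℕ) : ∑ w ∈ words S n, P w = 1 := by
  simpa [h.nil] using h.sum_right [] n

lemma Sta.le_right (h : Sta P) (u v : List S) : P (u ++ v) ≤ P u := by
  rw [← h.sum_right u v.length]
  exact Finset.single_le_sum (f := fun v => P (u ++ v)) (fun _ _ => h.nn _) (mem_words.2 rfl)

lemma Sta.le_left (h : Sta P) (u v : List S) : P (u ++ v) ≤ P v := by
  rw [← h.sum_left v u.length]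
  exact Finset.single_le_sum (f := fun u => P (u ++ v)) (fun _ _ => h.nn _) (mem_words.2 rfl)

lemma Sta.le_one (h : Sta P) (w : List S) : P w ≤ 1 := by
  simpa [h.nil] using h.le_right [] w

/-- the mean of a function of an inner part of the word -/
lemma Sta.sum_mid (h : Sta P) (a n b : ℕ) (f : List S → ℝ) :
    ∑ w ∈ words S (a + n + b), P w * f ((w.drop a).take n) = ∑ w ∈ words S n, P w * f w := by
  rw [sum_words_add, sum_words_add, Finset.sum_comm]
  refine Finset.sum_congr rfl fun v hv => ?_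
  rw [← h.sum_left v a, Finset.sum_mul]
  refine Finset.sum_congr rfl fun u hu => ?_
  rw [← h.sum_right (u ++ v) b, Finset.sum_mul]
  refine Finset.sum_congr rfl fun x _ => ?_
  rw [mem_words] at hu hv
  simp [← hu, ← hv]

/-- information of a word -/
def inf (P : List S → ℝ) (w : List S) : ℝ := -Real.log (P w)

lemma Sta.inf_nn (h : Sta P) (w : List S) : 0 ≤ inf P w :=
  neg_nonneg.2 (Real.log_nonpos (h.nn w) (h.le_one w))

/-- entropy of the words of length `n` -/
def ent (P : List S → ℝ) (n : ℕ) : ℝ := ∑ w ∈ words S n, P w * inf P w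

/-- no set of at most `K` continuations of length `m` carries more than the part `1 - c` -/
def Br (P : List S → ℝ) (m K : ℕ) (c : ℝ) (u : List S) : Prop :=
  ∀ U : Finset (List S), U ⊆ words S m → U.card ≤ K → ∑ v ∈ U, P (u ++ v) ≤ (1 - c) * P u

end words

open Classical in
/-- number of inner nodes on the way to `w` where `b` fails -/
def nbr {S : Type} (b : List S → Prop) (l n : ℕ) (w : List S) : ℕ :=
  ((Finset.Ico 1 n).filter fun k => ¬ b (w.take (k * l))).card

/-! ### symbols and names -/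

/-- isometric action with injectivity radius at least `e` and uniform orbit counts -/
structure Act (Γ : Type) [Group Γ] [MulAction Γ ℍ] (e : ℝ) : Prop where
  iso : ∀ (γ : Γ) (z w : ℍ), dist (γ • z) (γ • w) = dist z w
  inj : ∀ (γ : Γ) (z : ℍ), dist (γ • z) z < e → γ = 1
  orb : ∀ R : ℝ, ∃ N : ℕ, ∀ z w : ℍ, ∃ F : Finset Γ, F.card ≤ N ∧
    ∀ γ : Γ, dist (γ • z) w ≤ R → γ ∈ F

section names

variable (Γ : Type) [Group Γ] [MulAction Γ ℍ] {S : Type}

/-- the matrices which act as an element of the group -/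
def Lam : Set SL2 := {g | ∃ γ : Γ, ∀ z : ℍ, γ • z = g • z}

/-- the pair `(z, z')` is within `r` of a translate of the pair `p` -/
def Vs (p : ℍ × ℍ) (r : ℝ) (z z' : ℍ) : Prop :=
  ∃ γ : Γ, dist (γ • z) p.1 < r ∧ dist (γ • z') p.2 < r

/-- bounded overlap of the symbols -/
def Ov (ctr : S → ℍ × ℍ) (B : ℕ) : Prop :=
  ∀ z z' : ℍ, ∃ F : Finset S, F.card ≤ B ∧ ∀ s, Vs Γ (ctr s) 1 z z' → s ∈ F

/-- the path `z` has the thick name `w` -/
def Nm (ctr : S → ℍ × ℍ) (r : ℝ) (z : ℕ → ℍ) (w : List S) : Prop :=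
  ∀ (j : ℕ) (h : j < w.length), Vs Γ (ctr w[j]) r (z j) (z (j + 1))

/-- frames with a thick name in `A` -/
def Sw (ctr : S → ℍ × ℍ) (r τ : ℝ) (A : Finset (List S)) : Set SL2 :=
  {g | ∃ w ∈ A, Nm Γ ctr r (fun j => bp (g * aG (j * τ))) w}

/-- points of a horocycle with a thick name in `A` -/
def Xw (ctr : S → ℍ × ℍ) (r τ : ℝ) (A : Finset (List S)) (g : SL2) (t : ℝ) : Set ℝ :=
  {x | ∃ w ∈ A, Nm Γ ctr r (fun j => g • pt x (-t - j * τ)) w}

/-- weight of the exact name `w` -/
def wgt (μ : Measure SL2) (c : SL2 → S) (τ : ℝ) (w : List S) : ℝ :=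
  μ.real {g | ∀ (j : ℕ) (h : j < w.length), c (g * aG (j * τ)) = w[j]}

/-- the jumps inside the main range -/
def Tr1 (Λ : Set SL2) (P : Measure SL2) (h θ : ℝ) : Prop := ∀ T, 4 * h ≤ T → T ≤ 46 * h →
  Tr Λ P P (Real.exp (100 * h)) (Real.exp (-49 * h)) (Real.exp (52 * h + T)) T θ

/-- the jumps from the short state -/
def Tr0 (Λ : Set SL2) (P₀ P : Measure SL2) (h θ : ℝ) : Prop := ∀ T, 22 * h ≤ T → T ≤ 23 * h →
  Tr Λ P₀ P (Real.exp (100 * h)) (Real.exp (-31 * h)) (Real.exp (52 * h + T)) T θ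

/-- `μ` is approximated by measures with transfer inequalities -/
def Apx (Λ : Set SL2) (μ : Measure SL2) : Prop :=
  ∀ θ > 0, ∀ (h₀ a b : ℝ) (D₁ D₂ : SL2 → ℝ), a < b → Continuous D₁ → Continuous D₂ →
    (∀ γ ∈ Lam Γ, ∀ g, D₁ (γ * g) = D₁ g) → (∀ γ ∈ Lam Γ, ∀ g, D₂ (γ * g) = D₂ g) →
    ∃ h ≥ h₀, ∃ P₀ P : Measure SL2, IsProbabilityMeasure P₀ ∧ IsProbabilityMeasure P ∧
      Tr1 Λ P h θ ∧ Tr0 Λ P₀ P h θ ∧ μ.real {g | D₁ g < a} ≤ P₀.real {g | D₁ g < b} + θ ∧
      μ.real {g | D₂ g < a} ≤ P₀.real {g | D₂ g < b} + θ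

end names

end Pool.Agent.Lib.MP_a52643_an.SE
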