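import Pool.Agent.Lib.MP_a52643_an.SE.Lift

/-!
The lift and the square of the eigenfunction have nearly the same projection.
-/

open MeasureTheory Set Filter Topology Metric UpperHalfPlane
open scoped ENNReal MatrixGroups Real FourierTransform ComplexConjugate

noncomputable section

namespace Pool.Agent.Lib.MP_a52643_an.SE

open NS

private lemma anc_cont {φ : ℍ → ℝ} (hφ : Continuous φ) (g : SL2) :
    Continuous fun t : ℝ => φ (bp (g * aG t)) := by
  simp only [bp_mul, bp_aG]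
  exact hφ.comp ((continuous_pt.comp (continuous_const.prodMk continuous_neg)).const_smul g)

private lemma anc_sub {φ : ℍ → ℝ} (hφ : Continuous φ) (r : ℝ) {T : ℝ} (hT : 0 ≤ T) (g : SL2) :
    kF φ r (Real.exp (2 * T) - 1) g = ∫ t in (0 : ℝ)..T, ((2 * Real.exp (3 / 2 * t) : ℝ) : ℂ) *
      (Complex.exp (-(r * t) * Complex.I) * φ (bp (g * aG t))) := by
  have h1 : (1 : ℝ) ≤ Real.exp (2 * T) := Real.one_le_exp (by linarith)
  have hc : ContinuousOn (fun v : ℝ => wt r v * (φ (bp (g * aG (Real.log v / 2))) : ℂ))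
      ((fun t : ℝ => Real.exp (2 * t)) '' uIcc 0 T) := by
    have hl : ContinuousOn (fun v : ℝ => Real.log v / 2)
        ((fun t : ℝ => Real.exp (2 * t)) '' uIcc 0 T) :=
      (Real.continuousOn_log.mono (by
        rintro _ ⟨t, -, rfl⟩; exact (Real.exp_pos _).ne')).div_const 2
    have hw : Continuous fun s : ℝ => Complex.exp (-(1 / 2 + r * Complex.I) * (s : ℝ)) *
        (φ (bp (g * aG s)) : ℂ) :=
      Continuous.mul (by fun_prop) (Complex.continuous_ofReal.comp (anc_cont hφ g))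
    exact hw.comp_continuousOn hl
  have h2 := intervalIntegral.integral_deriv_smul_comp' (a := 0) (b := T)
    (f := fun t : ℝ => Real.exp (2 * t)) (f' := fun t : ℝ => Real.exp (2 * t) * 2)
    (fun t _ => by simpa using ((hasDerivAt_id t).const_mul 2).exp) (by fun_prop) hc
  rw [kF, add_sub_cancel, ← intervalIntegral.integral_of_le h1]
  simp only [mul_zero, Real.exp_zero] at h2
  rw [← h2]
  refine intervalIntegral.integral_congr fun t _ => ?_
  have e : Real.log (Real.exp (2 * t)) / 2 = t := by rw [Real.log_exp]; ring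
  simp only [Function.comp, wt, e, Complex.real_smul]
  have e2 : (Real.exp (2 * t) : ℂ) * Complex.exp (-(1 / 2 + r * Complex.I) * t) =
      Real.exp (3 / 2 * t) * Complex.exp (-(r * t) * Complex.I) := by
    push_cast
    rw [← Complex.exp_add, ← Complex.exp_add]
    congr 1
    ring
  push_cast [-Complex.ofReal_exp]
  linear_combination (2 * (φ (bp (g * aG t)) : ℂ)) * e2

private lemma anc_cs {f : ℝ → ℝ} (hf : Continuous f) {T : ℝ} (hT : 0 < T) :
    (∫ t in (0 : ℝ)..T, |f t|) ^ 2 ≤ T * ∫ t in (0 : ℝ)..T, f t ^ 2 := by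
  set a := ∫ t in (0 : ℝ)..T, |f t| with ha
  have i1 := hf.abs.intervalIntegrable (μ := volume) 0 T
  have i2 := (hf.fun_pow 2).intervalIntegrable (μ := volume) 0 T
  have h : ∫ t in (0 : ℝ)..T, 2 * (a * T) * |f t| ≤ ∫ t in (0 : ℝ)..T, (T ^ 2 * f t ^ 2 + a ^ 2) :=
    intervalIntegral.integral_mono_on hT.le (i1.const_mul _)
      ((i2.const_mul _).add intervalIntegrable_const) fun t _ => by
        nlinarith [sq_nonneg (T * |f t| - a), sq_abs (f t)]
  rw [intervalIntegral.integral_add (i2.const_mul _) intervalIntegrable_const,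
    intervalIntegral.integral_const_mul, intervalIntegral.integral_const_mul,
    intervalIntegral.integral_const, ← ha, sub_zero, smul_eq_mul] at h
  refine le_of_mul_le_mul_left ?_ hT
  nlinarith

private lemma anc_diff {φ : ℍ → ℝ} (hφ : Continuous φ) (r : ℝ) {T : ℝ} (hT : 0 < T)
    (hT' : T ≤ 1 / 2) (g : SL2) :
    ‖kF φ r (Real.exp (2 * T) - 1) g - 2 * ∫ t in (0 : ℝ)..T,
      Complex.exp (-(r * t) * Complex.I) * φ (bp (g * aG t))‖ ^ 2 ≤
      36 * T ^ 3 * ∫ t in (0 : ℝ)..T, φ (bp (g * aG t)) ^ 2 := by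
  have hc := anc_cont hφ g
  have c1 : Continuous fun t : ℝ => Complex.exp (-(r * t) * Complex.I) * φ (bp (g * aG t)) :=
    Continuous.mul (by fun_prop) (Complex.continuous_ofReal.comp hc)
  have c2 : Continuous fun t : ℝ => ((2 * Real.exp (3 / 2 * t) : ℝ) : ℂ) := by fun_prop
  rw [anc_sub hφ r hT.le, ← intervalIntegral.integral_const_mul,
    ← intervalIntegral.integral_sub ((c2.fun_mul c1).intervalIntegrable _ _)
      ((c1.const_mul 2).intervalIntegrable _ _)]
  have h1 := intervalIntegral.norm_integral_le_of_norm_le (μ := volume) hT.le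
    (f := fun t : ℝ => ((2 * Real.exp (3 / 2 * t) : ℝ) : ℂ) *
      (Complex.exp (-(r * t) * Complex.I) * φ (bp (g * aG t))) -
        2 * (Complex.exp (-(r * t) * Complex.I) * φ (bp (g * aG t))))
    (g := fun t => 6 * T * |φ (bp (g * aG t))|) (.of_forall fun t ht => by
      have e1 : ‖Complex.exp (-(r * t) * Complex.I)‖ = 1 := by
        have := Complex.norm_exp_ofReal_mul_I (-(r * t))
        push_cast at this
        exact this
      have e2 : ((2 * Real.exp (3 / 2 * t) : ℝ) : ℂ) - 2 =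
          ((2 * (Real.exp (3 / 2 * t) - 1) : ℝ) : ℂ) := by push_cast; ring
      have h0 : |3 / 2 * t| = 3 / 2 * t := abs_of_nonneg (by linarith [ht.1])
      have e3 := Real.abs_exp_sub_one_le (x := 3 / 2 * t) (by rw [h0]; linarith [ht.2])
      rw [← sub_mul, e2, norm_mul, norm_mul, e1, one_mul, Complex.norm_real, Complex.norm_real,
        Real.norm_eq_abs, Real.norm_eq_abs, abs_mul, abs_two]
      refine mul_le_mul_of_nonneg_right ?_ (abs_nonneg _)
      rw [h0] at e3
      linarith [ht.2]) ((hc.abs.const_mul _).intervalIntegrable _ _)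
  refine (pow_le_pow_left₀ (norm_nonneg _) h1 2).trans ?_
  rw [intervalIntegral.integral_const_mul, mul_pow]
  have := mul_le_mul_of_nonneg_left (anc_cs hc hT) (sq_nonneg (6 * T))
  linarith

private lemma anc_fub {Λ : Set SL2} {ν : Measure SL2} {φ : ℍ → ℝ} {r : ℝ} (R : Rep Λ ν φ r)
    {T : ℝ} (hT : 0 < T) :
    Integrable (fun g => ∫ t in (0 : ℝ)..T, φ (bp (g * aG t)) ^ 2) ν ∧
      ∫ g, (∫ t in (0 : ℝ)..T, φ (bp (g * aG t)) ^ 2) ∂ν = T := by
  have := R.fin
  obtain ⟨B, hB⟩ := R.bdd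
  have mq : Measurable fun g : SL2 => φ (bp g) ^ 2 :=
    (R.cont.measurable.comp measurable_bp).pow_const 2
  have hi : Integrable (fun p : SL2 × ℝ => φ (bp (p.1 * aG p.2)) ^ 2)
      (ν.prod (volume.restrict (Ioc 0 T))) :=
    Integrable.of_bound (mq.comp (measurable_fst.mul
      (measurable_aG.comp measurable_snd))).aestronglyMeasurable (B ^ 2) (.of_forall fun p => by
        rw [Real.norm_eq_abs, abs_pow]; exact pow_le_pow_left₀ (abs_nonneg _) (hB _) 2)
  simp only [intervalIntegral.integral_of_le hT.le]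
  refine ⟨hi.integral_prod_left, ?_⟩
  rw [integral_integral_swap hi]
  have h1 : ∀ t : ℝ, ∫ g, φ (bp (g * aG t)) ^ 2 ∂ν = 1 := fun t => by
    have h2 := R.right (fun g => ENNReal.ofReal (φ (bp g) ^ 2)) mq.ennreal_ofReal
      (fun γ hγ g => by rw [bp_mul, R.inv γ hγ]) (aG t)
    rw [← R.one, integral_eq_lintegral_of_nonneg_ae (.of_forall fun g => sq_nonneg _)
      (mq.comp (measurable_mul_const _)).aestronglyMeasurable,
      integral_eq_lintegral_of_nonneg_ae (.of_forall fun g => sq_nonneg _)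
      mq.aestronglyMeasurable, h2]
  simp [h1, hT.le]

variable {Λ : Set SL2} {ν : Measure SL2} {φ : ℍ → ℝ} {r : ℝ}

private def ancE (r t : ℝ) : ℂ := Complex.exp (-(r * t) * Complex.I)

private lemma anc_normE (r t : ℝ) : ‖ancE r t‖ = 1 := by
  have := Complex.norm_exp_ofReal_mul_I (-(r * t))
  push_cast at this
  exact this

private lemma anc_contE (r : ℝ) : Continuous (ancE r) := by
  unfold ancE; fun_prop

/-- the lift with a real weight -/
private def ancW (φ : ℍ → ℝ) (r T : ℝ) (c : SL2 × ℝ → ℝ) (g : SL2) : ℂ :=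
  ∫ t in Ioc 0 T, ancE r t * ((c (g, t) * φ (bp (g * aG t)) : ℝ) : ℂ)

private lemma anc_mp {a : ℍ → ℝ} (ca : Continuous a) :
    Measurable fun p : SL2 × ℝ => a (bp (p.1 * aG p.2)) :=
  ca.measurable.comp (measurable_bp.comp (measurable_fst.mul (measurable_aG.comp measurable_snd)))

private lemma anc_mW (R : Rep Λ ν φ r) (T : ℝ) {c : SL2 × ℝ → ℝ} (mc : Measurable c) :
    Measurable (ancW φ r T c) := by
  have a1 : Measurable fun p : SL2 × ℝ =>
      ancE r p.2 * ((c p * φ (bp (p.1 * aG p.2)) : ℝ) : ℂ) :=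
    ((anc_contE r).measurable.comp measurable_snd).fun_mul
      (Complex.measurable_ofReal.comp (mc.fun_mul (anc_mp R.cont)))
  exact (a1.stronglyMeasurable.integral_prod_right'
    (ν := volume.restrict (Ioc 0 T))).measurable

private lemma anc_bW {T A B : ℝ} {c : SL2 × ℝ → ℝ} (bc : ∀ p, |c p| ≤ A) (hB : ∀ z, |φ z| ≤ B)
    (g : SL2) : ‖ancW φ r T c g‖ ≤ A * B * (volume.restrict (Ioc 0 T)).real univ := by
  refine norm_integral_le_of_norm_le_const (.of_forall fun t => ?_)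
  rw [norm_mul, anc_normE, one_mul, Complex.norm_real, Real.norm_eq_abs, abs_mul]
  exact mul_le_mul (bc _) (hB _) (abs_nonneg _) ((abs_nonneg _).trans (bc (g, t)))

private lemma anc_bd {a b c A B : ℝ} (ha : |a| ≤ A) (hb : |b| ≤ B) (hc : |c| ≤ B) :
    |a * (b * c)| ≤ A * (B * B) := by
  have := (abs_nonneg _).trans ha
  have := (abs_nonneg _).trans hb
  rw [abs_mul, abs_mul]; gcongr

private lemma anc_zero (R : Rep Λ ν φ r) (T : ℝ) {c : SL2 × ℝ → ℝ} (mc : Measurable c) {A : ℝ}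
    (bc : ∀ p, |c p| ≤ A)
    (h0 : ∀ t t', ∫ g, c (g, t) * (φ (bp (g * aG t)) * φ (bp (g * aG t'))) ∂ν = 0) :
    ∫ g, ancW φ r T c g * conj (ancW φ r T (fun _ => 1) g) ∂ν = 0 := by
  have := R.fin
  obtain ⟨B, hB⟩ := R.bdd
  set m : Measure ℝ := volume.restrict (Ioc 0 T) with hm
  have e1 : ∀ g, ancW φ r T c g * conj (ancW φ r T (fun _ => 1) g) =
      ∫ p, ancE r p.1 * conj (ancE r p.2) *
        ((c (g, p.1) * (φ (bp (g * aG p.1)) * φ (bp (g * aG p.2))) : ℝ) : ℂ) ∂m.prod m :=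
    fun g => by
      rw [ancW, ancW, ← integral_conj, ← hm, ← integral_prod_mul]
      refine integral_congr_ae (.of_forall fun p => ?_)
      simp only [map_mul, Complex.conj_ofReal]
      push_cast
      ring
  have mw := (anc_contE r).measurable
  have hI : Integrable (Function.uncurry fun (g : SL2) (p : ℝ × ℝ) =>
      ancE r p.1 * conj (ancE r p.2) *
        ((c (g, p.1) * (φ (bp (g * aG p.1)) * φ (bp (g * aG p.2))) : ℝ) : ℂ))
      (ν.prod (m.prod m)) := by
    refine Integrable.of_bound (Measurable.aestronglyMeasurable ?_) (A * (B * B))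
      (.of_forall fun q => ?_)
    · have f1 : Measurable fun q : SL2 × ℝ × ℝ => (q.1, q.2.1) :=
        measurable_fst.prodMk measurable_snd.fst
      have k0 : Measurable fun q : SL2 × ℝ × ℝ => c (q.1, q.2.1) := mc.comp f1
      have k1 : Measurable fun q : SL2 × ℝ × ℝ => φ (bp (q.1 * aG q.2.1)) :=
        R.cont.measurable.comp (measurable_bp.comp
          (measurable_fst.mul (measurable_aG.comp measurable_snd.fst)))
      have k2 : Measurable fun q : SL2 × ℝ × ℝ => φ (bp (q.1 * aG q.2.2)) :=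
        R.cont.measurable.comp (measurable_bp.comp
          (measurable_fst.mul (measurable_aG.comp measurable_snd.snd)))
      have k3 : Measurable fun q : SL2 × ℝ × ℝ => ancE r q.2.1 := mw.comp measurable_snd.fst
      have k4 : Measurable fun q : SL2 × ℝ × ℝ => conj (ancE r q.2.2) :=
        Complex.continuous_conj.measurable.comp (mw.comp measurable_snd.snd)
      have k5 : Measurable fun q : SL2 × ℝ × ℝ =>
          ((c (q.1, q.2.1) * (φ (bp (q.1 * aG q.2.1)) * φ (bp (q.1 * aG q.2.2))) : ℝ) : ℂ) :=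
        Complex.measurable_ofReal.comp (k0.fun_mul (k1.fun_mul k2))
      exact (k3.fun_mul k4).fun_mul k5
    · simp only [Function.uncurry]
      rw [norm_mul, norm_mul, Complex.norm_conj, anc_normE, anc_normE, one_mul, one_mul,
        Complex.norm_real, Real.norm_eq_abs]
      exact anc_bd (bc _) (hB _) (hB _)
  rw [funext e1, integral_integral_swap hI]
  refine (integral_congr_ae (.of_forall fun p => ?_)).trans (integral_zero _ _)
  rw [integral_const_mul, integral_complex_ofReal, h0, Complex.ofReal_zero, mul_zero]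

private lemma anc_pair (R : Rep Λ ν φ r) {a : ℍ → ℝ} (ca : Continuous a) (ba : ∀ z, |a z| ≤ 1)
    (ia : ∀ γ ∈ Λ, ∀ z : ℍ, a (γ • z) = a z) (t t' : ℝ) :
    ∫ g, (a (bp (g * aG t)) - ∫ g, a (bp g) * φ (bp g) ^ 2 ∂ν) *
      (φ (bp (g * aG t)) * φ (bp (g * aG t'))) ∂ν = 0 := by
  have := R.fin
  obtain ⟨B, hB⟩ := R.bdd
  have h1 := R.gram ca.measurable ba ia (bp (aG t')) (bp (aG t))
  have h2 := R.gram (a := fun _ => 1) measurable_const (by simp) (by simp) (bp (aG t')) (bp (aG t))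
  simp only [one_mul, R.one, Complex.ofReal_one, mul_one] at h2
  set M := ∫ g, a (bp g) * φ (bp g) ^ 2 ∂ν
  rw [← h2, mul_right_comm, mul_left_inj' (by exact_mod_cast Real.pi_ne_zero)] at h1
  simp only [← bp_mul] at h1
  have h3 : ∫ g, a (bp (g * aG t)) * φ (bp (g * aG t')) * φ (bp (g * aG t)) ∂ν
      = (∫ g, φ (bp (g * aG t')) * φ (bp (g * aG t)) ∂ν) * M := by exact_mod_cast h1
  have mm : ∀ {b : ℍ → ℝ}, Continuous b → ∀ s, Measurable fun g : SL2 => b (bp (g * aG s)) :=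
    fun cb s => cb.measurable.comp (measurable_bp.comp (measurable_mul_const _))
  have i1 : Integrable (fun g => a (bp (g * aG t)) * φ (bp (g * aG t')) * φ (bp (g * aG t))) ν :=
    Integrable.of_bound (((mm ca t).fun_mul (mm R.cont t')).fun_mul
      (mm R.cont t)).aestronglyMeasurable (1 * (B * B)) (.of_forall fun g => by
        rw [mul_assoc]; exact anc_bd (ba _) (hB _) (hB _))
  have i2 : Integrable (fun g => φ (bp (g * aG t')) * φ (bp (g * aG t)) * M) ν :=
    Integrable.of_bound (((mm R.cont t').fun_mul (mm R.cont t)).mul_const M).aestronglyMeasurable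
      (|M| * (B * B)) (.of_forall fun g => by
        rw [mul_comm]; exact anc_bd le_rfl (hB _) (hB _))
  rw [← integral_mul_const] at h3
  rw [← sub_eq_zero, ← integral_sub i1 i2] at h3
  rw [← h3]
  refine integral_congr_ae (.of_forall fun g => ?_)
  simp only
  ring

private lemma anc_lift {T : ℝ} (hT : 0 ≤ T) (g : SL2) : ancW φ r T (fun _ => 1) g =
    ∫ t in (0 : ℝ)..T, Complex.exp (-(r * t) * Complex.I) * φ (bp (g * aG t)) := by
  simp only [ancW, ancE, one_mul, intervalIntegral.integral_of_le hT]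

private lemma anc_split (hφ : Continuous φ) {a : ℍ → ℝ} (ca : Continuous a) (M T : ℝ) (g : SL2) :
    ((a (bp g) - M : ℝ) : ℂ) * ancW φ r T (fun _ => 1) g =
      ancW φ r T (fun p => a (bp p.1) - a (bp (p.1 * aG p.2))) g +
        ancW φ r T (fun p => a (bp (p.1 * aG p.2)) - M) g := by
  have c1 := anc_cont hφ g
  have c2 := anc_cont ca g
  have c3 := anc_contE r
  simp only [ancW]
  rw [← integral_add, ← integral_const_mul]
  · refine integral_congr_ae (.of_forall fun t => ?_)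
    simp only
    push_cast
    ring
  · exact (c3.mul (Complex.continuous_ofReal.comp
      ((continuous_const.sub c2).mul c1))).integrableOn_Ioc
  · exact (c3.mul (Complex.continuous_ofReal.comp
      ((c2.sub continuous_const).mul c1))).integrableOn_Ioc

private lemma anc_small (hφ : Continuous φ) {a : ℍ → ℝ} (la : LipschitzWith 1 a) {T : ℝ}
    (hT : 0 < T) (g : SL2) :
    ‖ancW φ r T (fun p => a (bp p.1) - a (bp (p.1 * aG p.2))) g‖ ^ 2 ≤
      T ^ 3 * ∫ t in (0 : ℝ)..T, φ (bp (g * aG t)) ^ 2 := by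
  have hc := anc_cont hφ g
  have h1 : ‖ancW φ r T (fun p => a (bp p.1) - a (bp (p.1 * aG p.2))) g‖ ≤
      T * ∫ t in (0 : ℝ)..T, |φ (bp (g * aG t))| := by
    rw [ancW, ← intervalIntegral.integral_of_le hT.le, ← intervalIntegral.integral_const_mul]
    refine intervalIntegral.norm_integral_le_of_norm_le hT.le (.of_forall fun t ht => ?_)
      ((hc.abs.const_mul _).intervalIntegrable _ _)
    rw [norm_mul, anc_normE, one_mul, Complex.norm_real, Real.norm_eq_abs, abs_mul]
    refine mul_le_mul_of_nonneg_right ?_ (abs_nonneg _)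
    have h2 := la.dist_le_mul (bp g) (bp (g * aG t))
    rw [NNReal.coe_one, one_mul, Real.dist_eq] at h2
    refine h2.trans ?_
    rw [bp_mul, bp, dist_smul, bp_aG, ← pt_zero, dist_pt_eq, abs_of_nonneg (by linarith [ht.1])]
    linarith [ht.2]
  refine (pow_le_pow_left₀ (norm_nonneg _) h1 2).trans ?_
  rw [mul_pow]
  have := mul_le_mul_of_nonneg_left (anc_cs hc hT) (sq_nonneg T)
  linarith

private lemma anc_iW (R : Rep Λ ν φ r) (T : ℝ) {c : SL2 × ℝ → ℝ} (mc : Measurable c) {A : ℝ}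
    (bc : ∀ p, |c p| ≤ A) : Integrable (fun g => ‖ancW φ r T c g‖ ^ 2) ν := by
  have := R.fin
  obtain ⟨B, hB⟩ := R.bdd
  exact Integrable.of_bound ((anc_mW R T mc).norm.pow_const 2).aestronglyMeasurable _
    (.of_forall fun g => by
      rw [norm_pow, norm_norm]
      exact pow_le_pow_left₀ (norm_nonneg _) (anc_bW bc hB g) 2)

private lemma anc_low (R : Rep Λ ν φ r) {T : ℝ} (T0 : 0 < T) (T1 : T ≤ 1 / 2304)
    (T3 : r * T ^ 3 = 1) : T ^ 3 ≤ 256 * ∫ g, ‖ancW φ r T (fun _ => 1) g‖ ^ 2 ∂ν := by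
  have r0 : 0 < r := by
    by_contra h
    have : r * T ^ 3 ≤ 0 := mul_nonpos_of_nonpos_of_nonneg (not_lt.1 h) (by positivity)
    linarith
  have σ1 : 2 * T ≤ Real.exp (2 * T) - 1 := by linarith [Real.add_one_le_exp (2 * T)]
  have σ2 : Real.exp (2 * T) - 1 ≤ 4 * T := by
    have a1 : |2 * T| = 2 * T := abs_of_nonneg (by linarith)
    have := Real.abs_exp_sub_one_le (x := 2 * T) (by rw [a1]; linarith)
    rw [a1] at this
    linarith [le_abs_self (Real.exp (2 * T) - 1)]
  have hd := anc_diff R.cont r T0 (by linarith)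
  set σ := Real.exp (2 * T) - 1 with hσ
  have := R.fin
  obtain ⟨K, hK⟩ := R.kF_bdd σ
  have s0 : 0 < σ := by linarith
  have rT : r * T * T ^ 2 = 1 := by rw [← T3]; ring
  have rσ : 1 ≤ r * σ := by
    have a1 : T ^ 2 ≤ 1 := by nlinarith
    have a2 : 0 < r * T := by positivity
    nlinarith
  have low := kE_low s0 (by linarith) rσ
  have hs : 0 < √(r * σ) := Real.sqrt_pos.2 (by linarith)
  have mk : Measurable fun g => ‖kF φ r σ g‖ ^ 2 := (R.measurable_kF σ).norm.pow_const 2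
  have conv : ∫ g, ‖kF φ r σ g‖ ^ 2 ∂ν = (∫⁻ g, ‖kF φ r σ g‖ₑ ^ 2 ∂ν).toReal := by
    rw [integral_eq_lintegral_of_nonneg_ae (.of_forall fun g => sq_nonneg _)
      mk.aestronglyMeasurable]
    simp only [ENNReal.ofReal_pow (norm_nonneg _), ofReal_norm]
  have s4 : π⁻¹ * (σ ^ 2 / (8 * √(r * σ))) ≤ ∫ g, ‖kF φ r σ g‖ ^ 2 ∂ν := by
    rw [conv, ← Zm, ← ENNReal.ofReal_le_iff_le_toReal (R.Zm_ne_top σ), R.Zm_eq σ 1,
      ENNReal.ofReal_mul (by positivity)]
    gcongr
  have hZ : 0 < ∫ g, ‖kF φ r σ g‖ ^ 2 ∂ν := lt_of_lt_of_le (by positivity) s4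
  have s5 : T ^ 3 ≤ 16 * ∫ g, ‖kF φ r σ g‖ ^ 2 ∂ν := by
    have a1 : √(r * σ) * T ≤ 2 := by
      refine le_of_pow_le_pow_left₀ (n := 2) (by norm_num) (by norm_num) ?_
      rw [mul_pow, Real.sq_sqrt (by linarith)]
      have : r * σ ≤ r * (4 * T) := by gcongr
      nlinarith [sq_nonneg T]
    rw [inv_mul_le_iff₀ Real.pi_pos, div_le_iff₀ (by positivity)] at s4
    generalize ∫ g, ‖kF φ r σ g‖ ^ 2 ∂ν = Z at *
    have a2 : (2 * T) ^ 2 ≤ σ ^ 2 := by gcongr
    have a3 : π * Z * (8 * √(r * σ)) ≤ 4 * Z * (8 * √(r * σ)) := by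
      gcongr; exact Real.pi_le_four
    have a4 := mul_le_mul_of_nonneg_right (a2.trans (s4.trans a3)) T0.le
    have a5 := mul_le_mul_of_nonneg_left a1 hZ.le
    linarith
  have iK : Integrable (fun g => ‖kF φ r σ g‖ ^ 2) ν :=
    Integrable.of_bound mk.aestronglyMeasurable (K ^ 2) (.of_forall fun g => by
      rw [norm_pow, norm_norm]; exact pow_le_pow_left₀ (norm_nonneg _) (hK g) 2)
  have iL := anc_iW R T (c := fun _ => 1) measurable_const (A := 1) (by simp)
  obtain ⟨iE, vE⟩ := anc_fub R T0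
  have s6 : ∫ g, ‖kF φ r σ g‖ ^ 2 ∂ν ≤ ∫ g, (8 * ‖ancW φ r T (fun _ => 1) g‖ ^ 2 +
      72 * T ^ 3 * ∫ t in (0 : ℝ)..T, φ (bp (g * aG t)) ^ 2) ∂ν := by
    refine integral_mono iK ((iL.const_mul _).add (iE.const_mul _)) fun g => ?_
    have a1 := hd g
    rw [← anc_lift T0.le] at a1
    have a2 := norm_le_insert' (kF φ r σ g) (2 * ancW φ r T (fun _ => 1) g)
    rw [norm_mul, Complex.norm_two] at a2
    have a3 := pow_le_pow_left₀ (norm_nonneg _) a2 2
    simp only
    nlinarith [sq_nonneg (2 * ‖ancW φ r T (fun _ => 1) g‖ -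
      ‖kF φ r σ g - 2 * ancW φ r T (fun _ => 1) g‖)]
  rw [integral_add (iL.const_mul _) (iE.const_mul _), integral_const_mul, integral_const_mul,
    vE] at s6
  have a6 := mul_le_mul_of_nonneg_left T1 (show 0 ≤ T ^ 3 by positivity)
  linarith

theorem anc_rep {ε : ℝ} (hε : 0 < ε) : ∃ r₀ : ℝ, ∀ r ≥ r₀, ∀ (Λ : Set SL2) (ν : Measure SL2)
    (φ : ℍ → ℝ), Rep Λ ν φ r → ∀ a : ℍ → ℝ, LipschitzWith 1 a → (∀ z, |a z| ≤ 1) →
      (∀ γ ∈ Λ, ∀ z : ℍ, a (γ • z) = a z) →
      |(∫ g, a (bp g) * ‖lift φ r g‖ ^ 2 ∂ν) / (∫ g, ‖lift φ r g‖ ^ 2 ∂ν)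
        - ∫ g, a (bp g) * φ (bp g) ^ 2 ∂ν| ≤ ε := by
  obtain ⟨u, u0, u1, u2⟩ : ∃ u : ℝ, 0 < u ∧ u ≤ 1 / 2304 ∧ u ≤ ε ^ 2 / 256 :=
    ⟨min (1 / 2304) (ε ^ 2 / 256), by positivity, min_le_left _ _, min_le_right _ _⟩
  refine ⟨(u ^ 3)⁻¹, fun r hr Λ ν φ R a la ba ia => ?_⟩
  have u3 : 0 < u ^ 3 := by positivity
  have r0 : 0 < r := (inv_pos.2 u3).trans_le hr
  obtain ⟨T, hT⟩ : ∃ T, T = r ^ (-1 / 3 : ℝ) := ⟨_, rfl⟩
  have T0 : 0 < T := hT ▸ Real.rpow_pos_of_pos r0 _
  have T3 : r * T ^ 3 = 1 := by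
    rw [hT, ← Real.rpow_natCast, ← Real.rpow_mul r0.le]
    norm_num [Real.rpow_neg_one, r0.ne']
  have Tu : T ≤ u := by
    refine le_of_pow_le_pow_left₀ (n := 3) (by norm_num) u0.le ?_
    have a1 : 1 ≤ r * u ^ 3 := by
      have := mul_le_mul_of_nonneg_right hr u3.le
      rwa [inv_mul_cancel₀ u3.ne'] at this
    exact le_of_mul_le_mul_left (T3.le.trans a1) r0
  have eL : ∀ g, lift φ r g = ancW φ r T (fun _ => 1) g := fun g => by
    rw [anc_lift T0.le, lift, ← hT]
  simp only [eL]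
  have := R.fin
  obtain ⟨B, hB⟩ := R.bdd
  have ca := la.continuous
  have low := anc_low R T0 (Tu.trans u1) T3
  set M := ∫ g, a (bp g) * φ (bp g) ^ 2 ∂ν with hM
  have mb : Measurable fun g : SL2 => a (bp g) := ca.measurable.comp measurable_bp
  have m1 : Measurable fun p : SL2 × ℝ => a (bp p.1) - a (bp (p.1 * aG p.2)) :=
    (mb.comp measurable_fst).sub (anc_mp ca)
  have m0 : Measurable fun p : SL2 × ℝ => a (bp (p.1 * aG p.2)) - M := (anc_mp ca).sub_const M
  have b1 : ∀ p : SL2 × ℝ, |a (bp p.1) - a (bp (p.1 * aG p.2))| ≤ 1 + 1 := fun p =>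
    (abs_sub _ _).trans (add_le_add (ba _) (ba _))
  have b0 : ∀ p : SL2 × ℝ, |a (bp (p.1 * aG p.2)) - M| ≤ 1 + |M| := fun p =>
    (abs_sub _ _).trans (add_le_add (ba _) le_rfl)
  have bL : ∀ p : SL2 × ℝ, |(fun _ => (1 : ℝ)) p| ≤ 1 := by simp
  have z0 := anc_zero R T m0 b0 (anc_pair R ca ba ia)
  have iL := anc_iW R T measurable_const bL
  have ip : ∀ {c : SL2 × ℝ → ℝ} {A : ℝ}, Measurable c → (∀ p, |c p| ≤ A) →
      Integrable (fun g => ancW φ r T c g * conj (ancW φ r T (fun _ => 1) g)) ν :=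
    fun mc bc => Integrable.of_bound ((anc_mW R T mc).fun_mul
      (Complex.continuous_conj.measurable.comp
        (anc_mW R T measurable_const))).aestronglyMeasurable _ (.of_forall fun g => by
          rw [norm_mul, Complex.norm_conj]
          exact mul_le_mul (anc_bW bc hB g) (anc_bW bL hB g) (norm_nonneg _)
            ((norm_nonneg _).trans (anc_bW (r := r) bc hB g)))
  have iaL : Integrable (fun g => a (bp g) * ‖ancW φ r T (fun _ => 1) g‖ ^ 2) ν :=
    iL.bdd_mul mb.aestronglyMeasurable (c := 1) (.of_forall fun g => ba _)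
  obtain ⟨iE, vE⟩ := anc_fub R T0
  have s1 : (((∫ g, a (bp g) * ‖ancW φ r T (fun _ => 1) g‖ ^ 2 ∂ν) -
      M * ∫ g, ‖ancW φ r T (fun _ => 1) g‖ ^ 2 ∂ν : ℝ) : ℂ) =
      ∫ g, ancW φ r T (fun p => a (bp p.1) - a (bp (p.1 * aG p.2))) g *
        conj (ancW φ r T (fun _ => 1) g) ∂ν := by
    rw [← integral_const_mul, ← integral_sub iaL (iL.const_mul M), ← integral_complex_ofReal,
      ← add_zero (∫ g, ancW φ r T (fun p => a (bp p.1) - a (bp (p.1 * aG p.2))) g *
        conj (ancW φ r T (fun _ => 1) g) ∂ν), ← z0, ← integral_add (ip m1 b1) (ip m0 b0)]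
    refine integral_congr_ae (.of_forall fun g => ?_)
    simp only
    rw [← add_mul, ← anc_split R.cont ca M T g, mul_assoc, Complex.mul_conj']
    push_cast
    ring
  have s2 : |(∫ g, a (bp g) * ‖ancW φ r T (fun _ => 1) g‖ ^ 2 ∂ν) -
      M * ∫ g, ‖ancW φ r T (fun _ => 1) g‖ ^ 2 ∂ν| ≤
      ∫ g, (ε / 2 * ‖ancW φ r T (fun _ => 1) g‖ ^ 2 +
        T ^ 3 / (2 * ε) * ∫ t in (0 : ℝ)..T, φ (bp (g * aG t)) ^ 2) ∂ν := by
    rw [← Real.norm_eq_abs, ← Complex.norm_real, s1]
    refine norm_integral_le_of_norm_le ((iL.const_mul _).add (iE.const_mul _))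
      (.of_forall fun g => ?_)
    have a1 := anc_small (r := r) R.cont la T0 g
    rw [norm_mul, Complex.norm_conj]
    generalize ‖ancW φ r T (fun p => a (bp p.1) - a (bp (p.1 * aG p.2))) g‖ = x at a1 ⊢
    generalize ‖ancW φ r T (fun _ => 1) g‖ = y
    generalize ∫ t in (0 : ℝ)..T, φ (bp (g * aG t)) ^ 2 = e at a1 ⊢
    refine le_of_mul_le_mul_left ?_ (show 0 < 2 * ε by positivity)
    have a2 : 2 * ε * (ε / 2 * y ^ 2 + T ^ 3 / (2 * ε) * e) = ε ^ 2 * y ^ 2 + T ^ 3 * e := by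
      field_simp
    rw [a2]
    nlinarith [sq_nonneg (ε * y - x)]
  rw [integral_add (iL.const_mul _) (iE.const_mul _), integral_const_mul, integral_const_mul,
    vE] at s2
  generalize ∫ g, a (bp g) * ‖ancW φ r T (fun _ => 1) g‖ ^ 2 ∂ν = A at s2 ⊢
  generalize ∫ g, ‖ancW φ r T (fun _ => 1) g‖ ^ 2 ∂ν = N at s2 low ⊢
  have T3p : 0 < T ^ 3 := by positivity
  have hN : 0 < N := by linarith
  have s3 : T ^ 3 / (2 * ε) * T ≤ ε / 2 * N := by
    rw [div_mul_eq_mul_div, div_le_iff₀ (by positivity)]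
    have := mul_le_mul low (Tu.trans u2) T0.le (by positivity)
    linarith
  rw [div_sub' hN.ne', abs_div, abs_of_pos hN, div_le_iff₀ hN, mul_comm N M]
  linarith

end Pool.Agent.Lib.MP_a52643_an.SE
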