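import Pool.Agent.Lib.MP_a52643_an.SE.Defs
import Pool.Agent.Lib.MP_a52643_an.NS.Jump

/-!
Jumps from a short state of free length.
-/

open MeasureTheory Set Filter Topology Metric UpperHalfPlane
open scoped ENNReal MatrixGroups Real FourierTransform ComplexConjugate

noncomputable section

namespace Pool.Agent.Lib.MP_a52643_an.SE

open NS

private lemma j2_fin {a b e : ℝ} {M N : ℝ≥0∞} (hM : M ≤ ENNReal.ofReal a)
    (hN : ENNReal.ofReal b ≤ N) (he : 0 ≤ e) (h : a ≤ e * b) : M ≤ ENNReal.ofReal e * N :=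
  hM.trans ((ENNReal.ofReal_le_ofReal h).trans (by rw [ENNReal.ofReal_mul he]; gcongr))

private lemma j2_low {r σ v : ℝ} (h0 : 0 < σ) (h1 : σ ≤ 1) (hv : 0 < v) (hv1 : v ≤ 1)
    (hr : r * σ = π / v ^ 2) : ENNReal.ofReal (σ ^ 2 * v / 16) ≤ n2 (kE r σ 1) := by
  have hv2 : v ^ 2 ≤ 1 := pow_le_one₀ hv.le hv1
  have h3 : 1 ≤ r * σ := by
    rw [hr, le_div_iff₀ (by positivity)]; linarith [Real.pi_gt_three]
  refine le_trans (ENNReal.ofReal_le_ofReal ?_) (kE_low h0 h1 h3)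
  have hs : √(r * σ) ≤ 2 / v := by
    refine Real.sqrt_le_iff.2 ⟨by positivity, ?_⟩
    rw [hr, div_pow]
    gcongr
    linarith [Real.pi_le_four]
  have hp : 0 < √(r * σ) := Real.sqrt_pos.2 (by linarith)
  calc σ ^ 2 * v / 16 = σ ^ 2 / (8 * (2 / v)) := by field_simp; ring
    _ ≤ σ ^ 2 / (8 * √(r * σ)) := by gcongr

private lemma j2_ne {b : ℝ} {N : ℝ≥0∞} (hb : 0 < b) (hN : ENNReal.ofReal b ≤ N) : N ≠ 0 :=
  ((ENNReal.ofReal_pos.2 hb).trans_le hN).ne'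

/-- the last step of every estimate -/
private lemma j2_gain {u e c : ℝ} {k m : ℕ} (hu : 0 < u) (hu1 : u ≤ 1 / 10)
    (he : 10 ^ 7 * u ≤ e) (hc : c ≤ 100000) (hk : m + 1 ≤ k) :
    c * u ^ k ≤ e * (u ^ m / 16) := by
  have h1 : u ^ k ≤ u ^ (m + 1) := pow_le_pow_of_le_one hu.le (by linarith) hk
  have h2 : 0 < u ^ m := by positivity
  have h3 : 0 < u ^ k := by positivity
  calc c * u ^ k ≤ 100000 * u ^ (m + 1) := by gcongr
    _ = (1600000 * u) * (u ^ m / 16) := by ring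
    _ ≤ e * (u ^ m / 16) := by gcongr; linarith

private lemma j2_pi : π ^ 2 ≤ 16 := by nlinarith [Real.pi_le_four, Real.pi_pos]

private lemma j2_pi' : 1 ≤ π ^ 2 := by nlinarith [Real.pi_gt_three]

private lemma j2_r {u : ℝ} (hu : 0 < u) (hu1 : u ≤ 1 / 10) : 1 ≤ π / u ^ 100 := by
  rw [le_div_iff₀ (by positivity)]
  have : u ^ 100 ≤ 1 := pow_le_one₀ hu.le (by linarith)
  linarith [Real.pi_gt_three]

private lemma j2_low1 {u : ℝ} (hu : 0 < u) (hu1 : u ≤ 1 / 10) :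
    ENNReal.ofReal (u ^ 50 / 16) ≤ n2 (kE (π / u ^ 100) 1 1) := by
  have := j2_low (r := π / u ^ 100) (σ := 1) (v := u ^ 50) one_pos le_rfl (by positivity)
    (pow_le_one₀ hu.le (by linarith)) (by rw [mul_one, ← pow_mul])
  rwa [one_pow, one_mul] at this

/-- the tail term -/
private lemma j2_tt {u : ℝ} (hu : 0 < u) {a k : ℕ} (hk : k + 3 * a = 200) :
    100 / ((π / u ^ 100) ^ 2 * (u ^ a) ^ 3) ≤ 100 * u ^ k := by
  have e : u ^ 200 = u ^ k * (u ^ a) ^ 3 := by rw [← hk]; ring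
  have h1 : 100 / ((π / u ^ 100) ^ 2 * (u ^ a) ^ 3) = 100 * u ^ k / π ^ 2 := by
    rw [div_pow, ← pow_mul u 100 2, e]; field_simp
  rw [h1]
  exact div_le_self (by positivity) j2_pi'

/-- the shift term -/
private lemma j2_mv {u x : ℝ} (hu : 0 < u) (hu1 : u ≤ 1 / 10) {a b k : ℕ}
    (hk : k + 200 = 3 * a + 2 * b) (hb : k ≤ b) (hx : |x| ≤ u ^ b) :
    72 * (π / u ^ 100) ^ 2 * (u ^ a) ^ 3 * x ^ 2 + 2 * |x| ≤ 1154 * u ^ k := by
  have h1 : x ^ 2 ≤ (u ^ b) ^ 2 := by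
    rw [← sq_abs]; exact pow_le_pow_left₀ (abs_nonneg x) hx 2
  have h2 : u ^ b ≤ u ^ k := pow_le_pow_of_le_one hu.le (by linarith) hb
  have e : (u ^ a) ^ 3 * (u ^ b) ^ 2 = u ^ k * u ^ 200 := by
    rw [← pow_add, hk]; ring
  have h3 : 72 * (π / u ^ 100) ^ 2 * (u ^ a) ^ 3 * (u ^ b) ^ 2 = 72 * π ^ 2 * u ^ k := by
    rw [mul_assoc _ _ ((u ^ b) ^ 2), e, div_pow, ← pow_mul u 100 2]; field_simp
  have h4 : 0 < u ^ k := by positivity
  calc 72 * (π / u ^ 100) ^ 2 * (u ^ a) ^ 3 * x ^ 2 + 2 * |x|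
      ≤ 72 * (π / u ^ 100) ^ 2 * (u ^ a) ^ 3 * (u ^ b) ^ 2 + 2 * u ^ k := by
        gcongr; exact hx.trans h2
    _ ≤ 72 * 16 * u ^ k + 2 * u ^ k := by rw [h3]; gcongr; exact j2_pi
    _ = 1154 * u ^ k := by ring

/-- the phase term -/
private lemma j2_ph {u s : ℝ} (hu : 0 < u) (hu1 : u ≤ 1 / 10) {a b k : ℕ}
    (hk : k + 100 = 2 * a + 2 * b) (hb : b ≤ a) (hk' : k ≤ a + b) (hs : |s| ≤ u ^ b) :
    (π / u ^ 100 * s ^ 2 * (u ^ a) ^ 2 + π / u ^ 100 * |s| * (u ^ a) ^ 3 + |s| * u ^ a) ^ 2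
      ≤ 81 * u ^ (2 * k) := by
  have hu' : u ≤ 1 := by linarith
  have h1 : s ^ 2 ≤ (u ^ b) ^ 2 := by
    rw [← sq_abs]; exact pow_le_pow_left₀ (abs_nonneg s) hs 2
  have e : (u ^ b) ^ 2 * (u ^ a) ^ 2 = u ^ k * u ^ 100 := by
    rw [← pow_add, hk]; ring
  have h2 : π / u ^ 100 * (u ^ b) ^ 2 * (u ^ a) ^ 2 = π * u ^ k := by
    rw [mul_assoc, e]; field_simp
  have h3 : u ^ a ≤ u ^ b := pow_le_pow_of_le_one hu.le hu' hb
  have h4 : 0 < u ^ k := by positivity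
  have hp := Real.pi_pos
  have t1 : π / u ^ 100 * s ^ 2 * (u ^ a) ^ 2 ≤ 4 * u ^ k := by
    calc _ ≤ π / u ^ 100 * (u ^ b) ^ 2 * (u ^ a) ^ 2 := by gcongr
      _ ≤ 4 * u ^ k := by rw [h2]; gcongr; exact Real.pi_le_four
  have t2 : π / u ^ 100 * |s| * (u ^ a) ^ 3 ≤ 4 * u ^ k := by
    calc _ = π / u ^ 100 * (|s| * u ^ a) * (u ^ a) ^ 2 := by ring
      _ ≤ π / u ^ 100 * (u ^ b * u ^ b) * (u ^ a) ^ 2 := by gcongr
      _ ≤ 4 * u ^ k := by rw [← sq, h2]; gcongr; exact Real.pi_le_four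
  have t3 : |s| * u ^ a ≤ u ^ k := by
    calc _ ≤ u ^ b * u ^ a := by gcongr
      _ = u ^ (a + b) := by ring
      _ ≤ u ^ k := pow_le_pow_of_le_one hu.le hu' hk'
  calc _ ≤ (9 * u ^ k) ^ 2 := pow_le_pow_left₀ (by positivity) (by linarith) 2
    _ = 81 * u ^ (2 * k) := by ring

private lemma j2_tail {u e T X' : ℝ} (hu : 0 < u) (hu1 : u ≤ 1 / 10) (he : 10 ^ 7 * u ≤ e)
    (hX : Real.exp T * X' = u ^ 49) :
    n2 (cut X' (kE (π / u ^ 100) 1 (aG T)) - kE (π / u ^ 100) 1 (aG T))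
      ≤ ENNReal.ofReal e * n2 (kE (π / u ^ 100) 1 (aG T)) := by
  rw [tail_scale, n2_scale, hX]
  have := kE_tail (r := π / u ^ 100) (σ := 1) (X := u ^ 49) (s := 0)
    (by linarith [j2_r hu hu1]) zero_le_one le_rfl (by positivity)
    (pow_le_one₀ hu.le (by linarith)) (by simp)
  rw [vG_zero] at this
  exact j2_fin this (j2_low1 hu hu1) (by linarith)
    ((j2_tt hu (k := 53) rfl).trans (j2_gain hu hu1 he (by norm_num) (by norm_num)))

private lemma j2_freq {u e T X' Ξ : ℝ} (hu : 0 < u) (hu1 : u ≤ 1 / 10) (he : 10 ^ 7 * u ≤ e)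
    (hX : Real.exp T * X' = u ^ 49) (h0 : 0 < Ξ) (hΞ : Real.exp T = u ^ 52 * Ξ) :
    ∫⁻ ξ in {ξ | Ξ < |ξ|}, ‖𝓕 (cut X' (kE (π / u ^ 100) 1 (aG T))) ξ‖ₑ ^ 2
      ≤ ENNReal.ofReal e * n2 (kE (π / u ^ 100) 1 (aG T)) := by
  have hn : Nice (cut X' (kE (π / u ^ 100) 1 (aG T))) := by
    refine nice_cut X' (measurable_kE _ _ _)
      (B := ‖Complex.exp ((1 / 2 + ((π / u ^ 100 : ℝ) : ℂ) * Complex.I) * T)‖ * 1) fun y => ?_
    rw [kE_aG, norm_mul]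
    gcongr
    exact norm_kE_one _ zero_le_one _
  have := hn.freq (h := 1 / Ξ) (by positivity)
    (M := ENNReal.ofReal e * n2 (kE (π / u ^ 100) 1 (aG T))) fun x hx => by
      rw [move_scale, n2_scale, hX]
      refine j2_fin (kE_move (j2_r hu hu1) zero_le_one le_rfl (by positivity) _)
        (j2_low1 hu hu1) (by linarith) ?_
      rw [one_pow, one_mul]
      refine (j2_mv hu hu1 (a := 49) (b := 52) (k := 51) rfl (by norm_num) ?_).trans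
        (j2_gain hu hu1 he (by norm_num) (by norm_num))
      rw [abs_mul, abs_of_pos (Real.exp_pos T), hΞ]
      calc u ^ 52 * Ξ * |x| ≤ u ^ 52 * Ξ * (1 / Ξ) := by gcongr
        _ = u ^ 52 := by field_simp
  rwa [one_div_one_div] at this

/-- the modulation estimate for a frequency `ξ` -/
private lemma j2_modu {u σ ξ : ℝ} (hu : 0 < u) (hu1 : u ≤ 1 / 10) (h0 : 0 ≤ σ) (h1 : σ ≤ 1)
    {a b k m : ℕ} (hk : k + 100 = 2 * a + 2 * b) (hb : b ≤ a) (hk' : k ≤ a + b) (ha : 1 ≤ a)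
    (hm : m + 3 * a = 200) (hξ : |ξ| * u ^ 100 ≤ u ^ b) :
    n2 (fun y => kE (π / u ^ 100) σ (vG (-(ξ / (π / u ^ 100 / π)))) y
      - ee (y * ξ) * cut (u ^ a) (kE (π / u ^ 100) σ 1) y)
      ≤ ENNReal.ofReal (64800 * (σ ^ 2 * u ^ (a + 2 * k)) + 100 * u ^ m) := by
  have hu' : u ≤ 1 := by linarith
  have hp := Real.pi_pos
  have hs : |ξ / (π / u ^ 100 / π)| ≤ u ^ b := by
    rw [show ξ / (π / u ^ 100 / π) = ξ * u ^ 100 by field_simp, abs_mul,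
      abs_of_pos (a := u ^ 100) (by positivity)]
    exact hξ
  have hsX : |ξ / (π / u ^ 100 / π)| * u ^ a ≤ 1 / 10 := by
    have h2 : u ^ a ≤ u ^ 1 := pow_le_pow_of_le_one hu.le hu' ha
    calc _ ≤ 1 * u ^ 1 := by gcongr; exact hs.trans (pow_le_one₀ hu.le hu')
      _ ≤ 1 / 10 := by linarith [pow_one u]
  have := kE_modu (r := π / u ^ 100) (X := u ^ a) (s := ξ / (π / u ^ 100 / π)) (by positivity)
    h0 h1 (by positivity) (pow_le_one₀ hu.le hu') hsX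
  rw [div_mul_cancel₀ ξ (by positivity)] at this
  refine this.trans (ENNReal.ofReal_le_ofReal (add_le_add ?_ (j2_tt hu hm)))
  calc _ ≤ 800 * σ ^ 2 * u ^ a * (81 * u ^ (2 * k)) := by
        gcongr; exact j2_ph hu hu1 hk hb hk' hs
    _ = _ := by ring

private lemma j2_exp (h : ℝ) (k : ℕ) : Real.exp (-h) ^ k = Real.exp (-k * h) := by
  rw [← Real.exp_nat_mul]; congr 1; ring

/-- the small parameter -/
private lemma j2_small {e : ℝ} (he : 0 < e) : ∃ h₀ : ℝ, ∀ h ≥ h₀,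
    0 ≤ h ∧ Real.exp (-h) ≤ 1 / 10 ∧ 10 ^ 7 * Real.exp (-h) ≤ e := by
  refine ⟨max 10 (10 ^ 7 / e), fun h hh => ?_⟩
  have h1 : 10 ≤ h := (le_max_left _ _).trans hh
  have h2 : 10 ^ 7 / e ≤ h := (le_max_right _ _).trans hh
  have h3 : h ≤ Real.exp h := by linarith [Real.add_one_le_exp h]
  have h4 := Real.exp_pos h
  rw [div_le_iff₀ he] at h2
  refine ⟨by linarith, ?_, ?_⟩
  · rw [Real.exp_neg, ← one_div]; gcongr; linarith
  · rw [Real.exp_neg, ← div_eq_mul_inv, div_le_iff₀ h4]; nlinarith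

private lemma j2_eqs (h T : ℝ) : π * Real.exp (100 * h) = π / Real.exp (-h) ^ 100 ∧
    Real.exp T * Real.exp (-49 * h - T) = Real.exp (-h) ^ 49 ∧
    Real.exp T = Real.exp (-h) ^ 52 * Real.exp (52 * h + T) := by
  simp only [j2_exp]
  refine ⟨?_, ?_, ?_⟩
  · rw [div_eq_mul_inv, ← Real.exp_neg]; congr 2; push_cast; ring
  · rw [← Real.exp_add]; congr 1; push_cast; ring
  · rw [← Real.exp_add]; congr 1; push_cast; ring

private lemma j2_x {h T x : ℝ} {b : ℕ} (hT : -49 * h - T ≤ -b * h)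
    (hx : |x| ≤ Real.exp (-49 * h - T)) : |x| ≤ Real.exp (-h) ^ b := by
  rw [j2_exp]; exact hx.trans (Real.exp_le_exp.2 hT)

private lemma j2_xi {h T ξ : ℝ} {b : ℕ} (hT : T - 48 * h ≤ -b * h)
    (hx : |ξ| ≤ Real.exp (52 * h + T)) : |ξ| * Real.exp (-h) ^ 100 ≤ Real.exp (-h) ^ b := by
  calc _ ≤ Real.exp (52 * h + T) * Real.exp (-h) ^ 100 := by gcongr
    _ ≤ _ := by
      rw [j2_exp, j2_exp, ← Real.exp_add]
      exact Real.exp_le_exp.2 (by push_cast; linarith)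

private lemma j2_low3 {u σ : ℝ} (hu : 0 < u) (hu1 : u ≤ 1 / 10) (h1 : u ^ 34 ≤ σ)
    (h2 : σ ≤ u ^ 33) : ENNReal.ofReal (σ ^ 2 * (u ^ 34 / 16)) ≤ n2 (kE (π / u ^ 100) σ 1) := by
  have hu' : u ≤ 1 := by linarith
  have h0 : 0 < σ := lt_of_lt_of_le (by positivity) h1
  have hσ : σ ≤ 1 := h2.trans (pow_le_one₀ hu.le hu')
  have hp := Real.pi_pos
  have h3 : 1 ≤ π / u ^ 100 * σ := by
    rw [div_mul_eq_mul_div, le_div_iff₀ (by positivity), one_mul]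
    have h4 : u ^ 100 ≤ u ^ 34 := pow_le_pow_of_le_one hu.le hu' (by norm_num)
    nlinarith [Real.pi_gt_three]
  refine le_trans (ENNReal.ofReal_le_ofReal ?_) (kE_low h0 hσ h3)
  have hs : √(π / u ^ 100 * σ) ≤ 2 / u ^ 34 := by
    refine Real.sqrt_le_iff.2 ⟨by positivity, ?_⟩
    have h4 : u ^ 33 ≤ u ^ 32 := pow_le_pow_of_le_one hu.le hu' (by norm_num)
    calc π / u ^ 100 * σ ≤ 4 / u ^ 100 * u ^ 32 := by
          gcongr
          · exact Real.pi_le_four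
          · exact h2.trans h4
      _ = (2 / u ^ 34) ^ 2 := by field_simp; norm_num
  have hq : 0 < √(π / u ^ 100 * σ) := Real.sqrt_pos.2 (by linarith)
  calc σ ^ 2 * (u ^ 34 / 16) = σ ^ 2 / (8 * (2 / u ^ 34)) := by field_simp; ring
    _ ≤ σ ^ 2 / (8 * √(π / u ^ 100 * σ)) := by gcongr

theorem jump_free {θ : ℝ} (hθ : 0 < θ) : ∃ h₀ : ℝ, ∀ h ≥ h₀, ∀ σ T, Real.exp (-34 * h) ≤ σ →
    σ ≤ Real.exp (-33 * h) → 22 * h ≤ T → T ≤ 23 * h →
    Jump (π * Real.exp (100 * h)) σ T (Real.exp (-31 * h)) (Real.exp (-49 * h - T))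
      (Real.exp (52 * h + T)) (θ ^ 2) := by
  obtain ⟨h₀, H⟩ := j2_small (e := θ ^ 2) (by positivity)
  refine ⟨h₀, fun h hh σ T hσ1 hσ2 hT1 hT2 => ?_⟩
  obtain ⟨-, hu1, he⟩ := H h hh
  obtain ⟨e1, e2, e3⟩ := j2_eqs h T
  have e4 : Real.exp (-31 * h) = Real.exp (-h) ^ 31 := by rw [j2_exp]; norm_num
  have e5 : Real.exp (-34 * h) = Real.exp (-h) ^ 34 := by rw [j2_exp]; norm_num
  have e6 : Real.exp (-33 * h) = Real.exp (-h) ^ 33 := by rw [j2_exp]; norm_num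
  have hx := fun x => @j2_x h T x 71 (by push_cast; linarith)
  have hξ := fun ξ => @j2_xi h T ξ 25 (by push_cast; linarith)
  have hu := Real.exp_pos (-h)
  rw [e5] at hσ1
  rw [e6] at hσ2
  rw [e1, e4]
  generalize Real.exp (-h) = u at *
  have hu' : u ≤ 1 := by linarith
  have h0 : 0 < σ := lt_of_lt_of_le (by positivity) hσ1
  have hσ : σ ≤ 1 := hσ2.trans (pow_le_one₀ hu.le hu')
  have hl := j2_low3 hu hu1 hσ1 hσ2
  refine ⟨h0, hσ, j2_ne (by positivity) hl,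
    j2_ne (by positivity) (j2_low1 hu hu1), j2_tail hu hu1 he e2, fun x h1 => ?_,
    j2_freq hu hu1 he e2 (Real.exp_pos _) e3, fun ξ h1 => ?_⟩
  · refine j2_fin (kE_move (j2_r hu hu1) h0.le hσ (by positivity) _) hl (by positivity) ?_
    have h2 := j2_mv hu hu1 (a := 31) (b := 71) (k := 35) rfl (by norm_num) (hx x h1)
    have h3 := j2_gain (c := 1154) (k := 35) (m := 34) hu hu1 he (by norm_num) (by norm_num)
    calc _ ≤ σ ^ 2 * (θ ^ 2 * (u ^ 34 / 16)) := by gcongr; exact h2.trans h3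
      _ = _ := by ring
  · refine j2_fin (j2_modu hu hu1 h0.le hσ (a := 31) (b := 25) (k := 12) (m := 107)
      rfl (by norm_num) (by norm_num) (by norm_num) rfl (hξ ξ h1)) hl (by positivity) ?_
    have h2 : u ^ 55 ≤ u ^ 39 := pow_le_pow_of_le_one hu.le hu' (by norm_num)
    have h3 := j2_gain (c := 64900) (k := 39) (m := 34) hu hu1 he (by norm_num) (by norm_num)
    have h4 : (u ^ 34) ^ 2 ≤ σ ^ 2 := by gcongr
    calc _ = 64800 * (σ ^ 2 * u ^ 55) + 100 * ((u ^ 34) ^ 2 * u ^ 39) := by ring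
      _ ≤ 64800 * (σ ^ 2 * u ^ 39) + 100 * (σ ^ 2 * u ^ 39) := by gcongr
      _ = σ ^ 2 * (64900 * u ^ 39) := by ring
      _ ≤ σ ^ 2 * (θ ^ 2 * (u ^ 34 / 16)) := by gcongr
      _ = _ := by ring

end Pool.Agent.Lib.MP_a52643_an.SE
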