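import Pool.Agent.Lib.MP_a52643_an.SE.Defs
import Pool.Agent.Lib.MP_a52643_an.NS.Main

/-!
Comparison of the plain lift with the weighted one.
-/

open MeasureTheory Set Filter Topology Metric UpperHalfPlane
open scoped ENNReal MatrixGroups Real FourierTransform ComplexConjugate

noncomputable section

namespace Pool.Agent.Lib.MP_a52643_an.SE

open NS

/-- the plain lift -/
def lift (φ : ℍ → ℝ) (r : ℝ) (g : SL2) : ℂ := ∫ t in (0 : ℝ)..r ^ (-1 / 3 : ℝ),
  Complex.exp (-(r * t) * Complex.I) * φ (bp (g * aG t))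

private lemma lift_cont {φ : ℍ → ℝ} (hφ : Continuous φ) (g : SL2) :
    Continuous fun t : ℝ => φ (bp (g * aG t)) := by
  simp only [bp_mul, bp_aG]
  exact hφ.comp ((continuous_pt.comp (continuous_const.prodMk continuous_neg)).const_smul g)

private lemma lift_sub {φ : ℍ → ℝ} (hφ : Continuous φ) (r : ℝ) {T : ℝ} (hT : 0 ≤ T) (g : SL2) :
    kF φ r (Real.exp (2 * T) - 1) g = ∫ t in (0 : ℝ)..T, ((2 * Real.exp (3 / 2 * t) : ℝ) : ℂ) *
      (Complex.exp (-(r * t) * Complex.I) * φ (bp (g * aG t))) := by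
  have h1 : (1 : ℝ) ≤ Real.exp (2 * T) := Real.one_le_exp (by linarith)
  have hc : ContinuousOn (fun v : ℝ => wt r v * (φ (bp (g * aG (Real.log v / 2))) : ℂ))
      ((fun t : ℝ => Real.exp (2 * t)) '' uIcc 0 T) := by
    have hl : ContinuousOn (fun v : ℝ => Real.log v / 2)
        ((fun t : ℝ => Real.exp (2 * t)) '' uIcc 0 T) :=
      (Real.continuousOn_log.mono (by
        rintro _ ⟨t, -, rfl⟩; exact (Real.exp_pos _).ne')).div_const 2
    have hw : Continuous fun s : ℝ => Complex.exp (-(1 / 2 + r * Complex.I) * (s : ℝ)) *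
        (φ (bp (g * aG s)) : ℂ) :=
      Continuous.mul (by fun_prop) (Complex.continuous_ofReal.comp (lift_cont hφ g))
    exact hw.comp_continuousOn hl
  have h2 := intervalIntegral.integral_deriv_smul_comp' (a := 0) (b := T)
    (f := fun t : ℝ => Real.exp (2 * t)) (f' := fun t : ℝ => Real.exp (2 * t) * 2)
    (fun t _ => by simpa using ((hasDerivAt_id t).const_mul 2).exp) (by fun_prop) hc
  rw [kF, add_sub_cancel, ← intervalIntegral.integral_of_le h1]
  simp only [mul_zero, Real.exp_zero] at h2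
  rw [← h2]
  refine intervalIntegral.integral_congr fun t _ => ?_
  have e : Real.log (Real.exp (2 * t)) / 2 = t := by rw [Real.log_exp]; ring
  simp only [Function.comp, wt, e, Complex.real_smul]
  have e2 : (Real.exp (2 * t) : ℂ) * Complex.exp (-(1 / 2 + r * Complex.I) * t) =
      Real.exp (3 / 2 * t) * Complex.exp (-(r * t) * Complex.I) := by
    push_cast
    rw [← Complex.exp_add, ← Complex.exp_add]
    congr 1
    ring
  push_cast [-Complex.ofReal_exp]
  linear_combination (2 * (φ (bp (g * aG t)) : ℂ)) * e2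

private lemma lift_cs {f : ℝ → ℝ} (hf : Continuous f) {T : ℝ} (hT : 0 < T) :
    (∫ t in (0 : ℝ)..T, |f t|) ^ 2 ≤ T * ∫ t in (0 : ℝ)..T, f t ^ 2 := by
  set a := ∫ t in (0 : ℝ)..T, |f t| with ha
  have i1 := hf.abs.intervalIntegrable (μ := volume) 0 T
  have i2 := (hf.fun_pow 2).intervalIntegrable (μ := volume) 0 T
  have h : ∫ t in (0 : ℝ)..T, 2 * (a * T) * |f t| ≤ ∫ t in (0 : ℝ)..T, (T ^ 2 * f t ^ 2 + a ^ 2) :=
    intervalIntegral.integral_mono_on hT.le (i1.const_mul _)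
      ((i2.const_mul _).add intervalIntegrable_const) fun t _ => by
        nlinarith [sq_nonneg (T * |f t| - a), sq_abs (f t)]
  rw [intervalIntegral.integral_add (i2.const_mul _) intervalIntegrable_const,
    intervalIntegral.integral_const_mul, intervalIntegral.integral_const_mul,
    intervalIntegral.integral_const, ← ha, sub_zero, smul_eq_mul] at h
  refine le_of_mul_le_mul_left ?_ hT
  nlinarith

private lemma lift_diff {φ : ℍ → ℝ} (hφ : Continuous φ) (r : ℝ) {T : ℝ} (hT : 0 < T)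
    (hT' : T ≤ 1 / 2) (g : SL2) :
    ‖kF φ r (Real.exp (2 * T) - 1) g - 2 * ∫ t in (0 : ℝ)..T,
      Complex.exp (-(r * t) * Complex.I) * φ (bp (g * aG t))‖ ^ 2 ≤
      36 * T ^ 3 * ∫ t in (0 : ℝ)..T, φ (bp (g * aG t)) ^ 2 := by
  have hc := lift_cont hφ g
  have c1 : Continuous fun t : ℝ => Complex.exp (-(r * t) * Complex.I) * φ (bp (g * aG t)) :=
    Continuous.mul (by fun_prop) (Complex.continuous_ofReal.comp hc)
  have c2 : Continuous fun t : ℝ => ((2 * Real.exp (3 / 2 * t) : ℝ) : ℂ) := by fun_prop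
  rw [lift_sub hφ r hT.le, ← intervalIntegral.integral_const_mul,
    ← intervalIntegral.integral_sub ((c2.fun_mul c1).intervalIntegrable _ _)
      ((c1.const_mul 2).intervalIntegrable _ _)]
  have h1 := intervalIntegral.norm_integral_le_of_norm_le (μ := volume) hT.le
    (f := fun t : ℝ => ((2 * Real.exp (3 / 2 * t) : ℝ) : ℂ) *
      (Complex.exp (-(r * t) * Complex.I) * φ (bp (g * aG t))) -
        2 * (Complex.exp (-(r * t) * Complex.I) * φ (bp (g * aG t))))
    (g := fun t => 6 * T * |φ (bp (g * aG t))|) (.of_forall fun t ht => by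
      have e1 : ‖Complex.exp (-(r * t) * Complex.I)‖ = 1 := by
        have := Complex.norm_exp_ofReal_mul_I (-(r * t))
        push_cast at this
        exact this
      have e2 : ((2 * Real.exp (3 / 2 * t) : ℝ) : ℂ) - 2 =
          ((2 * (Real.exp (3 / 2 * t) - 1) : ℝ) : ℂ) := by push_cast; ring
      have h0 : |3 / 2 * t| = 3 / 2 * t := abs_of_nonneg (by linarith [ht.1])
      have e3 := Real.abs_exp_sub_one_le (x := 3 / 2 * t) (by rw [h0]; linarith [ht.2])
      rw [← sub_mul, e2, norm_mul, norm_mul, e1, one_mul, Complex.norm_real, Complex.norm_real,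
        Real.norm_eq_abs, Real.norm_eq_abs, abs_mul, abs_two]
      refine mul_le_mul_of_nonneg_right ?_ (abs_nonneg _)
      rw [h0] at e3
      linarith [ht.2]) ((hc.abs.const_mul _).intervalIntegrable _ _)
  refine (pow_le_pow_left₀ (norm_nonneg _) h1 2).trans ?_
  rw [intervalIntegral.integral_const_mul, mul_pow]
  have := mul_le_mul_of_nonneg_left (lift_cs hc hT) (sq_nonneg (6 * T))
  linarith

private lemma lift_fub {Λ : Set SL2} {ν : Measure SL2} {φ : ℍ → ℝ} {r : ℝ} (R : Rep Λ ν φ r)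
    {T : ℝ} (hT : 0 < T) :
    Integrable (fun g => ∫ t in (0 : ℝ)..T, φ (bp (g * aG t)) ^ 2) ν ∧
      ∫ g, (∫ t in (0 : ℝ)..T, φ (bp (g * aG t)) ^ 2) ∂ν = T := by
  have := R.fin
  obtain ⟨B, hB⟩ := R.bdd
  have mq : Measurable fun g : SL2 => φ (bp g) ^ 2 :=
    (R.cont.measurable.comp measurable_bp).pow_const 2
  have hi : Integrable (fun p : SL2 × ℝ => φ (bp (p.1 * aG p.2)) ^ 2)
      (ν.prod (volume.restrict (Ioc 0 T))) :=
    Integrable.of_bound (mq.comp (measurable_fst.mul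
      (measurable_aG.comp measurable_snd))).aestronglyMeasurable (B ^ 2) (.of_forall fun p => by
        rw [Real.norm_eq_abs, abs_pow]; exact pow_le_pow_left₀ (abs_nonneg _) (hB _) 2)
  simp only [intervalIntegral.integral_of_le hT.le]
  refine ⟨hi.integral_prod_left, ?_⟩
  rw [integral_integral_swap hi]
  have h1 : ∀ t : ℝ, ∫ g, φ (bp (g * aG t)) ^ 2 ∂ν = 1 := fun t => by
    have h2 := R.right (fun g => ENNReal.ofReal (φ (bp g) ^ 2)) mq.ennreal_ofReal
      (fun γ hγ g => by rw [bp_mul, R.inv γ hγ]) (aG t)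
    rw [← R.one, integral_eq_lintegral_of_nonneg_ae (.of_forall fun g => sq_nonneg _)
      (mq.comp (measurable_mul_const _)).aestronglyMeasurable,
      integral_eq_lintegral_of_nonneg_ae (.of_forall fun g => sq_nonneg _)
      mq.aestronglyMeasurable, h2]
  simp [h1, hT.le]

private lemma lift_sq (a b : ℂ) {θ : ℝ} (hθ : 0 < θ) (h1 : θ ≤ 1) :
    ‖a‖ ^ 2 ≤ (1 + θ) * ‖b‖ ^ 2 + 2 / θ * ‖a - b‖ ^ 2 := by
  have h0 : ‖a‖ ≤ ‖b‖ + ‖a - b‖ := norm_le_insert' a b
  have h2 := pow_le_pow_left₀ (norm_nonneg a) h0 2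
  refine h2.trans (le_of_mul_le_mul_left ?_ hθ)
  have e : θ * ((1 + θ) * ‖b‖ ^ 2 + 2 / θ * ‖a - b‖ ^ 2) =
      θ * ((1 + θ) * ‖b‖ ^ 2) + 2 * ‖a - b‖ ^ 2 := by field_simp
  rw [e]
  nlinarith [sq_nonneg (θ * ‖b‖ - ‖a - b‖), mul_nonneg (sub_nonneg.2 h1) (sq_nonneg ‖a - b‖)]

private lemma lift_abs {ν : Measure SL2} {K L : SL2 → ℂ} {E F : SL2 → ℝ} {U : Set SL2}
    {θ p : ℝ} (hθ : 0 < θ) (h1 : θ ≤ 1 / 2) (iK : Integrable (fun g => ‖K g‖ ^ 2) ν)
    (iL : Integrable (fun g => ‖L g‖ ^ 2) ν) (iE : Integrable E ν)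
    (hE : ∀ g, ‖K g - 2 * L g‖ ^ 2 ≤ E g) (mU : MeasurableSet U) (F0 : ∀ g, 0 ≤ F g)
    (F1 : ∀ g, F g ≤ 1) (FU : ∀ g, g ∉ U → F g = 0) (hZ : 0 < ∫ g, ‖K g‖ ^ 2 ∂ν)
    (hD : 2 / θ * ∫ g, E g ∂ν ≤ θ * ∫ g, ‖K g‖ ^ 2 ∂ν) (p0 : 0 ≤ p) (p1 : p ≤ 1)
    (hp : ∫ g in U, ‖K g‖ ^ 2 ∂ν = (∫ g, ‖K g‖ ^ 2 ∂ν) * p) :
    (∫ g, F g * ‖L g‖ ^ 2 ∂ν) / ∫ g, ‖L g‖ ^ 2 ∂ν ≤ p + 10 * θ := by
  have n2L : ∀ g, ‖2 * L g‖ ^ 2 = 4 * ‖L g‖ ^ 2 := fun g => by
    rw [norm_mul, Complex.norm_two]; ring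
  have t0 : 0 ≤ 2 / θ := by positivity
  have E0 : ∀ g, 0 ≤ 2 / θ * E g := fun g => mul_nonneg t0 ((sq_nonneg _).trans (hE g))
  have s1 : ∫ g, 4 * (F g * ‖L g‖ ^ 2) ∂ν ≤
      ∫ g, ((1 + θ) * U.indicator (fun g => ‖K g‖ ^ 2) g + 2 / θ * E g) ∂ν := by
    refine integral_mono_of_nonneg (.of_forall fun g => by
      have := F0 g; positivity) (((iK.indicator mU).const_mul _).add (iE.const_mul _))
      (.of_forall fun g => ?_)
    by_cases hg : g ∈ U
    · have a1 := lift_sq (2 * L g) (K g) hθ (by linarith)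
      rw [n2L, norm_sub_rev] at a1
      have a2 := mul_le_mul_of_nonneg_left (hE g) t0
      have a3 := mul_le_of_le_one_left (sq_nonneg ‖L g‖) (F1 g)
      simp only [indicator_of_mem hg]
      linarith
    · simp only [indicator_of_notMem hg, FU g hg, zero_mul, mul_zero, zero_add]
      exact E0 g
  have s2 : ∫ g, ‖K g‖ ^ 2 ∂ν ≤ ∫ g, ((1 + θ) * (4 * ‖L g‖ ^ 2) + 2 / θ * E g) ∂ν := by
    refine integral_mono iK (((iL.const_mul _).const_mul _).add (iE.const_mul _)) fun g => ?_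
    have a1 := lift_sq (K g) (2 * L g) hθ (by linarith)
    rw [n2L] at a1
    have a2 := mul_le_mul_of_nonneg_left (hE g) t0
    simp only
    linarith
  rw [integral_add ((iK.indicator mU).const_mul _) (iE.const_mul _), integral_const_mul,
    integral_const_mul, integral_const_mul, integral_indicator mU, hp] at s1
  rw [integral_add ((iL.const_mul _).const_mul _) (iE.const_mul _), integral_const_mul,
    integral_const_mul, integral_const_mul] at s2
  generalize ∫ g, ‖K g‖ ^ 2 ∂ν = Z at *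
  generalize ∫ g, F g * ‖L g‖ ^ 2 ∂ν = A at *
  generalize ∫ g, ‖L g‖ ^ 2 ∂ν = N at *
  have b1 : 4 * A ≤ ((1 + θ) * p + θ) * Z := by linarith
  have b2 : (1 - θ) * Z ≤ (1 + θ) * (4 * N) := by linarith
  have hN : 0 < N := by
    by_contra hn
    have : (1 + θ) * (4 * N) ≤ 0 := mul_nonpos_of_nonneg_of_nonpos (by linarith) (by linarith)
    nlinarith
  rw [div_le_iff₀ hN]
  have b3 : (1 + θ) * ((1 + θ) * p + θ) ≤ (p + 10 * θ) * (1 - θ) := by
    have c1 : θ * p ≤ θ := mul_le_of_le_one_right hθ.le p1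
    have c2 : θ * (θ * p) ≤ θ * θ := mul_le_mul_of_nonneg_left c1 hθ.le
    nlinarith
  have b4 := mul_le_mul_of_nonneg_left b1 (show 0 ≤ 1 + θ by linarith)
  have b5 := mul_le_mul_of_nonneg_right b3 hZ.le
  have b6 := mul_le_mul_of_nonneg_left b2 (show 0 ≤ p + 10 * θ by linarith)
  refine le_of_mul_le_mul_left ?_ (show 0 < 4 * (1 + θ) by linarith)
  linarith

theorem lift_cmp {ε : ℝ} (hε : 0 < ε) : ∃ h₀ : ℝ, ∀ h ≥ h₀, ∃ σ : ℝ, Real.exp (-34 * h) ≤ σ ∧
    σ ≤ Real.exp (-33 * h) ∧ ∀ (Λ : Set SL2) (ν : Measure SL2) (φ : ℍ → ℝ),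
      Rep Λ ν φ (π * Real.exp (100 * h)) → ∀ (F : SL2 → ℝ) (U : Set SL2), Measurable F →
      MeasurableSet U → (∀ g, 0 ≤ F g) → (∀ g, F g ≤ 1) → (∀ g, g ∉ U → F g = 0) →
      (∫ g, F g * ‖lift φ (π * Real.exp (100 * h)) g‖ ^ 2 ∂ν) /
          ∫ g, ‖lift φ (π * Real.exp (100 * h)) g‖ ^ 2 ∂ν
        ≤ (Pm ν φ (π * Real.exp (100 * h)) σ).real U + ε := by
  obtain ⟨θ, hθ, θ1, θ2⟩ : ∃ θ : ℝ, 0 < θ ∧ θ ≤ 1 / 2 ∧ 10 * θ ≤ ε :=
    ⟨min (1 / 2) (ε / 10), by positivity, min_le_left _ _,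
      by linarith [min_le_right (1 / 2) (ε / 10)]⟩
  refine ⟨max 9 (-Real.log (θ ^ 2 / 1152)), fun h hh => ?_⟩
  have h9 : 9 ≤ h := (le_max_left _ _).trans hh
  have hl : Real.exp (-h) ≤ θ ^ 2 / 1152 := by
    rw [← Real.exp_log (show 0 < θ ^ 2 / 1152 by positivity), Real.exp_le_exp]
    linarith [(le_max_right _ _).trans hh]
  set r := π * Real.exp (100 * h) with hr
  have r0 : 0 < r := by positivity
  obtain ⟨T, hT⟩ : ∃ T, T = r ^ (-1 / 3 : ℝ) := ⟨_, rfl⟩
  have T0 : 0 < T := hT ▸ Real.rpow_pos_of_pos r0 _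
  have T3 : r * T ^ 3 = 1 := by
    rw [hT, ← Real.rpow_natCast, ← Real.rpow_mul r0.le]
    norm_num [Real.rpow_neg_one, r0.ne']
  obtain ⟨u, hu⟩ : ∃ u, u = Real.exp (-(100 / 3) * h) := ⟨_, rfl⟩
  have u0 : 0 < u := hu ▸ Real.exp_pos _
  have u3 : Real.exp (100 * h) * u ^ 3 = 1 := by
    rw [hu, ← Real.exp_nat_mul, ← Real.exp_add, ← Real.exp_zero]; congr 1; push_cast; ring
  have e3 : u ^ 3 = π * T ^ 3 := by
    refine mul_left_cancel₀ (Real.exp_pos (100 * h)).ne' ?_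
    rw [u3, ← T3, hr]; ring
  have T3p : 0 < T ^ 3 := by positivity
  have Tu : T ≤ u := by
    refine le_of_pow_le_pow_left₀ (n := 3) (by norm_num) u0.le ?_
    nlinarith [Real.pi_gt_three]
  have uT : u ≤ 2 * T := by
    refine le_of_pow_le_pow_left₀ (n := 3) (by norm_num) (by positivity) ?_
    nlinarith [Real.pi_le_four]
  have u4 : 4 * u ≤ Real.exp (-33 * h) := by
    have a1 : 4 ≤ Real.exp (h / 3) := by linarith [Real.add_one_le_exp (h / 3)]
    have a2 : Real.exp (-33 * h) = Real.exp (h / 3) * u := by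
      rw [hu, ← Real.exp_add]; congr 1; ring
    rw [a2]; gcongr
  have x1 : Real.exp (-33 * h) ≤ Real.exp (-h) := Real.exp_le_exp.2 (by linarith)
  have x2 : Real.exp (-h) ≤ 1 := Real.exp_le_one_iff.2 (by linarith)
  have σ1 : 2 * T ≤ Real.exp (2 * T) - 1 := by linarith [Real.add_one_le_exp (2 * T)]
  have σ2 : Real.exp (2 * T) - 1 ≤ 4 * T := by
    have a1 : |2 * T| = 2 * T := abs_of_nonneg (by linarith)
    have := Real.abs_exp_sub_one_le (x := 2 * T) (by rw [a1]; linarith)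
    rw [a1] at this
    linarith [le_abs_self (Real.exp (2 * T) - 1)]
  refine ⟨Real.exp (2 * T) - 1, ?_, by linarith, ?_⟩
  · have : Real.exp (-34 * h) ≤ u := hu ▸ Real.exp_le_exp.2 (by linarith)
    linarith
  intro Λ ν φ R F U _ mU F0 F1 FU
  set σ := Real.exp (2 * T) - 1 with hσ
  have := R.fin
  obtain ⟨B, hB⟩ := R.bdd
  obtain ⟨K, hK⟩ := R.kF_bdd σ
  have s0 : 0 < σ := by linarith
  have rT : r * T * T ^ 2 = 1 := by rw [← T3]; ring
  have rσ : 1 ≤ r * σ := by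
    have a1 : T ^ 2 ≤ 1 := by nlinarith
    have a2 : 0 < r * T := by positivity
    nlinarith
  have low := kE_low s0 (by linarith) rσ
  have hs : 0 < √(r * σ) := Real.sqrt_pos.2 (by linarith)
  have hn : n2 (kE r σ 1) ≠ 0 := ((ENNReal.ofReal_pos.2 (by positivity)).trans_le low).ne'
  have := R.prob hn
  have mk : Measurable fun g => ‖kF φ r σ g‖ ^ 2 := (R.measurable_kF σ).norm.pow_const 2
  have conv : ∀ μ : Measure SL2, ∫ g, ‖kF φ r σ g‖ ^ 2 ∂μ = (∫⁻ g, ‖kF φ r σ g‖ₑ ^ 2 ∂μ).toReal :=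
    fun μ => by
      rw [integral_eq_lintegral_of_nonneg_ae (.of_forall fun g => sq_nonneg _)
        mk.aestronglyMeasurable]
      simp only [ENNReal.ofReal_pow (norm_nonneg _), ofReal_norm]
  have s4 : π⁻¹ * (σ ^ 2 / (8 * √(r * σ))) ≤ ∫ g, ‖kF φ r σ g‖ ^ 2 ∂ν := by
    rw [conv, ← Zm, ← ENNReal.ofReal_le_iff_le_toReal (R.Zm_ne_top σ), R.Zm_eq σ 1,
      ENNReal.ofReal_mul (by positivity)]
    gcongr
  have hZ : 0 < ∫ g, ‖kF φ r σ g‖ ^ 2 ∂ν := lt_of_lt_of_le (by positivity) s4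
  have s5 : T ^ 3 ≤ 16 * ∫ g, ‖kF φ r σ g‖ ^ 2 ∂ν := by
    have a1 : √(r * σ) * T ≤ 2 := by
      refine le_of_pow_le_pow_left₀ (n := 2) (by norm_num) (by norm_num) ?_
      rw [mul_pow, Real.sq_sqrt (by linarith)]
      have : r * σ ≤ r * (4 * T) := by gcongr
      nlinarith [sq_nonneg T]
    rw [inv_mul_le_iff₀ Real.pi_pos, div_le_iff₀ (by positivity)] at s4
    generalize ∫ g, ‖kF φ r σ g‖ ^ 2 ∂ν = Z at *
    have a2 : (2 * T) ^ 2 ≤ σ ^ 2 := by gcongr
    have a3 : π * Z * (8 * √(r * σ)) ≤ 4 * Z * (8 * √(r * σ)) := by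
      gcongr; exact Real.pi_le_four
    have a4 := mul_le_mul_of_nonneg_right (a2.trans (s4.trans a3)) T0.le
    have a5 := mul_le_mul_of_nonneg_left a1 hZ.le
    linarith
  have iK : Integrable (fun g => ‖kF φ r σ g‖ ^ 2) ν :=
    Integrable.of_bound mk.aestronglyMeasurable (K ^ 2) (.of_forall fun g => by
      rw [norm_pow, norm_norm]; exact pow_le_pow_left₀ (norm_nonneg _) (hK g) 2)
  have mL : Measurable (lift φ r) := by
    have a1 : Measurable fun p : SL2 × ℝ =>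
        Complex.exp (-(r * p.2) * Complex.I) * (φ (bp (p.1 * aG p.2)) : ℂ) :=
      Measurable.mul (by fun_prop) (Complex.measurable_ofReal.comp
        (R.cont.measurable.comp (measurable_bp.comp
          (measurable_fst.mul (measurable_aG.comp measurable_snd)))))
    have a2 := (a1.stronglyMeasurable.integral_prod_right'
      (ν := volume.restrict (Ioc 0 T))).measurable
    have a3 : lift φ r = fun g => ∫ t in Ioc 0 T,
        Complex.exp (-(r * t) * Complex.I) * (φ (bp (g * aG t)) : ℂ) := by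
      funext g
      rw [lift, ← hT, intervalIntegral.integral_of_le T0.le]
    rw [a3]
    exact a2
  have iL : Integrable (fun g => ‖lift φ r g‖ ^ 2) ν :=
    Integrable.of_bound (mL.norm.pow_const 2).aestronglyMeasurable ((B * |T - 0|) ^ 2)
      (.of_forall fun g => by
        rw [norm_pow, norm_norm]
        refine pow_le_pow_left₀ (norm_nonneg _) ?_ 2
        rw [lift, ← hT]
        refine intervalIntegral.norm_integral_le_of_norm_le_const fun t _ => ?_
        have := Complex.norm_exp_ofReal_mul_I (-(r * t))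
        push_cast at this
        rw [norm_mul, this, one_mul, Complex.norm_real]
        exact hB _)
  obtain ⟨iE, vE⟩ := lift_fub R T0
  refine (lift_abs (K := kF φ r σ) (E := fun g => 36 * T ^ 3 *
    ∫ t in (0 : ℝ)..T, φ (bp (g * aG t)) ^ 2) hθ θ1 iK iL (iE.const_mul _) (fun g => ?_) mU F0 F1
    FU hZ ?_ measureReal_nonneg measureReal_le_one ?_).trans (by linarith)
  · rw [lift, ← hT]
    exact lift_diff R.cont r T0 (by linarith) g
  · rw [integral_const_mul, vE, div_mul_eq_mul_div, div_le_iff₀ hθ]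
    generalize ∫ g, ‖kF φ r σ g‖ ^ 2 ∂ν = Z at *
    have a1 : T ≤ θ ^ 2 / 1152 := by linarith
    have a2 := mul_le_mul s5 a1 T0.le (by positivity)
    linarith
  · rw [conv, conv, R.Pm_apply hn mU, ENNReal.toReal_mul]
    rfl

end Pool.Agent.Lib.MP_a52643_an.SE
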