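import Pool.Agent.Lib.MP_a52643_an.SE.Sym1
import Pool.Agent.Lib.MP_a52643_an.SE.Jump2
import Pool.Agent.Lib.MP_a52643_an.SE.Lift

/-!
Limits of lifts are approximated by measures with transfer inequalities.
-/

open MeasureTheory Set Filter Topology Metric UpperHalfPlane
open scoped ENNReal MatrixGroups Real FourierTransform ComplexConjugate

noncomputable section

namespace Pool.Agent.Lib.MP_a52643_an.SE

open NS

private lemma apx_quo {Γ : Type} [Group Γ] [Countable Γ] [MulAction Γ ℍ] {l : Γ → SL2}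
    {D : Set ℍ} (h : FD l D) {ν : Measure SL2} [ν.IsMulLeftInvariant] [ν.IsMulRightInvariant]
    (hν : MeasurePreserving bp ν volume) : Quo (range l) (ν.restrict (bp ⁻¹' D)) := by
  have ev : ∀ k : SL2, Eqv ν (fun (γ : Γ) (g : SL2) => l γ * g) fun g => bp (g * k) :=
    fun k => ⟨fun γ => measurePreserving_mul_left ν _,
      (hν.comp (measurePreserving_mul_right ν k)).quasiMeasurePreserving,
      fun γ g => by rw [mul_assoc, bp_mul, h.act]⟩
  refine ⟨⟨?_⟩, fun F mF hi k => ?_⟩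
  · rw [Measure.restrict_apply_univ, hν.measure_preimage h.meas.nullMeasurableSet]
    exact h.fin.lt_top
  · have e1 := Eqv.transport h (ev 1) (ev k⁻¹) mF fun γ g => hi _ ⟨γ, rfl⟩ g
    have e2 := (measurePreserving_mul_right ν k).setLIntegral_comp_preimage
      ((ev k⁻¹).qmp.measurable h.meas) mF
    have e3 : (fun x => x * k) ⁻¹' ((fun g => bp (g * k⁻¹)) ⁻¹' D) = bp ⁻¹' D := by
      ext g; simp
    simp only [mul_one] at e1
    rw [e3] at e2
    exact e2.trans e1.symm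

/-- the cut-off function -/
private def apxF (a b x : ℝ) : ℝ := max 0 (min 1 ((b - x) / (b - a)))

private lemma apxF_nn (a b x : ℝ) : 0 ≤ apxF a b x := le_max_left _ _

private lemma apxF_le (a b x : ℝ) : apxF a b x ≤ 1 := max_le zero_le_one (min_le_left _ _)

private lemma apxF_cont (a b : ℝ) : Continuous (apxF a b) := by unfold apxF; fun_prop

private lemma apxF_zero {a b x : ℝ} (hab : a < b) (hx : b ≤ x) : apxF a b x = 0 :=
  max_eq_left ((min_le_right _ _).trans
    (div_nonpos_of_nonpos_of_nonneg (by linarith) (by linarith)))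

private lemma apxF_one {a b x : ℝ} (hab : a < b) (hx : x < a) : apxF a b x = 1 := by
  rw [apxF, min_eq_left ((one_le_div (by linarith)).2 (by linarith)), max_eq_right zero_le_one]

private lemma apx_low {μ : Measure SL2} [IsProbabilityMeasure μ] {a b : ℝ} (hab : a < b)
    {E : SL2 → ℝ} (mE : Measurable E) :
    μ.real {g | E g < a} ≤ ∫ g, apxF a b (E g) ∂μ := by
  have mS : MeasurableSet {g | E g < a} := measurableSet_lt mE measurable_const
  rw [← integral_indicator_one mS]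
  refine integral_mono ((integrable_const (1 : ℝ)).indicator mS)
    (Integrable.of_bound ((apxF_cont a b).measurable.comp mE).aestronglyMeasurable 1
      (Eventually.of_forall fun g => ?_)) fun g => ?_
  · rw [Real.norm_eq_abs, abs_of_nonneg (apxF_nn _ _ _)]; exact apxF_le _ _ _
  · by_cases hg : E g < a
    · rw [indicator_of_mem (show g ∈ {g | E g < a} from hg)]
      exact (apxF_one hab hg).ge
    · rw [indicator_of_notMem (show g ∉ {g | E g < a} from hg)]
      exact apxF_nn _ _ _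

open scoped ContDiff Laplacian in
theorem exists_apx {Γ : Type} [Group Γ] [Countable Γ] [MulAction Γ ℍ] {l : Γ → SL2} {D : Set ℍ}
    (h : FD l D) {K : Set ℍ} (hK : IsCompact K) (hc : ∀ z : ℍ, ∃ γ : Γ, γ • z ∈ K)
    {ν : Measure SL2} [ν.IsMulLeftInvariant] [ν.IsMulRightInvariant]
    (hν : MeasurePreserving bp ν volume) {φ : ℕ → ℍ → ℝ} {r : ℕ → ℝ}
    (hr : Tendsto r atTop atTop) (h1 : ∀ j (γ : Γ) (z : ℍ), φ j (γ • z) = φ j z)
    (h2 : ∀ j, ContDiffOn ℝ ∞ (fun w : ℂ => φ j (ofComplex w)) {w | 0 < w.im})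
    (h3 : ∀ j (z : ℂ), 0 < z.im → z.im ^ 2 * Δ (fun w : ℂ => φ j (ofComplex w)) z
      = -(1 / 4 + r j ^ 2) * φ j (ofComplex z))
    (h4 : ∀ j, ∫ z in D, φ j z ^ 2 = 1) {μ : Measure SL2} [IsProbabilityMeasure μ]
    (hlim : ∀ F : SL2 → ℝ, Continuous F → (∃ B, ∀ g, |F g| ≤ B) →
      (∀ γ ∈ Lam Γ, ∀ g, F (γ * g) = F g) →
      Tendsto (fun j => (∫ g in bp ⁻¹' D, F g * ‖lift (φ j) (r j) g‖ ^ 2 ∂ν) /
        ∫ g in bp ⁻¹' D, ‖lift (φ j) (r j) g‖ ^ 2 ∂ν) atTop (𝓝 (∫ g, F g ∂μ))) :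
    Apx Γ (range l) μ := by
  have := borel_SL2
  have Q := apx_quo h hν
  have mp : MeasurePreserving bp (ν.restrict (bp ⁻¹' D)) (volume.restrict D) :=
    hν.restrict_preimage h.meas
  have R : ∀ j, Rep (range l) (ν.restrict (bp ⁻¹' D)) (φ j) (r j) := fun j => by
    have hφ : Continuous (φ j) := by
      have := (h2 j).continuousOn.comp_continuous continuous_coe fun z => z.im_pos
      simpa [Function.comp_def] using this
    have m2 : Measurable fun z => φ j z ^ 2 := (hφ.pow 2).measurable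
    refine ⟨Q, hφ, ?_, ?_, ?_, fun g h' => ?_⟩
    · obtain ⟨B, hB⟩ := hK.exists_bound_of_continuousOn hφ.continuousOn
      refine ⟨B, fun z => ?_⟩
      obtain ⟨γ, hγ⟩ := hc z
      rw [← h1 j γ]; exact hB _ hγ
    · rintro _ ⟨γ, rfl⟩ z
      rw [← h.act, h1]
    · rw [← h4 j, ← mp.map_eq, integral_map mp.measurable.aemeasurable m2.aestronglyMeasurable]
    · rw [mean_value (h2 j) (h3 j), om_eq]
  intro θ hθ h₀ a b D₁ D₂ hab c1 c2 i1 i2
  obtain ⟨h₁, J₁⟩ := jump_main hθ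
  obtain ⟨h₂, J₂⟩ := jump_free hθ
  obtain ⟨h₃, L⟩ := lift_cmp (half_pos hθ)
  have key : ∀ E : SL2 → ℝ, Continuous E → (∀ γ ∈ Lam Γ, ∀ g, E (γ * g) = E g) →
      ∀ᶠ j in atTop, μ.real {g | E g < a} - θ / 2 ≤
        (∫ g in bp ⁻¹' D, apxF a b (E g) * ‖lift (φ j) (r j) g‖ ^ 2 ∂ν) /
          ∫ g in bp ⁻¹' D, ‖lift (φ j) (r j) g‖ ^ 2 ∂ν := fun E cE iE => by
    have t := hlim (fun g => apxF a b (E g)) ((apxF_cont a b).comp cE)
      ⟨1, fun g => by rw [abs_of_nonneg (apxF_nn _ _ _)]; exact apxF_le _ _ _⟩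
      fun γ hγ g => by rw [iE γ hγ]
    have l0 := apx_low (μ := μ) hab cE.measurable
    exact (t.eventually (lt_mem_nhds (by linarith))).mono fun j hj => le_of_lt hj
  obtain ⟨j, ⟨k1, k2⟩, k3⟩ := (((key D₁ c1 i1).and (key D₂ c2 i2)).and
    (hr.eventually_ge_atTop (π * Real.exp (100 * max (max h₀ h₁) (max h₂ (max h₃ 0)))))).exists
  have hπ := Real.pi_pos
  have r0 : 0 < r j := lt_of_lt_of_le (by positivity) k3
  obtain ⟨t, ht⟩ : ∃ t, r j = π * Real.exp (100 * t) := ⟨Real.log (r j / π) / 100, by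
    rw [mul_div_cancel₀ _ (by norm_num), Real.exp_log (by positivity)]; field_simp⟩
  have Rj := R j
  rw [ht] at k1 k2 k3 Rj
  have hh := le_of_mul_le_mul_left (Real.exp_le_exp.1 (le_of_mul_le_mul_left k3 hπ))
    (by norm_num)
  simp only [max_le_iff] at hh
  obtain ⟨⟨a0, a1⟩, a2, a3, a4⟩ := hh
  obtain ⟨σ, s1, s2, L⟩ := L t a3
  have e : π * Real.exp (100 * t) / π = Real.exp (100 * t) := by field_simp
  have cmp : ∀ E : SL2 → ℝ, Continuous E → _ := fun E cE =>
    L _ _ _ Rj (fun g => apxF a b (E g)) {g | E g < b}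
      ((apxF_cont a b).comp cE).measurable (measurableSet_lt cE.measurable measurable_const)
      (fun g => apxF_nn _ _ _) (fun g => apxF_le _ _ _) fun g hg => apxF_zero hab (not_lt.1 hg)
  refine ⟨t, a0, Pm (ν.restrict (bp ⁻¹' D)) (φ j) (π * Real.exp (100 * t)) σ,
    Pm (ν.restrict (bp ⁻¹' D)) (φ j) (π * Real.exp (100 * t)) 1,
    Rj.prob (J₂ t a2 σ (22 * t) s1 s2 le_rfl (by linarith)).pos,
    Rj.prob (J₁ t a1 (4 * t) le_rfl (by linarith)).pos,
    fun T b c => by simpa only [e] using Rj.master hθ (J₁ t a1 T b c),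
    fun T b c => by simpa only [e] using Rj.master hθ (J₂ t a2 σ T s1 s2 b c), ?_, ?_⟩
  · linarith [cmp D₁ c1]
  · linarith [cmp D₂ c2]

end Pool.Agent.Lib.MP_a52643_an.SE
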