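import Pool.Agent.Lib.MP_a52643_an.SE.Anc1
import Pool.Agent.Lib.MP_a52643_an.SE.Apx

/-!
The limit of the lifts projects to the limit of the squares.
-/

open MeasureTheory Set Filter Topology Metric UpperHalfPlane
open scoped ENNReal MatrixGroups Real FourierTransform ComplexConjugate

noncomputable section

namespace Pool.Agent.Lib.MP_a52643_an.SE

open NS

private lemma anc_quo {Γ : Type} [Group Γ] [Countable Γ] [MulAction Γ ℍ] {l : Γ → SL2}
    {D : Set ℍ} (h : FD l D) {ν : Measure SL2} [ν.IsMulLeftInvariant] [ν.IsMulRightInvariant]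
    (hν : MeasurePreserving bp ν volume) : Quo (range l) (ν.restrict (bp ⁻¹' D)) := by
  have ev : ∀ k : SL2, Eqv ν (fun (γ : Γ) (g : SL2) => l γ * g) fun g => bp (g * k) :=
    fun k => ⟨fun γ => measurePreserving_mul_left ν _,
      (hν.comp (measurePreserving_mul_right ν k)).quasiMeasurePreserving,
      fun γ g => by rw [mul_assoc, bp_mul, h.act]⟩
  refine ⟨⟨?_⟩, fun F mF hi k => ?_⟩
  · rw [Measure.restrict_apply_univ, hν.measure_preimage h.meas.nullMeasurableSet]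
    exact h.fin.lt_top
  · have e1 := Eqv.transport h (ev 1) (ev k⁻¹) mF fun γ g => hi _ ⟨γ, rfl⟩ g
    have e2 := (measurePreserving_mul_right ν k).setLIntegral_comp_preimage
      ((ev k⁻¹).qmp.measurable h.meas) mF
    have e3 : (fun x => x * k) ⁻¹' ((fun g => bp (g * k⁻¹)) ⁻¹' D) = bp ⁻¹' D := by
      ext g; simp
    simp only [mul_one] at e1
    rw [e3] at e2
    exact e2.trans e1.symm

private lemma anc_bdd {Γ : Type} [Group Γ] [MulAction Γ ℍ] {K : Set ℍ} (hK : IsCompact K)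
    (hc : ∀ z : ℍ, ∃ γ : Γ, γ • z ∈ K) {f : ℍ → ℝ} (cf : Continuous f)
    (hf : ∀ (γ : Γ) (z : ℍ), f (γ • z) = f z) : ∃ B, ∀ z, |f z| ≤ B := by
  obtain ⟨B, hB⟩ := hK.exists_bound_of_continuousOn cf.continuousOn
  refine ⟨B, fun z => ?_⟩
  obtain ⟨γ, hγ⟩ := hc z
  rw [← hf γ]; exact hB _ hγ

private lemma anc_lip {Γ : Type} [Group Γ] [MulAction Γ ℍ]
    (hi : ∀ (γ : Γ) (z w : ℍ), dist (γ • z) (γ • w) = dist z w) {K : Set ℍ} (hK : IsCompact K)
    (hc : ∀ z : ℍ, ∃ γ : Γ, γ • z ∈ K) {f : ℍ → ℝ} (cf : Continuous f)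
    (hf : ∀ (γ : Γ) (z : ℍ), f (γ • z) = f z) {ε : ℝ} (hε : 0 < ε) :
    ∃ (c : ℝ) (a : ℍ → ℝ), 0 < c ∧ LipschitzWith 1 a ∧ (∀ z, |a z| ≤ 1) ∧
      (∀ (γ : Γ) (z : ℍ), a (γ • z) = a z) ∧ ∀ z, |f z - c * a z| ≤ ε := by
  obtain ⟨B, hB⟩ := anc_bdd hK hc cf hf
  have B0 : 0 ≤ B := (abs_nonneg _).trans (hB I)
  obtain ⟨δ, δ0, hδ⟩ := Metric.uniformContinuousOn_iff.1
    ((hK.cthickening (r := 1)).uniformContinuousOn_of_continuous cf.continuousOn) ε hε
  have uc : ∀ z w, dist z w < min δ 1 → f z - ε ≤ f w := fun z w e => by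
    obtain ⟨γ, hγ⟩ := hc z
    rw [← hi γ, lt_min_iff] at e
    have := hδ _ (self_subset_cthickening _ hγ) _
      (mem_cthickening_of_dist_le _ _ _ _ hγ (by rw [dist_comm]; exact e.2.le)) e.1
    rw [hf, hf, Real.dist_eq] at this
    linarith [(abs_lt.1 this).2]
  have m0 : 0 < min δ 1 := lt_min δ0 one_pos
  obtain ⟨n, n0, n1, n2⟩ : ∃ n : ℝ, 0 < n ∧ B ≤ n ∧ 2 * B ≤ min δ 1 * n := by
    refine ⟨2 * B / min δ 1 + B + 1, by positivity, ?_, ?_⟩
    · have : 0 ≤ 2 * B / min δ 1 := by positivity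
      linarith
    · rw [add_assoc, mul_add, mul_div_cancel₀ _ m0.ne']
      have : 0 ≤ min δ 1 * (B + 1) := by positivity
      linarith
  have lo : ∀ z w : ℍ, -(B / n) ≤ f w / n + dist z w := fun z w => by
    have : -B / n ≤ f w / n := div_le_div_of_nonneg_right (abs_le.1 (hB w)).1 n0.le
    rw [neg_div] at this
    linarith [dist_nonneg (x := z) (y := w)]
  have bd : ∀ z : ℍ, BddBelow (range fun w => f w / n + dist z w) := fun z =>
    ⟨_, forall_mem_range.2 (lo z)⟩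
  have up : ∀ z : ℍ, ⨅ w, (f w / n + dist z w) ≤ f z / n := fun z => by
    simpa using ciInf_le (bd z) z
  have b1 : B / n ≤ 1 := (div_le_one n0).2 n1
  refine ⟨n, fun z => ⨅ w, (f w / n + dist z w), n0, LipschitzWith.of_le_add fun z z' => ?_,
    fun z => abs_le.2 ⟨le_ciInf fun w => by linarith [lo z w], (up z).trans ?_⟩,
    fun γ z => ?_, fun z => abs_le.2 ⟨?_, ?_⟩⟩
  · rw [← sub_le_iff_le_add]
    refine le_ciInf fun w => ?_
    linarith [ciInf_le (bd z) w, dist_triangle z z' w]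
  · exact (div_le_div_of_nonneg_right (abs_le.1 (hB z)).2 n0.le).trans b1
  · refine ((MulAction.surjective γ).iInf_comp fun w => f w / n + dist (γ • z) w).symm.trans ?_
    simp only [hf, hi]
  · have := (le_div_iff₀' n0).1 (up z)
    linarith
  · have : (f z - ε) / n ≤ ⨅ w, (f w / n + dist z w) := le_ciInf fun w => by
      rcases lt_or_ge (dist z w) (min δ 1) with e | e
      · linarith [div_le_div_of_nonneg_right (uc z w e) n0.le, dist_nonneg (x := z) (y := w)]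
      · rw [div_add' _ _ _ n0.ne']
        refine div_le_div_of_nonneg_right ?_ n0.le
        nlinarith [abs_le.1 (hB z), abs_le.1 (hB w), mul_le_mul_of_nonneg_right e n0.le]
    have := (div_le_iff₀' n0).1 this
    linarith

private lemma anc_int {X : Type} [MeasurableSpace X] {m : Measure X} {f a w : X → ℝ} {c ε B : ℝ}
    (iw : Integrable w m) (w0 : ∀ x, 0 ≤ w x) (w1 : ∫ x, w x ∂m = 1) (mf : Measurable f)
    (ma : Measurable a) (hB : ∀ x, |f x| ≤ B) (h1 : ∀ x, |a x| ≤ 1)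
    (h : ∀ x, |f x - c * a x| ≤ ε) :
    |∫ x, f x * w x ∂m - c * ∫ x, a x * w x ∂m| ≤ ε := by
  have i1 := iw.bdd_mul mf.aestronglyMeasurable (Eventually.of_forall hB)
  have i2 := iw.bdd_mul ma.aestronglyMeasurable (Eventually.of_forall h1)
  rw [← integral_const_mul, ← integral_sub i1 (i2.const_mul c), ← mul_one ε, ← w1,
    ← integral_const_mul]
  rw [← Real.norm_eq_abs]
  refine norm_integral_le_of_norm_le (iw.const_mul ε) (Eventually.of_forall fun x => ?_)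
  rw [← mul_assoc, ← sub_mul, Real.norm_eq_abs, abs_mul, abs_of_nonneg (w0 x)]
  exact mul_le_mul_of_nonneg_right (h x) (w0 x)

open scoped ContDiff Laplacian in
theorem anchor {Γ : Type} [Group Γ] [Countable Γ] [MulAction Γ ℍ] {l : Γ → SL2} {D : Set ℍ}
    (h : FD l D) {K : Set ℍ} (hK : IsCompact K) (hc : ∀ z : ℍ, ∃ γ : Γ, γ • z ∈ K)
    {ν : Measure SL2} [ν.IsMulLeftInvariant] [ν.IsMulRightInvariant]
    (hν : MeasurePreserving bp ν volume) {φ : ℕ → ℍ → ℝ} {r : ℕ → ℝ}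
    (hr : Tendsto r atTop atTop) (h1 : ∀ j (γ : Γ) (z : ℍ), φ j (γ • z) = φ j z)
    (h2 : ∀ j, ContDiffOn ℝ ∞ (fun w : ℂ => φ j (ofComplex w)) {w | 0 < w.im})
    (h3 : ∀ j (z : ℂ), 0 < z.im → z.im ^ 2 * Δ (fun w : ℂ => φ j (ofComplex w)) z
      = -(1 / 4 + r j ^ 2) * φ j (ofComplex z))
    (h4 : ∀ j, ∫ z in D, φ j z ^ 2 = 1) {μ : Measure SL2} [IsProbabilityMeasure μ]
    (hlim : ∀ F : SL2 → ℝ, Continuous F → (∃ B, ∀ g, |F g| ≤ B) →
      (∀ γ ∈ Lam Γ, ∀ g, F (γ * g) = F g) →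
      Tendsto (fun j => (∫ g in bp ⁻¹' D, F g * ‖lift (φ j) (r j) g‖ ^ 2 ∂ν) /
        ∫ g in bp ⁻¹' D, ‖lift (φ j) (r j) g‖ ^ 2 ∂ν) atTop (𝓝 (∫ g, F g ∂μ)))
    {f : ℍ → ℝ} (cf : Continuous f) (hf : ∀ (γ : Γ) (z : ℍ), f (γ • z) = f z) :
    Tendsto (fun j => ∫ z in D, f z * φ j z ^ 2) atTop (𝓝 (∫ g, f (bp g) ∂μ)) := by
  have := borel_SL2
  have Q := anc_quo h hν
  have mp : MeasurePreserving bp (ν.restrict (bp ⁻¹' D)) (volume.restrict D) :=
    hν.restrict_preimage h.meas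
  have hφ : ∀ j, Continuous (φ j) := fun j => by
    have := (h2 j).continuousOn.comp_continuous continuous_coe fun z => z.im_pos
    simpa [Function.comp_def] using this
  have m2 : ∀ j, Measurable fun z => φ j z ^ 2 := fun j => ((hφ j).pow 2).measurable
  have R : ∀ j, Rep (range l) (ν.restrict (bp ⁻¹' D)) (φ j) (r j) := fun j => by
    refine ⟨Q, hφ j, anc_bdd hK hc (hφ j) (h1 j), ?_, ?_, fun g h' => ?_⟩
    · rintro _ ⟨γ, rfl⟩ z
      rw [← h.act, h1]
    · rw [← h4 j, ← mp.map_eq,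
        integral_map mp.measurable.aemeasurable (m2 j).aestronglyMeasurable]
    · rw [mean_value (h2 j) (h3 j), om_eq]
  obtain ⟨B, hB⟩ := anc_bdd hK hc cf hf
  refine Metric.tendsto_nhds.2 fun ε hε => ?_
  obtain ⟨c, a, c0, la, a1, ia, ha⟩ := anc_lip h.dist_eq hK hc cf hf (ε := ε / 5) (by positivity)
  have ca := la.continuous
  obtain ⟨r₀, A⟩ := anc_rep (ε := ε / 5 / c) (by positivity)
  have t := Metric.tendsto_nhds.1 (hlim (fun g => a (bp g))
    (ca.comp (continuous_id.smul continuous_const)) ⟨1, fun g => a1 _⟩ (by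
      rintro γ ⟨γ', e⟩ g
      simp only [bp_mul, ← e, ia])) (ε / 5 / c) (by positivity)
  filter_upwards [t, hr.eventually_ge_atTop r₀] with j k1 k2
  have k3 := A _ k2 _ _ _ (R j) a la a1 (by rintro _ ⟨γ, rfl⟩ z; rw [← h.act, ia])
  have e : ∫ g in bp ⁻¹' D, a (bp g) * φ j (bp g) ^ 2 ∂ν = ∫ z in D, a z * φ j z ^ 2 := by
    rw [← mp.map_eq, integral_map (f := fun z => a z * φ j z ^ 2) mp.measurable.aemeasurable
      (ca.measurable.mul (m2 j)).aestronglyMeasurable]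
  have k4 := anc_int (m := volume.restrict D) (w := fun z => φ j z ^ 2)
    (Integrable.of_integral_ne_zero (by rw [h4 j]; exact one_ne_zero)) (fun z => sq_nonneg _)
    (h4 j) cf.measurable ca.measurable hB a1 ha
  have k5 := anc_int (m := μ) (w := fun _ => 1) (f := fun g => f (bp g)) (a := fun g => a (bp g))
    (integrable_const _) (fun _ => zero_le_one) (by simp) (cf.measurable.comp measurable_bp)
    (ca.measurable.comp measurable_bp) (fun g => hB _) (fun g => a1 _) fun g => ha _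
  simp only [mul_one] at k5
  rw [e] at k3
  rw [Real.dist_eq] at k1 ⊢
  have sc : ∀ x y : ℝ, |x - y| ≤ ε / 5 / c → |c * x - c * y| ≤ ε / 5 := fun x y e => by
    rw [← mul_sub, abs_mul, abs_of_pos c0]
    exact (le_div_iff₀' c0).1 e
  have k6 := abs_le.1 (sc _ _ k3)
  have k7 := abs_le.1 (sc _ _ k1.le)
  rw [abs_lt]
  constructor <;> linarith [abs_le.1 k4, abs_le.1 k5]

end Pool.Agent.Lib.MP_a52643_an.SE
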