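import Pool.Agent.Lib.MP_a52643_an.SE.Defs

/-!
The gain of one step between two spread out families of points.
-/

open MeasureTheory Set Filter Topology Metric UpperHalfPlane
open scoped ENNReal MatrixGroups Real FourierTransform ComplexConjugate

noncomputable section

namespace Pool.Agent.Lib.MP_a52643_an.SE

open NS

open Classical in
private theorem dolg1_mix {ι : Type} (s : Finset ι) (p : ι → ℝ) (P : ι → Prop) {c k : ℝ}
    (k0 : 0 ≤ k) (k1 : k ≤ 1) (hp1 : ∑ i ∈ s, p i ≤ 1) (hb : ∑ i ∈ s with P i, p i ≤ 1 - c) :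
    ∑ i ∈ s, p i * (if P i then 1 else 1 - k) ≤ 1 - k * c := by
  have h : ∑ i ∈ s, p i * (if P i then 1 else 1 - k)
      = (1 - k) * ∑ i ∈ s, p i + k * ∑ i ∈ s with P i, p i := by
    rw [Finset.sum_filter, Finset.mul_sum, Finset.mul_sum, ← Finset.sum_add_distrib]
    refine Finset.sum_congr rfl fun i _ => ?_
    split_ifs <;> ring
  rw [h]
  nlinarith [mul_le_mul_of_nonneg_left hp1 (sub_nonneg.2 k1), mul_le_mul_of_nonneg_left hb k0]

private theorem dolg1_norm (a : ℝ) : ‖ee a‖ = 1 := by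
  unfold ee
  exact Complex.norm_exp_ofReal_mul_I _

private theorem dolg1_mul_conj (a b : ℝ) : ee a * conj (ee b) = ee (a - b) := by
  unfold ee
  rw [← Complex.exp_conj, ← Complex.exp_add]
  congr 1
  simp only [map_mul, Complex.conj_ofReal, Complex.conj_I]
  push_cast
  ring

private theorem dolg1_re (a : ℝ) : (ee a).re = Real.cos (2 * π * a) := by
  unfold ee
  rw [Complex.exp_ofReal_mul_I_re, ← Real.cos_neg]
  congr 1
  ring

private theorem dolg1_sq {ι : Type} (s : Finset ι) (g : ι → ℂ) :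
    ‖∑ i ∈ s, g i‖ ^ 2 = ∑ i ∈ s, ∑ j ∈ s, (g i * conj (g j)).re := by
  have h : ((‖∑ i ∈ s, g i‖ ^ 2 : ℝ) : ℂ) = ∑ i ∈ s, ∑ j ∈ s, g i * conj (g j) := by
    rw [← Finset.sum_mul_sum, ← map_sum, Complex.mul_conj, Complex.normSq_eq_norm_sq]
  have h2 := congrArg Complex.re h
  rw [Complex.ofReal_re] at h2
  rw [h2, Complex.re_sum]
  exact Finset.sum_congr rfl fun i _ => Complex.re_sum _ _

open Classical in
private theorem dolg1_hat {ι : Type} (s : Finset ι) (p x : ι → ℝ) {ρ σ M c η : ℝ} (hρ : 0 < ρ)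
    (hσ : 0 < σ) (hρσ : ρ * σ = 1 / 4) (c0 : 0 < c) (c1 : c ≤ 1) (hM : 1 ≤ M)
    (hp : ∀ i ∈ s, 0 ≤ p i) (hp1 : ∑ i ∈ s, p i ≤ 1)
    (hx : ∀ i ∈ s, ∀ i' ∈ s, 0 < p i → 0 < p i' → |x i - x i'| ≤ ρ)
    (bx : ∀ z, ∑ i ∈ s with |x i - z| ≤ ρ / M, p i ≤ 1 - c) (h1 : σ / M < |η|) (h2 : |η| ≤ σ) :
    ‖∑ i ∈ s, (p i : ℂ) * ee (x i * η)‖ ≤ 1 - c / (4 * M ^ 4) := by
  have hM0 : 0 < M := by linarith
  have hM4 : 1 ≤ M ^ 4 := one_le_pow₀ hM
  set k : ℝ := 1 / (2 * M ^ 4) with hk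
  have k0 : 0 ≤ k := by positivity
  have k1 : k ≤ 1 := by
    rw [hk, div_le_one (by positivity)]
    linarith
  have key : ‖∑ i ∈ s, (p i : ℂ) * ee (x i * η)‖ ^ 2 ≤ 1 - k * c := by
    rw [dolg1_sq, Finset.sum_comm]
    have h3 : ∀ j ∈ s, ∑ i ∈ s, ((p i : ℂ) * ee (x i * η) * conj ((p j : ℂ) * ee (x j * η))).re
        ≤ p j * (1 - k * c) := by
      intro j hj
      refine le_trans ?_ (mul_le_mul_of_nonneg_left
        (dolg1_mix s p (fun i => |x i - x j| ≤ ρ / M) k0 k1 hp1 (bx (x j))) (hp j hj))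
      rw [Finset.mul_sum]
      refine Finset.sum_le_sum fun i hi => ?_
      have e : (p i : ℂ) * ee (x i * η) * conj ((p j : ℂ) * ee (x j * η))
          = ((p j * p i : ℝ) : ℂ) * ee ((x i - x j) * η) := by
        rw [sub_mul, ← dolg1_mul_conj, map_mul, Complex.conj_ofReal]
        push_cast
        ring
      rw [e, Complex.re_ofReal_mul, dolg1_re, ← mul_assoc (p j)]
      rcases (hp i hi).eq_or_lt with h0 | h0
      · simp [← h0]
      rcases (hp j hj).eq_or_lt with h0' | h0'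
      · simp [← h0']
      refine mul_le_mul_of_nonneg_left ?_ (mul_pos h0' h0).le
      split_ifs with hn
      · exact Real.cos_le_one _
      · have hd := hx i hi j hj h0 h0'
        have hn' : ρ / M < |x i - x j| := not_le.1 hn
        have up : |(x i - x j) * η| ≤ 1 / 4 := by
          rw [abs_mul, ← hρσ]
          exact mul_le_mul hd h2 (abs_nonneg _) hρ.le
        have lo : 1 / (4 * M ^ 2) ≤ |(x i - x j) * η| := by
          have : ρ / M * (σ / M) = 1 / (4 * M ^ 2) := by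
            rw [div_mul_div_comm, hρσ]
            field_simp
          rw [abs_mul, ← this]
          exact mul_le_mul hn'.le h1.le (by positivity) (abs_nonneg _)
        set a := (x i - x j) * η
        have hpi := Real.pi_pos
        have hb : |2 * π * a| ≤ π := by
          rw [abs_mul, abs_of_pos (by positivity : (0 : ℝ) < 2 * π)]
          nlinarith
        refine (Real.cos_le_one_sub_mul_cos_sq hb).trans ?_
        have hsq : (1 / (4 * M ^ 2)) ^ 2 ≤ a ^ 2 := by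
          rw [← sq_abs a]
          exact pow_le_pow_left₀ (by positivity) lo 2
        have e1 : 2 / π ^ 2 * (2 * π * a) ^ 2 = 8 * a ^ 2 := by
          field_simp
          ring
        have e2 : k = 8 * (1 / (4 * M ^ 2)) ^ 2 := by
          rw [hk]
          field_simp
          ring
        rw [e1, e2]
        linarith
    refine (Finset.sum_le_sum h3).trans ?_
    rw [← Finset.sum_mul]
    have : 0 ≤ 1 - k * c := by nlinarith
    nlinarith
  have e : c / (4 * M ^ 4) = k * c / 2 := by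
    rw [hk]
    field_simp
    ring
  rw [e]
  have kc : k * c ≤ 1 := by nlinarith
  refine abs_le_of_sq_le_sq' ?_ (by linarith) |>.2
  nlinarith [sq_nonneg (k * c)]

open Classical in
theorem dolg_core {ι κ : Type} (s : Finset ι) (t : Finset κ) (p x : ι → ℝ) (q y : κ → ℝ)
    {ρ σ M c : ℝ} (hρ : 0 < ρ) (hσ : 0 < σ) (hρσ : ρ * σ = 1 / 4) (c0 : 0 < c) (c1 : c ≤ 1)
    (hM : 1 ≤ M) (hp : ∀ i ∈ s, 0 ≤ p i) (hp1 : ∑ i ∈ s, p i ≤ 1) (hq : ∀ j ∈ t, 0 ≤ q j)
    (hq1 : ∑ j ∈ t, q j ≤ 1)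
    (hx : ∀ i ∈ s, ∀ i' ∈ s, 0 < p i → 0 < p i' → |x i - x i'| ≤ ρ)
    (hy : ∀ j ∈ t, ∀ j' ∈ t, 0 < q j → 0 < q j' → |y j - y j'| ≤ σ)
    (bx : ∀ z, ∑ i ∈ s with |x i - z| ≤ ρ / M, p i ≤ 1 - c)
    (bY : ∀ z, ∑ j ∈ t with |y j - z| ≤ σ / M, q j ≤ 1 - c) (f : κ → ℂ) :
    ∑ i ∈ s, p i * ‖∑ j ∈ t, q j * (ee (x i * y j) * f j)‖ ^ 2
      ≤ (1 - c ^ 2 / (4 * M ^ 4)) * ∑ j ∈ t, q j * ‖f j‖ ^ 2 := by
  have hM0 : 0 < M := by linarith
  have hM4 : 1 ≤ M ^ 4 := one_le_pow₀ hM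
  set k : ℝ := c / (4 * M ^ 4) with hk
  have k0 : 0 ≤ k := by positivity
  have k1 : k ≤ 1 := by
    rw [hk, div_le_one (by positivity)]
    linarith
  set w : κ → κ → ℝ := fun j j' => if |y j - y j'| ≤ σ / M then 1 else 1 - k with hw
  have wsym : ∀ j j', w j j' = w j' j := fun j j' => by simp only [hw, abs_sub_comm]
  have w0 : ∀ j j', 0 ≤ w j j' := fun j j' => by
    simp only [hw]
    split_ifs <;> linarith
  have e1 : ∑ i ∈ s, p i * ‖∑ j ∈ t, q j * (ee (x i * y j) * f j)‖ ^ 2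
      = ∑ j ∈ t, ∑ j' ∈ t, (((q j * q j' : ℝ) : ℂ) * (f j * conj (f j') *
        ∑ i ∈ s, (p i : ℂ) * ee (x i * (y j - y j')))).re := by
    simp only [dolg1_sq, Finset.mul_sum, Complex.re_sum]
    rw [Finset.sum_comm]
    refine Finset.sum_congr rfl fun j _ => ?_
    rw [Finset.sum_comm]
    refine Finset.sum_congr rfl fun j' _ => Finset.sum_congr rfl fun i _ => ?_
    rw [← Complex.re_ofReal_mul]
    congr 1
    rw [mul_sub, ← dolg1_mul_conj, map_mul, map_mul, Complex.conj_ofReal]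
    push_cast
    ring
  have h2 : ∀ j ∈ t, ∀ j' ∈ t, (((q j * q j' : ℝ) : ℂ) * (f j * conj (f j') *
      ∑ i ∈ s, (p i : ℂ) * ee (x i * (y j - y j')))).re
      ≤ q j * ‖f j‖ ^ 2 * (q j' * w j' j) / 2 + q j' * ‖f j'‖ ^ 2 * (q j * w j j') / 2 := by
    intro j hj j' hj'
    rcases (hq j hj).eq_or_lt with h0 | h0
    · simp [← h0]
    rcases (hq j' hj').eq_or_lt with h0' | h0'
    · simp [← h0']
    have hb : ‖∑ i ∈ s, (p i : ℂ) * ee (x i * (y j - y j'))‖ ≤ w j j' := by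
      simp only [hw]
      split_ifs with hn
      · refine (norm_sum_le _ _).trans (le_trans (Finset.sum_le_sum fun i hi => ?_) hp1)
        rw [norm_mul, dolg1_norm, mul_one, Complex.norm_real, Real.norm_of_nonneg (hp i hi)]
      · exact dolg1_hat s p x hρ hσ hρσ c0 c1 hM hp hp1 hx bx (not_le.1 hn) (hy j hj j' hj' h0 h0')
    rw [Complex.re_ofReal_mul, wsym j' j]
    have h3 : (f j * conj (f j') * ∑ i ∈ s, (p i : ℂ) * ee (x i * (y j - y j'))).re
        ≤ (‖f j‖ ^ 2 + ‖f j'‖ ^ 2) / 2 * w j j' := by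
      refine (Complex.re_le_norm _).trans ?_
      rw [norm_mul, norm_mul, Complex.norm_conj]
      refine mul_le_mul ?_ hb (norm_nonneg _) (by positivity)
      nlinarith [sq_nonneg (‖f j‖ - ‖f j'‖)]
    have := mul_le_mul_of_nonneg_left h3 (mul_pos h0 h0').le
    linarith
  rw [e1]
  refine (Finset.sum_le_sum fun j hj => Finset.sum_le_sum fun j' hj' => h2 j hj j' hj').trans ?_
  simp only [Finset.sum_add_distrib]
  rw [Finset.sum_comm (f := fun j j' => q j' * ‖f j'‖ ^ 2 * (q j * w j j') / 2),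
    ← Finset.sum_add_distrib, Finset.mul_sum]
  refine Finset.sum_le_sum fun j hj => ?_
  rw [← Finset.sum_add_distrib]
  have e2 : ∑ j' ∈ t, (q j * ‖f j‖ ^ 2 * (q j' * w j' j) / 2 + q j * ‖f j‖ ^ 2 * (q j' * w j' j) / 2)
      = q j * ‖f j‖ ^ 2 * ∑ j' ∈ t, q j' * w j' j := by
    rw [Finset.mul_sum]
    exact Finset.sum_congr rfl fun j' _ => by ring
  have h4 := dolg1_mix t q (fun j' => |y j' - y j| ≤ σ / M) k0 k1 hq1 (bY (y j))
  have e3 : c ^ 2 / (4 * M ^ 4) = k * c := by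
    rw [hk]
    ring
  rw [e2, e3, mul_comm (1 - k * c)]
  exact mul_le_mul_of_nonneg_left h4 (mul_nonneg (hq j hj) (by positivity))

end Pool.Agent.Lib.MP_a52643_an.SE
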