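import Pool.Agent.Lib.MP_a52643_an.SE.Dolg1

/-!
Induction on scales for two weighted trees.
-/

open MeasureTheory Set Filter Topology Metric UpperHalfPlane
open scoped ENNReal MatrixGroups Real FourierTransform ComplexConjugate

noncomputable section

namespace Pool.Agent.Lib.MP_a52643_an.SE

open NS

variable {S : Type} [Fintype S] [DecidableEq S]

open Classical in
/-- a weighted tree of nested intervals, `b` marks nodes which branch -/
structure Tree (l n : ℕ) (p x : List S → ℝ) (b : List S → Prop) (ρ D M c : ℝ) : Prop where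
  nn : ∀ u, 0 ≤ p u
  nil : p [] ≤ 1
  sub : ∀ u, ∑ v ∈ words S l, p (u ++ v) ≤ p u
  loc : ∀ k < n, 0 < k → ∀ u v : List S, u.length = k * l → v.length = l → 0 < p (u ++ v) →
    |x (u ++ v) - x u| ≤ ρ / D ^ k / 2
  br : ∀ k < n, 0 < k → ∀ u : List S, u.length = k * l → b u → ∀ z,
    ∑ v ∈ words S l with |x (u ++ v) - z| ≤ ρ / D ^ k / M, p (u ++ v) ≤ (1 - c) * p u

private lemma dolg2_lip (s t : ℝ) : ‖ee s - ee t‖ ≤ 2 * π * |s - t| := by
  have h1 : ee s - ee t = ee t * (ee (s - t) - 1) := by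
    rw [mul_sub, ← ee_add, mul_one, add_sub_cancel]
  have h2 := Real.norm_exp_I_mul_ofReal_sub_one_le (x := -2 * π * (s - t))
  rw [h1, norm_mul, norm_ee, one_mul, ee, mul_comm _ Complex.I]
  refine h2.trans (le_of_eq ?_)
  rw [Real.norm_eq_abs, abs_mul, abs_mul, abs_of_pos Real.pi_pos, abs_neg, abs_two]

private lemma dolg2_cs {κ : Type} (t : Finset κ) (w N : κ → ℝ) (hw : ∀ j ∈ t, 0 ≤ w j)
    (h1 : ∑ j ∈ t, w j ≤ 1) : (∑ j ∈ t, w j * N j) ^ 2 ≤ ∑ j ∈ t, w j * N j ^ 2 := by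
  have h2 : ∀ j ∈ t, 0 ≤ w j * N j ^ 2 := fun j hj => mul_nonneg (hw j hj) (sq_nonneg _)
  refine (Finset.sum_sq_le_sum_mul_sum_of_sq_le_mul t (f := w) (g := fun j => w j * N j ^ 2) hw h2
    fun j _ => le_of_eq (by ring)).trans ?_
  exact mul_le_of_le_one_left (Finset.sum_nonneg h2) h1

private lemma dolg2_norm {κ : Type} (t : Finset κ) (w N : κ → ℝ) (f : κ → ℂ)
    (hw : ∀ j ∈ t, 0 ≤ w j) (hf : ∀ j ∈ t, 0 < w j → ‖f j‖ ≤ N j) :
    ‖∑ j ∈ t, (w j : ℂ) * f j‖ ≤ ∑ j ∈ t, w j * N j := by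
  refine (norm_sum_le _ _).trans (Finset.sum_le_sum fun j hj => ?_)
  rw [norm_mul, Complex.norm_real, Real.norm_of_nonneg (hw j hj)]
  rcases (hw j hj).eq_or_lt with h | h
  · simp [← h]
  · exact mul_le_mul_of_nonneg_left (hf j hj h) h.le

private lemma dolg2_norm_sq {κ : Type} (t : Finset κ) (w θ : κ → ℝ) (f : κ → ℂ)
    (hw : ∀ j ∈ t, 0 ≤ w j) (h1 : ∑ j ∈ t, w j ≤ 1) :
    ‖∑ j ∈ t, (w j : ℂ) * (ee (θ j) * f j)‖ ^ 2 ≤ ∑ j ∈ t, w j * ‖f j‖ ^ 2 :=
  (pow_le_pow_left₀ (norm_nonneg _) (dolg2_norm t w (fun j => ‖f j‖) _ hw fun j _ _ => by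
    rw [norm_mul, norm_ee, one_mul]) 2).trans (dolg2_cs t w _ hw h1)

/-- size and variation of a function on an interval -/
private def Dolg2Ok (F : ℝ → ℂ) (x₀ r ε N : ℝ) : Prop :=
  (∀ z, |z - x₀| ≤ r → ‖F z‖ ≤ N) ∧
    ∀ z z', |z - x₀| ≤ r → |z' - x₀| ≤ r → ‖F z - F z'‖ ≤ N * (ε / r) * |z - z'|

private lemma dolg2_ok {κ : Type} (t : Finset κ) (w δ N : κ → ℝ) (F : κ → ℝ → ℂ)
    {x₀ x₁ r D ε : ℝ} (hr : 0 < r) (ε0 : 0 < ε) (ε1 : ε ≤ 1 / 40) (hD : 4 / ε ^ 2 ≤ D)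
    (hw : ∀ j ∈ t, 0 ≤ w j) (hδ : ∀ j ∈ t, 0 < w j → |δ j| * r ≤ 1 / 8)
    (hF : ∀ j ∈ t, Dolg2Ok (F j) x₀ r ε (N j)) (hx : |x₁ - x₀| ≤ r / 2) :
    Dolg2Ok (fun z => ∑ j ∈ t, (w j : ℂ) * (ee (z * δ j) * F j z)) x₁ (r / D) ε
      (‖∑ j ∈ t, (w j : ℂ) * (ee (x₁ * δ j) * F j x₀)‖ + ε * ∑ j ∈ t, w j * N j) := by
  have hD1 : 4 ≤ D * ε ^ 2 := (div_le_iff₀ (by positivity)).1 hD
  have D0 : 0 < D := lt_of_lt_of_le (by positivity) hD
  have hD2 : 2 ≤ D * ε := by nlinarith [mul_pos D0 ε0]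
  have hD3 : 2 ≤ D := by nlinarith
  have r0 : |x₀ - x₀| ≤ r := by simpa using hr.le
  have N0 : ∀ j ∈ t, 0 ≤ N j := fun j hj => (norm_nonneg _).trans ((hF j hj).1 x₀ r0)
  have m0 : 0 ≤ ∑ j ∈ t, w j * N j := Finset.sum_nonneg fun j hj => mul_nonneg (hw j hj) (N0 j hj)
  have hin : ∀ z, |z - x₁| ≤ r / D → |z - x₀| ≤ r := fun z hz => by
    have h1 : r / D ≤ r / 2 := div_le_div_of_nonneg_left hr.le two_pos hD3
    have h2 := abs_sub_le z x₁ x₀
    linarith
  have hlip : ∀ z z', |z - x₀| ≤ r → |z' - x₀| ≤ r →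
      ‖∑ j ∈ t, (w j : ℂ) * (ee (z * δ j) * F j z) - ∑ j ∈ t, (w j : ℂ) * (ee (z' * δ j) * F j z')‖
        ≤ (∑ j ∈ t, w j * N j) * (1 / r) * |z - z'| := fun z z' hz hz' => by
    rw [← Finset.sum_sub_distrib, Finset.sum_mul, Finset.sum_mul]
    simp only [← mul_sub, mul_assoc]
    refine dolg2_norm t w _ _ hw fun j hj h => ?_
    have h1 : ee (z * δ j) * F j z - ee (z' * δ j) * F j z' =
        ee (z * δ j) * (F j z - F j z') + (ee (z * δ j) - ee (z' * δ j)) * F j z' := by ring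
    have h2 := (hF j hj).2 z z' hz hz'
    have h3 := (hF j hj).1 z' hz'
    have h4 := dolg2_lip (z * δ j) (z' * δ j)
    rw [← sub_mul, abs_mul] at h4
    have h5 : |δ j| ≤ 1 / 8 / r := (le_div_iff₀ hr).2 (hδ j hj h)
    have h6 : 2 * π * (|z - z'| * |δ j|) ≤ 2 * 3.2 * (|z - z'| * (1 / 8 / r)) := by
      have := Real.pi_lt_d2
      gcongr
      linarith
    rw [h1]
    refine (norm_add_le _ _).trans ?_
    rw [norm_mul, norm_mul, norm_ee, one_mul]
    have h7 := mul_le_mul (h4.trans h6) h3 (norm_nonneg _) (by positivity)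
    have h8 : N j * (ε / r) * |z - z'| + 2 * 3.2 * (|z - z'| * (1 / 8 / r)) * N j =
        (ε + 0.8) * (N j * (1 / r * |z - z'|)) := by ring
    have h9 : (ε + 0.8) * (N j * (1 / r * |z - z'|)) ≤ N j * (1 / r * |z - z'|) :=
      mul_le_of_le_one_left (mul_nonneg (N0 j hj) (by positivity)) (by linarith)
    linarith
  have x1 : |x₁ - x₀| ≤ r := by linarith
  have hz : ‖∑ j ∈ t, (w j : ℂ) * (ee (x₁ * δ j) * F j x₁) -
      ∑ j ∈ t, (w j : ℂ) * (ee (x₁ * δ j) * F j x₀)‖ ≤ ε / 2 * ∑ j ∈ t, w j * N j := by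
    rw [← Finset.sum_sub_distrib, Finset.mul_sum]
    simp only [← mul_sub, mul_left_comm (ε / 2)]
    refine dolg2_norm t w _ _ hw fun j hj _ => ?_
    rw [norm_mul, norm_ee, one_mul]
    refine ((hF j hj).2 x₁ x₀ x1 r0).trans ?_
    calc N j * (ε / r) * |x₁ - x₀| ≤ N j * (ε / r) * (r / 2) :=
          mul_le_mul_of_nonneg_left hx (mul_nonneg (N0 j hj) (by positivity))
      _ = ε / 2 * N j := by field_simp
  refine ⟨fun z h => ?_, fun z z' h h' => (hlip z z' (hin z h) (hin z' h')).trans ?_⟩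
  · have h1 := hlip z x₁ (hin z h) x1
    have h2 : (∑ j ∈ t, w j * N j) * (1 / r) * |z - x₁| ≤ ε / 2 * ∑ j ∈ t, w j * N j := by
      have h3 : 1 / r * |z - x₁| ≤ ε / 2 := by
        calc 1 / r * |z - x₁| ≤ 1 / r * (r / D) := by gcongr
          _ = 1 / D := by field_simp
          _ ≤ ε / 2 := by rw [div_le_div_iff₀ D0 two_pos]; linarith
      rw [mul_assoc, mul_comm (ε / 2)]
      exact mul_le_mul_of_nonneg_left h3 m0
    have h3 := norm_le_norm_add_norm_sub' (∑ j ∈ t, (w j : ℂ) * (ee (z * δ j) * F j z))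
      (∑ j ∈ t, (w j : ℂ) * (ee (x₁ * δ j) * F j x₁))
    have h4 := norm_le_norm_add_norm_sub' (∑ j ∈ t, (w j : ℂ) * (ee (x₁ * δ j) * F j x₁))
      (∑ j ∈ t, (w j : ℂ) * (ee (x₁ * δ j) * F j x₀))
    linarith
  · refine mul_le_mul_of_nonneg_right ?_ (abs_nonneg _)
    calc (∑ j ∈ t, w j * N j) * (1 / r) ≤ (∑ j ∈ t, w j * N j) * (D * ε ^ 2 / r) := by
          gcongr
          linarith
      _ = (ε * ∑ j ∈ t, w j * N j) * (ε / (r / D)) := by field_simp
      _ ≤ _ := mul_le_mul_of_nonneg_right (le_add_of_nonneg_left (norm_nonneg _)) (by positivity)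

private lemma dolg2_sq {ι κ : Type} (s : Finset ι) (t : Finset κ) (P Z : ι → ℝ) (w N : κ → ℝ)
    {γ ε P₀ : ℝ} (ε0 : 0 ≤ ε) (hP : ∀ i ∈ s, 0 ≤ P i) (hP1 : ∑ i ∈ s, P i ≤ P₀)
    (hw : ∀ j ∈ t, 0 ≤ w j) (h1 : ∑ j ∈ t, w j ≤ 1)
    (hZ : ∑ i ∈ s, P i * Z i ^ 2 ≤ γ * (P₀ * ∑ j ∈ t, w j * N j ^ 2)) :
    ∑ i ∈ s, P i * (Z i + ε * ∑ j ∈ t, w j * N j) ^ 2 ≤
      (1 + ε) * (γ + ε) * (P₀ * ∑ j ∈ t, w j * N j ^ 2) := by
  have h2 := dolg2_cs t w N hw h1
  have h3 : 0 ≤ ∑ j ∈ t, w j * N j ^ 2 := (sq_nonneg _).trans h2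
  generalize ∑ j ∈ t, w j * N j = m at h2
  generalize ∑ j ∈ t, w j * N j ^ 2 = Q at h2 h3 hZ
  have h4 : ∑ i ∈ s, P i * (Z i + ε * m) ^ 2 ≤
      ∑ i ∈ s, ((1 + ε) * (P i * Z i ^ 2) + (1 + ε) * ε * Q * P i) := by
    refine Finset.sum_le_sum fun i hi => ?_
    have h5 : (Z i + ε * m) ^ 2 ≤ (1 + ε) * Z i ^ 2 + (1 + ε) * ε * Q := by
      nlinarith [mul_nonneg ε0 (sq_nonneg (Z i - m)),
        mul_le_mul_of_nonneg_left h2 (mul_nonneg (add_nonneg zero_le_one ε0) ε0)]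
    nlinarith [mul_le_mul_of_nonneg_left h5 (hP i hi)]
  rw [Finset.sum_add_distrib, ← Finset.mul_sum, ← Finset.mul_sum] at h4
  have h5 := mul_le_mul_of_nonneg_left hZ (add_nonneg zero_le_one ε0)
  have h6 := mul_le_mul_of_nonneg_left hP1
    (mul_nonneg (mul_nonneg (add_nonneg zero_le_one ε0) ε0) h3)
  linarith

/-- the oscillating mean over the subtree of depth `m` below `J` -/
private def dolg2F (l : ℕ) (q y : List S → ℝ) (g : List S → ℂ) : ℕ → List S → ℝ → ℂ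
  | 0, J, _ => g J
  | m + 1, J, z => ∑ a ∈ words S l, ((q (J ++ a) / q J : ℝ) : ℂ) *
      (ee (z * (y (J ++ a) - y J)) * dolg2F l q y g m (J ++ a) z)

open Classical in
/-- number of inner nodes where `b` holds -/
private def dolg2C (b : List S → Prop) (l k : ℕ) (w : List S) : ℕ :=
  ((Finset.Ico 1 k).filter fun i => b (w.take (i * l))).card

omit [Fintype S] [DecidableEq S] in
private lemma dolg2C_add (b : List S → Prop) (l n : ℕ) (w : List S) :
    dolg2C b l n w + nbr b l n w = n - 1 := by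
  rw [dolg2C, nbr, ← Nat.card_Ico 1 n]
  convert Finset.card_filter_add_card_filter_not (s := Finset.Ico 1 n) _

omit [Fintype S] [DecidableEq S] in
private lemma dolg2C_one (b : List S → Prop) (l : ℕ) (w : List S) : dolg2C b l 1 w = 0 := by
  simp [dolg2C]

omit [Fintype S] [DecidableEq S] in
open Classical in
private lemma dolg2C_succ (b : List S → Prop) {l k : ℕ} (hk : 1 ≤ k) {I : List S}
    (hI : I.length = k * l) (a : List S) :
    (dolg2C b l (k + 1) (I ++ a) : ℝ) = dolg2C b l k I + if b I then 1 else 0 := by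
  simp only [dolg2C, Finset.card_filter]
  push_cast
  rw [Finset.sum_Ico_succ_top hk, ← hI, List.take_left]
  congr 1
  refine Finset.sum_congr rfl fun i hi => ?_
  rw [List.take_append_of_le_length]
  rw [hI]
  exact Nat.mul_le_mul_right l (Finset.mem_Ico.1 hi).2.le

section

variable {l n : ℕ} {p q x y : List S → ℝ} {b b' : List S → Prop} {ρ σ D M c : ℝ}

private lemma dolg2_mul (T : Tree l n q y b σ D M c) (J : List S) {a : List S}
    (ha : a ∈ words S l) : q J * (q (J ++ a) / q J) = q (J ++ a) := by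
  rcases eq_or_ne (q J) 0 with h | h
  · have h1 := (Finset.single_le_sum (f := fun a => q (J ++ a)) (fun _ _ => T.nn _) ha).trans
      (T.sub J)
    rw [h, zero_mul]
    exact le_antisymm (T.nn _) (h ▸ h1)
  · field_simp

private lemma dolg2_le_one (T : Tree l n q y b σ D M c) (J : List S) :
    ∑ a ∈ words S l, q (J ++ a) / q J ≤ 1 := by
  rw [← Finset.sum_div]
  exact div_le_one_of_le₀ (T.sub J) (T.nn J)

private lemma dolg2_pos (T : Tree l n q y b σ D M c) {J a : List S}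
    (h : 0 < q (J ++ a) / q J) : 0 < q (J ++ a) :=
  (T.nn _).lt_of_ne fun e => by simp [← e] at h

private lemma dolg2_diam (T : Tree l n q y b σ D M c) {k : ℕ} (hk : k < n) (k0 : 0 < k)
    {J : List S} (hJ : J.length = k * l) (z : ℝ) : ∀ a ∈ words S l, ∀ a' ∈ words S l,
      0 < q (J ++ a) / q J → 0 < q (J ++ a') / q J →
        |y (J ++ a) - z - (y (J ++ a') - z)| ≤ σ / D ^ k := fun a ha a' ha' h h' => by
  have h1 := T.loc k hk k0 J a hJ (mem_words.1 ha) (dolg2_pos T h)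
  have h2 := T.loc k hk k0 J a' hJ (mem_words.1 ha') (dolg2_pos T h')
  rw [abs_le] at h1 h2 ⊢
  constructor <;> linarith [h1.1, h1.2, h2.1, h2.2]

open Classical in
private lemma dolg2_br (T : Tree l n q y b σ D M c) (c1 : c ≤ 1) {k : ℕ} (hk : k < n) (k0 : 0 < k)
    {J : List S} (hJ : J.length = k * l) (hb : b J) (z₀ z : ℝ) :
    ∑ a ∈ words S l with |y (J ++ a) - z₀ - z| ≤ σ / D ^ k / M, q (J ++ a) / q J ≤ 1 - c := by
  rw [← Finset.sum_div]
  refine div_le_of_le_mul₀ (T.nn J) (sub_nonneg.2 c1) ?_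
  simpa only [sub_sub] using T.br k hk k0 J hJ hb (z₀ + z)

private lemma dolg2_exp (T : Tree l n q y b σ D M c) (g : List S → ℂ) (z : ℝ) (m : ℕ) :
    ∀ J, (q J : ℂ) * (ee (z * y J) * dolg2F l q y g m J z) =
      ∑ v ∈ words S (m * l), (q (J ++ v) : ℂ) * (ee (z * y (J ++ v)) * g (J ++ v)) := by
  induction m with
  | zero => intro J; simp [dolg2F, words_zero]
  | succ m ih =>
    intro J
    rw [Nat.succ_mul, add_comm (m * l), sum_words_add, dolg2F, Finset.mul_sum, Finset.mul_sum]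
    refine Finset.sum_congr rfl fun a ha => ?_
    simp only [← List.append_assoc]
    rw [← ih, show z * y (J ++ a) = z * y J + z * (y (J ++ a) - y J) by ring, ee_add]
    conv_rhs => rw [← dolg2_mul T J ha]
    push_cast
    ring

private lemma dolg2_top (T : Tree l n q y b σ D M c) (g : List S → ℂ) (z : ℝ) (m : ℕ) :
    ‖∑ w ∈ words S ((m + 1) * l), (q w : ℂ) * (ee (z * y w) * g w)‖ ^ 2 ≤
      ∑ J ∈ words S l, q J * ‖dolg2F l q y g m J z‖ ^ 2 := by
  rw [Nat.succ_mul, add_comm (m * l), sum_words_add]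
  simp only [← dolg2_exp T g z m]
  exact dolg2_norm_sq _ _ _ _ (fun _ _ => T.nn _) (by simpa using (T.sub []).trans T.nil)

open Classical in
private lemma dolg2_gain (T₁ : Tree l n p x b ρ D M c) (T₂ : Tree l n q y b' σ D M c)
    (hρ : 0 < ρ) (hσ : 0 < σ) (hρσ : ρ * σ = D ^ n / 4) (c0 : 0 < c) (c1 : c ≤ 1) (hM : 1 ≤ M)
    (D0 : 0 < D) {k j : ℕ} (hn : k + j = n) (k0 : 0 < k) (j0 : 0 < j) {I J : List S}
    (hI : I.length = k * l) (hJ : J.length = j * l) (f : List S → ℂ) :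
    ∑ a ∈ words S l, p (I ++ a) * ‖∑ a' ∈ words S l, ((q (J ++ a') / q J : ℝ) : ℂ) *
      (ee (x (I ++ a) * (y (J ++ a') - y J)) * f a')‖ ^ 2 ≤
      (if b I ∧ b' J then 1 - c ^ 2 / (4 * M ^ 4) else 1) *
        (p I * ∑ a' ∈ words S l, q (J ++ a') / q J * ‖f a'‖ ^ 2) := by
  have hq : ∀ a ∈ words S l, 0 ≤ q (J ++ a) / q J := fun _ _ => div_nonneg (T₂.nn _) (T₂.nn _)
  split_ifs with h
  · have h1 := dolg_core (words S l) (words S l) (fun a => p (I ++ a) / p I) (fun a => x (I ++ a))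
      (fun a => q (J ++ a) / q J) (fun a => y (J ++ a) - y J) (ρ := ρ / D ^ k) (σ := σ / D ^ j)
      (by positivity) (by positivity) (by rw [div_mul_div_comm, hρσ, ← pow_add, hn]; field_simp)
      c0 c1 hM (fun _ _ => div_nonneg (T₁.nn _) (T₁.nn _)) (dolg2_le_one T₁ I) hq
      (dolg2_le_one T₂ J) (by simpa using dolg2_diam T₁ (by omega) k0 hI 0)
      (dolg2_diam T₂ (by omega) j0 hJ _)
      (fun z => by simpa using dolg2_br T₁ c1 (by omega) k0 hI h.1 0 z)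
      (dolg2_br T₂ c1 (by omega) j0 hJ h.2 _) f
    rw [mul_left_comm]
    refine le_trans (le_of_eq ?_) (mul_le_mul_of_nonneg_left h1 (T₁.nn I))
    rw [Finset.mul_sum]
    exact Finset.sum_congr rfl fun a ha => by rw [← mul_assoc, dolg2_mul T₁ I ha]
  · rw [one_mul]
    refine (Finset.sum_le_sum fun a _ => mul_le_mul_of_nonneg_left
      (dolg2_norm_sq _ _ _ _ hq (dolg2_le_one T₂ J)) (T₁.nn _)).trans ?_
    rw [← Finset.sum_mul]
    exact mul_le_mul_of_nonneg_right (T₁.sub I)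
      (Finset.sum_nonneg fun a ha => mul_nonneg (hq a ha) (sq_nonneg _))

private lemma dolg2_num {κ ε : ℝ} (ε0 : 0 ≤ ε) (κ0 : 0 ≤ κ) (κ1 : κ ≤ 1) (P Q : Prop) [Decidable P]
    [Decidable Q] [Decidable (P ∧ Q)] (s t : ℝ) :
    Real.exp (κ * (s + (if P then 1 else 0) - t)) *
      ((1 + ε) * ((if P ∧ Q then 1 - κ else 1) + ε)) ≤
      Real.exp (κ + 2 * ε) * Real.exp (κ * (s - (t + if Q then 1 else 0))) := by
  have h1 : 1 + ε ≤ Real.exp ε := by linarith [Real.add_one_le_exp ε]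
  have h2 : 1 - κ + ε ≤ Real.exp (ε - κ) := by linarith [Real.add_one_le_exp (ε - κ)]
  have h3 : ∀ a e e' : ℝ, 0 ≤ a → a ≤ Real.exp e' → e + ε + e' ≤
      κ + 2 * ε + κ * (s - (t + if Q then 1 else 0)) → Real.exp e * ((1 + ε) * a) ≤
      Real.exp (κ + 2 * ε) * Real.exp (κ * (s - (t + if Q then 1 else 0))) := by
    intro a e e' a0 ha h
    rw [← Real.exp_add]
    refine le_trans ?_ (Real.exp_le_exp.2 h)
    rw [add_assoc, Real.exp_add, Real.exp_add]
    gcongr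
  by_cases hP : P <;> by_cases hQ : Q
  · rw [if_pos (And.intro hP hQ)]
    exact h3 _ _ _ (by linarith) h2 (by rw [if_pos hP, if_pos hQ]; linarith)
  · rw [if_neg fun h : P ∧ Q => hQ h.2]
    exact h3 _ _ _ (by linarith) h1 (by rw [if_pos hP, if_neg hQ]; linarith)
  · rw [if_neg fun h : P ∧ Q => hP h.1]
    exact h3 _ _ _ (by linarith) h1 (by rw [if_neg hP, if_pos hQ]; linarith)
  · rw [if_neg fun h : P ∧ Q => hP h.1]
    exact h3 _ _ _ (by linarith) h1 (by rw [if_neg hP, if_neg hQ]; linarith)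

private lemma dolg2_ind (T₁ : Tree l n p x b ρ D M c) (T₂ : Tree l n q y b' σ D M c)
    (hρ : 0 < ρ) (hσ : 0 < σ) (hρσ : ρ * σ = D ^ n / 4) (c0 : 0 < c) (c1 : c ≤ 1) (hM : 1 ≤ M)
    {κ ε : ℝ} (hκ : κ = c ^ 2 / (4 * M ^ 4)) (κ0 : 0 ≤ κ) (κ1 : κ ≤ 1) (ε0 : 0 < ε)
    (ε1 : ε ≤ 1 / 40) (hD : 4 / ε ^ 2 ≤ D) (g : List S → ℂ) (m : ℕ) :
    ∀ j, m + j = n → 0 < j → ∃ N : List S → List S → ℝ,
      (∀ I J, I.length = (m + 1) * l → J.length = j * l → 0 < p I →
        Dolg2Ok (dolg2F l q y g m J) (x I) (ρ / D ^ (m + 1)) ε (N I J)) ∧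
      ∑ I ∈ words S ((m + 1) * l), ∑ J ∈ words S (j * l),
        Real.exp (κ * (dolg2C b l (m + 1) I - dolg2C b' l j J)) * (q J * (p I * N I J ^ 2)) ≤
      Real.exp (κ + 2 * ε) ^ m * ∑ J ∈ words S (n * l),
        Real.exp (κ * (0 - dolg2C b' l n J)) * (q J * ‖g J‖ ^ 2) := by
  classical
  have D0 : 0 < D := lt_of_lt_of_le (by positivity) hD
  induction m with
  | zero =>
    intro j hj _
    rw [zero_add] at hj
    subst hj
    refine ⟨fun _ J => ‖g J‖, fun I J _ _ _ => ⟨fun _ _ => le_rfl, fun z z' _ _ => ?_⟩, ?_⟩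
    · simp only [dolg2F, sub_self, norm_zero]
      positivity
    · rw [Finset.sum_comm, pow_zero, one_mul]
      refine Finset.sum_le_sum fun J _ => ?_
      simp only [zero_add, dolg2C_one, Nat.cast_zero, one_mul]
      rw [← Finset.mul_sum, ← Finset.mul_sum, ← Finset.sum_mul]
      refine mul_le_mul_of_nonneg_left (mul_le_mul_of_nonneg_left
        (mul_le_of_le_one_left (sq_nonneg _) ?_) (T₂.nn J)) (Real.exp_pos _).le
      simpa using (T₁.sub []).trans T₁.nil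
  | succ m ih =>
    intro j hj j0
    obtain ⟨N, h1, h2⟩ := ih (j + 1) (by omega) (by omega)
    have hq : ∀ J, ∀ a ∈ words S l, 0 ≤ q (J ++ a) / q J := fun _ _ _ =>
      div_nonneg (T₂.nn _) (T₂.nn _)
    have hl : ∀ J : List S, J.length = j * l → ∀ a ∈ words S l, (J ++ a).length = (j + 1) * l :=
      fun J hJ a ha => by rw [List.length_append, hJ, mem_words.1 ha, Nat.succ_mul]
    refine ⟨fun I' J => ‖∑ a ∈ words S l, ((q (J ++ a) / q J : ℝ) : ℂ) *
      (ee (x I' * (y (J ++ a) - y J)) * dolg2F l q y g m (J ++ a) (x (I'.take ((m + 1) * l))))‖ +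
      ε * ∑ a ∈ words S l, q (J ++ a) / q J * N (I'.take ((m + 1) * l)) (J ++ a),
      fun I' J hI' hJ hp => ?_, ?_⟩
    · obtain ⟨I, a, rfl, hI, ha⟩ : ∃ I a : List S, I' = I ++ a ∧ I.length = (m + 1) * l ∧
          a.length = l := ⟨I'.take ((m + 1) * l), I'.drop ((m + 1) * l), by simp, by
            rw [List.length_take, hI', Nat.succ_mul (m + 1)]; omega, by
            rw [List.length_drop, hI', Nat.succ_mul (m + 1)]; omega⟩
      have hpI : 0 < p I := hp.trans_le ((Finset.single_le_sum (f := fun a => p (I ++ a))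
        (fun _ _ => T₁.nn _) (mem_words.2 ha)).trans (T₁.sub I))
      beta_reduce
      rw [show (I ++ a).take ((m + 1) * l) = I by rw [← hI, List.take_left], pow_succ D (m + 1),
        ← div_div]
      refine dolg2_ok (words S l) (fun a => q (J ++ a) / q J) (fun a => y (J ++ a) - y J)
        (fun a => N I (J ++ a)) (fun a => dolg2F l q y g m (J ++ a)) (by positivity) ε0 ε1 hD (hq J)
        (fun a' ha' h => ?_) (fun a' ha' => h1 I _ hI (hl J hJ a' ha') hpI)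
        (T₁.loc (m + 1) (by omega) (by omega) I a hI ha hp)
      have h3 := T₂.loc j (by omega) j0 J a' hJ (mem_words.1 ha') (dolg2_pos T₂ h)
      refine (mul_le_mul_of_nonneg_right h3 (by positivity)).trans (le_of_eq ?_)
      have h4 : σ * ρ = D ^ j * D ^ (m + 1) / 4 := by
        rw [mul_comm, hρσ, ← pow_add, ← hj, add_comm]
      rw [div_right_comm, div_mul_div_comm, div_mul_eq_mul_div, h4]
      field_simp
      norm_num
    · rw [pow_succ' _ m, mul_assoc]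
      refine le_trans ?_ (mul_le_mul_of_nonneg_left h2 (Real.exp_pos _).le)
      rw [Nat.succ_mul (m + 1), sum_words_add, Finset.mul_sum]
      refine Finset.sum_le_sum fun I hI => ?_
      rw [mem_words] at hI
      rw [Finset.sum_comm, Nat.succ_mul j, sum_words_add, Finset.mul_sum]
      refine Finset.sum_le_sum fun J hJ => ?_
      rw [mem_words] at hJ
      have e1 : ∀ a, (I ++ a).take ((m + 1) * l) = I := fun a => by rw [← hI, List.take_left]
      simp only [e1, dolg2C_succ b (Nat.le_add_left 1 m) hI, dolg2C_succ b' j0 hJ]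
      have e2 : ∑ a ∈ words S l, q (J ++ a) * (p I * N I (J ++ a) ^ 2) =
          q J * (p I * ∑ a ∈ words S l, q (J ++ a) / q J * N I (J ++ a) ^ 2) := by
        rw [Finset.mul_sum, Finset.mul_sum]
        refine Finset.sum_congr rfl fun a ha => ?_
        conv_lhs => rw [← dolg2_mul T₂ J ha]
        ring
      rw [← Finset.mul_sum, ← Finset.mul_sum, ← Finset.mul_sum, e2]
      have h3 := dolg2_gain T₁ T₂ hρ hσ hρσ c0 c1 hM D0 hj (by omega) j0 hI hJ
        fun a => dolg2F l q y g m (J ++ a) (x I)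
      have h4 : p I * ∑ a ∈ words S l, q (J ++ a) / q J * ‖dolg2F l q y g m (J ++ a) (x I)‖ ^ 2 ≤
          p I * ∑ a ∈ words S l, q (J ++ a) / q J * N I (J ++ a) ^ 2 := by
        rcases (T₁.nn I).eq_or_lt with h | h
        · rw [← h, zero_mul, zero_mul]
        refine mul_le_mul_of_nonneg_left (Finset.sum_le_sum fun a ha => mul_le_mul_of_nonneg_left
          (pow_le_pow_left₀ (norm_nonneg _) ((h1 I _ hI (hl J hJ a ha) h).1 _ ?_) 2) (hq J a ha))
          h.le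
        rw [sub_self, abs_zero]
        positivity
      rw [← hκ] at h3
      have h5 := dolg2_sq _ _ _ _ _ _ ε0.le (fun _ _ => T₁.nn _) (T₁.sub I) (hq J)
        (dolg2_le_one T₂ J) (h3.trans (mul_le_mul_of_nonneg_left h4 (by split_ifs <;> linarith)))
      have h6 := dolg2_num ε0.le κ0 κ1 (b I) (b' J) (dolg2C b l (m + 1) I) (dolg2C b' l j J)
      have h7 : 0 ≤ q J * (p I * ∑ a ∈ words S l, q (J ++ a) / q J * N I (J ++ a) ^ 2) :=
        mul_nonneg (T₂.nn J) (mul_nonneg (T₁.nn I)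
          (Finset.sum_nonneg fun a ha => mul_nonneg (hq J a ha) (sq_nonneg _)))
      refine (mul_le_mul_of_nonneg_left (mul_le_mul_of_nonneg_left h5 (T₂.nn J))
        (Real.exp_pos _).le).trans ?_
      rw [← mul_assoc (Real.exp (κ + 2 * ε))]
      refine le_trans (le_of_eq ?_) (mul_le_mul_of_nonneg_right h6 h7)
      ring

end

theorem dolg {l n : ℕ} (hn : 10 ≤ n) {p q x y : List S → ℝ} {b b' : List S → Prop}
    {ρ σ D M c α β : ℝ} (T₁ : Tree l n p x b ρ D M c) (T₂ : Tree l n q y b' σ D M c)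
    (hρ : 0 < ρ) (hσ : 0 < σ) (hρσ : ρ * σ = D ^ n / 4) (c0 : 0 < c) (c1 : c ≤ 1) (hM : 1 ≤ M)
    (hD : 6400 * M ^ 8 / c ^ 4 ≤ D) (α0 : 0 < α) (β0 : 0 < β) {A B : Finset (List S)}
    (hA : ∀ w ∈ A, w.length = n * l ∧ α ≤ p w ∧ 20 * nbr b l n w ≤ n)
    (hB : ∀ w ∈ B, w.length = n * l ∧ β ≤ q w ∧ 20 * nbr b' l n w ≤ n) (f : List S → ℂ) :
    ∑ w ∈ A, ‖∑ w' ∈ B, f w' * ee (x w * y w')‖ ^ 2
      ≤ Real.exp (-(c ^ 2 / (4 * M ^ 4) * n / 2)) / (α * β) * ∑ w' ∈ B, ‖f w'‖ ^ 2 := by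
  obtain ⟨m, rfl⟩ : ∃ m, n = m + 1 := ⟨n - 1, by omega⟩
  obtain ⟨κ, hκ⟩ : ∃ κ, κ = c ^ 2 / (4 * M ^ 4) := ⟨_, rfl⟩
  have M0 : 0 < M := by linarith
  have κ0 : 0 < κ := by rw [hκ]; positivity
  have κ1 : κ ≤ 1 / 4 := by
    rw [hκ, div_le_div_iff₀ (by positivity) (by positivity)]
    nlinarith [one_le_pow₀ (n := 4) hM, pow_le_one₀ (n := 2) c0.le c1]
  have D0 : 0 < D := lt_of_lt_of_le (by positivity) hD
  obtain ⟨N, h1, h2⟩ := dolg2_ind T₁ T₂ hρ hσ hρσ c0 c1 hM hκ κ0.le (by linarith)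
    (ε := κ / 10) (by positivity) (by linarith)
    (le_trans (le_of_eq (by rw [hκ]; field_simp; norm_num)) hD)
    (fun w => if w ∈ B then f w / q w else 0) m 1 rfl one_pos
  have hm : (9 : ℝ) ≤ m := by exact_mod_cast (by omega : 9 ≤ m)
  have hc : ∀ (b : List S → Prop) (w : List S), 20 * nbr b l (m + 1) w ≤ m + 1 →
      (m : ℝ) - (m + 1) / 20 ≤ dolg2C b l (m + 1) w := fun b w h => by
    have h3 := dolg2C_add b l (m + 1) w
    rw [Nat.add_sub_cancel] at h3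
    have h4 : (dolg2C b l (m + 1) w : ℝ) + nbr b l (m + 1) w = m := by exact_mod_cast h3
    have h5 : 20 * (nbr b l (m + 1) w : ℝ) ≤ m + 1 := by exact_mod_cast h
    linarith
  have sA : A ⊆ words S ((m + 1) * l) := fun w hw => mem_words.2 (hA w hw).1
  have sB : B ⊆ words S ((m + 1) * l) := fun w hw => mem_words.2 (hB w hw).1
  have q0 : ∀ w ∈ B, 0 < q w := fun w hw => β0.trans_le (hB w hw).2.1
  have hL : Real.exp (κ * (m - (m + 1) / 20)) * α *
      ∑ w ∈ A, ‖∑ w' ∈ B, f w' * ee (x w * y w')‖ ^ 2 ≤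
      ∑ I ∈ words S ((m + 1) * l), ∑ J ∈ words S (1 * l), Real.exp
        (κ * (dolg2C b l (m + 1) I - dolg2C b' l 1 J)) * (q J * (p I * N I J ^ 2)) := by
    refine le_trans ?_ (Finset.sum_le_sum_of_subset_of_nonneg sA fun I _ _ => Finset.sum_nonneg
      fun J _ => mul_nonneg (Real.exp_pos _).le
        (mul_nonneg (T₂.nn J) (mul_nonneg (T₁.nn I) (sq_nonneg _))))
    rw [Finset.mul_sum]
    refine Finset.sum_le_sum fun w hw => ?_
    obtain ⟨hw1, hw2, hw3⟩ := hA w hw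
    have h3 := dolg2_top T₂ (fun w => if w ∈ B then f w / q w else 0) (x w) m
    rw [← Finset.sum_subset sB fun w' _ h => by simp [h]] at h3
    have h4 : ∑ w' ∈ B, f w' * ee (x w * y w') =
        ∑ w' ∈ B, (q w' : ℂ) * (ee (x w * y w') * if w' ∈ B then f w' / q w' else 0) := by
      refine Finset.sum_congr rfl fun w' h => ?_
      have : (q w' : ℂ) ≠ 0 := Complex.ofReal_ne_zero.2 (q0 w' h).ne'
      rw [if_pos h]
      field_simp
    simp only [dolg2C_one, Nat.cast_zero, sub_zero, one_mul, mul_left_comm (q _) (p w)]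
    rw [← Finset.mul_sum, ← Finset.mul_sum, h4, mul_assoc]
    refine mul_le_mul (Real.exp_le_exp.2 (mul_le_mul_of_nonneg_left (hc b w hw3) κ0.le))
      (mul_le_mul hw2 (h3.trans (Finset.sum_le_sum fun J hJ => mul_le_mul_of_nonneg_left
        (pow_le_pow_left₀ (norm_nonneg _) ((h1 w J hw1 (by rw [one_mul, mem_words.1 hJ])
          (α0.trans_le hw2)).1 _ ?_) 2) (T₂.nn J))) (sq_nonneg _) (T₁.nn w)) (by positivity)
      (Real.exp_pos _).le
    rw [sub_self, abs_zero]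
    positivity
  have hR : ∑ J ∈ words S ((m + 1) * l), Real.exp (κ * (0 - dolg2C b' l (m + 1) J)) *
      (q J * ‖if J ∈ B then f J / q J else 0‖ ^ 2) ≤
      Real.exp (-(κ * (m - (m + 1) / 20))) / β * ∑ w' ∈ B, ‖f w'‖ ^ 2 := by
    rw [← Finset.sum_subset sB fun w' _ h => by simp [h], Finset.mul_sum]
    refine Finset.sum_le_sum fun w hw => ?_
    have h3 := q0 w hw
    have h4 : q w * ‖if w ∈ B then f w / q w else 0‖ ^ 2 = ‖f w‖ ^ 2 / q w := by
      rw [if_pos hw, norm_div, Complex.norm_real, Real.norm_of_nonneg h3.le]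
      field_simp
    rw [h4, div_mul_eq_mul_div, mul_div_assoc]
    refine mul_le_mul (Real.exp_le_exp.2 ?_)
      (div_le_div_of_nonneg_left (sq_nonneg _) β0 (hB w hw).2.1) (by positivity) (Real.exp_pos _).le
    nlinarith [mul_le_mul_of_nonneg_left (hc b' w (hB w hw).2.2) κ0.le]
  have h3 := (hL.trans h2).trans (mul_le_mul_of_nonneg_left hR (by positivity))
  have h4 : 0 ≤ ∑ w' ∈ B, ‖f w'‖ ^ 2 := Finset.sum_nonneg fun _ _ => sq_nonneg _
  refine le_of_mul_le_mul_left (h3.trans ?_) (by positivity)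
  rw [← hκ, ← Real.exp_nat_mul]
  have h5 : Real.exp (m * (κ + 2 * (κ / 10))) * Real.exp (-(κ * (m - (m + 1) / 20))) ≤
      Real.exp (κ * (m - (m + 1) / 20)) * Real.exp (-(κ * ((m + 1 : ℕ) : ℝ) / 2)) := by
    rw [← Real.exp_add, ← Real.exp_add, Real.exp_le_exp]
    push_cast
    nlinarith [mul_le_mul_of_nonneg_left hm κ0.le]
  refine le_trans (le_of_eq ?_) ((mul_le_mul_of_nonneg_right h5 (div_nonneg h4 β0.le)).trans
    (le_of_eq ?_))
  · ring
  · field_simp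

end Pool.Agent.Lib.MP_a52643_an.SE
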