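import Pool.Agent.Lib.MP_a52643_an.SE.Loc1

/-!
The uncertainty property from matrix bounds.
-/

open MeasureTheory Set Filter Topology Metric UpperHalfPlane
open scoped ENNReal MatrixGroups Real FourierTransform ComplexConjugate

noncomputable section

namespace Pool.Agent.Lib.MP_a52643_an.SE

open NS

private lemma loc2_floor {l t : ℝ} (hl : 0 < l) {n : ℤ} :
    t ∈ Ico (n * l) ((n + 1) * l) ↔ ⌊t / l⌋ = n := by
  rw [Int.floor_eq_iff, le_div_iff₀ hl, div_lt_iff₀ hl, mem_Ico]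

/-- duality: a bound for the values of the transform gives a bound for exponential sums -/
private lemma loc2_dual {σ : Type} (s : Finset σ) (z : σ → ℝ) (c : σ → ℂ) {E : Set ℝ}
    (hE : MeasurableSet E) {R B : ℝ} (hER : E ⊆ Icc (-R) R) (hB : 0 ≤ B)
    (hb : ∀ h : ℝ → ℂ, Nice h → (∀ t, h t ≠ 0 → t ∈ E) →
      ∑ p ∈ s, ‖𝓕 h (z p)‖ₑ ^ 2 ≤ ENNReal.ofReal B * n2 h) :
    ∫⁻ ξ in E, ‖∑ p ∈ s, c p * ee (z p * ξ)‖ₑ ^ 2
      ≤ ENNReal.ofReal (B * ∑ p ∈ s, ‖c p‖ ^ 2) := by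
  obtain ⟨g, hg⟩ : ∃ g : ℝ → ℂ, g = fun ξ => ∑ p ∈ s, c p * ee (z p * ξ) := ⟨_, rfl⟩
  have hc : Continuous g := by rw [hg]; fun_prop
  obtain ⟨G, hG⟩ : ∃ G : ℝ → ℂ, G = E.indicator fun ξ => conj (g ξ) := ⟨_, rfl⟩
  have hGn : Nice G := by
    rw [hG]
    refine ⟨(Complex.continuous_conj.comp hc).measurable.indicator hE,
      ⟨∑ p ∈ s, ‖c p‖, fun ξ => ?_⟩, ⟨R, fun ξ hξ => ?_⟩⟩
    · refine (norm_indicator_le_norm_self _ _).trans ?_
      rw [Complex.norm_conj, hg]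
      refine (norm_sum_le _ _).trans (le_of_eq (Finset.sum_congr rfl fun p _ => ?_))
      rw [norm_mul, norm_ee, mul_one]
    · exact indicator_of_notMem (fun h' => absurd (abs_le.2 (hER h')) (not_le.2 hξ)) _
  have hGs : ∀ t, G t ≠ 0 → t ∈ E := fun t ht => by
    by_contra h'
    exact ht (by rw [hG]; exact indicator_of_notMem h' _)
  have hN : n2 G = ∫⁻ ξ in E, ‖g ξ‖ₑ ^ 2 := by
    rw [n2, ← lintegral_indicator hE]
    refine lintegral_congr fun ξ => ?_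
    by_cases hξ : ξ ∈ E
    · rw [hG, indicator_of_mem hξ, indicator_of_mem hξ, ← ofReal_norm,
        Complex.norm_conj, ofReal_norm]
    · rw [hG, indicator_of_notMem hξ, indicator_of_notMem hξ]
      simp
  have hprod : ∀ ξ, g ξ * G ξ = ((‖G ξ‖ ^ 2 : ℝ) : ℂ) := fun ξ => by
    by_cases hξ : ξ ∈ E
    · rw [hG, indicator_of_mem hξ, Complex.mul_conj', Complex.norm_conj]
      push_cast
      rfl
    · rw [hG, indicator_of_notMem hξ]
      simp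
  obtain ⟨a, ha⟩ : ∃ a : ℝ, a = ∫ ξ, ‖G ξ‖ ^ 2 := ⟨_, rfl⟩
  have ha0 : 0 ≤ a := ha ▸ integral_nonneg fun ξ => sq_nonneg _
  have hE1 : n2 G = ENNReal.ofReal a := by
    rw [ha, ofReal_integral_eq_lintegral_ofReal
        ((memLp_two_iff_integrable_sq_norm hGn.meas.aestronglyMeasurable).1 hGn.memLp)
        (Eventually.of_forall fun ξ => sq_nonneg _), n2]
    exact lintegral_congr fun ξ => fou_sq _
  have hint : ∀ p, Integrable fun ξ => ee (ξ * z p) * G ξ := fun p =>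
    hGn.integrable.bdd_mul (c := 1)
      (by fun_prop : Continuous fun y : ℝ => ee (y * z p)).aestronglyMeasurable
      (Eventually.of_forall fun y => (norm_ee _).le)
  have hE2 : (a : ℂ) = ∑ p ∈ s, c p * 𝓕 G (z p) := by
    rw [ha, ← integral_complex_ofReal]
    simp_rw [← hprod, ft_eq, ← integral_const_mul]
    rw [← integral_finsetSum _ fun p _ => (hint p).const_mul _]
    congr 1
    ext ξ
    rw [hg, Finset.sum_mul]
    exact Finset.sum_congr rfl fun p _ => by rw [mul_comm (z p), mul_assoc]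
  have h1 : ∑ p ∈ s, ‖𝓕 G (z p)‖ ^ 2 ≤ B * a := by
    have h := hb G hGn hGs
    simp_rw [fou_sq] at h
    rw [hE1, ← ENNReal.ofReal_mul hB, ← ENNReal.ofReal_sum_of_nonneg fun p _ => sq_nonneg _] at h
    exact (ENNReal.ofReal_le_ofReal_iff (mul_nonneg hB ha0)).1 h
  have h2 : a ≤ ∑ p ∈ s, ‖c p‖ * ‖𝓕 G (z p)‖ := by
    calc a = ‖(a : ℂ)‖ := by rw [Complex.norm_real, Real.norm_of_nonneg ha0]
      _ ≤ _ := by
        rw [hE2]
        exact (norm_sum_le _ _).trans (le_of_eq (Finset.sum_congr rfl fun p _ => norm_mul _ _))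
  have hS : 0 ≤ ∑ p ∈ s, ‖c p‖ ^ 2 := Finset.sum_nonneg fun p _ => sq_nonneg _
  have h3 : a ^ 2 ≤ (∑ p ∈ s, ‖c p‖ ^ 2) * (B * a) :=
    ((pow_le_pow_left₀ ha0 h2 2).trans (Finset.sum_mul_sq_le_sq_mul_sq s _ _)).trans
      (mul_le_mul_of_nonneg_left h1 hS)
  have h4 : a ≤ B * ∑ p ∈ s, ‖c p‖ ^ 2 := by
    rcases ha0.eq_or_lt with h | h
    · rw [← h]; exact mul_nonneg hB hS
    · exact le_of_mul_le_mul_right (by nlinarith) h
  have := hN.symm.trans hE1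
  rw [hg] at this
  rw [this]
  exact ENNReal.ofReal_le_ofReal h4

/-- values of the transform at the points of finitely many cells -/
private lemma loc2_pts {ι κ : Type} {dy lx A : ℝ} (hdy : 0 ≤ dy) (hlx : 0 < lx) (hA : 0 ≤ A)
    (I : ℤ → Finset ι) (x : ℤ → ι → ℝ) (J : Finset κ) (y : κ → ℝ)
    (hx : ∀ n : ℤ, ∀ i ∈ I n, x n i ∈ Ico (n * lx) ((n + 1) * lx))
    (H : ∀ (n : ℤ) (f : κ → ℂ), ∑ i ∈ I n, ‖∑ j ∈ J, f j * ee (x n i * y j)‖ ^ 2
      ≤ A * ∑ j ∈ J, ‖f j‖ ^ 2) (N : Finset ℤ) {h : ℝ → ℂ} (hh : Nice h)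
    (hs : ∀ t, h t ≠ 0 → ∃ j ∈ J, |t - y j| ≤ dy) :
    ∑ p ∈ N.sigma I, ‖𝓕 h (x p.1 p.2)‖ₑ ^ 2
      ≤ ENNReal.ofReal ((2 / lx + 8 * π ^ 2 * lx * dy ^ 2) * A) * n2 h := by
  classical
  have hfin : IsFiniteMeasure (∑ p ∈ N.sigma I, Measure.dirac (x p.1 p.2) : Measure ℝ) := by
    refine ⟨?_⟩
    rw [Measure.finsetSum_apply]
    exact ENNReal.sum_lt_top.2 fun p _ => measure_lt_top _ _
  have key := loc_one J y (∑ p ∈ N.sigma I, Measure.dirac (x p.1 p.2)) hdy hlx hA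
    (fun n c => ?_) hh hs
  · rw [lintegral_finsetSum_measure] at key
    simpa only [lintegral_dirac] using key
  · rw [← lintegral_indicator measurableSet_Ico, lintegral_finsetSum_measure]
    simp only [lintegral_dirac]
    refine le_trans ?_ (ENNReal.ofReal_le_ofReal (H n c))
    rw [ENNReal.ofReal_sum_of_nonneg fun p _ => sq_nonneg _, Finset.sum_sigma]
    have hz : ∀ n' ∈ N, n' ≠ n → ∑ i ∈ I n', (Ico (n * lx) ((n + 1) * lx)).indicator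
        (fun ξ => ‖∑ j ∈ J, c j * ee (y j * ξ)‖ₑ ^ 2) (x n' i) = 0 := fun n' _ hn =>
      Finset.sum_eq_zero fun i hi => indicator_of_notMem (fun h' => hn
        (((loc2_floor hlx).1 (hx n' i hi)).symm.trans ((loc2_floor hlx).1 h'))) _
    have hle : ∑ i ∈ I n, (Ico (n * lx) ((n + 1) * lx)).indicator
        (fun ξ => ‖∑ j ∈ J, c j * ee (y j * ξ)‖ₑ ^ 2) (x n i)
        ≤ ∑ i ∈ I n, ENNReal.ofReal (‖∑ j ∈ J, c j * ee (x n i * y j)‖ ^ 2) := by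
      refine Finset.sum_le_sum fun i hi => ?_
      rw [indicator_of_mem (hx n i hi), fou_sq]
      simp only [mul_comm (x n i), le_refl]
    by_cases hn : n ∈ N
    · rw [Finset.sum_eq_single_of_mem n hn hz]
      exact hle
    · rw [Finset.sum_eq_zero fun n' hn' => hz n' hn' fun e => hn (e ▸ hn')]
      exact zero_le

theorem loc_two {ι κ : Type} {X Y : Set ℝ} {dx dy lx ly A : ℝ} (hdx : 0 ≤ dx) (hdy : 0 ≤ dy)
    (hlx : 0 < lx) (hly : 0 < ly) (hA : 0 ≤ A) (I : ℤ → Finset ι) (x : ℤ → ι → ℝ)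
    (J : ℤ → Finset κ) (y : ℤ → κ → ℝ)
    (hX : ∀ n : ℤ, ∀ t ∈ X, t ∈ Ico (n * lx) ((n + 1) * lx) → ∃ i ∈ I n, |t - x n i| ≤ dx)
    (hx : ∀ n : ℤ, ∀ i ∈ I n, x n i ∈ Ico (n * lx) ((n + 1) * lx))
    (hY : ∀ k : ℤ, ∀ t ∈ Y, t ∈ Ico (k * ly) ((k + 1) * ly) → ∃ j ∈ J k, |t - y k j| ≤ dy)
    (H : ∀ (n k : ℤ) (f : κ → ℂ), ∑ i ∈ I n, ‖∑ j ∈ J k, f j * ee (x n i * y k j)‖ ^ 2
      ≤ A * ∑ j ∈ J k, ‖f j‖ ^ 2) :
    UP X Y ((2 / ly + 8 * π ^ 2 * ly * dx ^ 2) * ((2 / lx + 8 * π ^ 2 * lx * dy ^ 2) * A)) := by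
  intro f hf hs Ξ
  obtain ⟨R, hR⟩ := hf.supp
  obtain ⟨Z, hZ⟩ : ∃ Z : ℤ → Set ℝ, Z = fun k => ⋃ j ∈ J k, closedBall (y k j) dy := ⟨_, rfl⟩
  have hZm : ∀ k, MeasurableSet (Z k) := fun k => by
    rw [hZ]
    exact Finset.measurableSet_biUnion _ fun j _ => measurableSet_closedBall
  have hZi : ∀ k t, t ∈ Z k ↔ ∃ j ∈ J k, |t - y k j| ≤ dy := fun k t => by
    simp only [hZ, mem_iUnion, mem_closedBall, Real.dist_eq, exists_prop]
  obtain ⟨W, hW⟩ : ∃ W : Set ℝ,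
      W = (⋃ k : ℤ, Ico (k * ly) ((k + 1) * ly) ∩ Z k) ∩ Icc (-Ξ) Ξ := ⟨_, rfl⟩
  have hWm : MeasurableSet W := by
    rw [hW]
    exact (MeasurableSet.iUnion fun k => measurableSet_Ico.inter (hZm k)).inter measurableSet_Icc
  have hWI : W ⊆ Icc (-Ξ) Ξ := by rw [hW]; exact inter_subset_right
  have hYW : Y ∩ Icc (-Ξ) Ξ ⊆ W := by
    rw [hW]
    refine inter_subset_inter_left _ fun t ht => ?_
    have h1 := (loc2_floor (t := t) hly).2 rfl
    exact mem_iUnion.2 ⟨_, h1, (hZi _ _).2 (hY _ t ht h1)⟩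
  have hWZ : ∀ (k : ℤ) t, t ∈ Ico (k * ly) ((k + 1) * ly) ∩ W → t ∈ Z k := fun k t ht => by
    rw [hW] at ht
    obtain ⟨k', h1, h2⟩ := mem_iUnion.1 ht.2.1
    rwa [((loc2_floor hly).1 ht.1).symm.trans ((loc2_floor hly).1 h1)]
  have hfin : IsFiniteMeasure (volume.restrict W) :=
    isFiniteMeasure_restrict.2 ((measure_mono hWI).trans_lt measure_Icc_lt_top).ne
  have hB : 0 ≤ (2 / lx + 8 * π ^ 2 * lx * dy ^ 2) * A := by positivity
  refine (lintegral_mono_set hYW).trans (loc_one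
    ((Finset.Icc ⌊-R / lx⌋ ⌊R / lx⌋).sigma I) (fun p => x p.1 p.2) (volume.restrict W) hdx hly hB
    (fun k c => ?_) hf fun t ht => ?_)
  · rw [Measure.restrict_restrict measurableSet_Ico]
    refine loc2_dual _ (fun p : (Σ _ : ℤ, ι) => x p.1 p.2) c (measurableSet_Ico.inter hWm)
      (inter_subset_right.trans hWI) hB fun h hh hE => ?_
    exact loc2_pts hdy hlx hA I x (J k) (y k) hx (fun n => H n k) _ hh
      fun t ht => (hZi k t).1 (hWZ k t (hE t ht))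
  · have h1 : t ∈ X := by_contra fun h' => ht (hs t h')
    have h2 := abs_le.1 (le_of_not_gt fun h' => ht (hR t h'))
    obtain ⟨i, hi, h3⟩ := hX _ t h1 ((loc2_floor hlx).2 rfl)
    refine ⟨⟨⌊t / lx⌋, i⟩, Finset.mem_sigma.2 ⟨Finset.mem_Icc.2 ⟨?_, ?_⟩, hi⟩, h3⟩
    · exact Int.floor_mono (div_le_div_of_nonneg_right h2.1 hlx.le)
    · exact Int.floor_mono (div_le_div_of_nonneg_right h2.2 hlx.le)

end Pool.Agent.Lib.MP_a52643_an.SE
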