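import Pool.Agent.Lib.MP_a52643_an.SE.Sym2
import Pool.Agent.Lib.MP_a52643_an.SE.Dolg2
import Pool.Agent.Lib.MP_a52643_an.SE.Loc2

/-!
The uncertainty property for sets of names.
-/

open MeasureTheory Set Filter Topology Metric UpperHalfPlane
open scoped ENNReal MatrixGroups Real FourierTransform ComplexConjugate

noncomputable section

namespace Pool.Agent.Lib.MP_a52643_an.SE

open NS

variable {Γ : Type} [Group Γ] [MulAction Γ ℍ] {e : ℝ} {S : Type} [Fintype S] [DecidableEq S]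
  {ctr ctr' : S → ℍ × ℍ}

variable (Γ) in
/-- the word `u` is the name of a point of the cell `k` -/
def FupPr (ctr : S → ℍ × ℍ) (r τ : ℝ) (g : SL2) (t : ℝ) (k : ℤ) (u : List S) : Prop :=
  ∃ x, x ∈ Ico (k * (r * Real.exp (-t))) ((k + 1) * (r * Real.exp (-t))) ∧
    Nm Γ ctr r (fun j => g • pt x (-t - j * τ)) u

variable (Γ) in
/-- a point of the cell `k` with the name `u` -/
def fupPt (ctr : S → ℍ × ℍ) (r τ : ℝ) (g : SL2) (t : ℝ) (k : ℤ) (u : List S) : ℝ :=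
  Classical.epsilon fun x => x ∈ Ico (k * (r * Real.exp (-t))) ((k + 1) * (r * Real.exp (-t))) ∧
    Nm Γ ctr r (fun j => g • pt x (-t - j * τ)) u

omit [Fintype S] [DecidableEq S] in
lemma FupPr.spec {r τ t : ℝ} {g : SL2} {k : ℤ} {u : List S} (h : FupPr Γ ctr r τ g t k u) :
    fupPt Γ ctr r τ g t k u ∈ Ico (k * (r * Real.exp (-t))) ((k + 1) * (r * Real.exp (-t))) ∧
      Nm Γ ctr r (fun j => g • pt (fupPt Γ ctr r τ g t k u) (-t - j * τ)) u :=
  Classical.epsilon_spec h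

omit [Fintype S] [DecidableEq S] in
lemma FupPr.left {r τ t : ℝ} {g : SL2} {k : ℤ} {u v : List S}
    (h : FupPr Γ ctr r τ g t k (u ++ v)) : FupPr Γ ctr r τ g t k u :=
  h.imp fun _ hx => ⟨hx.1, hx.2.left⟩

lemma fup_cell {l x y : ℝ} {k : ℤ} (hx : x ∈ Ico (k * l) ((k + 1) * l))
    (hy : y ∈ Ico (k * l) ((k + 1) * l)) : |x - y| ≤ l :=
  abs_le.2 ⟨by linarith [hx.1, hy.2], by linarith [hx.2, hy.1]⟩

lemma fup_num {r : ℝ} (r0 : 0 < r) (r2 : r ≤ 1 / 10) (t : ℝ) :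
    2 / (r * Real.exp (-t)) + 8 * π ^ 2 * (r * Real.exp (-t)) * (Real.exp t / 4) ^ 2
      ≤ 3 / r * Real.exp t := by
  have e0 := Real.exp_pos t
  have p1 : π ^ 2 ≤ 4 ^ 2 := pow_le_pow_left₀ Real.pi_pos.le Real.pi_le_four 2
  have p2 : π ^ 2 * r ^ 2 ≤ 4 ^ 2 * (1 / 10) ^ 2 := by gcongr
  have e : 2 / (r * Real.exp (-t)) + 8 * π ^ 2 * (r * Real.exp (-t)) * (Real.exp t / 4) ^ 2
      = (2 + π ^ 2 * r ^ 2 / 2) / r * Real.exp t := by
    rw [Real.exp_neg]; field_simp; ring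
  rw [e]
  gcongr
  linarith

lemma fup_cs {ι κ : Type} (A : Finset ι) (B : Finset κ) (φ : ι → κ → ℝ) (f : κ → ℂ) :
    ∑ i ∈ A, ‖∑ j ∈ B, f j * ee (φ i j)‖ ^ 2 ≤ A.card * B.card * ∑ j ∈ B, ‖f j‖ ^ 2 := by
  rw [mul_assoc, ← nsmul_eq_mul]
  refine Finset.sum_le_card_nsmul _ _ _ fun i _ => ?_
  refine (pow_le_pow_left₀ (norm_nonneg _) (norm_sum_le _ _) 2).trans ?_
  simpa using sq_sum_le_card_mul_sum_sq (s := B) (f := fun j => ‖f j‖)

open Classical in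
omit [Fintype S] [DecidableEq S] in
lemma Act.fup_red (H : Act Γ e) {r τ : ℝ} (r0 : 0 < r) (r1 : 4 * r ≤ e) (r2 : r ≤ 1 / 10)
    {n : ℕ} {A B : Finset (List S)} (hA : ∀ w ∈ A, w.length = n) (hB : ∀ w ∈ B, w.length = n)
    (g g' : SL2) (t : ℝ) {C : ℝ} (hC : 0 ≤ C)
    (h : ∀ (a b : ℤ) (f : List S → ℂ), ∑ u ∈ A with FupPr Γ ctr r τ g t a u,
      ‖∑ v ∈ B with FupPr Γ ctr' r τ g' (-t - n * τ) b v,
        f v * ee (fupPt Γ ctr r τ g t a u * fupPt Γ ctr' r τ g' (-t - n * τ) b v)‖ ^ 2 ≤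
      C * ∑ v ∈ B with FupPr Γ ctr' r τ g' (-t - n * τ) b v, ‖f v‖ ^ 2) :
    UP (Xw Γ ctr r τ A g t) (Xw Γ ctr' r τ B g' (-t - n * τ))
      (9 / r ^ 2 * Real.exp (-(n * τ)) * C) := by
  have key := loc_two (X := Xw Γ ctr r τ A g t) (Y := Xw Γ ctr' r τ B g' (-t - n * τ))
    (dx := Real.exp (-t - n * τ) / 4) (dy := Real.exp t / 4) (lx := r * Real.exp (-t))
    (ly := r * Real.exp (-(-t - n * τ))) (by positivity) (by positivity) (by positivity)
    (by positivity) hC (fun a => A.filter (FupPr Γ ctr r τ g t a)) (fupPt Γ ctr r τ g t)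
    (fun b => B.filter (FupPr Γ ctr' r τ g' (-t - n * τ) b)) (fupPt Γ ctr' r τ g' (-t - n * τ))
    (fun a x ⟨w, hw, hn⟩ hx => by
      have hp : FupPr Γ ctr r τ g t a w := ⟨x, hx, hn⟩
      refine ⟨w, Finset.mem_filter.2 ⟨hw, hp⟩, ?_⟩
      rw [← hA w hw]
      exact H.ga r0 r1 r2 (fup_cell hx hp.spec.1) hn hp.spec.2)
    (fun a w hw => (Finset.mem_filter.1 hw).2.spec.1)
    (fun b x ⟨w, hw, hn⟩ hx => by
      have hp : FupPr Γ ctr' r τ g' (-t - n * τ) b w := ⟨x, hx, hn⟩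
      refine ⟨w, Finset.mem_filter.2 ⟨hw, hp⟩, ?_⟩
      have := H.ga r0 r1 r2 (fup_cell hx hp.spec.1) hn hp.spec.2
      rwa [hB w hw, show -(-t - n * τ) - n * τ = t by ring] at this) h
  refine key.mono subset_rfl subset_rfl ?_
  calc _ ≤ 3 / r * Real.exp (-t - n * τ) * (3 / r * Real.exp t * C) := by
        gcongr
        exacts [fup_num r0 r2 _, fup_num r0 r2 _]
    _ = _ := by
        rw [show -(n * τ) = (-t - n * τ) + t by ring, Real.exp_add]; ring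

open Classical in
lemma Act.fup_tree (H : Act Γ e) {r τ : ℝ} (r0 : 0 < r) (r1 : 4 * r ≤ e) (r2 : r ≤ 1 / 10)
    (τ0 : 0 ≤ τ) {P : List S → ℝ} (hP : Sta P) {B : ℕ} (ov : Ov Γ ctr B) (m n : ℕ) (c : ℝ)
    (g : SL2) (t : ℝ) (a : ℤ) :
    Tree (10 * m) n (fun u => if FupPr Γ ctr r τ g t a u then P u else 0) (fupPt Γ ctr r τ g t a)
      (Br P m (B ^ m) c) (Real.exp (-t) / 2) (Real.exp ((10 * m : ℕ) * τ))
      (Real.exp (m * τ) / (2 * r)) c := by
  have le : ∀ u, (if FupPr Γ ctr r τ g t a u then P u else 0) ≤ P u := fun u => by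
    split_ifs
    exacts [le_rfl, hP.nn u]
  have z0 : ∀ u v, ¬ FupPr Γ ctr r τ g t a u →
      (if FupPr Γ ctr r τ g t a (u ++ v) then P (u ++ v) else 0) = 0 :=
    fun u v hu => if_neg fun h => hu h.left
  refine ⟨fun u => ?_, (le _).trans hP.nil.le, fun u => ?_, fun k _ _ u v hu _ h => ?_,
    fun k _ _ u hu hb z => ?_⟩
  · split_ifs
    exacts [hP.nn u, le_rfl]
  · by_cases hu : FupPr Γ ctr r τ g t a u
    · rw [if_pos hu, ← hP.sum_right u (10 * m)]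
      exact Finset.sum_le_sum fun v _ => le _
    · rw [if_neg hu, Finset.sum_eq_zero fun v _ => z0 u v hu]
  · have hp : FupPr Γ ctr r τ g t a (u ++ v) := by
      by_contra hn
      rw [if_neg hn] at h
      exact h.false
    refine (H.ga r0 r1 r2 (fup_cell hp.spec.1 hp.left.spec.1) hp.spec.2.left
      hp.left.spec.2).trans (le_of_eq ?_)
    rw [← Real.exp_nat_mul, hu, Real.exp_sub, Nat.cast_mul, mul_assoc]
    ring
  · by_cases hp : FupPr Γ ctr r τ g t a u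
    · obtain ⟨U, U1, U2, U3⟩ := H.gb ov r0 (by linarith) τ0 g t z (k * (10 * m)) m
      have e1 : Real.exp (-t) / 2 / Real.exp ((10 * m : ℕ) * τ) ^ k / (Real.exp (m * τ) / (2 * r))
          = r * Real.exp (-t - ((k * (10 * m) : ℕ) + m) * τ) := by
        rw [← Real.exp_nat_mul, add_mul, Real.exp_sub, Real.exp_add, Nat.cast_mul k, mul_assoc]
        field_simp
      rw [if_pos hp, e1, Finset.sum_filter]
      refine le_trans ?_ (hb U U1 U2)
      calc _ ≤ ∑ v ∈ words S (m + 9 * m), if v.take m ∈ U then P (u ++ v) else 0 := by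
            rw [show m + 9 * m = 10 * m by ring]
            refine Finset.sum_le_sum fun v hv => ?_
            split_ifs with h1 h2 h3 h3 h3
            · exact le_rfl
            · exact absurd (U3 _ u v hu (by rw [mem_words.1 hv]; omega) h1 h2.spec.2) h3
            · exact hP.nn _
            · exact le_rfl
            · exact hP.nn _
            · exact le_rfl
        _ = ∑ v ∈ words S m, if v ∈ U then P (u ++ v) else 0 := by
            rw [sum_words_add]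
            refine Finset.sum_congr rfl fun v hv => ?_
            simp only [List.take_left' (mem_words.1 hv)]
            split_ifs
            · simp only [← List.append_assoc, hP.sum_right]
            · simp
        _ = _ := by rw [← Finset.sum_filter, Finset.filter_mem_eq_inter, Finset.inter_eq_right.2 U1]
    · rw [if_neg hp, mul_zero, Finset.sum_eq_zero fun v _ => z0 u v hp]

theorem Act.fup_vol (H : Act Γ e) {r τ : ℝ} (r0 : 0 < r) (r1 : 4 * r ≤ e) (r2 : r ≤ 1 / 10)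
    {n : ℕ} {A B : Finset (List S)} (hA : ∀ w ∈ A, w.length = n) (hB : ∀ w ∈ B, w.length = n)
    (g g' : SL2) (t : ℝ) :
    UP (Xw Γ ctr r τ A g t) (Xw Γ ctr' r τ B g' (-t - n * τ))
      (9 / r ^ 2 * Real.exp (-(n * τ)) * (A.card * B.card)) := by
  classical
  refine H.fup_red r0 r1 r2 hA hB g g' t (by positivity) fun a b f => (fup_cs _ _ _ f).trans ?_
  gcongr <;> exact Finset.filter_subset _ _

theorem Act.fup (H : Act Γ e) {r τ : ℝ} (r0 : 0 < r) (r1 : 4 * r ≤ e) (r2 : r ≤ 1 / 10)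
    (τ0 : 0 ≤ τ) {P P' : List S → ℝ} (hP : Sta P) (hP' : Sta P') {B : ℕ} (ov : Ov Γ ctr B)
    (ov' : Ov Γ ctr' B) {m n : ℕ} (hn : 10 ≤ n) {c α β : ℝ} (c0 : 0 < c) (c1 : c ≤ 1)
    (hm : 6400 * (Real.exp (m * τ) / (2 * r)) ^ 8 / c ^ 4 ≤ Real.exp ((10 * m : ℕ) * τ))
    (α0 : 0 < α) (β0 : 0 < β) {A₁ A₂ B₁ B₂ : Finset (List S)}
    (hA₁ : ∀ w ∈ A₁, w.length = n * (10 * m) ∧ α ≤ P w ∧
      20 * nbr (Br P m (B ^ m) c) (10 * m) n w ≤ n)
    (hA₂ : ∀ w ∈ A₂, w.length = n * (10 * m))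
    (hB₁ : ∀ w ∈ B₁, w.length = n * (10 * m) ∧ β ≤ P' w ∧
      20 * nbr (Br P' m (B ^ m) c) (10 * m) n w ≤ n)
    (hB₂ : ∀ w ∈ B₂, w.length = n * (10 * m)) (g g' : SL2) (t : ℝ) :
    UP (Xw Γ ctr r τ (A₁ ∪ A₂) g t)
      (Xw Γ ctr' r τ (B₁ ∪ B₂) g' (-t - (n * (10 * m) : ℕ) * τ))
      (9 / r ^ 2 * Real.exp (-((n * (10 * m) : ℕ) * τ)) *
        (2 * Real.exp (-(c ^ 2 / (4 * (Real.exp (m * τ) / (2 * r)) ^ 4) * n / 2)) / (α * β)
          + 2 * (A₁.card * B₂.card) + A₂.card * (B₁.card + B₂.card))) := by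
  classical
  refine H.fup_red r0 r1 r2 (n := n * (10 * m))
    (fun w hw => (Finset.mem_union.1 hw).elim (fun h => (hA₁ w h).1) (hA₂ w))
    (fun w hw => (Finset.mem_union.1 hw).elim (fun h => (hB₁ w h).1) (hB₂ w)) g g' t
    (by positivity) fun a b f => ?_
  set t' := -t - (n * (10 * m) : ℕ) * τ with ht'
  have hM : 1 ≤ Real.exp (m * τ) / (2 * r) := by
    rw [le_div_iff₀ (by positivity)]
    linarith [Real.one_le_exp (mul_nonneg (Nat.cast_nonneg m) τ0)]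
  have hd := dolg hn (H.fup_tree r0 r1 r2 τ0 hP ov m n c g t a)
    (H.fup_tree r0 r1 r2 τ0 hP' ov' m n c g' t' b) (by positivity) (by positivity)
    (by
      rw [← Real.exp_nat_mul, div_mul_div_comm, ← Real.exp_add, ht']
      congr 2
      · push_cast; ring
      · norm_num) c0 c1 hM hm α0 β0 (A := A₁.filter (FupPr Γ ctr r τ g t a))
    (B := B₁.filter (FupPr Γ ctr' r τ g' t' b))
    (fun w hw => by
      obtain ⟨h1, h2⟩ := Finset.mem_filter.1 hw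
      rw [if_pos h2]; exact hA₁ w h1)
    (fun w hw => by
      obtain ⟨h1, h2⟩ := Finset.mem_filter.1 hw
      rw [if_pos h2]; exact hB₁ w h1) f
  generalize Real.exp (-(c ^ 2 / (4 * (Real.exp (m * τ) / (2 * r)) ^ 4) * n / 2)) = E,
    Real.exp_pos (-(c ^ 2 / (4 * (Real.exp (m * τ) / (2 * r)) ^ 4) * n / 2)) = E0 at hd ⊢
  generalize fupPt Γ ctr r τ g t a = x at hd ⊢
  generalize fupPt Γ ctr' r τ g' t' b = y at hd ⊢
  generalize FupPr Γ ctr r τ g t a = p at hd ⊢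
  generalize FupPr Γ ctr' r τ g' t' b = q at hd ⊢
  have s1 : B₁.filter q ⊆ (B₁ ∪ B₂).filter q :=
    Finset.filter_subset_filter _ Finset.subset_union_left
  have s2 : (B₁ ∪ B₂).filter q \ B₁.filter q ⊆ B₂ := fun w hw => by
    simp only [Finset.mem_sdiff, Finset.mem_filter, Finset.mem_union] at hw
    tauto
  generalize hJ : (B₁ ∪ B₂).filter q = J at s1 s2 ⊢
  have cJ : (J.card : ℝ) ≤ B₁.card + B₂.card := by
    rw [← hJ]
    exact_mod_cast (Finset.card_filter_le _ _).trans (Finset.card_union_le _ _)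
  have nn : ∀ K : Finset (List S), 0 ≤ ∑ v ∈ K, ‖f v‖ ^ 2 := fun K => by positivity
  have mo : ∀ {K : Finset (List S)}, K ⊆ J → ∑ v ∈ K, ‖f v‖ ^ 2 ≤ ∑ v ∈ J, ‖f v‖ ^ 2 := fun h =>
    Finset.sum_le_sum_of_subset_of_nonneg h fun _ _ _ => by positivity
  have b1 : ∑ u ∈ A₁.filter p, ‖∑ v ∈ J \ B₁.filter q, f v * ee (x u * y v)‖ ^ 2
      ≤ A₁.card * B₂.card * ∑ v ∈ J, ‖f v‖ ^ 2 := by
    refine (fup_cs _ _ _ f).trans ?_
    gcongr ?_ * ?_ * ?_
    exacts [Nat.cast_le.2 (Finset.card_filter_le _ _), Nat.cast_le.2 (Finset.card_le_card s2),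
      mo Finset.sdiff_subset]
  have b2 : ∑ u ∈ A₂.filter p, ‖∑ v ∈ J, f v * ee (x u * y v)‖ ^ 2
      ≤ A₂.card * (B₁.card + B₂.card) * ∑ v ∈ J, ‖f v‖ ^ 2 := by
    refine (fup_cs _ _ _ f).trans ?_
    gcongr ?_ * ?_ * _
    exact Nat.cast_le.2 (Finset.card_filter_le _ _)
  have b3 := hd.trans (mul_le_mul_of_nonneg_left (mo s1) (by positivity))
  have b4 : ∑ u ∈ A₁.filter p, ‖∑ v ∈ J, f v * ee (x u * y v)‖ ^ 2 ≤
      2 * ∑ u ∈ A₁.filter p, ‖∑ v ∈ B₁.filter q, f v * ee (x u * y v)‖ ^ 2 +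
      2 * ∑ u ∈ A₁.filter p, ‖∑ v ∈ J \ B₁.filter q, f v * ee (x u * y v)‖ ^ 2 := by
    rw [Finset.mul_sum, Finset.mul_sum, ← Finset.sum_add_distrib]
    refine Finset.sum_le_sum fun u _ => ?_
    rw [← Finset.sum_sdiff s1]
    refine (pow_le_pow_left₀ (norm_nonneg _) (norm_add_le _ _) 2).trans ?_
    nlinarith [sq_nonneg (‖∑ v ∈ B₁.filter q, f v * ee (x u * y v)‖ -
      ‖∑ v ∈ J \ B₁.filter q, f v * ee (x u * y v)‖)]
  have b5 : ∑ u ∈ (A₁ ∪ A₂).filter p, ‖∑ v ∈ J, f v * ee (x u * y v)‖ ^ 2 ≤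
      ∑ u ∈ A₁.filter p, ‖∑ v ∈ J, f v * ee (x u * y v)‖ ^ 2 +
      ∑ u ∈ A₂.filter p, ‖∑ v ∈ J, f v * ee (x u * y v)‖ ^ 2 := by
    rw [Finset.filter_union, ← Finset.sum_union_inter]
    exact le_add_of_nonneg_right (by positivity)
  have e1 : 2 * E / (α * β) = 2 * (E / (α * β)) := by ring
  rw [e1]
  linarith

end Pool.Agent.Lib.MP_a52643_an.SE
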