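import Pool.Agent.Lib.MP_a52643_an.SE.Defs
import Pool.Agent.Lib.MP_a52643_an.N2.Defs

/-!
The family of pairs cut out of few orbit segments.
-/

open MeasureTheory Set Filter Topology Metric UpperHalfPlane
open scoped ENNReal MatrixGroups Real FourierTransform ComplexConjugate

noncomputable section

namespace Pool.Agent.Lib.MP_a52643_an.SE

open NS

/-- end points of the pieces of length `k ℓ` of the orbit segments that start in `F k` -/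
def Fam (Γ : Type) [Group Γ] [MulAction Γ ℍ] (ℓ : ℝ) (F : ℕ → Finset SL2) : Set (ℍ × ℍ) :=
  {p | ∃ k : ℕ, ∃ g ∈ F k, ∃ i < 2000, ∃ γ : Γ,
    p = (γ • bp (g * aG ((i : ℕ) * (k * ℓ))), γ • bp (g * aG (((i : ℕ) + 1) * (k * ℓ))))}

private lemma heavy_grid (p : ℝ) {y : ℝ} (hy : 0 < y) (u : ℝ) : ∃ s : Finset ℝ,
    s.card ≤ ⌊u⌋₊ + 1 ∧ ∀ x ∈ Icc p (p + u * y), ∃ z ∈ s, x ∈ Icc z (z + y) := by
  refine ⟨(Finset.range (⌊u⌋₊ + 1)).image fun i : ℕ => p + i * y,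
    Finset.card_image_le.trans (Finset.card_range _).le, fun x hx => ?_⟩
  have h0 : 0 ≤ (x - p) / y := div_nonneg (sub_nonneg.2 hx.1) hy.le
  have h1 : (x - p) / y ≤ u := by rw [div_le_iff₀ hy]; linarith [hx.2]
  have h2 := Nat.floor_le h0
  have h3 := Nat.lt_floor_add_one ((x - p) / y)
  rw [le_div_iff₀ hy] at h2
  rw [div_lt_iff₀ hy] at h3
  exact ⟨_, Finset.mem_image.2 ⟨⌊(x - p) / y⌋₊,
    Finset.mem_range.2 (Nat.lt_succ_of_le (Nat.floor_le_floor h1)), rfl⟩, by linarith, by linarith⟩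

private lemma heavy_diam (A : Set ℝ) {y : ℝ} (hy : 0 < y) (D : ℝ)
    (h : ∀ x ∈ A, ∀ x' ∈ A, |x - x'| ≤ D * y) : ∃ s : Finset ℝ,
    s.card ≤ ⌊2 * D⌋₊ + 1 ∧ ∀ x ∈ A, ∃ z ∈ s, x ∈ Icc z (z + y) := by
  rcases A.eq_empty_or_nonempty with rfl | ⟨x₁, h₁⟩
  · exact ⟨∅, by simp, by simp⟩
  · obtain ⟨s, h1, h2⟩ := heavy_grid (x₁ - D * y) hy (2 * D)
    refine ⟨s, h1, fun x hx => h2 x ?_⟩
    have := abs_le.1 (h x hx x₁ h₁)
    constructor <;> linarith [this.1, this.2]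

/-- the part of a horocycle in a ball -/
private lemma heavy_ball (t : ℝ) (g : SL2) (τ : ℝ) (q : ℍ) : ∃ s : Finset ℝ,
    s.card ≤ ⌊2 * Real.exp (2 * t)⌋₊ + 1 ∧
      ∀ x, dist (g • pt x τ) q < t → ∃ z ∈ s, x ∈ Icc z (z + Real.exp τ) := by
  refine heavy_diam {x | dist (g • pt x τ) q < t} (Real.exp_pos τ) _ fun x hx x' hx' => ?_
  have hx : dist (g • pt x τ) q < t := hx
  have hx' : dist (g • pt x' τ) q < t := hx'
  have h1 : dist (pt x τ) (pt x' τ) ≤ 2 * t := by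
    rw [← dist_smul g]
    linarith [dist_triangle_right (g • pt x τ) (g • pt x' τ) q]
  have h2 := UpperHalfPlane.dist_coe_le (pt x τ) (pt x' τ)
  rw [coe_pt, coe_pt, Complex.dist_eq, add_sub_add_right_eq_sub, ← Complex.ofReal_sub,
    Complex.norm_real, Real.norm_eq_abs, pt_im] at h2
  have h3 := Real.exp_le_exp.2 h1
  nlinarith [Real.exp_pos τ]

private lemma heavy_dist (g : SL2) (s s' : ℝ) :
    dist (bp (g * aG s)) (bp (g * aG s')) = |s' - s| := by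
  rw [bp_mul, bp_mul, dist_smul, bp_aG, bp_aG, dist_pt_eq]
  congr 1
  ring

private lemma heavy_inv {Γ : Type} [Group Γ] [MulAction Γ ℍ] {e : ℝ} (H : Act Γ e) {ℓ : ℝ}
    {F : ℕ → Finset SL2} (δ : Γ) {t : ℝ} {z z' : ℍ} (h : N2.near (Fam Γ ℓ F) t z z') :
    N2.near (Fam Γ ℓ F) t (δ • z) (δ • z') := by
  obtain ⟨p, ⟨k, g, hg, i, hi, γ, rfl⟩, h⟩ := h
  refine ⟨_, ⟨k, g, hg, i, hi, δ * γ, rfl⟩, ?_⟩
  simpa only [mul_smul, H.iso] using h

theorem Act.fam {Γ : Type} [Group Γ] [MulAction Γ ℍ] {e : ℝ} (H : Act Γ e) {Λ : Set SL2}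
    (hΛ : Λ ⊆ Lam Γ) (G : NS.Geo Λ ∅) {ℓ : ℝ} (hℓ : 1 ≤ ℓ) {F : ℕ → Finset SL2}
    (hF : ∀ k : ℕ, ((F k).card : ℝ) ≤ Real.exp (k * ℓ / 10 ^ 14)) : N2.Geo Λ (Fam Γ ℓ F) := by
  classical
  refine ⟨G, fun {γ} hγ t z z' => ?_, fun {t} ht => ?_⟩
  · obtain ⟨δ, hδ⟩ := hΛ hγ
    rw [← hδ, ← hδ]
    refine ⟨fun h => ?_, heavy_inv H δ⟩
    simpa only [inv_smul_smul] using heavy_inv H δ⁻¹ h
  obtain ⟨N, hN⟩ := H.orb (t + 1)
  refine ⟨(⌈4 * t⌉₊ + 1 : ℕ) * (Real.exp (2 * t / 10 ^ 14) * (2000 * (N + N) : ℕ)) *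
    (⌊2 * Real.exp (2 * t)⌋₊ + 1 : ℕ), 0, fun l hl g τ x₀ => ?_⟩
  choose O O1 O2 using fun u : ℍ => hN u (g • pt x₀ (τ + l))
  choose s s1 s2 using heavy_ball t g τ
  have l0 : 0 < ℓ := by linarith
  set k₀ : ℕ := ⌊(l + 2 * t) / ℓ⌋₊ with hk₀
  have k1 : (k₀ : ℝ) * ℓ ≤ l + 2 * t := by
    rw [← le_div_iff₀ l0]
    exact Nat.floor_le (by positivity)
  let a : ℕ → SL2 → ℕ → ℍ := fun k h i => bp (h * aG ((i : ℕ) * (k * ℓ)))
  let b : ℕ → SL2 → ℕ → ℍ := fun k h i => bp (h * aG (((i : ℕ) + 1) * (k * ℓ)))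
  let Q : ℕ → Finset ℍ := fun k => (F k).biUnion fun h => (Finset.range 2000).biUnion fun i =>
    (O (b k h i)).image (fun γ => γ • a k h i) ∪ (O (a k h i)).image (fun γ => γ • b k h i)
  have Q1 : ∀ k, (Q k).card ≤ (F k).card * (2000 * (N + N)) := fun k =>
    Finset.card_biUnion_le_card_mul _ _ _ fun h _ => by
      refine (Finset.card_biUnion_le_card_mul _ _ (N + N) fun i _ => ?_).trans
        (by rw [Finset.card_range])
      exact (Finset.card_union_le _ _).trans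
        (add_le_add (Finset.card_image_le.trans (O1 _)) (Finset.card_image_le.trans (O1 _)))
  have Q2 : ∀ k ≤ k₀, ((Q k).card : ℝ) ≤
      Real.exp (2 * t / 10 ^ 14) * (2000 * (N + N) : ℕ) * Real.exp (l / 10 ^ 14) := fun k hk => by
    refine (Nat.cast_le.2 (Q1 k)).trans ?_
    rw [Nat.cast_mul, mul_right_comm, ← Real.exp_add]
    refine mul_le_mul_of_nonneg_right ((hF k).trans (Real.exp_le_exp.2 ?_)) (Nat.cast_nonneg _)
    have : (k : ℝ) * ℓ ≤ k₀ * ℓ := mul_le_mul_of_nonneg_right (Nat.cast_le.2 hk) l0.le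
    rw [← add_div]
    exact div_le_div_of_nonneg_right (by linarith) (by positivity)
  let P : Finset ℍ := (Finset.range (⌈4 * t⌉₊ + 1)).biUnion fun j => Q (k₀ - j)
  have P1 : (P.card : ℝ) ≤ (⌈4 * t⌉₊ + 1 : ℕ) *
      (Real.exp (2 * t / 10 ^ 14) * (2000 * (N + N) : ℕ) * Real.exp (l / 10 ^ 14)) := by
    refine (Nat.cast_le.2 Finset.card_biUnion_le).trans ?_
    rw [Nat.cast_sum]
    refine (Finset.sum_le_card_nsmul _ _ _ fun j _ => Q2 _ (Nat.sub_le _ _)).trans (le_of_eq ?_)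
    rw [Finset.card_range, nsmul_eq_mul]
  refine ⟨P.biUnion s, ?_, fun x hx hn => ?_⟩
  · refine (Nat.cast_le.2 (Finset.card_biUnion_le_card_mul _ _ _ fun q _ => s1 q)).trans ?_
    rw [Nat.cast_mul]
    refine (mul_le_mul_of_nonneg_right P1 (Nat.cast_nonneg _)).trans (le_of_eq ?_)
    ring
  suffices h : ∃ q ∈ P, dist (g • pt x τ) q < t by
    obtain ⟨q, q1, q2⟩ := h
    obtain ⟨z, z1, z2⟩ := s2 q x q2
    exact ⟨z, Finset.mem_biUnion.2 ⟨q, q1, z1⟩, z2⟩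
  obtain ⟨p, ⟨k, h, hh, i, hi, γ, rfl⟩, hp⟩ := hn
  have d1 : dist (g • pt x (τ + l)) (g • pt x₀ (τ + l)) ≤ 1 := by
    rw [dist_smul]
    refine (dist_pt_le _ _ _).trans ?_
    rw [Real.exp_neg, ← div_eq_mul_inv, div_le_one (Real.exp_pos _),
      abs_of_nonneg (sub_nonneg.2 hx.1)]
    linarith [hx.2]
  have d2 : dist (g • pt x τ) (g • pt x (τ + l)) = l := by
    rw [dist_smul, dist_pt_eq, show τ - (τ + l) = -l by ring, abs_neg, abs_of_nonneg hl]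
  have d3 : dist (γ • a k h i) (γ • b k h i) = k * ℓ := by
    rw [H.iso, heavy_dist, show ((i : ℝ) + 1) * (k * ℓ) - i * (k * ℓ) = k * ℓ by ring,
      abs_of_nonneg (by positivity)]
  have key : ∀ u v : ℍ, dist u v = k * ℓ → dist (g • pt x τ) u < t →
      dist (g • pt x (τ + l)) v < t → u ∈ Q k → u ∈ P := fun u v e1 e2 e3 hu => by
    have t1 := dist_triangle4 (g • pt x τ) u v (g • pt x (τ + l))
    have t2 := dist_triangle4 u (g • pt x τ) (g • pt x (τ + l)) v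
    rw [d2, e1] at t1 t2
    rw [dist_comm v] at t1
    rw [dist_comm u] at t2
    have c1 : k ≤ k₀ := Nat.le_floor (by rw [le_div_iff₀ l0]; linarith)
    have c2 : k₀ - k ≤ ⌈4 * t⌉₊ := by
      have c3 : ((k₀ - k : ℕ) : ℝ) ≤ 4 * t := by
        rw [Nat.cast_sub c1]
        have c4 : (0 : ℝ) ≤ k₀ - k := sub_nonneg.2 (Nat.cast_le.2 c1)
        nlinarith
      exact_mod_cast c3.trans (Nat.le_ceil _)
    exact Finset.mem_biUnion.2 ⟨k₀ - k, Finset.mem_range.2 (by omega),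
      by rwa [Nat.sub_sub_self c1]⟩
  have near : ∀ v : ℍ, dist (g • pt x (τ + l)) (γ • v) < t → γ ∈ O v := fun v hv =>
    O2 v γ (by linarith [dist_triangle_left (γ • v) (g • pt x₀ (τ + l)) (g • pt x (τ + l))])
  rcases hp with ⟨e1, e2⟩ | ⟨e1, e2⟩
  · refine ⟨_, key _ _ d3 e1 e2 ?_, e1⟩
    simp only [Q, Finset.mem_biUnion, Finset.mem_range, Finset.mem_union, Finset.mem_image]
    exact ⟨h, hh, i, hi, Or.inl ⟨γ, near _ e2, rfl⟩⟩
  · refine ⟨_, key _ _ ((dist_comm _ _).trans d3) e1 e2 ?_, e1⟩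
    simp only [Q, Finset.mem_biUnion, Finset.mem_range, Finset.mem_union, Finset.mem_image]
    exact ⟨h, hh, i, hi, Or.inr ⟨γ, near _ e2, rfl⟩⟩

end Pool.Agent.Lib.MP_a52643_an.SE
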