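import Pool.Agent.Lib.MP_a52643_an.SE.Defs

/-!
Entropy inequalities for stationary weights.
-/

open MeasureTheory Set Filter Topology Metric UpperHalfPlane
open scoped ENNReal MatrixGroups Real FourierTransform ComplexConjugate

noncomputable section

namespace Pool.Agent.Lib.MP_a52643_an.SE

open NS

variable {S : Type} [Fintype S] [DecidableEq S] {P : List S → ℝ}

/-- information of the last symbol given the others -/
def cnd (P : List S → ℝ) (w : List S) : ℝ := inf P w - inf P w.dropLast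

lemma info1_gibbs {p q : ℝ} (hp : 0 ≤ p) (hq : 0 ≤ q) (h : 0 < p → 0 < q) :
    p * (Real.log q - Real.log p) ≤ q - p := by
  rcases hp.eq_or_lt with rfl | hp
  · simpa using hq
  have h1 := Real.log_le_sub_one_of_pos (div_pos (h hp) hp)
  rw [Real.log_div (h hp).ne' hp.ne'] at h1
  have h2 := mul_le_mul_of_nonneg_left h1 hp.le
  rwa [mul_sub p (q / p), mul_div_cancel₀ _ hp.ne', mul_one] at h2

lemma info1_take (hP : Sta P) (w : List S) (n : ℕ) : P w ≤ P (w.take n) := by
  simpa using hP.le_right (w.take n) (w.drop n)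

omit [DecidableEq S] in
lemma info1_card (hP : Sta P) : (1 : ℝ) ≤ Fintype.card S := by
  rcases isEmpty_or_nonempty S with h | h
  · have := hP.right []
    simp [hP.nil] at this
  · exact_mod_cast Fintype.card_pos

lemma info1_ent_nn (hP : Sta P) (n : ℕ) : 0 ≤ ent P n :=
  Finset.sum_nonneg fun w _ => mul_nonneg (hP.nn w) (hP.inf_nn w)

lemma info1_ent_zero (hP : Sta P) : ent P 0 = 0 := by
  simp [ent, words_zero, inf, hP.nil]

lemma info1_ent_add (hP : Sta P) (n m : ℕ) : ent P (n + m) ≤ ent P n + ent P m := by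
  have h1 : ∀ u v : List S, P (u ++ v) * inf P (u ++ v) ≤
      P (u ++ v) * inf P u + P (u ++ v) * inf P v + (P u * P v - P (u ++ v)) := fun u v => by
    rcases (hP.nn (u ++ v)).eq_or_lt with h | h
    · rw [← h]
      simpa using mul_nonneg (hP.nn u) (hP.nn v)
    have hu := h.trans_le (hP.le_right u v)
    have hv := h.trans_le (hP.le_left u v)
    have h2 := info1_gibbs h.le (mul_pos hu hv).le fun _ => mul_pos hu hv
    rw [Real.log_mul hu.ne' hv.ne'] at h2
    unfold inf
    linarith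
  have h2 : ∑ u ∈ words S n, ∑ v ∈ words S m, P (u ++ v) * inf P u = ent P n :=
    Finset.sum_congr rfl fun u _ => by rw [← Finset.sum_mul, hP.sum_right]
  have h3 : ∑ u ∈ words S n, ∑ v ∈ words S m, P (u ++ v) * inf P v = ent P m := by
    rw [Finset.sum_comm]
    exact Finset.sum_congr rfl fun v _ => by rw [← Finset.sum_mul, hP.sum_left]
  have h4 : ∑ u ∈ words S n, ∑ v ∈ words S m, (P u * P v - P (u ++ v)) = 0 :=
    Finset.sum_eq_zero fun u _ => by
      rw [Finset.sum_sub_distrib, ← Finset.mul_sum, hP.sum_one, hP.sum_right, mul_one, sub_self]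
  rw [← add_zero (ent P n + ent P m), ← h2, ← h3, ← h4, ent, sum_words_add,
    ← Finset.sum_add_distrib, ← Finset.sum_add_distrib]
  refine Finset.sum_le_sum fun u _ => ?_
  rw [← Finset.sum_add_distrib, ← Finset.sum_add_distrib]
  exact Finset.sum_le_sum fun v _ => h1 u v

lemma info1_ent_mul (hP : Sta P) (n r q : ℕ) : ent P (n * q + r) ≤ q * ent P n + ent P r := by
  induction q with
  | zero => simp
  | succ q ih =>
    have h := info1_ent_add hP n (n * q + r)
    rw [show n * (q + 1) + r = n + (n * q + r) by ring]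
    push_cast
    linarith

lemma info1_sum_drop (hP : Sta P) (a n : ℕ) (f : List S → ℝ) :
    ∑ w ∈ words S (a + n), P w * f (w.drop a) = ∑ w ∈ words S n, P w * f w := by
  rw [← hP.sum_mid a n 0 f]
  refine Finset.sum_congr rfl fun w hw => ?_
  rw [mem_words] at hw
  rw [List.take_of_length_le (by simp [hw])]

lemma info1_abs (v : ℝ) : |v| ≤ Real.exp v - v := by
  have h1 := Real.exp_pos v
  have h2 : 2 * v ≤ Real.exp v := Real.two_mul_le_exp
  exact abs_le.2 ⟨by linarith, by linarith⟩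

lemma info1_term (hP : Sta P) (u : List S) (a : ℕ) (s : S) :
    P (u ++ [s]) * |cnd P (u ++ [s]) - cnd P (u.drop a ++ [s])| ≤
      P u * (P (u.drop a ++ [s]) / P (u.drop a)) -
        (P (u ++ [s]) * cnd P (u ++ [s]) - P (u ++ [s]) * cnd P (u.drop a ++ [s])) := by
  rcases (hP.nn (u ++ [s])).eq_or_lt with h | h
  · rw [← h]
    simpa using mul_nonneg (hP.nn u) (div_nonneg (hP.nn _) (hP.nn _))
  have h1 := h.trans_le (hP.le_right u [s])
  have h2 : 0 < P (u.drop a ++ [s]) := h.trans_le (by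
    have := hP.le_left (u.take a) (u.drop a ++ [s])
    rwa [← List.append_assoc, List.take_append_drop] at this)
  have h3 := h2.trans_le (hP.le_right _ [s])
  have h4 := mul_le_mul_of_nonneg_left
    (info1_abs (cnd P (u ++ [s]) - cnd P (u.drop a ++ [s]))) h.le
  have h5 : Real.exp (cnd P (u ++ [s]) - cnd P (u.drop a ++ [s])) =
      P u / P (u ++ [s]) * (P (u.drop a ++ [s]) / P (u.drop a)) := by
    rw [← Real.exp_log (mul_pos (div_pos h1 h) (div_pos h2 h3)),
      Real.log_mul (div_pos h1 h).ne' (div_pos h2 h3).ne', Real.log_div h1.ne' h.ne',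
      Real.log_div h2.ne' h3.ne']
    simp only [cnd, inf, List.dropLast_concat]
    congr 1
    ring
  rw [h5, mul_sub, ← mul_assoc, mul_div_cancel₀ _ h.ne', mul_sub] at h4
  exact h4

omit [DecidableEq S] in
lemma info1_part (hP : Sta P) {u : List S} (hu : 0 < P u) (A : Finset (List S)) {N : ℝ}
    (N0 : 0 < N) (hN : (A.card : ℝ) ≤ N) :
    ∑ v ∈ A, P (u ++ v) * (inf P (u ++ v) - inf P u) ≤
      (∑ v ∈ A, P (u ++ v)) * (Real.log 2 + Real.log N) + P u / 2 - ∑ v ∈ A, P (u ++ v) := by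
  have q0 : 0 < P u / (2 * N) := by positivity
  have h1 : ∀ v ∈ A, P (u ++ v) * (inf P (u ++ v) - inf P u) ≤
      P (u ++ v) * (Real.log 2 + Real.log N) + P u / (2 * N) - P (u ++ v) := fun v _ => by
    have h2 := info1_gibbs (hP.nn (u ++ v)) q0.le fun _ => q0
    rw [Real.log_div hu.ne' (by positivity), Real.log_mul two_ne_zero N0.ne'] at h2
    unfold inf
    linarith
  have h2 := Finset.sum_le_sum h1
  rw [Finset.sum_sub_distrib, Finset.sum_add_distrib, ← Finset.sum_mul, Finset.sum_const,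
    nsmul_eq_mul] at h2
  have h3 : A.card * (P u / (2 * N)) ≤ P u / 2 := by
    refine (mul_le_mul_of_nonneg_right hN q0.le).trans (le_of_eq ?_)
    field_simp
  linarith

theorem Sta.cnd_nn (hP : Sta P) {w : List S} (h : 0 < P w) : 0 ≤ cnd P w := by
  have h1 : P w ≤ P w.dropLast := by
    rw [List.dropLast_eq_take]
    exact info1_take hP w _
  have h2 := Real.log_le_log h h1
  unfold cnd inf
  linarith

theorem Sta.ent_le (hP : Sta P) (n : ℕ) : ent P n ≤ n * Real.log (Fintype.card S) := by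
  have c0 : (0 : ℝ) < (Fintype.card S : ℝ) ^ n := pow_pos (one_pos.trans_le (info1_card hP)) n
  have q0 : (0 : ℝ) < ((Fintype.card S : ℝ) ^ n)⁻¹ := inv_pos.2 c0
  have h1 : ∀ w ∈ words S n, P w * inf P w ≤
      P w * (n * Real.log (Fintype.card S)) + ((Fintype.card S : ℝ) ^ n)⁻¹ - P w := fun w _ => by
    have h2 := info1_gibbs (hP.nn w) q0.le fun _ => q0
    rw [Real.log_inv, Real.log_pow] at h2
    unfold inf
    linarith
  have h2 := Finset.sum_le_sum h1
  rw [Finset.sum_sub_distrib, Finset.sum_add_distrib, ← Finset.sum_mul, Finset.sum_const,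
    nsmul_eq_mul, hP.sum_one, card_words, Nat.cast_pow, mul_inv_cancel₀ c0.ne'] at h2
  unfold ent
  linarith

theorem Sta.mean (hP : Sta P) {y : ℝ} (h : ∀ δ > 0, ∃ n : ℕ, ent P n < (y + δ) * n) {ε : ℝ}
    (hε : 0 < ε) : ∃ n₀ : ℕ, ∀ n ≥ n₀, ent P n ≤ (y + ε) * n := by
  obtain ⟨n₁, h1⟩ := h (ε / 2) (half_pos hε)
  have n0 : 0 < n₁ := Nat.pos_of_ne_zero fun e => by
    rw [e, info1_ent_zero hP] at h1
    simp at h1
  have n0' : (0 : ℝ) < n₁ := by exact_mod_cast n0
  have y0 : 0 < y + ε / 2 := (mul_pos_iff_of_pos_right n0').1 ((info1_ent_nn hP n₁).trans_lt h1)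
  have l0 : 0 ≤ Real.log (Fintype.card S) := Real.log_nonneg (info1_card hP)
  refine ⟨⌈n₁ * Real.log (Fintype.card S) / (ε / 2)⌉₊, fun n hn => ?_⟩
  have h2 : n₁ * Real.log (Fintype.card S) ≤ n * (ε / 2) :=
    (div_le_iff₀ (half_pos hε)).1 (Nat.ceil_le.1 hn)
  have h3 := info1_ent_mul hP n₁ (n % n₁) (n / n₁)
  rw [Nat.div_add_mod] at h3
  have h4 := hP.ent_le (n % n₁)
  have h5 : ((n % n₁ : ℕ) : ℝ) ≤ n₁ := by exact_mod_cast (Nat.mod_lt n n0).le
  have h6 : ((n / n₁ : ℕ) : ℝ) * n₁ ≤ n := by exact_mod_cast Nat.div_mul_le_self n n₁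
  have h7 := mul_le_mul_of_nonneg_left h1.le (Nat.cast_nonneg (α := ℝ) (n / n₁))
  have h8 := mul_le_mul_of_nonneg_left h6 y0.le
  have h9 := mul_le_mul_of_nonneg_right h5 l0
  nlinarith

theorem Sta.approx (hP : Sta P) : ∃ k : ℕ, ∀ j ≥ k,
    ∑ w ∈ words S (j + 1), P w * |cnd P w - cnd P (w.drop (j - k))| ≤ 2 := by
  obtain ⟨H, hH⟩ : ∃ H : ℕ → ℝ, ∀ j, H j = ∑ w ∈ words S (j + 1), P w * cnd P w := ⟨_, fun _ => rfl⟩
  have h0 : BddBelow (Set.range H) := ⟨0, by
    rintro _ ⟨j, rfl⟩
    rw [hH]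
    refine Finset.sum_nonneg fun w _ => ?_
    rcases (hP.nn w).eq_or_lt with h | h
    · rw [← h, zero_mul]
    · exact mul_nonneg h.le (hP.cnd_nn h)⟩
  obtain ⟨k, hk⟩ := exists_lt_of_ciInf_lt (lt_add_one (⨅ j, H j))
  refine ⟨k, fun j hj => ?_⟩
  have h1 := ciInf_le h0 j
  have h2 := info1_sum_drop hP (j - k) (k + 1) (cnd P)
  rw [← hH, show j - k + (k + 1) = j + 1 by omega] at h2
  have h3 : ∑ w ∈ words S (j + 1), P w * |cnd P w - cnd P (w.drop (j - k))| ≤
      ∑ u ∈ words S j, P u -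
        ∑ w ∈ words S (j + 1), (P w * cnd P w - P w * cnd P (w.drop (j - k))) := by
    rw [sum_words_add, sum_words_add, ← Finset.sum_sub_distrib]
    refine Finset.sum_le_sum fun u hu => ?_
    rw [mem_words] at hu
    rw [sum_words_one, sum_words_one]
    simp only [List.drop_append_of_le_length (show j - k ≤ u.length by omega)]
    refine (Finset.sum_le_sum fun s _ => info1_term hP u (j - k) s).trans ?_
    rw [Finset.sum_sub_distrib, ← Finset.mul_sum, ← Finset.sum_div, hP.right]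
    exact sub_le_sub_right (mul_le_of_le_one_right (hP.nn u) (div_self_le_one _)) _
  rw [hP.sum_one, Finset.sum_sub_distrib, h2, ← hH] at h3
  linarith

theorem Sta.nonbr (hP : Sta P) {m K : ℕ} (hK : 1 ≤ K) {c : ℝ} (c0 : 0 ≤ c) {u : List S}
    (h : ¬ Br P m K c u) : ∑ v ∈ words S m, P (u ++ v) * (inf P (u ++ v) - inf P u)
      ≤ P u * (Real.log 2 + Real.log K + c * m * Real.log (Fintype.card S)) := by
  simp only [Br, not_forall, not_le] at h
  obtain ⟨U, hU, hK', h⟩ := h
  have h1 := Finset.sum_sdiff (f := fun v => P (u ++ v)) hU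
  rw [hP.sum_right] at h1
  have a0 : 0 ≤ ∑ v ∈ U, P (u ++ v) := Finset.sum_nonneg fun _ _ => hP.nn _
  have b0 : 0 ≤ ∑ v ∈ words S m \ U, P (u ++ v) := Finset.sum_nonneg fun _ _ => hP.nn _
  have u0 : 0 < P u := (hP.nn u).lt_of_ne fun e => by
    rw [← e] at h h1
    linarith
  have K1 : (1 : ℝ) ≤ K := by exact_mod_cast hK
  have c1 := info1_card hP
  have h2 := info1_part hP u0 U (one_pos.trans_le K1) (by exact_mod_cast hK')
  have h3 := info1_part hP u0 (words S m \ U) (pow_pos (one_pos.trans_le c1) m) (by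
    have := Finset.card_le_card (Finset.sdiff_subset (s := words S m) (t := U))
    rw [card_words] at this
    exact_mod_cast this)
  rw [Real.log_pow] at h3
  rw [← Finset.sum_sdiff hU]
  have l1 := Real.log_nonneg K1
  have l2 := mul_nonneg (Nat.cast_nonneg (α := ℝ) m) (Real.log_nonneg c1)
  have h4 := mul_le_mul_of_nonneg_right (show ∑ v ∈ U, P (u ++ v) ≤ P u by linarith) l1
  have h5 := mul_le_mul_of_nonneg_right
    (show ∑ v ∈ words S m \ U, P (u ++ v) ≤ c * P u by linarith) l2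
  have h6 := congrArg (· * Real.log 2) h1
  nlinarith

end Pool.Agent.Lib.MP_a52643_an.SE
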