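import Pool.Agent.Lib.MP_a52643_an.SE.Defs

/-!
The variance of time means along multiples.
-/

open MeasureTheory Set Filter Topology Metric UpperHalfPlane
open scoped ENNReal MatrixGroups Real FourierTransform ComplexConjugate

noncomputable section

namespace Pool.Agent.Lib.MP_a52643_an.SE

open NS

variable {S : Type} [Fintype S] [DecidableEq S] {P : List S → ℝ}

/-- mean over the times `t ≤ j < t + m` of a function of the symbols `j - k, ..., j` -/
def avg (f : List S → ℝ) (k t m : ℕ) (w : List S) : ℝ :=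
  (∑ j ∈ Finset.Ico t (t + m), f ((w.take (j + 1)).drop (j - k))) / m

omit [Fintype S] [DecidableEq S] in
private lemma info2_shift (f : List S → ℝ) {k t : ℕ} (m : ℕ) (hk : k ≤ t) (w : List S) :
    avg f k t m w = avg f k k m ((w.drop (t - k)).take (k + m)) := by
  obtain ⟨a, rfl⟩ := Nat.exists_eq_add_of_le' hk
  unfold avg
  congr 1
  rw [Finset.sum_Ico_eq_sum_range, Finset.sum_Ico_eq_sum_range]
  simp only [Nat.add_sub_cancel_left, Nat.add_sub_cancel]
  refine Finset.sum_congr rfl fun j hj => ?_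
  rw [Finset.mem_range] at hj
  congr 1
  rw [List.take_take, List.drop_take, List.drop_take, List.drop_drop]
  congr 1
  · omega
  · congr 1; omega

private lemma info2_mom (hP : Sta P) (f : List S → ℝ) {k t m L : ℕ} (hk : k ≤ t)
    (hL : t + m ≤ L) :
    ∑ w ∈ words S L, P w * (avg f k t m w) ^ 2
      = ∑ w ∈ words S (k + m), P w * (avg f k k m w) ^ 2 := by
  have h := hP.sum_mid (t - k) (k + m) (L - (t + m)) (fun w => (avg f k k m w) ^ 2)
  have e : t - k + (k + m) + (L - (t + m)) = L := by omega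
  rw [e] at h
  rw [← h]
  refine Finset.sum_congr rfl fun w _ => ?_
  rw [info2_shift f m hk w]

private lemma info2_blocks (g : ℕ → ℝ) (t m N : ℕ) :
    ∑ j ∈ Finset.Ico t (t + N * m), g j
      = ∑ i ∈ Finset.range N, ∑ j ∈ Finset.Ico (t + i * m) (t + i * m + m), g j := by
  induction N with
  | zero => simp
  | succ N ih =>
    rw [Finset.sum_range_succ, ← ih, Finset.sum_Ico_consecutive _ (by omega) (by omega)]
    congr 2
    ring

omit [Fintype S] [DecidableEq S] in
private lemma info2_mean (f : List S → ℝ) (k t : ℕ) {m N : ℕ} (hm : 0 < m) (hN : 0 < N)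
    (w : List S) :
    ∑ i ∈ Finset.range N, avg f k (t + i * m) m w = N * avg f k t (N * m) w := by
  unfold avg
  rw [info2_blocks, ← Finset.sum_div]
  have h1 : (m : ℝ) ≠ 0 := by positivity
  have h2 : (N : ℝ) ≠ 0 := by positivity
  push_cast
  field_simp

private lemma info2_sq (x : ℕ → ℝ) (N : ℕ) (μ : ℝ) (h : ∑ i ∈ Finset.range N, x i = N * μ) :
    ∑ i ∈ Finset.range N, (x i - μ) ^ 2 = ∑ i ∈ Finset.range N, x i ^ 2 - N * μ ^ 2 := by
  have : ∀ i, (x i - μ) ^ 2 = x i ^ 2 - 2 * μ * x i + μ ^ 2 := fun i => by ring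
  simp only [this, Finset.sum_add_distrib, Finset.sum_sub_distrib, ← Finset.mul_sum, h,
    Finset.sum_const, Finset.card_range, nsmul_eq_mul]
  ring

private lemma info2_id (hP : Sta P) (f : List S → ℝ) {k t m N : ℕ} (hk : k ≤ t) (hm : 0 < m)
    (hN : 0 < N) :
    ∑ i ∈ Finset.range N, ∑ w ∈ words S (t + N * m),
        P w * (avg f k (t + i * m) m w - avg f k t (N * m) w) ^ 2
      = N * (∑ w ∈ words S (k + m), P w * (avg f k k m w) ^ 2
          - ∑ w ∈ words S (k + N * m), P w * (avg f k k (N * m) w) ^ 2) := by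
  rw [Finset.sum_comm]
  have h1 : ∀ w ∈ words S (t + N * m), ∑ i ∈ Finset.range N,
      P w * (avg f k (t + i * m) m w - avg f k t (N * m) w) ^ 2
      = ∑ i ∈ Finset.range N, P w * (avg f k (t + i * m) m w) ^ 2
        - N * (P w * (avg f k t (N * m) w) ^ 2) := by
    intro w _
    rw [← Finset.mul_sum, info2_sq _ N _ (info2_mean f k t hm hN w), ← Finset.mul_sum]
    ring
  rw [Finset.sum_congr rfl h1, Finset.sum_sub_distrib, ← Finset.mul_sum, Finset.sum_comm,
    info2_mom hP f hk le_rfl]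
  have h2 : ∀ i ∈ Finset.range N, ∑ w ∈ words S (t + N * m), P w * (avg f k (t + i * m) m w) ^ 2
      = ∑ w ∈ words S (k + m), P w * (avg f k k m w) ^ 2 := by
    intro i hi
    rw [Finset.mem_range] at hi
    refine info2_mom hP f (by omega) ?_
    have : (i + 1) * m ≤ N * m := Nat.mul_le_mul_right m hi
    rw [Nat.add_mul, Nat.one_mul] at this
    omega
  rw [Finset.sum_congr rfl h2, Finset.sum_const, Finset.card_range, nsmul_eq_mul]
  ring

theorem Sta.var (hP : Sta P) (f : List S → ℝ) (k : ℕ) {ε : ℝ} (hε : 0 < ε) :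
    ∃ m₁ : ℕ, 0 < m₁ ∧ ∀ m, 0 < m → m₁ ∣ m → ∀ t N : ℕ, k ≤ t → 0 < N →
      ∑ i ∈ Finset.range N, ∑ w ∈ words S (t + N * m),
        P w * (avg f k (t + i * m) m w - avg f k t (N * m) w) ^ 2 ≤ N * ε := by
  set s : ℕ → ℝ := fun m => ∑ w ∈ words S (k + m), P w * (avg f k k m w) ^ 2 with hs
  have s0 : ∀ m, 0 ≤ s m := fun m =>
    Finset.sum_nonneg fun w _ => mul_nonneg (hP.nn w) (sq_nonneg _)
  have mono : ∀ m N : ℕ, 0 < m → 0 < N → s (N * m) ≤ s m := by
    intro m N hm hN
    have h := info2_id hP f (le_refl k) hm hN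
    have h0 : 0 ≤ ∑ i ∈ Finset.range N, ∑ w ∈ words S (k + N * m),
        P w * (avg f k (k + i * m) m w - avg f k k (N * m) w) ^ 2 :=
      Finset.sum_nonneg fun i _ => Finset.sum_nonneg fun w _ =>
        mul_nonneg (hP.nn w) (sq_nonneg _)
    rw [h] at h0
    have hN' : (0 : ℝ) < N := by exact_mod_cast hN
    have := nonneg_of_mul_nonneg_right h0 hN'
    simp only [hs]
    linarith
  have bdd : BddBelow (Set.range fun n : ℕ => s (n + 1)) := ⟨0, by rintro _ ⟨n, rfl⟩; exact s0 _⟩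
  obtain ⟨n, hn⟩ : ∃ n : ℕ, s (n + 1) < (⨅ n : ℕ, s (n + 1)) + ε :=
    exists_lt_of_ciInf_lt (lt_add_of_pos_right _ hε)
  refine ⟨n + 1, Nat.succ_pos n, ?_⟩
  rintro m hm ⟨c, rfl⟩ t N hk hN
  rw [info2_id hP f hk hm hN]
  have hc : 0 < c := Nat.pos_of_mul_pos_left hm
  have h1 : s ((n + 1) * c) ≤ s (n + 1) := by
    rw [Nat.mul_comm]; exact mono _ _ (Nat.succ_pos n) hc
  have hpos : 0 < N * ((n + 1) * c) := Nat.mul_pos hN hm
  have h2 : (⨅ n : ℕ, s (n + 1)) ≤ s (N * ((n + 1) * c)) := by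
    have := ciInf_le bdd (N * ((n + 1) * c) - 1)
    rwa [Nat.sub_add_cancel hpos] at this
  refine mul_le_mul_of_nonneg_left ?_ (Nat.cast_nonneg N)
  simp only [hs] at h1 h2 hn
  linarith

end Pool.Agent.Lib.MP_a52643_an.SE
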