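import Pool.Agent.Lib.MP_a52643_an.SE.Info1
import Pool.Agent.Lib.MP_a52643_an.SE.Info2

/-!
Words of positive rate branch at most nodes.
-/

open MeasureTheory Set Filter Topology Metric UpperHalfPlane
open scoped ENNReal MatrixGroups Real FourierTransform ComplexConjugate

noncomputable section

namespace Pool.Agent.Lib.MP_a52643_an.SE

open NS

variable {S : Type} [Fintype S] [DecidableEq S] {P : List S → ℝ}

private lemma sum_take (hP : Sta P) {j L : ℕ} (h : j ≤ L) (f : List S → ℝ) :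
    ∑ w ∈ words S L, P w * f (w.take j) = ∑ w ∈ words S j, P w * f w := by
  obtain ⟨b, rfl⟩ := Nat.exists_eq_add_of_le h
  simpa using hP.sum_mid 0 j b f

omit [Fintype S] [DecidableEq S] in
private lemma tel (P : List S → ℝ) (w : List S) {a b : ℕ} (hab : a ≤ b) (hb : b ≤ w.length) :
    ∑ j ∈ Finset.Ico a b, cnd P (w.take (j + 1)) = inf P (w.take b) - inf P (w.take a) := by
  induction b, hab using Nat.le_induction with
  | base => simp
  | succ b hab ih =>
    have e : (w.take (b + 1)).dropLast = w.take b := by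
      rw [List.dropLast_eq_take, List.take_take, List.length_take]
      congr 1
      omega
    rw [Finset.sum_Ico_succ_top hab, ih (by omega), cnd, e]
    ring

/-- the information of a symbol given a bounded past -/
private def gk (P : List S → ℝ) (k j : ℕ) (w : List S) : ℝ :=
  cnd P ((w.take (j + 1)).drop (j - k))

/-- the error of the bounded memory -/
private def er (P : List S → ℝ) (k a b : ℕ) (w : List S) : ℝ :=
  ∑ j ∈ Finset.Ico a b, |cnd P (w.take (j + 1)) - gk P k j w|

omit [Fintype S] [DecidableEq S] in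
private lemma er_nn (k a b : ℕ) (w : List S) : 0 ≤ er P k a b w :=
  Finset.sum_nonneg fun _ _ => abs_nonneg _

omit [Fintype S] [DecidableEq S] in
private lemma er_ge (k : ℕ) (w : List S) {a m : ℕ} (hm : 0 < m) (hb : a + m ≤ w.length) :
    |inf P (w.take (a + m)) - inf P (w.take a) - m * avg (cnd P) k a m w| ≤ er P k a (a + m) w := by
  have m0 : (m : ℝ) ≠ 0 := by positivity
  rw [← tel P w (Nat.le_add_right a m) hb, avg, mul_div_cancel₀ _ m0, ← Finset.sum_sub_distrib]
  exact Finset.abs_sum_le_sum_abs _ _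

private lemma er_le (hP : Sta P) {k : ℕ} (hk : ∀ j ≥ k,
    ∑ w ∈ words S (j + 1), P w * |cnd P w - cnd P (w.drop (j - k))| ≤ 2) {a m L : ℕ}
    (ha : k ≤ a) (hb : a + m ≤ L) : ∑ w ∈ words S L, P w * er P k a (a + m) w ≤ 2 * m := by
  simp only [er, Finset.mul_sum]
  rw [Finset.sum_comm]
  refine (Finset.sum_le_card_nsmul _ _ 2 fun j hj => ?_).trans (by simp [mul_comm])
  rw [Finset.mem_Ico] at hj
  exact (sum_take hP (show j + 1 ≤ L by omega)
    fun u => |cnd P u - cnd P (u.drop (j - k))|).trans_le (hk j (by omega))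

open Classical in
private lemma node (hP : Sta P) {B : ℕ} (hB : 1 ≤ B) {c : ℝ} (c0 : 0 ≤ c)
    (hc : c * Real.log (Fintype.card S) ≤ 1) {k : ℕ} (hk : ∀ j ≥ k,
    ∑ w ∈ words S (j + 1), P w * |cnd P w - cnd P (w.drop (j - k))| ≤ 2) {m t L : ℕ}
    (hm : 0 < m) (ht : k ≤ t) (hL : t + m ≤ L) :
    ∑ w ∈ words S L, P w * (if ¬ Br P m (B ^ m) c (w.take t) then avg (cnd P) k t m w else 0)
      ≤ Real.log B + 4 := by
  have m1 : (1 : ℝ) ≤ m := by exact_mod_cast hm
  have lB : 0 ≤ Real.log B := Real.log_natCast_nonneg B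
  have lS : 0 ≤ Real.log (Fintype.card S) := Real.log_natCast_nonneg _
  have l2 : Real.log 2 ≤ 1 := by have := Real.log_two_lt_d9; linarith
  have l0 : 0 ≤ Real.log 2 := Real.log_nonneg one_le_two
  have h1 := er_le hP hk ht hL
  have h2 := sum_take hP hL fun u =>
    if ¬ Br P m (B ^ m) c (u.take t) then inf P u - inf P (u.take t) else 0
  have h3 : ∑ u ∈ words S (t + m), P u *
      (if ¬ Br P m (B ^ m) c (u.take t) then inf P u - inf P (u.take t) else 0)
      ≤ m * (Real.log B + 2) := by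
    rw [sum_words_add, ← one_mul (m * (Real.log B + 2)), ← hP.sum_one t, Finset.sum_mul]
    refine Finset.sum_le_sum fun u hu => ?_
    rw [mem_words] at hu
    simp only [List.take_left' hu]
    by_cases h : Br P m (B ^ m) c u
    · simp only [h, not_true, if_false, mul_zero, Finset.sum_const_zero]
      exact mul_nonneg (hP.nn u) (by positivity)
    · simp only [h, not_false_iff, if_true]
      refine (hP.nonbr (Nat.one_le_pow _ _ hB) c0 h).trans
        (mul_le_mul_of_nonneg_left ?_ (hP.nn u))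
      rw [Nat.cast_pow, Real.log_pow]
      have := mul_le_mul_of_nonneg_left hc (zero_le_one.trans m1)
      nlinarith
  rw [← h2] at h3
  refine le_of_mul_le_mul_left ?_ (zero_lt_one.trans_le m1)
  rw [Finset.mul_sum]
  refine le_trans (Finset.sum_le_sum fun w hw => ?_)
    ((Finset.sum_add_distrib.trans_le (add_le_add h3 h1)).trans_eq (by ring))
  rw [mem_words] at hw
  have h4 := abs_le.1 (er_ge (P := P) k w hm (hw ▸ hL))
  have h5 := er_nn (P := P) k t (t + m) w
  rw [mul_left_comm, ← mul_add]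
  refine mul_le_mul_of_nonneg_left ?_ (hP.nn w)
  rw [List.take_take, min_eq_left (Nat.le_add_right t m)]
  split_ifs
  · linarith
  · linarith [h4.1]

theorem Sta.info (hP : Sta P) {B : ℕ} (hB : 1 ≤ B) {c : ℝ} (c0 : 0 ≤ c)
    (hc : c * Real.log (Fintype.card S) ≤ 1) :
    ∃ m₁ : ℕ, 0 < m₁ ∧ ∀ m, 0 < m → m₁ ∣ m → ∃ n₀ : ℕ, ∀ n ≥ n₀,
      ∑ w ∈ words S (n * (10 * m)), P w * (inf P w * nbr (Br P m (B ^ m) c) (10 * m) n w)
        ≤ (Real.log B + 10) * (n * (10 * m)) * n := by
  classical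
  obtain ⟨k, hk⟩ := hP.approx
  obtain ⟨m₁, hm₁, hv⟩ := hP.var (cnd P) k (ε := 1 / 10) (by norm_num)
  refine ⟨m₁ * (k + 1), by positivity, fun m hm hd =>
    ⟨⌈Real.log (Fintype.card S)⌉₊ + 2, fun n hn => ?_⟩⟩
  have km : k + 1 ≤ m := Nat.le_of_dvd hm ((dvd_mul_left _ _).trans hd)
  obtain ⟨p, rfl⟩ : ∃ p, n = p + 1 := ⟨n - 1, by omega⟩
  have p0 : 0 < p := by omega
  have lS : Real.log (Fintype.card S) ≤ p :=
    (Nat.le_ceil _).trans (by exact_mod_cast (by omega : ⌈Real.log (Fintype.card S)⌉₊ ≤ p))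
  have lB : 0 ≤ Real.log B := Real.log_natCast_nonneg B
  have hL : (p + 1) * (10 * m) = 10 * m + 10 * p * m := by ring
  rw [hL]
  obtain ⟨l, hl⟩ : ∃ l, l = 10 * m := ⟨_, rfl⟩
  obtain ⟨M, hM⟩ : ∃ M, M = 10 * p * m := ⟨_, rfl⟩
  have M0 : 0 < M := by rw [hM]; positivity
  have h1 := hv m hm ((dvd_mul_right _ _).trans hd) (10 * m) (10 * p) (by omega) (by omega)
  rw [← hl, ← hM] at h1 ⊢
  have h2 : ∑ q ∈ Finset.range p, ∑ w ∈ words S (l + M),
      P w * (avg (cnd P) k (l + 10 * q * m) m w - avg (cnd P) k l M w) ^ 2 ≤ p := by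
    refine le_trans ?_ (h1.trans_eq (by push_cast; ring))
    rw [← Finset.sum_image (s := Finset.range p) (g := fun q => 10 * q) (f := fun i =>
      ∑ w ∈ words S (l + M), P w * (avg (cnd P) k (l + i * m) m w - avg (cnd P) k l M w) ^ 2)
      fun a _ b _ h => by simpa using h]
    refine Finset.sum_le_sum_of_subset_of_nonneg (fun i hi => ?_) fun i _ _ =>
      Finset.sum_nonneg fun w _ => mul_nonneg (hP.nn w) (sq_nonneg _)
    obtain ⟨q, hq, rfl⟩ := Finset.mem_image.1 hi
    rw [Finset.mem_range] at hq ⊢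
    omega
  have h3 : ∑ q ∈ Finset.range p, ∑ w ∈ words S (l + M), P w *
      (if ¬ Br P m (B ^ m) c (w.take (l + 10 * q * m)) then avg (cnd P) k (l + 10 * q * m) m w
        else 0) ≤ p * (Real.log B + 4) := by
    refine (Finset.sum_le_card_nsmul _ _ (Real.log B + 4) fun q hq => ?_).trans
      (by rw [Finset.card_range, nsmul_eq_mul])
    rw [Finset.mem_range] at hq
    refine node hP hB c0 hc hk hm (by omega) ?_
    have : (10 * q + 1) * m ≤ 10 * p * m := Nat.mul_le_mul_right _ (by omega)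
    rw [hM]
    linarith
  have h4 := er_le hP hk (a := l) (m := M) (L := l + M) (by omega) le_rfl
  have h5 : ∑ w ∈ words S (l + M), P w * inf P (w.take l) ≤ l * p :=
    ((sum_take hP (Nat.le_add_right l M) (inf P)).trans_le (hP.ent_le l)).trans
      (mul_le_mul_of_nonneg_left lS (Nat.cast_nonneg l))
  have h6 := hP.sum_one (l + M)
  have key : ∀ w ∈ words S (l + M), P w * (inf P w * nbr (Br P m (B ^ m) c) l (p + 1) w) ≤
      p * (P w * inf P (w.take l)) + p * (P w * er P k l (l + M) w) +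
      M * ∑ q ∈ Finset.range p, (P w * (if ¬ Br P m (B ^ m) c (w.take (l + 10 * q * m)) then
        avg (cnd P) k (l + 10 * q * m) m w else 0) + (1 / 2 * P w + 1 / 2 * (P w *
          (avg (cnd P) k (l + 10 * q * m) m w - avg (cnd P) k l M w) ^ 2))) := by
    intro w hw
    rw [mem_words] at hw
    have e1 : (nbr (Br P m (B ^ m) c) l (p + 1) w : ℝ) = ∑ q ∈ Finset.range p,
        if ¬ Br P m (B ^ m) c (w.take (l + 10 * q * m)) then (1 : ℝ) else 0 := by
      rw [nbr, Finset.card_filter, Finset.sum_Ico_eq_sum_range, Nat.add_sub_cancel]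
      push_cast
      refine Finset.sum_congr rfl fun q _ => ?_
      rw [show (1 + q) * l = l + 10 * q * m by rw [hl]; ring]
    have e2 : (nbr (Br P m (B ^ m) c) l (p + 1) w : ℝ) ≤ p := by
      rw [e1]
      refine (Finset.sum_le_card_nsmul _ _ 1 fun q _ => ?_).trans (by simp)
      split_ifs <;> norm_num
    have e3 := (abs_le.1 (er_ge (P := P) k w M0 hw.ge)).2
    rw [List.take_of_length_le hw.le] at e3
    have e4 : P w * (avg (cnd P) k l M w * nbr (Br P m (B ^ m) c) l (p + 1) w) ≤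
        ∑ q ∈ Finset.range p, (P w * (if ¬ Br P m (B ^ m) c (w.take (l + 10 * q * m)) then
          avg (cnd P) k (l + 10 * q * m) m w else 0) + (1 / 2 * P w + 1 / 2 * (P w *
            (avg (cnd P) k (l + 10 * q * m) m w - avg (cnd P) k l M w) ^ 2))) := by
      rw [e1, Finset.mul_sum, Finset.mul_sum]
      refine Finset.sum_le_sum fun q _ => ?_
      generalize avg (cnd P) k (l + 10 * q * m) m w = x
      generalize avg (cnd P) k l M w = y
      have := hP.nn w
      split_ifs
      · nlinarith [mul_nonneg this (sq_nonneg (x - y))]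
      · nlinarith [mul_nonneg this (sq_nonneg (x - y + 1))]
    have e5 : 0 ≤ inf P (w.take l) + er P k l (l + M) w :=
      add_nonneg (hP.inf_nn _) (er_nn _ _ _ _)
    have e6 : inf P w * nbr (Br P m (B ^ m) c) l (p + 1) w ≤
        (inf P (w.take l) + er P k l (l + M) w) * p +
          M * (avg (cnd P) k l M w * nbr (Br P m (B ^ m) c) l (p + 1) w) := by
      have a1 := mul_le_mul_of_nonneg_left e2 e5
      have a2 := mul_le_mul_of_nonneg_right e3
        (Nat.cast_nonneg (nbr (Br P m (B ^ m) c) l (p + 1) w) : (0 : ℝ) ≤ _)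
      linarith
    have e7 := mul_le_mul_of_nonneg_left e6 (hP.nn w)
    have e8 := mul_le_mul_of_nonneg_left e4 (Nat.cast_nonneg M : (0 : ℝ) ≤ M)
    linarith
  refine (Finset.sum_le_sum key).trans ?_
  rw [Finset.sum_add_distrib, Finset.sum_add_distrib, ← Finset.mul_sum, ← Finset.mul_sum,
    ← Finset.mul_sum, Finset.sum_comm]
  simp only [Finset.sum_add_distrib, ← Finset.mul_sum, h6, Finset.sum_const, Finset.card_range,
    nsmul_eq_mul]
  have p1 : (0 : ℝ) ≤ p := Nat.cast_nonneg p
  have M1 : (0 : ℝ) ≤ M := Nat.cast_nonneg M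
  have l1 : (0 : ℝ) ≤ l := Nat.cast_nonneg l
  have eM : (M : ℝ) = l * p := by rw [hM, hl]; push_cast; ring
  have el : (10 * m : ℝ) = l := by rw [hl]; push_cast; ring
  have a1 := mul_le_mul_of_nonneg_left h5 p1
  have a2 := mul_le_mul_of_nonneg_left h4 p1
  have a3 := mul_le_mul_of_nonneg_left h3 M1
  have a4 := mul_le_mul_of_nonneg_left h2 M1
  have a5 : (M : ℝ) * p ≤ (p + 1) * l * (p + 1) := by rw [eM]; nlinarith [mul_nonneg l1 p1]
  have a6 := mul_le_mul_of_nonneg_left a5 lB
  have a7 : (0 : ℝ) ≤ M * p := mul_nonneg M1 p1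
  rw [← eM] at a1
  push_cast
  rw [el]
  nlinarith

end Pool.Agent.Lib.MP_a52643_an.SE
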