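import Pool.Agent.Lib.MP_a52643_an.SE.Trans

/-!
Invariance of the limit measure on closed sets.
-/

open MeasureTheory Set Filter Topology Metric UpperHalfPlane
open scoped ENNReal MatrixGroups Real FourierTransform ComplexConjugate

noncomputable section

namespace Pool.Agent.Lib.MP_a52643_an.SE

open NS

private lemma inv1_le {Γ : Type} [Group Γ] [MulAction Γ ℍ] {e : ℝ} (H : Act Γ e)
    {C : Set (ℍ × ℍ)} (hne : C.Nonempty) (iC : ∀ (γ : Γ), ∀ p ∈ C, (γ • p.1, γ • p.2) ∈ C)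
    (γ : Γ) (z w : ℍ) : infDist (γ • z, γ • w) C ≤ infDist (z, w) C := by
  refine (le_infDist hne).2 fun p hp => (infDist_le_dist_of_mem (iC γ p hp)).trans (le_of_eq ?_)
  rw [Prod.dist_eq, Prod.dist_eq, H.iso, H.iso]

private lemma inv1_fun {Γ : Type} [Group Γ] [MulAction Γ ℍ] {e : ℝ} (H : Act Γ e)
    {C : Set (ℍ × ℍ)} (hC : IsClosed C) (iC : ∀ (γ : Γ), ∀ p ∈ C, (γ • p.1, γ • p.2) ∈ C) :
    ∃ D : SL2 → ℝ, Continuous D ∧ (∀ γ ∈ Lam Γ, ∀ g, D (γ * g) = D g) ∧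
      (∀ ρ g g', Cls ρ 1 g g' → D g' ≤ D g + ρ) ∧
      {g | (bp g, bp (g * aG 1)) ∈ C} = {g | D g ≤ 0} := by
  rcases C.eq_empty_or_nonempty with rfl | hne
  · refine ⟨fun _ => 1, continuous_const, fun _ _ _ => rfl, fun ρ g g' h => ?_, ?_⟩
    · linarith [dist_nonneg.trans (h 0 ⟨le_rfl, zero_le_one⟩)]
    · ext g; simp
  have hc : ∀ h : SL2, Continuous fun g : SL2 => bp (g * h) := fun h => by
    simp only [bp_mul]
    exact continuous_id.smul continuous_const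
  have hc1 : Continuous fun g : SL2 => bp g := by simpa using hc 1
  refine ⟨fun g => infDist (bp g, bp (g * aG 1)) C,
    (continuous_infDist_pt C).comp (hc1.prodMk (hc _)), ?_, fun ρ g g' h => ?_, ?_⟩
  · rintro γ ⟨δ, hδ⟩ g
    beta_reduce
    rw [mul_assoc, bp_mul γ, bp_mul γ, ← hδ, ← hδ]
    refine le_antisymm (inv1_le H hne iC δ _ _) ?_
    have := inv1_le H hne iC δ⁻¹ (δ • bp g) (δ • bp (g * aG 1))
    rwa [inv_smul_smul, inv_smul_smul] at this
  · refine (infDist_le_infDist_add_dist (y := (bp g, bp (g * aG 1)))).trans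
      (add_le_add le_rfl ?_)
    have h0 := h 0 ⟨le_rfl, zero_le_one⟩
    rw [aG_zero, mul_one, mul_one] at h0
    rw [Prod.dist_eq]
    exact max_le h0 (h 1 ⟨zero_le_one, le_rfl⟩)
  · ext g
    exact (hC.mem_iff_infDist_zero hne).trans
      ⟨fun h => h.le, fun h => le_antisymm h infDist_nonneg⟩

private lemma inv1_start {Λ : Set SL2} {P₀ P : Measure SL2} {h θ ρ p T : ℝ}
    (hρ : 2 * Real.exp (-h) ≤ ρ) (tr : Tr0 Λ P₀ P h θ) {U U' : Set SL2} (mU : MeasurableSet U)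
    (mU' : MeasurableSet U') (iU : LI Λ U) (iU' : LI Λ U') (hs : Stp ρ 1 U U')
    (hp : |p| + 1 ≤ h) (T0 : 22 * h ≤ T) (T1 : T ≤ 23 * h) :
    P₀.real (tm p U) ≤ P.real (tm (p - T) U') + 30 * θ := by
  have a := abs_nonneg p
  have b := le_abs_self p
  have c := neg_abs_le p
  refine (tr T T0 T1).stat (Real.exp_pos _) mU mU' iU iU' hs ?_
  rw [← Real.exp_sub, ← Real.exp_add, ← Real.exp_add]
  linarith [Real.exp_le_exp.2 (show 52 * h + T - 100 * h + -p ≤ -h by linarith),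
    Real.exp_le_exp.2 (show -31 * h + (p + 1) ≤ -h by linarith)]

private lemma inv1_step {Γ : Type} [Group Γ] [MulAction Γ ℍ] {Λ : Set SL2}
    (hΛ : Λ ⊆ Lam Γ) {μ : Measure SL2} [IsProbabilityMeasure μ] (hμ : Apx Γ Λ μ)
    {D : SL2 → ℝ} (c : Continuous D) (i : ∀ γ ∈ Lam Γ, ∀ g, D (γ * g) = D g)
    (l : ∀ ρ g g', Cls ρ 1 g g' → D g' ≤ D g + ρ) (s t : ℝ) {ρ θ : ℝ} (ρ0 : 0 < ρ)
    (θ0 : 0 < θ) :
    μ.real (tm s {g | D g ≤ 0}) ≤ μ.real (tm t {g | D g ≤ 5 * ρ}) + 62 * θ := by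
  have := borel_SL2
  have hr : 0 < 2 / ρ := by positivity
  have as := abs_nonneg s
  have at' := abs_nonneg t
  obtain ⟨h, hh, P₀, P, p₀, p₁, -, tr0, m₁, m₂⟩ :=
    hμ θ θ0 (2 * |s| + 2 * |t| + 1 + 2 / ρ) 0 ρ (fun g => D (g * aG s) - ρ)
      (fun g => 5 * ρ - D (g * aG t)) ρ0
      ((c.comp (continuous_mul_const _)).sub continuous_const)
      (continuous_const.sub (c.comp (continuous_mul_const _)))
      (fun γ hγ g => by simp only [mul_assoc, i γ hγ])
      (fun γ hγ g => by simp only [mul_assoc, i γ hγ])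
  have hρ : 2 * Real.exp (-h) ≤ ρ := by
    have a1 := Real.add_one_le_exp h
    have a2 : 2 / ρ ≤ Real.exp h := by linarith
    rw [div_le_iff₀ ρ0] at a2
    rw [Real.exp_neg, ← div_eq_mul_inv, div_le_iff₀ (Real.exp_pos h)]
    linarith
  have mlt : ∀ a : ℝ, MeasurableSet {g | D g < a} := fun a =>
    (isOpen_lt c continuous_const).measurableSet
  have mgt : ∀ a : ℝ, MeasurableSet {g | a < D g} := fun a =>
    (isOpen_lt continuous_const c).measurableSet
  have ilt : ∀ a : ℝ, LI Λ {g | D g < a} := fun a γ hγ g => by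
    show D (γ * g) < a ↔ D g < a
    rw [i γ (hΛ hγ)]
  have igt : ∀ a : ℝ, LI Λ {g | a < D g} := fun a γ hγ g => by
    show a < D (γ * g) ↔ a < D g
    rw [i γ (hΛ hγ)]
  have b1 := le_abs_self s
  have b2 := neg_abs_le s
  have b3 := le_abs_self t
  have b4 := neg_abs_le t
  have s₁ := inv1_start (p := s) (T := 45 / 2 * h) hρ tr0 (mlt (2 * ρ)) (mlt (3 * ρ)) (ilt _)
    (ilt _) (fun g hg g' hc => by
      have a1 : D g < 2 * ρ := hg
      show D g' < 3 * ρ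
      linarith [l ρ g g' hc]) (by linarith) (by linarith) (by linarith)
  have s₂ := inv1_start (p := t) (T := 45 / 2 * h + t - s) hρ tr0 (mgt (4 * ρ)) (mgt (3 * ρ))
    (igt _) (igt _) (fun g hg g' hc => by
      have a1 : 4 * ρ < D g := hg
      show 3 * ρ < D g'
      linarith [l ρ g' g hc.symm]) (by linarith) (by linarith) (by linarith)
  rw [show t - (45 / 2 * h + t - s) = s - 45 / 2 * h by ring] at s₂
  have e₁ : μ.real (tm s {g | D g ≤ 0}) ≤ μ.real {g | D (g * aG s) - ρ < 0} :=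
    measureReal_mono fun g hg => by
      have a1 : D (g * aG s) ≤ 0 := hg
      show D (g * aG s) - ρ < 0
      linarith
  have e₂ : P₀.real {g | D (g * aG s) - ρ < ρ} ≤ P₀.real (tm s {g | D g < 2 * ρ}) :=
    measureReal_mono fun g hg => by
      have a1 : D (g * aG s) - ρ < ρ := hg
      show D (g * aG s) < 2 * ρ
      linarith
  have e₃ : P₀.real {g | 5 * ρ - D (g * aG t) < ρ} ≤ P₀.real (tm t {g | 4 * ρ < D g}) :=
    measureReal_mono fun g hg => by
      have a1 : 5 * ρ - D (g * aG t) < ρ := hg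
      show 4 * ρ < D (g * aG t)
      linarith
  have e₄ : P.real (tm (s - 45 / 2 * h) {g | 3 * ρ < D g}) ≤
      P.real (tm (s - 45 / 2 * h) {g | D g < 3 * ρ})ᶜ :=
    measureReal_mono fun g hg hg' => lt_asymm (show 3 * ρ < D _ from hg) hg'
  have e₅ : μ.real (tm t {g | D g ≤ 5 * ρ})ᶜ ≤ μ.real {g | 5 * ρ - D (g * aG t) < 0} :=
    measureReal_mono fun g hg => by
      have a1 : ¬ D (g * aG t) ≤ 5 * ρ := hg
      show 5 * ρ - D (g * aG t) < 0
      linarith [not_le.1 a1]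
  rw [probReal_compl_eq_one_sub (measurableSet_tm _ (mlt _))] at e₄
  rw [probReal_compl_eq_one_sub
    (measurableSet_tm _ (isClosed_le c continuous_const).measurableSet)] at e₅
  linarith

theorem Apx.closed {Γ : Type} [Group Γ] [MulAction Γ ℍ] {e : ℝ} (H : Act Γ e) {Λ : Set SL2}
    (hΛ : Λ ⊆ Lam Γ) {μ : Measure SL2} [IsProbabilityMeasure μ] (hμ : Apx Γ Λ μ)
    {C : Set (ℍ × ℍ)} (hC : IsClosed C) (iC : ∀ (γ : Γ), ∀ p ∈ C, (γ • p.1, γ • p.2) ∈ C)
    (s t : ℝ) :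
    μ (tm s {g | (bp g, bp (g * aG 1)) ∈ C}) ≤ μ (tm t {g | (bp g, bp (g * aG 1)) ∈ C}) := by
  have := borel_SL2
  obtain ⟨D, c, i, l, eq⟩ := inv1_fun H hC iC
  rw [eq]
  have a1 : ∀ n : ℕ, μ (tm s {g | D g ≤ 0}) ≤ μ (tm t {g | D g ≤ 1 / ((n : ℝ) + 1)}) := by
    intro n
    rw [← ENNReal.toReal_le_toReal (measure_ne_top _ _) (measure_ne_top _ _)]
    refine le_of_forall_pos_le_add fun ε hε => ?_
    have := inv1_step hΛ hμ c i l s t (ρ := 1 / ((n : ℝ) + 1) / 5) (θ := ε / 62) (by positivity)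
      (by positivity)
    rw [mul_div_cancel₀ _ (by norm_num : (5 : ℝ) ≠ 0),
      mul_div_cancel₀ _ (by norm_num : (62 : ℝ) ≠ 0)] at this
    exact this
  have a2 := tendsto_measure_iInter_atTop (μ := μ)
    (s := fun n : ℕ => tm t {g | D g ≤ 1 / ((n : ℝ) + 1)})
    (fun n => (measurableSet_tm _
      (isClosed_le c continuous_const).measurableSet).nullMeasurableSet)
    (fun m n hmn g hg => le_trans (show D (g * aG t) ≤ 1 / ((n : ℝ) + 1) from hg)
      (Nat.one_div_le_one_div hmn))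
    ⟨0, measure_ne_top _ _⟩
  refine (ge_of_tendsto' a2 a1).trans (measure_mono fun g hg => ?_)
  show D (g * aG t) ≤ 0
  exact ge_of_tendsto' tendsto_one_div_add_atTop_nhds_zero_nat fun n =>
    (mem_iInter.1 hg n : g ∈ tm t {g | D g ≤ 1 / ((n : ℝ) + 1)})

end Pool.Agent.Lib.MP_a52643_an.SE
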