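import Pool.Agent.Lib.MP_a52643_an.SE.Defs
import Pool.Agent.Lib.MP_a52643_an.NS.Fou2

/-!
Localisation to cells.
-/

open MeasureTheory Set Filter Topology Metric UpperHalfPlane
open scoped ENNReal MatrixGroups Real FourierTransform ComplexConjugate

noncomputable section

namespace Pool.Agent.Lib.MP_a52643_an.SE

open NS

private lemma loc1_shift (f : ℝ → ℂ) (x ξ : ℝ) :
    𝓕 (fun y => f (y - x)) ξ = ee (x * ξ) * 𝓕 f ξ := by
  rw [ft_eq, ft_eq, ← integral_const_mul,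
    ← integral_add_right_eq_self (fun y => ee (y * ξ) * f (y - x)) x]
  congr 1
  ext y
  rw [add_sub_cancel_right, add_mul, ee_add]
  ring

private lemma loc1_cut {ι : Type} (x : ι → ℝ) (d : ℝ) (s : Finset ι) : ∀ f : ℝ → ℂ, Nice f →
    (∀ t, f t ≠ 0 → ∃ i ∈ s, |t - x i| ≤ d) → ∃ F : ι → ℝ → ℂ, (∀ i ∈ s, Nice (F i)) ∧
      (∀ i ∈ s, ∀ t, F i t ≠ 0 → |t - x i| ≤ d) ∧ (∀ t, ∑ i ∈ s, F i t = f t) ∧
      ∀ t, ∑ i ∈ s, ‖F i t‖ₑ ^ 2 = ‖f t‖ₑ ^ 2 := by
  classical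
  induction s using Finset.induction_on with
  | empty =>
    intro f _ hs
    have h : ∀ t, f t = 0 := fun t => by_contra fun h => by simpa using hs t h
    exact ⟨fun _ => f, by simp, by simp, by simp [h], by simp [h]⟩
  | insert a s ha ih =>
    intro f hf hs
    have hE : MeasurableSet {t : ℝ | |t - x a| ≤ d} :=
      (isClosed_le (by fun_prop) continuous_const).measurableSet
    obtain ⟨F, h1, h2, h3, h4⟩ := ih _ (hf.indicator hE.compl) fun t ht => by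
      obtain ⟨i, hi, h⟩ := hs t fun e => ht (indicator_apply_eq_zero.2 fun _ => e)
      rcases Finset.mem_insert.1 hi with rfl | hi
      · exact absurd h (mem_of_indicator_ne_zero ht :)
      · exact ⟨i, hi, h⟩
    have e : ∀ i ∈ s, Function.update F a ({t : ℝ | |t - x a| ≤ d}.indicator f) i = F i :=
      fun i hi => Function.update_of_ne (ne_of_mem_of_not_mem hi ha) _ _
    refine ⟨Function.update F a ({t : ℝ | |t - x a| ≤ d}.indicator f), fun i hi => ?_,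
      fun i hi t ht => ?_, fun t => ?_, fun t => ?_⟩
    · rcases Finset.mem_insert.1 hi with rfl | hi
      · rw [Function.update_self]; exact hf.indicator hE
      · rw [e i hi]; exact h1 i hi
    · rcases Finset.mem_insert.1 hi with rfl | hi
      · rw [Function.update_self] at ht
        exact (mem_of_indicator_ne_zero ht :)
      · rw [e i hi] at ht; exact h2 i hi t ht
    · rw [Finset.sum_insert ha, Function.update_self,
        Finset.sum_congr rfl fun i hi => congrFun (e i hi) t, h3, indicator_self_add_compl_apply]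
    · rw [Finset.sum_insert ha, Function.update_self,
        Finset.sum_congr rfl fun i hi => by rw [e i hi], h4]
      by_cases h : t ∈ {t : ℝ | |t - x a| ≤ d}
      · rw [indicator_of_mem h, indicator_of_notMem (notMem_compl_iff.2 h)]; simp
      · rw [indicator_of_notMem h, indicator_of_mem (mem_compl h)]; simp

private lemma loc1_cells {l : ℝ} (hl : 0 < l) (μ : Measure ℝ) (h : ℝ → ℝ≥0∞) :
    ∫⁻ ξ, h ξ ∂μ = ∑' k : ℤ, ∫⁻ ξ in Ico (k * l) ((k + 1) * l), h ξ ∂μ := by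
  have h1 := iUnion_Ico_zsmul hl
  have h2 := pairwise_disjoint_Ico_zsmul l
  simp only [zsmul_eq_mul, Int.cast_add, Int.cast_one] at h1 h2
  rw [← lintegral_iUnion (fun _ => measurableSet_Ico) h2, h1, Measure.restrict_univ]

private lemma loc1_sob {Φ Ψ : ℝ → ℂ} (h : ∀ z, HasDerivAt Φ (Ψ z) z) (hc : Continuous Ψ)
    {a b l ξ : ℝ} (hl : 0 < l) (hb : b - a = l) (hξ : ξ ∈ Ico a b) :
    ‖Φ ξ‖ₑ ^ 2 ≤ ENNReal.ofReal (2 / l) * (∫⁻ z in Ico a b, ‖Φ z‖ₑ ^ 2)
      + ENNReal.ofReal (2 * l) * ∫⁻ z in Ico a b, ‖Ψ z‖ₑ ^ 2 := by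
  have hΦ : Continuous Φ := continuous_iff_continuousAt.2 fun z => (h z).continuousAt
  have h1 : (∫⁻ z in Ico a b, ‖Ψ z‖ₑ) ^ 2 ≤ ENNReal.ofReal l * ∫⁻ z in Ico a b, ‖Ψ z‖ₑ ^ 2 := by
    have h2 := ENNReal.lintegral_mul_le_Lp_mul_Lq (volume.restrict (Ico a b))
      Real.HolderConjugate.two_two (f := fun _ => 1) (g := fun z => ‖Ψ z‖ₑ) aemeasurable_const
      hc.measurable.enorm.aemeasurable
    simp only [Pi.mul_apply, one_mul] at h2
    refine (pow_le_pow_left' h2 2).trans (le_of_eq ?_)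
    rw [mul_pow, ← ENNReal.rpow_natCast, ← ENNReal.rpow_natCast, ← ENNReal.rpow_mul,
      ← ENNReal.rpow_mul]
    simp [hb]
  have h2 : ∀ z ∈ Ico a b, ‖Φ ξ‖ₑ ^ 2 ≤ 2 * ‖Φ z‖ₑ ^ 2
      + 2 * (ENNReal.ofReal l * ∫⁻ z in Ico a b, ‖Ψ z‖ₑ ^ 2) := fun z hz => by
    have h3 := enorm_sq_le (Φ ξ) (Φ z) one_pos
    rw [inv_one, one_add_one_eq_two, ENNReal.ofReal_ofNat] at h3
    refine h3.trans (add_le_add le_rfl (mul_le_mul_right (le_trans (pow_le_pow_left' ?_ 2) h1) _))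
    rw [← intervalIntegral.integral_eq_sub_of_hasDerivAt (fun w _ => h w)
      (hc.intervalIntegrable _ _), ← ofReal_norm,
      intervalIntegral.norm_integral_eq_norm_integral_uIoc, ofReal_norm]
    exact (enorm_integral_le_lintegral_enorm _).trans (lintegral_mono_set fun w hw =>
      ⟨(le_min hz.1 hξ.1).trans hw.1.le, hw.2.trans_lt (max_lt hz.2 hξ.2)⟩)
  have h3 := setLIntegral_mono' (μ := volume) measurableSet_Ico h2
  rw [setLIntegral_const, lintegral_add_right _ measurable_const, setLIntegral_const,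
    lintegral_const_mul' _ _ (by simp), Real.volume_Ico, hb] at h3
  have h4 : ENNReal.ofReal l ≠ 0 := by simpa using hl
  refine (ENNReal.mul_le_mul_iff_left h4 ENNReal.ofReal_ne_top).1 (h3.trans (le_of_eq ?_))
  have h5 : ENNReal.ofReal (2 / l) * ENNReal.ofReal l = 2 := by
    rw [← ENNReal.ofReal_mul (by positivity), div_mul_cancel₀ _ hl.ne', ENNReal.ofReal_ofNat]
  rw [ENNReal.ofReal_mul zero_le_two, ENNReal.ofReal_ofNat, add_mul,
    mul_right_comm (ENNReal.ofReal (2 / l)), h5]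
  ring

private lemma loc1_swap {ι : Type} (s : Finset ι) (x : ι → ℝ) (m : Measure ℝ) [IsFiniteMeasure m]
    {C : Set ℝ} {A : ℝ} (hA : 0 ≤ A)
    (H : ∀ c : ι → ℂ, ∫⁻ ξ in C, ‖∑ i ∈ s, c i * ee (x i * ξ)‖ₑ ^ 2 ∂m
      ≤ ENNReal.ofReal (A * ∑ i ∈ s, ‖c i‖ ^ 2))
    {G : ι → ℝ → ℂ} (hG : ∀ i ∈ s, Continuous (G i)) :
    (Measurable fun ξ => ∫⁻ z in C, ‖∑ i ∈ s, G i z * ee (x i * ξ)‖ₑ ^ 2) ∧
    ∫⁻ ξ in C, (∫⁻ z in C, ‖∑ i ∈ s, G i z * ee (x i * ξ)‖ₑ ^ 2) ∂m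
      ≤ ENNReal.ofReal A * ∫⁻ z in C, ∑ i ∈ s, ‖G i z‖ₑ ^ 2 := by
  have h1 : Measurable fun p : ℝ × ℝ => ‖∑ i ∈ s, G i p.2 * ee (x i * p.1)‖ₑ ^ 2 :=
    (continuous_finsetSum s fun i hi => ((hG i hi).comp continuous_snd).mul
      (by fun_prop)).measurable.enorm.pow_const 2
  refine ⟨h1.lintegral_prod_right', ?_⟩
  rw [lintegral_lintegral_swap (f := fun ξ z => ‖∑ i ∈ s, G i z * ee (x i * ξ)‖ₑ ^ 2)
    h1.aemeasurable, ← lintegral_const_mul' _ _ ENNReal.ofReal_ne_top]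
  refine lintegral_mono fun z => (H fun i => G i z).trans (le_of_eq ?_)
  rw [ENNReal.ofReal_mul hA, ENNReal.ofReal_sum_of_nonneg fun _ _ => sq_nonneg _]
  simp only [fou_sq]

/-- functions carried by short intervals: a bound on each frequency cell suffices -/
theorem loc_one {ι : Type} (s : Finset ι) (x : ι → ℝ) (m : Measure ℝ) [IsFiniteMeasure m]
    {d l A : ℝ} (hd : 0 ≤ d) (hl : 0 < l) (hA : 0 ≤ A)
    (H : ∀ (k : ℤ) (c : ι → ℂ), ∫⁻ ξ in Ico (k * l) ((k + 1) * l),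
      ‖∑ i ∈ s, c i * ee (x i * ξ)‖ₑ ^ 2 ∂m ≤ ENNReal.ofReal (A * ∑ i ∈ s, ‖c i‖ ^ 2))
    {f : ℝ → ℂ} (hf : Nice f) (hs : ∀ t, f t ≠ 0 → ∃ i ∈ s, |t - x i| ≤ d) :
    ∫⁻ ξ, ‖𝓕 f ξ‖ₑ ^ 2 ∂m
      ≤ ENNReal.ofReal ((2 / l + 8 * π ^ 2 * l * d ^ 2) * A) * n2 f := by
  obtain ⟨F, h1, h2, h3, h4⟩ := loc1_cut x d s f hf hs
  let u : ι → ℝ → ℂ := fun i t => F i (t + x i)
  let v : ι → ℝ → ℂ := fun i t => (-2 * π * Complex.I * t) • u i t
  have u0 : ∀ i ∈ s, ∀ t, d < |t| → u i t = 0 := fun i hi t ht => by_contra fun h => by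
    have := h2 i hi _ h
    rw [add_sub_cancel_right] at this
    exact absurd this (not_le.2 ht)
  have u1 : ∀ i ∈ s, Nice (u i) := fun i hi =>
    ⟨(h1 i hi).meas.comp (measurable_add_const _), (h1 i hi).bdd.imp fun _ h t => h _, d, u0 i hi⟩
  have v0 : ∀ i ∈ s, ∀ t, ‖v i t‖ ≤ 2 * π * d * ‖u i t‖ := fun i hi t => by
    rcases lt_or_ge d |t| with h | h
    · simp [v, u0 i hi t h]
    · have e : ‖v i t‖ = 2 * π * |t| * ‖u i t‖ := by simp [v, abs_of_pos Real.pi_pos]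
      rw [e]
      gcongr
  have v1 : ∀ i ∈ s, Nice (v i) := fun i hi => by
    obtain ⟨B, hB⟩ := (u1 i hi).bdd
    refine ⟨(by fun_prop : Measurable fun t : ℝ => -2 * π * Complex.I * t).smul (u1 i hi).meas,
      ⟨2 * π * d * B, fun t => (v0 i hi t).trans ?_⟩, d, fun t ht => by simp [v, u0 i hi t ht]⟩
    exact mul_le_mul_of_nonneg_left (hB t) (by positivity)
  have hD : ∀ i ∈ s, ∀ z, HasDerivAt (𝓕 (u i)) (𝓕 (v i) z) z := fun i hi z => by
    refine Real.hasDerivAt_fourier (u1 i hi).integrable ?_ z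
    have h5 := (v1 i hi).integrable.const_mul (-2 * π * Complex.I)⁻¹
    refine h5.congr (Eventually.of_forall fun t => ?_)
    have : (π : ℂ) ≠ 0 := Complex.ofReal_ne_zero.2 Real.pi_pos.ne'
    simp only [v, smul_eq_mul, Complex.real_smul]
    field_simp
  have e1 : ∀ ξ, 𝓕 f ξ = ∑ i ∈ s, 𝓕 (u i) ξ * ee (x i * ξ) := fun ξ => by
    rw [ft_eq, ← funext h3]
    simp only [Finset.mul_sum]
    rw [integral_finsetSum _ fun i hi => (h1 i hi).integrable.bdd_mul (c := 1)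
      (by fun_prop : Continuous fun y : ℝ => ee (y * ξ)).aestronglyMeasurable
      (Eventually.of_forall fun y => (norm_ee _).le)]
    refine Finset.sum_congr rfl fun i _ => ?_
    rw [mul_comm, ← loc1_shift, ft_eq]
    simp only [u, sub_add_cancel]
  have cu : ∀ i ∈ s, Continuous (𝓕 (u i)) := fun i hi => continuous_ft (u1 i hi).integrable
  have cv : ∀ i ∈ s, Continuous (𝓕 (v i)) := fun i hi => continuous_ft (v1 i hi).integrable
  have e2 : ∀ k : ℤ, ∫⁻ ξ in Ico (k * l) ((k + 1) * l), ‖𝓕 f ξ‖ₑ ^ 2 ∂m ≤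
      ENNReal.ofReal (2 / l) * ENNReal.ofReal A *
        (∫⁻ z in Ico (k * l) ((k + 1) * l), ∑ i ∈ s, ‖𝓕 (u i) z‖ₑ ^ 2) +
      ENNReal.ofReal (2 * l) * ENNReal.ofReal A *
        ∫⁻ z in Ico (k * l) ((k + 1) * l), ∑ i ∈ s, ‖𝓕 (v i) z‖ₑ ^ 2 := fun k => by
    obtain ⟨a1, a2⟩ := loc1_swap s x m hA (H k) cu
    obtain ⟨b1, b2⟩ := loc1_swap s x m hA (H k) cv
    refine (setLIntegral_mono' measurableSet_Ico fun ξ hξ => (le_of_eq (by rw [e1])).trans
      (loc1_sob (Φ := fun z => ∑ i ∈ s, 𝓕 (u i) z * ee (x i * ξ))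
        (Ψ := fun z => ∑ i ∈ s, 𝓕 (v i) z * ee (x i * ξ))
        (fun z => HasDerivAt.fun_sum fun i hi => (hD i hi z).mul_const _)
        (continuous_finsetSum s fun i hi => (cv i hi).mul continuous_const) hl (by ring) hξ)).trans ?_
    rw [lintegral_add_left (a1.const_mul _), lintegral_const_mul _ a1, lintegral_const_mul _ b1,
      mul_assoc, mul_assoc]
    exact add_le_add (mul_le_mul_right a2 _) (mul_le_mul_right b2 _)
  have e3 : ∑ i ∈ s, n2 (u i) = n2 f := by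
    rw [n2, ← funext h4, lintegral_finsetSum _ fun i hi => (h1 i hi).meas.enorm.pow_const 2]
    exact Finset.sum_congr rfl fun i _ =>
      lintegral_add_right_eq_self (fun t => ‖F i t‖ₑ ^ 2) (x i)
  have e4 : ∫⁻ z, ∑ i ∈ s, ‖𝓕 (u i) z‖ₑ ^ 2 = n2 f := by
    rw [lintegral_finsetSum _ fun i hi => (cu i hi).measurable.enorm.pow_const 2, ← e3]
    exact Finset.sum_congr rfl fun i hi => (u1 i hi).plancherel
  have e5 : ∫⁻ z, ∑ i ∈ s, ‖𝓕 (v i) z‖ₑ ^ 2 ≤ ENNReal.ofReal ((2 * π * d) ^ 2) * n2 f := by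
    rw [lintegral_finsetSum _ fun i hi => (cv i hi).measurable.enorm.pow_const 2, ← e3,
      Finset.mul_sum]
    refine Finset.sum_le_sum fun i hi => (v1 i hi).plancherel.le.trans ?_
    rw [n2, n2, ← lintegral_const_mul' _ _ ENNReal.ofReal_ne_top]
    refine lintegral_mono fun t => ?_
    rw [fou_sq, fou_sq, ← ENNReal.ofReal_mul (sq_nonneg _), ← mul_pow]
    exact ENNReal.ofReal_le_ofReal (pow_le_pow_left₀ (norm_nonneg _) (v0 i hi t) 2)
  rw [loc1_cells hl]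
  refine (ENNReal.tsum_le_tsum e2).trans ?_
  rw [ENNReal.tsum_add, ENNReal.tsum_mul_left, ENNReal.tsum_mul_left, ← loc1_cells hl,
    ← loc1_cells hl, e4]
  refine (add_le_add le_rfl (mul_le_mul_right e5 _)).trans (le_of_eq ?_)
  rw [← mul_assoc, ← add_mul, ← ENNReal.ofReal_mul (by positivity),
    ← ENNReal.ofReal_mul (by positivity), ← ENNReal.ofReal_mul (by positivity),
    ← ENNReal.ofReal_add (by positivity) (by positivity)]
  congr 2
  ring

end Pool.Agent.Lib.MP_a52643_an.SE
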