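import Pool.Agent.Lib.MP_a52643_an.SE.Defs
import Pool.Agent.Lib.MP_a52643_an.NS.Stat

/-!
Geometry of names.
-/

open MeasureTheory Set Filter Topology Metric UpperHalfPlane
open scoped ENNReal MatrixGroups Real FourierTransform ComplexConjugate

noncomputable section

namespace Pool.Agent.Lib.MP_a52643_an.SE

open NS

variable {Γ : Type} [Group Γ] [MulAction Γ ℍ] {e : ℝ} {S : Type} {ctr : S → ℍ × ℍ}

lemma Sym2_swap {p : ℍ × ℍ} {r : ℝ} {z z' : ℍ} (h : Vs Γ p r z z') : Vs Γ p.swap r z' z := by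
  obtain ⟨γ, h1, h2⟩ := h
  exact ⟨γ, h2, h1⟩

lemma Vs.Sym2_mono {p : ℍ × ℍ} {r r' : ℝ} {z z' : ℍ} (h : Vs Γ p r z z') (hr : r ≤ r') :
    Vs Γ p r' z z' := by
  obtain ⟨γ, h1, h2⟩ := h
  exact ⟨γ, h1.trans_le hr, h2.trans_le hr⟩

lemma Act.Sym2_move (H : Act Γ e) {p : ℍ × ℍ} {r ρ : ℝ} {z z' y y' : ℍ} (h : Vs Γ p r z z')
    (h1 : dist y z ≤ ρ) (h2 : dist y' z' ≤ ρ) : Vs Γ p (r + ρ) y y' := by
  obtain ⟨γ, a, b⟩ := h
  refine ⟨γ, ?_, ?_⟩
  · linarith [dist_triangle (γ • y) (γ • z) p.1, H.iso γ y z]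
  · linarith [dist_triangle (γ • y') (γ • z') p.2, H.iso γ y' z']

lemma Sym2_inv (δ : Γ) {p : ℍ × ℍ} {r : ℝ} {z z' : ℍ} :
    Vs Γ p r (δ • z) (δ • z') ↔ Vs Γ p r z z' := by
  constructor
  · rintro ⟨γ, a, b⟩
    exact ⟨γ * δ, by rwa [mul_smul], by rwa [mul_smul]⟩
  · rintro ⟨γ, a, b⟩
    exact ⟨γ * δ⁻¹, by rwa [mul_smul, inv_smul_smul], by rwa [mul_smul, inv_smul_smul]⟩

lemma Act.Sym2_open (H : Act Γ e) (p : ℍ × ℍ) (r : ℝ) :
    IsOpen {q : ℍ × ℍ | Vs Γ p r q.1 q.2} := by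
  have e1 : {q : ℍ × ℍ | Vs Γ p r q.1 q.2} = ⋃ γ : Γ,
      (fun q : ℍ × ℍ => γ • q.1) ⁻¹' ball p.1 r ∩ (fun q : ℍ × ℍ => γ • q.2) ⁻¹' ball p.2 r := by
    ext q
    simp only [Vs, mem_ofPred_eq, mem_iUnion, mem_inter_iff, mem_preimage, mem_ball]
  have hc : ∀ γ : Γ, Continuous fun z : ℍ => γ • z := fun γ =>
    (Isometry.of_dist_eq (H.iso γ)).continuous
  rw [e1]
  exact isOpen_iUnion fun γ => (isOpen_ball.preimage ((hc γ).comp continuous_fst)).inter
    (isOpen_ball.preimage ((hc γ).comp continuous_snd))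

lemma Act.Sym2_gc (H : Act Γ e) {r r' : ℝ} {z z' : ℕ → ℍ} {w : List S} (hw : w ≠ [])
    (hr : 2 * (r + r') ≤ e) (h : Nm Γ ctr r z w) (h' : Nm Γ ctr r' z' w) :
    ∃ γ : Γ, ∀ j ≤ w.length, dist (z j) (γ • z' j) < r + r' := by
  have step : ∀ j, j < w.length → ∃ δ : Γ, dist (z j) (δ • z' j) < r + r' ∧
      dist (z (j + 1)) (δ • z' (j + 1)) < r + r' := fun j hj => by
    obtain ⟨γ, a, b⟩ := h j hj
    obtain ⟨γ', a', b'⟩ := h' j hj
    refine ⟨γ⁻¹ * γ', ?_, ?_⟩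
    · rw [← H.iso γ, mul_smul, smul_inv_smul]
      linarith [dist_triangle_right (γ • z j) (γ' • z' j) (ctr w[j]).1]
    · rw [← H.iso γ, mul_smul, smul_inv_smul]
      linarith [dist_triangle_right (γ • z (j + 1)) (γ' • z' (j + 1)) (ctr w[j]).2]
  obtain ⟨γ, h0, -⟩ := step 0 (List.length_pos_iff.2 hw)
  refine ⟨γ, fun j => ?_⟩
  induction j with
  | zero => exact fun _ => h0
  | succ j ih =>
    intro hj
    obtain ⟨δ, a, b⟩ := step j hj
    have h1 := ih (Nat.le_of_succ_le hj)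
    have h2 : γ⁻¹ * δ = 1 := H.inj _ (z' j) (by
      rw [← H.iso γ, mul_smul, smul_inv_smul]
      linarith [dist_triangle_left (δ • z' j) (γ • z' j) (z j)])
    rwa [inv_mul_eq_one.1 h2]

/-- frames with the exact name `w` -/
def Sym2_E (c : SL2 → S) (τ : ℝ) (w : List S) : Set SL2 :=
  {g | ∀ (j : ℕ) (h : j < w.length), c (g * aG (j * τ)) = w[j]}

lemma Sym2_wgt (μ : Measure SL2) (c : SL2 → S) (τ : ℝ) (w : List S) :
    wgt μ c τ w = μ.real (Sym2_E c τ w) := rfl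

lemma Sym2_meas {N : ℕ} {c : SL2 → Fin N} (mc : Measurable c) (τ : ℝ) (w : List (Fin N)) :
    MeasurableSet (Sym2_E c τ w) := by
  have e1 : Sym2_E c τ w = ⋂ (j : ℕ) (h : j < w.length),
      (fun g => c (g * aG (j * τ))) ⁻¹' {w[j]} := by
    ext g
    simp only [Sym2_E, mem_ofPred_eq, mem_iInter, mem_preimage, mem_singleton_iff]
  rw [e1]
  exact MeasurableSet.iInter fun j => MeasurableSet.iInter fun _ =>
    (mc.comp (measurable_mul_const _)) (measurableSet_singleton _)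

lemma Sym2_sum {N : ℕ} {μ : Measure SL2} [IsFiniteMeasure μ] {f : SL2 → Fin N}
    (mf : Measurable f) (E : Set SL2) : ∑ s, μ.real (f ⁻¹' {s} ∩ E) = μ.real E := by
  have h1 : ∀ s, μ.real (f ⁻¹' {s} ∩ E) = (μ.restrict E).real (f ⁻¹' {s}) := fun s =>
    (measureReal_restrict_apply (mf (measurableSet_singleton s))).symm
  simp only [h1]
  rw [sum_measureReal_preimage_singleton _ fun s _ => mf (measurableSet_singleton s)]
  simp

lemma Sym2_name {c : SL2 → S} {r τ : ℝ} (hc : ∀ g, Vs Γ (ctr (c g)) r (bp g) (bp (g * aG τ)))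
    {w : List S} {g : SL2} (hg : g ∈ Sym2_E c τ w) :
    Nm Γ ctr r (fun j => bp (g * aG (j * τ))) w := by
  intro j hj
  have h1 := hc (g * aG (j * τ))
  rw [hg j hj, mul_assoc, ← aG_add, show (j : ℝ) * τ + τ = ((j + 1 : ℕ) : ℝ) * τ by
    push_cast; ring] at h1
  exact h1

theorem Ov.swap {B : ℕ} (h : Ov Γ ctr B) : Ov Γ (fun s => (ctr s).swap) B := by
  intro z z'
  obtain ⟨F, h1, h2⟩ := h z' z
  exact ⟨F, h1, fun s hs => h2 s (Sym2_swap hs)⟩

theorem Nm.left {r : ℝ} {z : ℕ → ℍ} {u v : List S} (h : Nm Γ ctr r z (u ++ v)) :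
    Nm Γ ctr r z u := by
  intro j hj
  have := h j (by rw [List.length_append]; omega)
  rwa [List.getElem_append_left hj] at this

theorem Act.ga (H : Act Γ e) {r τ t x x' : ℝ} {g : SL2} {u : List S} (r0 : 0 < r)
    (r1 : 4 * r ≤ e) (r2 : r ≤ 1 / 10) (hx : |x - x'| ≤ r * Real.exp (-t))
    (h : Nm Γ ctr r (fun j => g • pt x (-t - j * τ)) u)
    (h' : Nm Γ ctr r (fun j => g • pt x' (-t - j * τ)) u) :
    |x - x'| ≤ Real.exp (-t - u.length * τ) / 4 := by
  have ex := Real.exp_pos (-t)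
  rcases eq_or_ne u [] with rfl | hu
  · simp only [List.length_nil, Nat.cast_zero, zero_mul, sub_zero]
    nlinarith
  obtain ⟨γ, hγ⟩ := H.Sym2_gc hu (by linarith) h h'
  have h0 := hγ 0 (Nat.zero_le _)
  simp only [Nat.cast_zero, zero_mul, sub_zero] at h0
  have h1 : dist (g • pt x (-t)) (g • pt x' (-t)) ≤ r := by
    rw [dist_smul]
    refine (dist_pt_le _ _ _).trans ?_
    rw [Real.exp_neg (-t), ← div_eq_mul_inv, div_le_iff₀ ex]
    exact hx
  have h2 : γ = 1 := H.inj γ (g • pt x' (-t)) (by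
    have := dist_triangle_left (γ • g • pt x' (-t)) (g • pt x' (-t)) (g • pt x (-t))
    linarith)
  have h3 := hγ u.length le_rfl
  rw [h2, one_smul, dist_smul] at h3
  have h4 := UpperHalfPlane.dist_coe_le (pt x (-t - u.length * τ)) (pt x' (-t - u.length * τ))
  rw [pt_im, coe_pt, coe_pt, Complex.dist_eq, add_sub_add_right_eq_sub, ← Complex.ofReal_sub,
    Complex.norm_real, Real.norm_eq_abs] at h4
  have h5 : Real.exp (dist (pt x (-t - u.length * τ)) (pt x' (-t - u.length * τ))) ≤ 5 / 4 := by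
    refine (Real.exp_le_exp.2 (show _ ≤ 1 / 5 by linarith)).trans ?_
    have a := Real.add_one_le_exp (-(1 / 5) : ℝ)
    have b : Real.exp (1 / 5) * Real.exp (-(1 / 5) : ℝ) = 1 := by rw [← Real.exp_add]; simp
    nlinarith [Real.exp_pos (1 / 5)]
  nlinarith [Real.exp_pos (-t - u.length * τ)]

theorem Act.gb [Fintype S] [DecidableEq S] (H : Act Γ e) {B : ℕ} (ov : Ov Γ ctr B) {r τ : ℝ}
    (r0 : 0 < r) (r2 : r ≤ 1 / 2) (τ0 : 0 ≤ τ) (g : SL2) (t z : ℝ) (k m : ℕ) :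
    ∃ U ⊆ words S m, U.card ≤ B ^ m ∧ ∀ (x : ℝ) (u v : List S), u.length = k → m ≤ v.length →
      |x - z| ≤ r * Real.exp (-t - (k + m) * τ) →
      Nm Γ ctr r (fun j => g • pt x (-t - j * τ)) (u ++ v) → v.take m ∈ U := by
  choose F hF hF' using ov
  let Z : ℕ → ℍ := fun j => g • pt z (-t - j * τ)
  refine ⟨(Fintype.piFinset fun i : Fin m => F (Z (k + i)) (Z (k + i + 1))).image List.ofFn,
    fun w hw => ?_, ?_, fun x u v hu hv hx h => ?_⟩
  · obtain ⟨f, -, rfl⟩ := Finset.mem_image.1 hw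
    simp [mem_words]
  · refine Finset.card_image_le.trans ?_
    rw [Fintype.card_piFinset]
    refine (Finset.prod_le_pow_card _ _ B fun i _ => hF _ _).trans ?_
    simp
  · have hd : ∀ j : ℕ, j ≤ k + m → dist (Z j) (g • pt x (-t - j * τ)) ≤ r := fun j hj => by
      rw [dist_smul, dist_comm]
      refine (dist_pt_le _ _ _).trans ?_
      rw [Real.exp_neg, ← div_eq_mul_inv, div_le_iff₀ (Real.exp_pos _)]
      refine hx.trans (mul_le_mul_of_nonneg_left (Real.exp_le_exp.2 ?_) r0.le)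
      have : (j : ℝ) ≤ k + m := by exact_mod_cast hj
      nlinarith
    refine Finset.mem_image.2 ⟨fun i : Fin m => v[(i : ℕ)]'(by omega),
      Fintype.mem_piFinset.2 fun i => hF' _ _ _ ?_, ?_⟩
    · have hi := i.2
      have h1 := h (k + i) (by rw [List.length_append]; omega)
      rw [List.getElem_append_right (by omega)] at h1
      simp only [hu, Nat.add_sub_cancel_left] at h1
      exact (H.Sym2_move h1 (hd _ (by omega)) (hd _ (by omega))).Sym2_mono (by linarith)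
    · refine List.ext_getElem (by simp [hv]) fun i h1 h2 => ?_
      simp

theorem Act.gc (H : Act Γ e) {r r' : ℝ} {z z' : ℕ → ℍ} {w : List S} (hw : w ≠ [])
    (hr : 2 * (r + r') ≤ e) (h : Nm Γ ctr r z w) (h' : Nm Γ ctr r' z' w) :
    ∃ γ : Γ, ∀ j ≤ w.length, dist (z j) (γ • z' j) < r + r' := by
  exact H.Sym2_gc hw hr h h'

theorem Act.measurableSet_Sw (H : Act Γ e) (ctr : S → ℍ × ℍ) (r τ : ℝ) (A : Finset (List S)) :
    MeasurableSet (Sw Γ ctr r τ A) := by
  have e1 : Sw Γ ctr r τ A = ⋃ w ∈ A, ⋂ (j : ℕ) (h : j < w.length),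
      (fun g => (bp (g * aG (j * τ)), bp (g * aG (((j + 1 : ℕ) : ℝ) * τ)))) ⁻¹'
        {q : ℍ × ℍ | Vs Γ (ctr w[j]) r q.1 q.2} := by
    ext g
    simp only [Sw, Nm, mem_ofPred_eq, mem_iUnion, mem_iInter, mem_preimage, exists_prop]
  rw [e1]
  exact Finset.measurableSet_biUnion _ fun w _ => MeasurableSet.iInter fun j =>
    MeasurableSet.iInter fun _ => ((measurable_bp.comp (measurable_mul_const _)).prodMk
      (measurable_bp.comp (measurable_mul_const _))) (H.Sym2_open _ r).measurableSet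

theorem LI_Sw (ctr : S → ℍ × ℍ) (r τ : ℝ) (A : Finset (List S)) :
    LI (Lam Γ) (Sw Γ ctr r τ A) := by
  rintro γ ⟨δ, hδ⟩ g
  refine exists_congr fun w => and_congr_right fun _ => forall₂_congr fun j _ => ?_
  show Vs Γ _ r (bp (γ * g * _)) (bp (γ * g * _)) ↔ _
  rw [mul_assoc γ, mul_assoc γ, bp_mul γ, bp_mul γ, ← hδ, ← hδ]
  exact Sym2_inv δ

theorem Act.stp_Sw (H : Act Γ e) {τ : ℝ} (τ0 : 0 ≤ τ) {A : Finset (List S)} {n : ℕ}
    (hA : ∀ w ∈ A, w.length = n) (r ρ : ℝ) :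
    Stp ρ (n * τ) (Sw Γ ctr r τ A) (Sw Γ ctr (r + ρ) τ A) := by
  rintro g ⟨w, hw, h⟩ g' hc
  refine ⟨w, hw, fun j hj => ?_⟩
  have h1 : ∀ i : ℕ, i ≤ n → (i : ℝ) * τ ∈ Icc 0 (n * τ) := fun i hi =>
    ⟨by positivity, mul_le_mul_of_nonneg_right (by exact_mod_cast hi) τ0⟩
  have h2 := hA w hw
  exact H.Sym2_move (h j hj) (hc _ (h1 j (by omega))) (hc _ (h1 (j + 1) (by omega)))

theorem mem_Xw {r τ t x : ℝ} {A : Finset (List S)} {g : SL2}
    (h : g * uG x * aG t ∈ Sw Γ ctr r τ A) : x ∈ Xw Γ ctr r τ A g t := by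
  obtain ⟨w, hw, h⟩ := h
  refine ⟨w, hw, ?_⟩
  have e1 : (fun j : ℕ => g • pt x (-t - j * τ)) =
      fun j : ℕ => bp (g * uG x * aG t * aG (j * τ)) := by
    funext j
    rw [mul_assoc _ (aG t), ← aG_add, bp_uG_aG, neg_add']
  rw [e1]
  exact h

theorem mem_Yw [DecidableEq S] {r τ p lam ξ : ℝ} {A : Finset (List S)} {n : ℕ}
    (hA : ∀ w ∈ A, w.length = n) {g : SL2}
    (h : g * vG (-(ξ / Real.exp lam)) * aG p ∈ Sw Γ ctr r τ A) :
    ξ ∈ Xw Γ (fun s => (ctr s).swap) r τ (A.image List.reverse) (g * wG * aG lam)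
      (-(p + lam) - n * τ) := by
  obtain ⟨w, hw, h⟩ := h
  have hn := hA w hw
  have e1 : ∀ j i : ℕ, j + i = n →
      (g * wG * aG lam) • pt ξ (-(-(p + lam) - n * τ) - j * τ) =
        bp (g * vG (-(ξ / Real.exp lam)) * aG p * aG (i * τ)) := fun j i hji => by
    have e2 : (n : ℝ) = j + i := by exact_mod_cast hji.symm
    rw [mul_assoc _ (aG p), ← aG_add, bp_vG_aG, mul_smul (g * wG), aG_pt, Real.exp_neg, e2,
      show (Real.exp lam)⁻¹ * ξ = ξ / Real.exp lam by ring,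
      show -(-(p + lam) - ((j : ℝ) + i) * τ) - j * τ - lam = p + i * τ by ring]
  refine ⟨w.reverse, Finset.mem_image_of_mem _ hw, fun j hj => ?_⟩
  rw [List.length_reverse] at hj
  have h1 := h (w.length - 1 - j) (by omega)
  rw [List.getElem_reverse]
  show Vs Γ _ r (_ • pt ξ (_ - (j : ℕ) * τ)) (_ • pt ξ (_ - ((j + 1 : ℕ) : ℝ) * τ))
  rw [e1 j (w.length - 1 - j + 1) (by omega), e1 (j + 1) (w.length - 1 - j) (by omega)]
  exact Sym2_swap h1

theorem sta_wgt {N : ℕ} {μ : Measure SL2} [IsProbabilityMeasure μ] {c : SL2 → Fin N}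
    (mc : Measurable c) (ic : ∀ γ ∈ Lam Γ, ∀ g, c (γ * g) = c g)
    (hinv : ∀ (t : ℝ) (A : Set SL2), MeasurableSet A → LI (Lam Γ) A → μ (tm t A) = μ A) (τ : ℝ) :
    Sta (wgt μ c τ) := by
  refine ⟨fun w => measureReal_nonneg, by simp [wgt], fun w => ?_, fun w => ?_⟩
  · have e1 : ∀ s, Sym2_E c τ (w ++ [s]) =
        (fun g => c (g * aG (w.length * τ))) ⁻¹' {s} ∩ Sym2_E c τ w := fun s => by
      ext g
      constructor
      · intro h
        refine ⟨?_, fun j hj => ?_⟩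
        · simpa using h w.length (by simp)
        · have := h j (by rw [List.length_append]; omega)
          rwa [List.getElem_append_left hj] at this
      · rintro ⟨h1, h2⟩ j hj
        rcases lt_or_ge j w.length with h3 | h3
        · rw [List.getElem_append_left h3]
          exact h2 j h3
        · have h4 : j = w.length := by
            rw [List.length_append, List.length_singleton] at hj
            omega
          subst h4
          simpa using h1
    simp only [Sym2_wgt, e1]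
    exact Sym2_sum (mc.comp (measurable_mul_const _)) _
  · have e1 : ∀ s, Sym2_E c τ (s :: w) = c ⁻¹' {s} ∩ tm τ (Sym2_E c τ w) := fun s => by
      have e2 : ∀ (g : SL2) (j : ℕ), g * aG τ * aG (j * τ) = g * aG (((j + 1 : ℕ) : ℝ) * τ) :=
        fun g j => by
          rw [mul_assoc, ← aG_add]
          congr 2
          push_cast
          ring
      ext g
      constructor
      · intro h
        refine ⟨?_, fun j hj => ?_⟩
        · have h0 : c (g * aG (((0 : ℕ) : ℝ) * τ)) = s := h 0 (by simp)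
          simpa [aG_zero] using h0
        · rw [e2]
          exact h (j + 1) (by simpa using hj)
      · rintro ⟨h1, h2⟩ j hj
        rcases j with _ | j
        · simpa [aG_zero] using h1
        · rw [← e2]
          exact h2 j (by simpa using hj)
    simp only [Sym2_wgt, e1]
    rw [Sym2_sum mc, measureReal_def, measureReal_def, hinv τ _ (Sym2_meas mc τ w)]
    intro γ hγ g
    refine forall₂_congr fun j _ => ?_
    rw [mul_assoc, ic γ hγ]

theorem wgt_le {N : ℕ} {μ : Measure SL2} [IsProbabilityMeasure μ] {c : SL2 → Fin N}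
    {ctr : Fin N → ℍ × ℍ} {r τ : ℝ} (mc : Measurable c)
    (hc : ∀ g, Vs Γ (ctr (c g)) r (bp g) (bp (g * aG τ))) {A : Finset (List (Fin N))} {n : ℕ}
    (hA : ∀ w ∈ A, w.length = n) : ∑ w ∈ A, wgt μ c τ w ≤ μ.real (Sw Γ ctr r τ A) := by
  simp only [Sym2_wgt]
  rw [← measureReal_biUnion_finset (fun w hw w' hw' hne => ?_) fun w _ => Sym2_meas mc τ w]
  · exact measureReal_mono (iUnion₂_subset fun w hw g hg => ⟨w, hw, Sym2_name hc hg⟩)
  · refine Set.disjoint_left.2 fun g h1 h2 => hne ?_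
    exact List.ext_getElem ((hA w hw).trans (hA w' hw').symm) fun j a b =>
      (h1 j a).symm.trans (h2 j b)

theorem wgt_pos {μ : Measure SL2} {c : SL2 → S} {r τ : ℝ}
    (hc : ∀ g, Vs Γ (ctr (c g)) r (bp g) (bp (g * aG τ))) {w : List S} (h : 0 < wgt μ c τ w) :
    ∃ g, Nm Γ ctr r (fun j => bp (g * aG (j * τ))) w := by
  obtain ⟨g, hg⟩ : (Sym2_E c τ w).Nonempty := nonempty_of_measureReal_ne_zero h.ne'
  exact ⟨g, Sym2_name hc hg⟩

end Pool.Agent.Lib.MP_a52643_an.SE
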