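import Pool.Agent.Lib.MP_a52643_an.SE.Sym1
import Pool.Agent.Lib.MP_a52643_an.SE.Sym2

/-!
Transfer of the uncertainty property to the limit measure.
-/

open MeasureTheory Set Filter Topology Metric UpperHalfPlane
open scoped ENNReal MatrixGroups Real FourierTransform ComplexConjugate

noncomputable section

namespace Pool.Agent.Lib.MP_a52643_an.SE

open NS

variable {Γ : Type} [Group Γ] [MulAction Γ ℍ] {e : ℝ} {S : Type} [DecidableEq S]
  {ctr : S → ℍ × ℍ}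

private lemma trans_back {Λ : Set SL2} {P : Measure SL2} {h θ w a b ρ : ℝ} (h0 : 0 ≤ h)
    (hρ : 2 * Real.exp (-h) ≤ ρ) (tr : Tr1 Λ P h θ) {U U' : Set SL2} (mU : MeasurableSet U)
    (mU' : MeasurableSet U') (iU : LI Λ U) (iU' : LI Λ U') (hs : Stp ρ w U U')
    (b0 : -46 * h ≤ b) (a1 : a + w ≤ 46 * h) (d0 : 4 * h ≤ a - b) (d1 : a - b ≤ 46 * h) :
    P.real (tm a U) ≤ P.real (tm b U') + 30 * θ := by
  have h2 := (tr (a - b) d0 d1).stat (p := a) (Real.exp_pos _) mU mU' iU iU' hs (by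
    rw [← Real.exp_sub, ← Real.exp_add, ← Real.exp_add]
    linarith [Real.exp_le_exp.2 (show 52 * h + (a - b) - 100 * h + -a ≤ -h by linarith),
      Real.exp_le_exp.2 (show -49 * h + (a + w) ≤ -h by linarith)])
  rwa [sub_sub_cancel] at h2

private lemma trans_fwd {Λ : Set SL2} {P : Measure SL2} [IsProbabilityMeasure P]
    {h θ w a b ρ : ℝ} (h0 : 0 ≤ h) (hρ : 2 * Real.exp (-h) ≤ ρ) (tr : Tr1 Λ P h θ)
    {U U' : Set SL2} (mU : MeasurableSet U) (mU' : MeasurableSet U') (iU : LI Λ U)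
    (iU' : LI Λ U') (hs : Stp ρ w U U') (a0 : -46 * h ≤ a) (b1 : b + w ≤ 46 * h)
    (d0 : 4 * h ≤ b - a) (d1 : b - a ≤ 46 * h) :
    P.real (tm a U) ≤ P.real (tm b U') + 30 * θ := by
  have h2 := trans_back (U := U'ᶜ) (U' := Uᶜ) h0 hρ tr mU'.compl mU.compl
    (fun γ hγ g => not_congr (iU' γ hγ g)) (fun γ hγ g => not_congr (iU γ hγ g))
    (fun g hg g' hc hg' => hg (hs g' hg' g hc.symm)) a0 b1 d0 d1
  rw [show tm b U'ᶜ = (tm b U')ᶜ from rfl, show tm a Uᶜ = (tm a U)ᶜ from rfl,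
    probReal_compl_eq_one_sub (measurableSet_tm b mU'),
    probReal_compl_eq_one_sub (measurableSet_tm a mU)] at h2
  linarith

private lemma trans_start {Λ : Set SL2} {P₀ P : Measure SL2} {h θ w ρ : ℝ} (h0 : 0 ≤ h)
    (hρ : 2 * Real.exp (-h) ≤ ρ) (tr : Tr0 Λ P₀ P h θ) {U U' : Set SL2} (mU : MeasurableSet U)
    (mU' : MeasurableSet U') (iU : LI Λ U) (iU' : LI Λ U') (hs : Stp ρ w U U') (w1 : w ≤ h) :
    P₀.real U ≤ P.real (tm (-22 * h) U') + 30 * θ := by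
  have h2 := (tr (22 * h) le_rfl (by linarith)).stat (p := 0) (Real.exp_pos _) mU mU' iU iU' hs (by
    rw [← Real.exp_sub, ← Real.exp_add, ← Real.exp_add]
    linarith [Real.exp_le_exp.2 (show 52 * h + 22 * h - 100 * h + -0 ≤ -h by linarith),
      Real.exp_le_exp.2 (show -31 * h + (0 + w) ≤ -h by linarith)])
  have e0 : tm 0 U = U := by
    ext g
    show g * aG 0 ∈ U ↔ g ∈ U
    rw [aG_zero, mul_one]
  rwa [e0, show 0 - 22 * h = -22 * h by ring] at h2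

theorem Apx.pair (H : Act Γ e) {Λ : Set SL2} (hΛ : Λ ⊆ Lam Γ) {μ : Measure SL2}
    (hμ : Apx Γ Λ μ) {r τ θ : ℝ} (r0 : 0 < r) (r2 : r ≤ 1 / 10) (τ0 : 0 ≤ τ) (θ0 : 0 < θ)
    {A B : Finset (List S)} {n : ℕ} (hA : ∀ w ∈ A, w.length = n) (hB : ∀ w ∈ B, w.length = n)
    (hU : ∀ (g g' : SL2) (t : ℝ), UP (Xw Γ ctr (5 * r) τ A g t)
      (Xw Γ (fun s => (ctr s).swap) (5 * r) τ (B.image List.reverse) g' (-t - n * τ)) (θ ^ 2)) :
    μ.real (Sw Γ ctr r τ A) + μ.real (Sw Γ ctr r τ B) ≤ 1 + 212 * θ := by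
  obtain ⟨D₁, c₁, i₁, e₁⟩ := H.dist_fun ctr τ hA
  obtain ⟨D₂, c₂, i₂, e₂⟩ := H.dist_fun ctr τ hB
  have w0 : 0 ≤ (n : ℝ) * τ := mul_nonneg (Nat.cast_nonneg n) τ0
  have hr : 0 < 2 / r := by positivity
  obtain ⟨h, hh, P₀, P, p₀, p₁, tr1, tr0, m₁, m₂⟩ :=
    hμ θ θ0 (n * τ + 2 / r) r (2 * r) D₁ D₂ (by linarith) c₁ c₂ i₁ i₂
  rw [← e₁ r r0 (by linarith), ← e₁ (2 * r) (by linarith) (by linarith)] at m₁
  rw [← e₂ r r0 (by linarith), ← e₂ (2 * r) (by linarith) (by linarith)] at m₂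
  have h0 : 0 ≤ h := by linarith
  have w1 : (n : ℝ) * τ ≤ h := by linarith
  have hρ : 2 * Real.exp (-h) ≤ r := by
    have a1 := Real.add_one_le_exp h
    have a2 : 2 / r ≤ Real.exp h := by linarith
    rw [div_le_iff₀ r0] at a2
    rw [Real.exp_neg, ← div_eq_mul_inv, div_le_iff₀ (Real.exp_pos h)]
    linarith
  have ms : ∀ (t : ℝ) (C : Finset (List S)), MeasurableSet (Sw Γ ctr t τ C) :=
    fun t C => H.measurableSet_Sw ctr t τ C
  have li : ∀ (t : ℝ) (C : Finset (List S)), LI Λ (Sw Γ ctr t τ C) :=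
    fun t C γ hγ => LI_Sw ctr t τ C γ (hΛ hγ)
  have st : ∀ C : Finset (List S), (∀ w ∈ C, w.length = n) →
      Stp r (n * τ) (Sw Γ ctr (2 * r) τ C) (Sw Γ ctr (3 * r) τ C) ∧
      Stp (2 * r) (n * τ) (Sw Γ ctr (3 * r) τ C) (Sw Γ ctr (5 * r) τ C) := by
    intro C hC
    have a1 := H.stp_Sw (ctr := ctr) τ0 hC (2 * r) r
    have a2 := H.stp_Sw (ctr := ctr) τ0 hC (3 * r) (2 * r)
    rw [show 2 * r + r = 3 * r by ring] at a1
    rw [show 3 * r + 2 * r = 5 * r by ring] at a2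
    exact ⟨a1, a2⟩
  have s₁ := trans_start h0 hρ tr0 (ms _ A) (ms _ A) (li _ A) (li _ A) (st A hA).1 w1
  have s₂ := trans_start h0 hρ tr0 (ms _ B) (ms _ B) (li _ B) (li _ B) (st B hB).1 w1
  have t₁ := trans_fwd (a := -22 * h) (b := 20 * h) h0 (ρ := 2 * r) (by linarith) tr1 (ms _ A)
    (ms _ A) (li _ A) (li _ A) (st A hA).2 (by linarith) (by linarith) (by linarith) (by linarith)
  have t₂ := trans_back (a := -22 * h) (b := -46 * h) h0 (ρ := 2 * r) (by linarith) tr1 (ms _ B)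
    (ms _ B) (li _ B) (li _ B) (st B hB).2 le_rfl (by linarith) (by linarith) (by linarith)
  have iC : LI Λ (Sw Γ ctr (5 * r) τ A)ᶜ := fun γ hγ g => not_congr (li (5 * r) A γ hγ g)
  have key := tr1 (34 * h) (by linarith) (by linarith)
    (tm (-46 * h) (Sw Γ ctr (5 * r) τ B)) (tm (54 * h) (Sw Γ ctr (5 * r) τ A)ᶜ)
    (measurableSet_tm _ (ms _ B)) (measurableSet_tm _ (ms _ A).compl) ((li _ B).tm _)
    (iC.tm _) (fun g => by
      refine (hU g (g * wG * aG (100 * h)) (54 * h)).mono (fun x hx => ?_) (fun ξ hξ => ?_) le_rfl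
      · have a0 : ¬ ¬ (g * uG x * aG (54 * h) ∈ Sw Γ ctr (5 * r) τ A) := hx.2
        exact mem_Xw (not_not.1 a0)
      · have a0 : g * vG (-(ξ / Real.exp (100 * h))) * aG (-46 * h) ∈ Sw Γ ctr (5 * r) τ B := hξ.2
        have a1 := mem_Yw hB a0
        rwa [show -(-46 * h + 100 * h) = -(54 * h) by ring] at a1)
  rw [tm_tm, show -(34 * h) + 54 * h = 20 * h by ring,
    show tm (20 * h) (Sw Γ ctr (5 * r) τ A)ᶜ = (tm (20 * h) (Sw Γ ctr (5 * r) τ A))ᶜ from rfl,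
    probReal_compl_eq_one_sub (measurableSet_tm _ (ms _ A))] at key
  linarith

end Pool.Agent.Lib.MP_a52643_an.SE
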