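import Pool.Agent.Lib.MP_a52643_an.SE.Fup
import Pool.Agent.Lib.MP_a52643_an.SE.Trans

/-!
The two inequalities for the distribution of the information.
-/

open MeasureTheory Set Filter Topology Metric UpperHalfPlane
open scoped ENNReal MatrixGroups Real FourierTransform ComplexConjugate

noncomputable section

namespace Pool.Agent.Lib.MP_a52643_an.SE

open NS

section count

variable {S : Type} [Fintype S] [DecidableEq S] {P : List S → ℝ}

omit [Fintype S] [DecidableEq S] in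
lemma main1_low {w : List S} {y : ℝ} (h0 : 0 < P w) (h : inf P w ≤ y) : Real.exp (-y) ≤ P w := by
  rw [← Real.exp_log h0]
  exact Real.exp_le_exp.2 (by unfold inf at h; linarith)

lemma Sta.card_le (hP : Sta P) {n : ℕ} {A : Finset (List S)} {y : ℝ}
    (h : ∀ w ∈ A, w.length = n ∧ 0 < P w ∧ inf P w ≤ y) : (A.card : ℝ) ≤ Real.exp y := by
  have h1 : A.card • Real.exp (-y) ≤ ∑ w ∈ A, P w :=
    Finset.card_nsmul_le_sum _ _ _ fun w hw => main1_low (h w hw).2.1 (h w hw).2.2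
  have h2 : ∑ w ∈ A, P w ≤ 1 := by
    rw [← hP.sum_one n]
    exact Finset.sum_le_sum_of_subset_of_nonneg (fun w hw => mem_words.2 (h w hw).1)
      fun w _ _ => hP.nn w
  rw [nsmul_eq_mul, Real.exp_neg, ← div_eq_mul_inv] at h1
  exact (div_le_one (Real.exp_pos y)).1 (h1.trans h2)

omit [DecidableEq S] in
lemma Sta.sum_pos (hP : Sta P) (s : Finset (List S)) (q : List S → Prop) [DecidablePred q] :
    ∑ w ∈ s with q w, P w = ∑ w ∈ s with 0 < P w ∧ q w, P w := by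
  rw [Finset.sum_filter, Finset.sum_filter]
  refine Finset.sum_congr rfl fun w _ => ?_
  rcases (hP.nn w).eq_or_lt with h | h
  · simp [← h]
  · simp [h]

end count

/-- the data of the coding -/
structure Cod (Γ : Type) [Group Γ] [MulAction Γ ℍ] (e : ℝ) (Λ : Set SL2) (μ : Measure SL2)
    {N : ℕ} (ctr : Fin N → ℍ × ℍ) (c : SL2 → Fin N) (r τ : ℝ) (B : ℕ) : Prop where
  act : Act Γ e
  sub : Λ ⊆ Lam Γ
  apx : Apx Γ Λ μ
  prob : IsProbabilityMeasure μ
  r0 : 0 < r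
  r1 : 20 * r ≤ e
  r2 : r ≤ 1 / 50
  τ1 : 1 ≤ τ
  ov : Ov Γ ctr B
  mc : Measurable c
  col : ∀ g, Vs Γ (ctr (c g)) r (bp g) (bp (g * aG τ))
  sta : Sta (wgt μ c τ)

variable {Γ : Type} [Group Γ] [MulAction Γ ℍ] {e : ℝ} {Λ : Set SL2} {μ : Measure SL2} {N : ℕ}
  {ctr : Fin N → ℍ × ℍ} {c : SL2 → Fin N} {r τ : ℝ} {B : ℕ}

lemma Cod.pair (C : Cod Γ e Λ μ ctr c r τ B) {θ : ℝ} (θ0 : 0 < θ) {A A' : Finset (List (Fin N))}
    {n : ℕ} (hA : ∀ w ∈ A, w.length = n) (hA' : ∀ w ∈ A', w.length = n)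
    (hU : ∀ (g g' : SL2) (t : ℝ), UP (Xw Γ ctr (5 * r) τ A g t)
      (Xw Γ (fun s => (ctr s).swap) (5 * r) τ (A'.image List.reverse) g' (-t - n * τ)) (θ ^ 2)) :
    ∑ w ∈ A, wgt μ c τ w + ∑ w ∈ A', wgt μ c τ w ≤ 1 + 212 * θ := by
  have := C.prob
  have h := Apx.pair C.act C.sub C.apx C.r0 (by linarith [C.r2]) (by linarith [C.τ1]) θ0 hA hA' hU
  linarith [wgt_le (μ := μ) C.mc C.col hA, wgt_le (μ := μ) C.mc C.col hA']

open Classical in
theorem Cod.vol (C : Cod Γ e Λ μ ctr c r τ B) {θ : ℝ} (θ0 : 0 < θ) {n : ℕ} {x y z : ℝ}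
    (hz : x + y ≤ n * τ - z) (hθ : 9 / (5 * r) ^ 2 * Real.exp (-z) ≤ θ ^ 2) :
    ∑ w ∈ words (Fin N) n with inf (wgt μ c τ) w ≤ x, wgt μ c τ w
      + ∑ w ∈ words (Fin N) n with inf (wgt μ c τ) w ≤ y, wgt μ c τ w ≤ 1 + 212 * θ := by
  have r0 := C.r0
  rw [C.sta.sum_pos, C.sta.sum_pos _ fun w => inf (wgt μ c τ) w ≤ y]
  have k : ∀ x : ℝ, ∀ w ∈ (words (Fin N) n).filter fun w => 0 < wgt μ c τ w ∧
      inf (wgt μ c τ) w ≤ x, w.length = n ∧ 0 < wgt μ c τ w ∧ inf (wgt μ c τ) w ≤ x :=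
    fun x w hw => ⟨mem_words.1 (Finset.mem_filter.1 hw).1, (Finset.mem_filter.1 hw).2⟩
  refine C.pair θ0 (fun w hw => (k x w (by convert hw)).1) (fun w hw => (k y w (by convert hw)).1)
    fun g g' t => ?_
  refine (C.act.fup_vol (n := n) (by linarith) (by linarith [C.r1]) (by linarith [C.r2])
    (fun w hw => (k x w (by convert hw)).1) (fun w hw => ?_) g g' t).mono subset_rfl subset_rfl
    (le_trans ?_ hθ)
  · obtain ⟨u, hu, rfl⟩ := Finset.mem_image.1 hw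
    rw [List.length_reverse]
    exact (k y u (by convert hu)).1
  · rw [mul_assoc]
    refine mul_le_mul_of_nonneg_left ?_ (by positivity)
    have h1 := C.sta.card_le (k x)
    have h2 := C.sta.card_le (k y)
    calc _ ≤ Real.exp (-(n * τ)) * (Real.exp x * Real.exp y) := by
          refine mul_le_mul_of_nonneg_left (mul_le_mul (by convert h1) (le_trans ?_ h2)
            (Nat.cast_nonneg _) (Real.exp_pos _).le) (Real.exp_pos _).le
          exact_mod_cast Finset.card_image_le.trans (le_of_eq (by congr))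
      _ ≤ _ := by
          rw [← Real.exp_add, ← Real.exp_add]
          exact Real.exp_le_exp.2 (by linarith)

lemma main1_num {L x y z u a₁ a₂ b₁ b₂ : ℝ} (z0 : 0 ≤ z) (hz : x + y ≤ L + z) (hu : 2 * z ≤ u)
    (h₁ : a₁ ≤ Real.exp x) (h₂ : a₂ ≤ Real.exp (x - 2 * z)) (h₃ : b₁ ≤ Real.exp y)
    (h₄ : b₂ ≤ Real.exp (y - 2 * z)) (b1 : 0 ≤ b₁) (b2 : 0 ≤ b₂) :
    Real.exp (-L) * (2 * Real.exp (-u) / (Real.exp (-x) * Real.exp (-y)) + 2 * (a₁ * b₂)
      + a₂ * (b₁ + b₂)) ≤ 6 * Real.exp (-z) := by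
  have k : ∀ s, s ≤ x + y - 2 * z → Real.exp (-L) * Real.exp s ≤ Real.exp (-z) := fun s hs => by
    rw [← Real.exp_add]; exact Real.exp_le_exp.2 (by linarith)
  have e1 : Real.exp (-u) / (Real.exp (-x) * Real.exp (-y)) = Real.exp (x + y - u) := by
    rw [← Real.exp_add, ← Real.exp_sub]; congr 1; ring
  have e2 : a₁ * b₂ ≤ Real.exp (x + (y - 2 * z)) := by
    rw [Real.exp_add]; exact mul_le_mul h₁ h₄ b2 (Real.exp_pos _).le
  have e3 : a₂ * b₁ ≤ Real.exp (x - 2 * z + y) := by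
    rw [Real.exp_add]; exact mul_le_mul h₂ h₃ b1 (Real.exp_pos _).le
  have e4 : a₂ * b₂ ≤ Real.exp (x - 2 * z + (y - 2 * z)) := by
    rw [Real.exp_add]; exact mul_le_mul h₂ h₄ b2 (Real.exp_pos _).le
  have p := (Real.exp_pos (-L)).le
  have f1 := k (x + y - u) (by linarith)
  have f2 := (mul_le_mul_of_nonneg_left e2 p).trans (k _ (by linarith))
  have f3 := (mul_le_mul_of_nonneg_left e3 p).trans (k _ (by linarith))
  have f4 := (mul_le_mul_of_nonneg_left e4 p).trans (k _ (by linarith))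
  rw [mul_div_assoc, e1]
  linarith

open Classical in
theorem Cod.gain (C : Cod Γ e Λ μ ctr c r τ B) {θ : ℝ} (θ0 : 0 < θ) {m n : ℕ} (hn : 10 ≤ n)
    {κ : ℝ} (c0 : 0 < κ) (c1 : κ ≤ 1)
    (hm : 6400 * (Real.exp (m * τ) / (2 * (5 * r))) ^ 8 / κ ^ 4 ≤ Real.exp ((10 * m : ℕ) * τ))
    {x y z : ℝ} (z0 : 0 ≤ z) (hz : x + y ≤ (n * (10 * m) : ℕ) * τ + z)
    (hu : 2 * z ≤ κ ^ 2 / (4 * (Real.exp (m * τ) / (2 * (5 * r))) ^ 4) * n / 2)
    (hθ : 9 / (5 * r) ^ 2 * (6 * Real.exp (-z)) ≤ θ ^ 2) :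
    ∑ w ∈ words (Fin N) (n * (10 * m)) with inf (wgt μ c τ) w ≤ x ∧
        (20 * nbr (Br (wgt μ c τ) m (B ^ m) κ) (10 * m) n w ≤ n ∨ inf (wgt μ c τ) w ≤ x - 2 * z),
        wgt μ c τ w
      + ∑ w ∈ words (Fin N) (n * (10 * m)) with inf (wgt μ c τ) w ≤ y ∧
        (20 * nbr (Br (fun w => wgt μ c τ w.reverse) m (B ^ m) κ) (10 * m) n w.reverse ≤ n ∨
          inf (wgt μ c τ) w ≤ y - 2 * z), wgt μ c τ w ≤ 1 + 212 * θ := by
  have r0 := C.r0
  set P := wgt μ c τ with hP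
  have sP : Sta P := C.sta
  set T : ℝ → (List (Fin N) → Prop) → Finset (List (Fin N)) := fun x q =>
    (words (Fin N) (n * (10 * m))).filter fun w => 0 < P w ∧ inf P w ≤ x ∧ q w with hT
  have k : ∀ x q, ∀ w ∈ T x q, w.length = n * (10 * m) ∧ 0 < P w ∧ inf P w ≤ x := fun x q w hw =>
    ⟨mem_words.1 (Finset.mem_filter.1 hw).1, (Finset.mem_filter.1 hw).2.1,
      (Finset.mem_filter.1 hw).2.2.1⟩
  have k' : ∀ x q, ∀ w ∈ T x q, q w := fun x q w hw => (Finset.mem_filter.1 hw).2.2.2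
  have sp : ∀ (x : ℝ) (q : List (Fin N) → Prop),
      ∑ w ∈ words (Fin N) (n * (10 * m)) with inf P w ≤ x ∧ (q w ∨ inf P w ≤ x - 2 * z), P w
        = ∑ w ∈ T x q ∪ T (x - 2 * z) fun _ => True, P w := fun x q => by
    rw [sP.sum_pos]
    refine Finset.sum_congr ?_ fun _ _ => rfl
    ext w
    simp only [hT, Finset.mem_filter, Finset.mem_union, and_true]
    constructor
    · rintro ⟨a, b, d, f | f⟩
      exacts [Or.inl ⟨a, b, d, f⟩, Or.inr ⟨a, b, f⟩]
    · rintro (⟨a, b, d, f⟩ | ⟨a, b, f⟩)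
      exacts [⟨a, b, d, Or.inl f⟩, ⟨a, b, by linarith, Or.inr f⟩]
  have u : ∀ x q, ∀ w ∈ T x q ∪ T (x - 2 * z) fun _ => True, w.length = n * (10 * m) :=
    fun x q w hw => (Finset.mem_union.1 hw).elim (fun h => (k _ _ w h).1) fun h => (k _ _ w h).1
  have key := C.pair θ0 (u x fun w => 20 * nbr (Br P m (B ^ m) κ) (10 * m) n w ≤ n)
    (u y fun w => 20 * nbr (Br (fun w => P w.reverse) m (B ^ m) κ) (10 * m) n w.reverse ≤ n)
    fun g g' t => by
      rw [Finset.image_union]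
      refine (C.act.fup (by linarith) (by linarith [C.r1]) (by linarith [C.r2])
        (by linarith [C.τ1]) sP sP.rev C.ov C.ov.swap hn c0 c1 hm (Real.exp_pos (-x))
        (Real.exp_pos (-y))
        (fun w hw => ⟨(k _ _ w hw).1, main1_low (k _ _ w hw).2.1 (k _ _ w hw).2.2, k' _ _ w hw⟩)
        (fun w hw => (k _ _ w hw).1) (fun w hw => ?_) (fun w hw => ?_) g g' t).mono subset_rfl
        subset_rfl (le_trans ?_ hθ)
      · obtain ⟨v, hv, rfl⟩ := Finset.mem_image.1 hw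
        rw [List.length_reverse, List.reverse_reverse]
        exact ⟨(k _ _ v hv).1, main1_low (k _ _ v hv).2.1 (k _ _ v hv).2.2, k' _ _ v hv⟩
      · obtain ⟨v, hv, rfl⟩ := Finset.mem_image.1 hw
        rw [List.length_reverse]
        exact (k _ _ v hv).1
      · rw [mul_assoc]
        have im : ∀ x q, (((T x q).image List.reverse).card : ℝ) ≤ Real.exp x := fun x q =>
          le_trans (by exact_mod_cast Finset.card_image_le) (sP.card_le (k x q))
        exact mul_le_mul_of_nonneg_left (main1_num z0 hz hu (sP.card_le (k _ _))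
          (sP.card_le (k _ _)) (im _ _) (im _ _) (Nat.cast_nonneg _) (Nat.cast_nonneg _))
          (by positivity)
  rw [← hP, ← sp, ← sp] at key
  convert key

end Pool.Agent.Lib.MP_a52643_an.SE
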