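import Pool.Agent.Lib.MP_a52643_an.SE.Defs

/-!
The distribution of the rate in the case of equality.
-/

open MeasureTheory Set Filter Topology Metric UpperHalfPlane
open scoped ENNReal MatrixGroups Real FourierTransform ComplexConjugate

noncomputable section

namespace Pool.Agent.Lib.MP_a52643_an.SE

open NS

private lemma slab_int {Ω : Type} (s : Finset Ω) (p u v : Ω → ℝ) {c K : ℝ} (hc : 0 ≤ c)
    (hp : ∀ ω ∈ s, 0 ≤ p ω) (hu : ∀ ω ∈ s, 0 ≤ u ω) (hv : ∀ ω ∈ s, v ω ≤ c)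
    (H : ∀ a, ∑ ω ∈ s, p ω * ((Ici (u ω)).indicator 1 a + (Iic (v ω)).indicator 1 a) ≤ K) :
    ∑ ω ∈ s, p ω * (c - u ω + v ω) ≤ K * c := by
  have i1 : ∀ A : Set ℝ, MeasurableSet A →
      Integrable (A.indicator (1 : ℝ → ℝ)) (volume.restrict (Icc 0 c)) := fun A hA =>
    (integrable_const (1 : ℝ)).indicator hA
  have i2 : ∀ ω, Integrable (fun a => p ω * ((Ici (u ω)).indicator (1 : ℝ → ℝ) a +
      (Iic (v ω)).indicator 1 a)) (volume.restrict (Icc 0 c)) := fun ω =>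
    ((i1 _ measurableSet_Ici).add (i1 _ measurableSet_Iic)).const_mul _
  have h1 : ∫ a in Icc 0 c, ∑ ω ∈ s, p ω * ((Ici (u ω)).indicator (1 : ℝ → ℝ) a +
      (Iic (v ω)).indicator 1 a) ≤ ∫ _ in Icc 0 c, K :=
    integral_mono (integrable_finsetSum _ fun ω _ => i2 ω) (integrable_const K) H
  rw [integral_finsetSum _ fun ω _ => i2 ω, setIntegral_const, Real.volume_real_Icc,
    sub_zero, max_eq_left hc, smul_eq_mul, mul_comm c] at h1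
  refine le_trans (Finset.sum_le_sum fun ω hω => ?_) h1
  rw [integral_const_mul, integral_add (i1 _ measurableSet_Ici) (i1 _ measurableSet_Iic),
    integral_indicator_one measurableSet_Ici, integral_indicator_one measurableSet_Iic,
    measureReal_restrict_apply measurableSet_Ici, measureReal_restrict_apply measurableSet_Iic]
  have e1 : Ici (u ω) ∩ Icc 0 c = Icc (u ω) c := by
    ext a
    simp only [mem_inter_iff, mem_Ici, mem_Icc]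
    exact ⟨fun h => ⟨h.1, h.2.2⟩, fun h => ⟨h.1, (hu ω hω).trans h.1, h.2⟩⟩
  have e2 : Iic (v ω) ∩ Icc 0 c = Icc 0 (v ω) := by
    ext a
    simp only [mem_inter_iff, mem_Iic, mem_Icc]
    exact ⟨fun h => ⟨h.2.1, h.1⟩, fun h => ⟨h.2, h.1, h.2.trans (hv ω hω)⟩⟩
  rw [e1, e2, Real.volume_real_Icc, Real.volume_real_Icc, sub_zero]
  exact mul_le_mul_of_nonneg_left (add_le_add (le_max_left _ _) (le_max_left _ _)) (hp ω hω)

private lemma slab_cmp {Ω : Type} (s : Finset Ω) (p u v : Ω → ℝ) (a : ℝ) (A B : Ω → Prop)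
    [DecidablePred A] [DecidablePred B] (hp : ∀ ω ∈ s, 0 ≤ p ω)
    (hA : ∀ ω, u ω ≤ a → A ω) (hB : ∀ ω, a ≤ v ω → B ω) :
    ∑ ω ∈ s, p ω * ((Ici (u ω)).indicator 1 a + (Iic (v ω)).indicator 1 a) ≤
      ∑ ω ∈ s with A ω, p ω + ∑ ω ∈ s with B ω, p ω := by
  rw [Finset.sum_filter, Finset.sum_filter, ← Finset.sum_add_distrib]
  refine Finset.sum_le_sum fun ω hω => ?_
  have h0 := hp ω hω
  rw [mul_add]
  refine add_le_add ?_ ?_
  · by_cases h : u ω ≤ a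
    · rw [if_pos (hA ω h), indicator_of_mem (mem_Ici.2 h)]; simp
    · rw [indicator_of_notMem (fun h' => h (mem_Ici.1 h')), mul_zero]; split_ifs <;> simp [h0]
  · by_cases h : a ≤ v ω
    · rw [if_pos (hB ω h), indicator_of_mem (mem_Iic.2 h)]; simp
    · rw [indicator_of_notMem (fun h' => h (mem_Iic.1 h')), mul_zero]; split_ifs <;> simp [h0]

open Classical in
theorem slab {Ω : Type} (s : Finset Ω) (p R : Ω → ℝ) (G₁ G₂ : Ω → Prop) {η β β₀ e e₁ e₃ : ℝ}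
    (hp : ∀ ω ∈ s, 0 ≤ p ω) (h1 : ∑ ω ∈ s, p ω = 1) (hR : ∀ ω ∈ s, 0 ≤ R ω) (η0 : 0 ≤ η)
    (β0 : 0 < β₀) (β1 : β₀ ≤ β) (hs : η + 3 * β ≤ 1 / 4) (e0 : 0 ≤ e) (e10 : 0 ≤ e₁)
    (e30 : 0 ≤ e₃)
    (H0 : ∀ a b, a + b ≤ 1 - β₀ →
      ∑ ω ∈ s with R ω ≤ a, p ω + ∑ ω ∈ s with R ω ≤ b, p ω ≤ 1 + e)
    (H1 : ∀ a b, a + b ≤ 1 + β →
      ∑ ω ∈ s with R ω ≤ a ∧ (G₁ ω ∨ R ω ≤ a - 2 * β), p ω
        + ∑ ω ∈ s with R ω ≤ b ∧ (G₂ ω ∨ R ω ≤ b - 2 * β), p ω ≤ 1 + e)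
    (H2 : ∑ ω ∈ s with η < R ω ∧ ¬ G₁ ω, p ω ≤ e₁) (H2' : ∑ ω ∈ s with η < R ω ∧ ¬ G₂ ω, p ω ≤ e₁)
    (H3 : ∑ ω ∈ s, p ω * R ω ≤ 1 / 2 + e₃) :
    1 / 2 - (η + 3 * β) - 2 * e₃ - 4 * e₁ - (2 * e₃ + β₀ + e) / β
      ≤ ∑ ω ∈ s with R ω ≤ η + 3 * β, p ω := by
  have hβ : 0 < β := β0.trans_le β1
  let χ₁ : Ω → ℝ := fun ω => if η < R ω ∧ ¬ G₁ ω then 1 else 0
  let χ₂ : Ω → ℝ := fun ω => if η < R ω ∧ ¬ G₂ ω then 1 else 0
  let m : Ω → ℝ := fun ω => if η + 3 * β < R ω ∧ R ω ≤ 1 - (η + 3 * β) then 1 else 0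
  have c1 : ∀ ω, (χ₁ ω = 1) ∨ (χ₁ ω = 0 ∧ (R ω ≤ η ∨ G₁ ω)) := fun ω => by
    by_cases h : η < R ω ∧ ¬ G₁ ω
    · exact Or.inl (if_pos h)
    · exact Or.inr ⟨if_neg h, by by_contra h'; push Not at h'; exact h h'⟩
  have c2 : ∀ ω, (χ₂ ω = 1) ∨ (χ₂ ω = 0 ∧ (R ω ≤ η ∨ G₂ ω)) := fun ω => by
    by_cases h : η < R ω ∧ ¬ G₂ ω
    · exact Or.inl (if_pos h)
    · exact Or.inr ⟨if_neg h, by by_contra h'; push Not at h'; exact h h'⟩
  have c3 : ∀ ω, (m ω = 1 ∧ η + 3 * β < R ω ∧ R ω ≤ 1 - (η + 3 * β)) ∨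
      (m ω = 0 ∧ (R ω ≤ η + 3 * β ∨ 1 - (η + 3 * β) < R ω)) := fun ω => by
    by_cases h : η + 3 * β < R ω ∧ R ω ≤ 1 - (η + 3 * β)
    · exact Or.inl ⟨if_pos h, h⟩
    · exact Or.inr ⟨if_neg h, by by_contra h'; push Not at h'; exact h h'⟩
  have key := slab_int s p (fun ω => R ω + 2 * β * χ₁ ω)
    (fun ω => 1 - β₀ - R ω - 2 * β * χ₂ ω + (β + β₀) * m ω) (c := 1 - β₀) (K := 1 + e)
    (by linarith) hp
    (fun ω hω => by
      have := hR ω hω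
      rcases c1 ω with h | ⟨h, -⟩ <;> rw [h] <;> linarith)
    (fun ω hω => by
      have := hR ω hω
      rcases c2 ω with h | ⟨h, -⟩ <;> rcases c3 ω with ⟨h', h''⟩ | ⟨h', -⟩ <;> rw [h, h'] <;>
        linarith [hβ])
    (fun a => by
      by_cases ha : η + 2 * β ≤ a ∧ a ≤ 1 - β₀ - η - β
      · refine le_trans (slab_cmp s p _ _ a _ _ hp (fun ω h => ?_) fun ω h => ?_)
          (H1 a (1 + β - a) (by linarith))
        · rcases c1 ω with h' | ⟨h', h'' | h''⟩ <;> rw [h'] at h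
          · exact ⟨by linarith, Or.inr (by linarith)⟩
          · exact ⟨by linarith, Or.inr (by linarith [ha.1])⟩
          · exact ⟨by linarith, Or.inl h''⟩
        · have hm : (β + β₀) * m ω ≤ β + β₀ := by
            rcases c3 ω with ⟨h', -⟩ | ⟨h', -⟩ <;> rw [h'] <;> linarith
          rcases c2 ω with h' | ⟨h', h'' | h''⟩ <;> rw [h'] at h
          · exact ⟨by linarith, Or.inr (by linarith)⟩
          · exact ⟨by linarith, Or.inr (by linarith [ha.2])⟩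
          · exact ⟨by linarith, Or.inl h''⟩
      · refine le_trans (slab_cmp s p _ _ a _ _ hp (fun ω h => ?_) fun ω h => ?_)
          (H0 a (1 - β₀ - a) (by linarith))
        · rcases c1 ω with h' | ⟨h', -⟩ <;> rw [h'] at h <;> linarith
        · have hx : 0 ≤ 2 * β * χ₂ ω := by
            rcases c2 ω with h' | ⟨h', -⟩ <;> rw [h'] <;> linarith
          rcases c3 ω with ⟨h', h2, h3⟩ | ⟨h', -⟩ <;> rw [h'] at h
          · rcases not_and_or.mp ha with h4 | h4 <;> push Not at h4 <;> linarith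
          · linarith)
  have s1 : ∑ ω ∈ s, p ω * χ₁ ω ≤ e₁ := by
    rw [Finset.sum_filter] at H2
    simpa [χ₁] using H2
  have s2 : ∑ ω ∈ s, p ω * χ₂ ω ≤ e₁ := by
    rw [Finset.sum_filter] at H2'
    simpa [χ₂] using H2'
  have e1 : ∑ ω ∈ s, p ω * (1 - β₀ - (R ω + 2 * β * χ₁ ω) +
      (1 - β₀ - R ω - 2 * β * χ₂ ω + (β + β₀) * m ω)) =
      2 * (1 - β₀) * ∑ ω ∈ s, p ω - 2 * ∑ ω ∈ s, p ω * R ω - 2 * β * ∑ ω ∈ s, p ω * χ₁ ω
        - 2 * β * ∑ ω ∈ s, p ω * χ₂ ω + (β + β₀) * ∑ ω ∈ s, p ω * m ω := by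
    simp only [Finset.mul_sum, ← Finset.sum_sub_distrib, ← Finset.sum_add_distrib]
    exact Finset.sum_congr rfl fun ω _ => by ring
  rw [e1, h1] at key
  have m0 : 0 ≤ ∑ ω ∈ s, p ω * m ω := Finset.sum_nonneg fun ω hω =>
    mul_nonneg (hp ω hω) (by rcases c3 ω with ⟨h', -⟩ | ⟨h', -⟩ <;> rw [h'] <;> norm_num)
  have mb : ∑ ω ∈ s, p ω * m ω ≤ 4 * e₁ + (2 * e₃ + β₀ + e) / β := by
    rw [← sub_le_iff_le_add', le_div_iff₀ hβ]
    nlinarith [mul_le_mul_of_nonneg_left s1 hβ.le, mul_le_mul_of_nonneg_left s2 hβ.le,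
      mul_nonneg β0.le m0, mul_nonneg e0 β0.le]
  have low : ∑ ω ∈ s, p ω - ∑ ω ∈ s, p ω * m ω - (1 + 2 * (η + 3 * β)) * ∑ ω ∈ s, p ω * R ω ≤
      ∑ ω ∈ s with R ω ≤ η + 3 * β, p ω := by
    rw [Finset.sum_filter, Finset.mul_sum, ← Finset.sum_sub_distrib, ← Finset.sum_sub_distrib]
    refine Finset.sum_le_sum fun ω hω => ?_
    have h0 := hp ω hω
    have h2 := hR ω hω
    have h3 : 0 ≤ (1 + 2 * (η + 3 * β)) * (p ω * R ω) := by positivity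
    rcases c3 ω with ⟨h', -⟩ | ⟨h', h'' | h''⟩ <;> rw [h']
    · split_ifs <;> linarith
    · rw [if_pos h'']; linarith
    · have h4 : 1 ≤ (1 + 2 * (η + 3 * β)) * R ω := by nlinarith
      have h5 := mul_le_mul_of_nonneg_left h4 h0
      split_ifs <;> nlinarith
  rw [h1] at low
  have h6 := mul_le_mul_of_nonneg_left H3 (by positivity : 0 ≤ 1 + 2 * (η + 3 * β))
  nlinarith

end Pool.Agent.Lib.MP_a52643_an.SE
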