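import Pool.Agent.Lib.MP_a52643_an.SE.Main1
import Pool.Agent.Lib.MP_a52643_an.SE.Info3
import Pool.Agent.Lib.MP_a52643_an.SE.Slab

/-!
If the entropy is at most one half, few names carry almost one half of the mass.
-/

open MeasureTheory Set Filter Topology Metric UpperHalfPlane
open scoped ENNReal MatrixGroups Real FourierTransform ComplexConjugate

noncomputable section

namespace Pool.Agent.Lib.MP_a52643_an.SE

open NS

open Classical in
lemma main2_markov {S : Type} [Fintype S] [DecidableEq S] {P : List S → ℝ} (hP : Sta P)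
    {f : List S → ℕ} {j n : ℕ} {η τ A e₁ : ℝ} (η0 : 0 < η) (τ0 : 0 < τ) (j0 : 0 < j) (n0 : 0 < n)
    (h : ∑ w ∈ words S j, P w * (inf P w * f w) ≤ A * j * n) (hA : 20 * A ≤ η * τ * e₁) :
    ∑ w ∈ words S j with η < inf P w / (j * τ) ∧ ¬ 20 * f w ≤ n, P w ≤ e₁ := by
  have j1 : (0 : ℝ) < j := by exact_mod_cast j0
  have n1 : (0 : ℝ) < n := by exact_mod_cast n0
  have h1 : (∑ w ∈ words S j with η < inf P w / (j * τ) ∧ ¬ 20 * f w ≤ n, P w)
      * (η * (j * τ) * (n / 20)) ≤ ∑ w ∈ words S j, P w * (inf P w * f w) := by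
    rw [Finset.sum_mul]
    refine le_trans (Finset.sum_le_sum fun w hw => ?_) (Finset.sum_le_sum_of_subset_of_nonneg
      (Finset.filter_subset _ _) fun w _ _ =>
        mul_nonneg (hP.nn w) (mul_nonneg (hP.inf_nn w) (Nat.cast_nonneg _)))
    obtain ⟨a, b⟩ := (Finset.mem_filter.1 hw).2
    rw [lt_div_iff₀ (by positivity)] at a
    have b' : (n : ℝ) ≤ 20 * f w := by exact_mod_cast (not_le.1 b).le
    exact mul_le_mul_of_nonneg_left (mul_le_mul a.le (by linarith) (by positivity) (hP.inf_nn w))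
      (hP.nn w)
  refine le_of_mul_le_mul_right (h1.trans (h.trans ?_)) (by positivity)
  nlinarith [mul_le_mul_of_nonneg_right hA (show (0 : ℝ) ≤ j * n by positivity)]

variable {Γ : Type} [Group Γ] [MulAction Γ ℍ] {e : ℝ} {Λ : Set SL2} {μ : Measure SL2} {N : ℕ}
  {ctr : Fin N → ℍ × ℍ} {c : SL2 → Fin N} {r τ : ℝ} {B : ℕ}

open Classical in
theorem Cod.heavy (C : Cod Γ e Λ μ ctr c r τ B) (hB : 1 ≤ B) {η : ℝ} (η0 : 0 < η)
    (η1 : η ≤ 1 / 10 ^ 15) (hτ : 20 * (Real.log B + 10) ≤ η * τ * (1 / 10 ^ 15))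
    (hent : ∀ δ > 0, ∃ n : ℕ, ent (wgt μ c τ) n < (τ / 2 + δ) * n) :
    ∃ l : ℕ, 0 < l ∧ ∃ n₀ : ℕ, ∀ n ≥ n₀, 1 / 2 - 1 / 10 ^ 14 ≤
      ∑ w ∈ words (Fin N) (n * l) with inf (wgt μ c τ) w ≤ 2 * η * ((n * l : ℕ) * τ),
        wgt μ c τ w := by
  have r0 := C.r0
  have τ1 := C.τ1
  have sP := C.sta
  have lN : 0 ≤ Real.log (Fintype.card (Fin N)) := Real.log_natCast_nonneg _
  obtain ⟨κ, c0, c1, c2⟩ : ∃ κ : ℝ, 0 < κ ∧ κ ≤ 1 ∧ κ * Real.log (Fintype.card (Fin N)) ≤ 1 :=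
    ⟨1 / (Real.log (Fintype.card (Fin N)) + 1), by positivity,
      by rw [div_le_one (by positivity)]; linarith,
      by rw [div_mul_eq_mul_div, div_le_one (by positivity)]; linarith⟩
  obtain ⟨m₁, a1, i1⟩ := sP.info hB c0.le c2
  obtain ⟨m₂, a2, i2⟩ := sP.rev.info hB c0.le c2
  obtain ⟨m, m0, d1, d2, hm⟩ : ∃ m : ℕ, 0 < m ∧ m₁ ∣ m ∧ m₂ ∣ m ∧
      6400 * (Real.exp (m * τ) / (2 * (5 * r))) ^ 8 / κ ^ 4 ≤ Real.exp ((10 * m : ℕ) * τ) := by
    obtain ⟨q, hq⟩ := exists_nat_ge (6400 / (2 * (5 * r)) ^ 8 / κ ^ 4)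
    refine ⟨m₁ * m₂ * (q + 1), by positivity, ⟨m₂ * (q + 1), by ring⟩, ⟨m₁ * (q + 1), by ring⟩, ?_⟩
    have h1 : q + 1 ≤ m₁ * m₂ * (q + 1) := Nat.le_mul_of_pos_left _ (by positivity)
    generalize m₁ * m₂ * (q + 1) = m at h1
    have h2 : (q : ℝ) + 1 ≤ m := by exact_mod_cast h1
    have h3 : (q : ℝ) ≤ Real.exp (2 * (m * τ)) := by
      have := Real.add_one_le_exp (2 * (m * τ))
      nlinarith [Nat.cast_nonneg (α := ℝ) q]
    have h4 : Real.exp ((10 * m : ℕ) * τ) = Real.exp (2 * (m * τ)) * Real.exp (m * τ) ^ 8 := by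
      rw [← Real.exp_nat_mul, ← Real.exp_add]; congr 1; push_cast; ring
    rw [h4, div_pow]
    calc _ = 6400 / (2 * (5 * r)) ^ 8 / κ ^ 4 * Real.exp (m * τ) ^ 8 := by ring
      _ ≤ _ := by gcongr; exact hq.trans h3
  obtain ⟨n₁, i1⟩ := i1 m m0 d1
  obtain ⟨n₂, i2⟩ := i2 m m0 d2
  have l1 : (1 : ℝ) ≤ (10 * m : ℕ) := by exact_mod_cast (by omega : 1 ≤ 10 * m)
  obtain ⟨β, β0, β1, β2⟩ : ∃ β : ℝ, 0 < β ∧ 3 * β ≤ η ∧
      4 * (β * ((10 * m : ℕ) * τ)) ≤ κ ^ 2 / (4 * (Real.exp (m * τ) / (2 * (5 * r))) ^ 4) := by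
    refine ⟨min (η / 3) (κ ^ 2 / (4 * (Real.exp (m * τ) / (2 * (5 * r))) ^ 4)
      / (4 * ((10 * m : ℕ) * τ))), by positivity,
      (le_div_iff₀' (by norm_num)).1 (min_le_left _ _), ?_⟩
    have := min_le_right (η / 3) (κ ^ 2 / (4 * (Real.exp (m * τ) / (2 * (5 * r))) ^ 4)
      / (4 * ((10 * m : ℕ) * τ)))
    rw [le_div_iff₀ (by positivity)] at this
    linarith
  obtain ⟨n₃, i3⟩ := sP.mean hent (ε := β / 10 ^ 16 * τ) (by positivity)
  have lim : Tendsto (fun n : ℕ => 9 / (5 * r) ^ 2 * (6 * Real.exp (-(β / 10 ^ 16 * n)))) atTop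
      (𝓝 (9 / (5 * r) ^ 2 * (6 * 0))) :=
    ((Real.tendsto_exp_neg_atTop_nhds_zero.comp (tendsto_natCast_atTop_atTop.const_mul_atTop
      (by positivity))).const_mul 6).const_mul _
  rw [mul_zero, mul_zero] at lim
  obtain ⟨n₄, i4⟩ := eventually_atTop.1 (lim.eventually
    (ge_mem_nhds (show 0 < (β / 10 ^ 16 / 212) ^ 2 by positivity)))
  refine ⟨10 * m, by omega, max (max n₁ n₂) (max (max n₃ n₄) 10), fun n hn => ?_⟩
  simp only [ge_iff_le, max_le_iff] at hn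
  obtain ⟨⟨b1, b2⟩, ⟨b3, b4⟩, b5⟩ := hn
  have j0 : 0 < n * (10 * m) := by positivity
  have j1 : n ≤ n * (10 * m) := Nat.le_mul_of_pos_right _ (by omega)
  have j2 : (n : ℝ) ≤ (n * (10 * m) : ℕ) := by exact_mod_cast j1
  have n0 : (10 : ℝ) ≤ n := by exact_mod_cast b5
  set L : ℝ := (n * (10 * m) : ℕ) * τ with hL
  have L1 : (n : ℝ) ≤ L := by rw [hL]; nlinarith
  have L0 : 0 < L := by linarith
  have th : ∀ b, β / 10 ^ 16 ≤ b →
      9 / (5 * r) ^ 2 * (6 * Real.exp (-(b * L))) ≤ (β / 10 ^ 16 / 212) ^ 2 := fun b hb => by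
    have b0 : 0 ≤ b := le_trans (by positivity) hb
    refine le_trans ?_ (i4 n b4)
    gcongr
  refine (fun key => ?_) (slab (words (Fin N) (n * (10 * m))) (wgt μ c τ) (fun w => inf (wgt μ c τ) w / L)
    (fun w => 20 * nbr (Br (wgt μ c τ) m (B ^ m) κ) (10 * m) n w ≤ n)
    (fun w => 20 * nbr (Br (fun w => wgt μ c τ w.reverse) m (B ^ m) κ) (10 * m) n w.reverse ≤ n)
    (η := η) (β := β) (β₀ := β / 10 ^ 16) (e := 212 * (β / 10 ^ 16 / 212)) (e₁ := 1 / 10 ^ 15)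
    (e₃ := β / 10 ^ 16) (fun w _ => sP.nn w) (sP.sum_one _)
    (fun w _ => div_nonneg (sP.inf_nn w) L0.le) η0.le (by positivity) (by linarith) (by linarith)
    (by positivity) (by positivity) (by positivity) (fun a b hab => ?_) (fun a b hab => ?_) ?_ ?_
    ?_)
  · simp only [div_le_iff₀ L0] at key
    have e1 : (2 * (β / 10 ^ 16) + β / 10 ^ 16 + 212 * (β / 10 ^ 16 / 212)) / β = 4 / 10 ^ 16 := by
      field_simp; ring
    rw [e1] at key
    refine le_trans (by linarith) (key.trans (Finset.sum_le_sum_of_subset_of_nonneg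
      (fun w hw => ?_) fun w _ _ => sP.nn w))
    rw [Finset.mem_filter] at hw ⊢
    exact ⟨hw.1, hw.2.trans (mul_le_mul_of_nonneg_right (by linarith) L0.le)⟩
  · simp only [div_le_iff₀ L0]
    have := C.vol (θ := β / 10 ^ 16 / 212) (by positivity) (n := n * (10 * m)) (x := a * L)
      (y := b * L) (z := β / 10 ^ 16 * L) (by rw [← hL]; nlinarith)
      (le_trans (by gcongr; linarith [Real.exp_pos (-(β / 10 ^ 16 * L))]) (th _ le_rfl))
    convert this
  · simp only [div_le_iff₀ L0, sub_mul, mul_assoc]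
    have := C.gain (θ := β / 10 ^ 16 / 212) (by positivity) b5 c0 c1 hm (x := a * L) (y := b * L)
      (z := β * L) (by positivity) (by rw [← hL]; nlinarith) (by
        have : β * L = n * (β * ((10 * m : ℕ) * τ)) := by rw [hL]; push_cast; ring
        rw [this]; nlinarith) (th _ (by linarith))
    convert this
  · have := main2_markov (n := n) (f := nbr (Br (wgt μ c τ) m (B ^ m) κ) (10 * m) n) sP η0
      (by linarith) j0 (by omega) (by exact_mod_cast i1 n b1) hτ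
    convert this
  · have h1 := i2 n b2
    rw [← sum_words_rev] at h1
    simp only [List.reverse_reverse, inf] at h1
    have := main2_markov (n := n) (f := fun w => nbr (Br (fun w => wgt μ c τ w.reverse) m (B ^ m) κ)
      (10 * m) n w.reverse) sP η0 (by linarith) j0 (by omega) (by unfold inf; exact_mod_cast h1)
      hτ
    convert this
  · have h1 := i3 _ (b3.trans j1)
    simp only [← mul_div_assoc]
    rw [← Finset.sum_div, div_le_iff₀ L0, hL]
    unfold ent at h1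
    linarith

end Pool.Agent.Lib.MP_a52643_an.SE
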