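import Pool.Agent.Lib.MP_a52643_an.SE.Main2
import Pool.Agent.Lib.MP_a52643_an.SE.Heavy
import Pool.Agent.Lib.MP_a52643_an.N2.End3

/-!
The strict entropy bound for measures with transfer inequalities.
-/

open MeasureTheory Set Filter Topology Metric UpperHalfPlane
open scoped ENNReal MatrixGroups Real FourierTransform ComplexConjugate

noncomputable section

namespace Pool.Agent.Lib.MP_a52643_an.SE

open NS

variable {Γ : Type} [Group Γ] [MulAction Γ ℍ] {e : ℝ} {Λ : Set SL2} {μ : Measure SL2}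

open Classical in
theorem Cod.elim {N : ℕ} {ctr : Fin N → ℍ × ℍ} {c : SL2 → Fin N} {r τ : ℝ} {B : ℕ}
    (C : Cod Γ e Λ μ ctr c r τ B) (G : NS.Geo Λ ∅) {l n₀ : ℕ} (l0 : 0 < l)
    (H : ∀ n ≥ n₀, 1 / 2 - 1 / 10 ^ 14 ≤ ∑ w ∈ words (Fin N) (n * l) with
      inf (wgt μ c τ) w ≤ 2 * (1 / (4000 * 10 ^ 14)) * ((n * l : ℕ) * τ), wgt μ c τ w) : False := by
  have := C.prob
  have r0 := C.r0
  have τ1 := C.τ1
  have l1 : (1 : ℝ) ≤ l := by exact_mod_cast l0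
  have l2 : 1 ≤ l * τ := by nlinarith
  set A : ℕ → Finset (List (Fin N)) := fun k => (words (Fin N) (2000 * k * l)).filter fun w =>
    0 < wgt μ c τ w ∧ inf (wgt μ c τ) w ≤ 2 * (1 / (4000 * 10 ^ 14)) * ((2000 * k * l : ℕ) * τ)
    with hA
  have kA : ∀ k, ∀ w ∈ A k, w.length = 2000 * k * l ∧ 0 < wgt μ c τ w ∧
      inf (wgt μ c τ) w ≤ 2 * (1 / (4000 * 10 ^ 14)) * ((2000 * k * l : ℕ) * τ) := fun k w hw =>
    ⟨mem_words.1 (Finset.mem_filter.1 hw).1, (Finset.mem_filter.1 hw).2⟩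
  obtain ⟨rep, hrep⟩ : ∃ rep : List (Fin N) → SL2, ∀ w, 0 < wgt μ c τ w →
      Nm Γ ctr r (fun j => bp (rep w * aG (j * τ))) w := by
    choose! rep hrep using fun w (h : 0 < wgt μ c τ w) => wgt_pos C.col h
    exact ⟨rep, hrep⟩
  have G2 := C.act.fam C.sub G l2 (F := fun k => (A k).image rep) fun k => by
    refine le_trans (by exact_mod_cast Finset.card_image_le) ((C.sta.card_le (kA k)).trans
      (le_of_eq ?_))
    congr 1; push_cast; ring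
  obtain ⟨ℓ₁, E⟩ := G2.endgame
  obtain ⟨k₁, hk₁⟩ := exists_nat_ge ℓ₁
  set k := k₁ + n₀ + 1 with hk
  have k1 : (k₁ : ℝ) ≤ k := by exact_mod_cast (by omega : k₁ ≤ k)
  obtain ⟨h₀, E⟩ := E (k * (l * τ)) (by nlinarith [Nat.cast_nonneg (α := ℝ) k])
  obtain ⟨D, cD, iD, eD⟩ := C.act.dist_fun ctr τ fun w hw => (kA k w hw).1
  obtain ⟨h, hh, P₀, P, p₀, p, t1, t0, b, -⟩ := C.apx (1 / 10 ^ 16) (by norm_num) h₀ r (2 * r) D D
    (by linarith) cD cD iD iD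
  rw [← eD r r0 (by linarith [C.r2]), ← eD (2 * r) (by linarith) (by linarith [C.r2])] at b
  have b1 := E h hh P₀ P p₀ p t1 t0
  have b2 : P₀.real (Sw Γ ctr (2 * r) τ (A k))
      ≤ P₀.real {g | N2.mb (Fam Γ (l * τ) fun k => (A k).image rep) (1 / 4) (k * (l * τ)) g} := by
    refine measureReal_mono (fun g ⟨w, hw, hg⟩ i hi => ?_) (measure_ne_top _ _)
    obtain ⟨a1, a2, -⟩ := kA k w hw
    have w0 : w ≠ [] := fun h => by
      rw [h, List.length_nil] at a1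
      exact absurd a1 (by positivity : 0 < 2000 * k * l).ne
    obtain ⟨γ, hγ⟩ := C.act.gc w0 (by linarith [C.r1]) hg (hrep w a2)
    refine ⟨_, ⟨k, rep w, Finset.mem_image_of_mem _ hw, i, hi, γ, rfl⟩, Or.inl ⟨?_, ?_⟩⟩
    · have := hγ (i * k * l) (by rw [a1]; gcongr)
      rw [show ((i * k * l : ℕ) : ℝ) * τ = i * (k * (l * τ)) by push_cast; ring] at this
      exact this.trans_le (by linarith [C.r2])
    · have := hγ ((i + 1) * k * l) (by rw [a1]; gcongr; omega)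
      rw [show (((i + 1) * k * l : ℕ) : ℝ) * τ = (i + 1) * (k * (l * τ)) by push_cast; ring] at this
      rw [mul_assoc, ← aG_add, show (i : ℝ) * (k * (l * τ)) + k * (l * τ)
        = (i + 1) * (k * (l * τ)) by ring]
      exact this.trans_le (by linarith [C.r2])
  have b3 := wgt_le (μ := μ) C.mc C.col fun w hw => (kA k w hw).1
  have b4 := H (2000 * k) (by omega)
  rw [C.sta.sum_pos] at b4
  have b5 : 1 / 2 - 1 / 10 ^ 14 ≤ ∑ w ∈ A k, wgt μ c τ w := by convert b4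
  linarith

theorem strict (H : Act Γ e) (e0 : 0 < e) {K : Set ℍ} (hK : IsCompact K)
    (hc : ∀ z : ℍ, ∃ γ : Γ, γ • z ∈ K) (hΛ : Λ ⊆ Lam Γ) (G : NS.Geo Λ ∅)
    [IsProbabilityMeasure μ] (hμ : Apx Γ Λ μ)
    (hinv : ∀ (t : ℝ) (A : Set SL2), MeasurableSet A → LI (Lam Γ) A → μ (tm t A) = μ A) :
    ∃ (N τ : ℕ) (c : SL2 → Fin N) (δ : ℝ), 0 < τ ∧ 0 < δ ∧ Measurable c ∧
      (∀ γ ∈ Lam Γ, ∀ g, c (γ * g) = c g) ∧
      ∀ n : ℕ, (1 / 2 + δ) * (τ * n) ≤ ent (wgt μ c τ) n := by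
  obtain ⟨r, r0, r1, r2⟩ : ∃ r : ℝ, 0 < r ∧ 20 * r ≤ e ∧ r ≤ 1 / 50 :=
    ⟨min (e / 20) (1 / 50), by positivity, (le_div_iff₀' (by norm_num)).1 (min_le_left _ _),
      min_le_right _ _⟩
  obtain ⟨B, hB, hs⟩ := H.sym hK hc r0
  obtain ⟨τ, hτ⟩ := exists_nat_ge (20 * (Real.log B + 10) * (4000 * 10 ^ 14) * 10 ^ 15)
  have lB : 0 ≤ Real.log B := Real.log_natCast_nonneg _
  have τ1 : (1 : ℝ) ≤ τ := le_trans (by nlinarith) hτ
  obtain ⟨N, ctr, ov, cov⟩ := hs τ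
  obtain ⟨c, mc, ic, col⟩ := H.col (ctr := ctr) (r := r) (τ := τ) fun g => cov _ _ (by
    have := N2.end3_dist g 0 τ
    rw [aG_zero, mul_one, zero_sub, abs_neg, abs_of_nonneg (by linarith)] at this
    exact this.le)
  have C : Cod Γ e Λ μ ctr c r τ B :=
    ⟨H, hΛ, hμ, inferInstance, r0, r1, r2, τ1, ov, mc, col, sta_wgt mc ic hinv τ⟩
  by_contra hn
  obtain ⟨l, l0, n₀, key⟩ := C.heavy hB (η := 1 / (4000 * 10 ^ 14)) (by norm_num) (by norm_num)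
    (by linarith) fun δ hδ => by
      by_contra h
      push Not at h
      refine hn ⟨N, τ, c, δ / τ, by exact_mod_cast zero_lt_one.trans_le τ1, by positivity, mc, ic,
        fun n => le_trans (le_of_eq ?_) (h n)⟩
      field_simp
  exact C.elim G l0 key

end Pool.Agent.Lib.MP_a52643_an.SE
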