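import Pool.Agent.Lib.MP_a52643_an.SE.Defs

/-!
The alphabet and the colouring.
-/

open MeasureTheory Set Filter Topology Metric UpperHalfPlane
open scoped ENNReal MatrixGroups Real FourierTransform ComplexConjugate

noncomputable section

namespace Pool.Agent.Lib.MP_a52643_an.SE

open NS

theorem borel_SL2 : BorelSpace SL2 := by
  have hv : IsInducing (fun g : SL2 => (g : Matrix (Fin 2) (Fin 2) ℝ)) := IsInducing.subtypeVal
  have he : ∀ i j, Continuous fun g : SL2 => (g : Matrix (Fin 2) (Fin 2) ℝ) i j := fun i j =>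
    hv.continuous.matrix_elem i j
  have hf : IsInducing (fun g : SL2 => (ea g, eb g, ec g, ed g)) := by
    refine IsInducing.of_comp (g := fun p : ℝ × ℝ × ℝ × ℝ =>
      (!![p.1, p.2.1; p.2.2.1, p.2.2.2] : Matrix (Fin 2) (Fin 2) ℝ))
      ((he 0 0).prodMk ((he 0 1).prodMk ((he 1 0).prodMk (he 1 1)))) ?_ ?_
    · refine continuous_matrix fun i j => ?_
      fin_cases i <;> fin_cases j <;> simp <;> fun_prop
    · convert hv using 1
      funext g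
      ext i j
      fin_cases i <;> fin_cases j <;> rfl
  refine ⟨Eq.trans ?_ (borel_comap.symm.trans (congrArg (@borel SL2) hf.eq_induced.symm))⟩
  rw [← BorelSpace.measurable_eq]
  rfl

variable {Γ : Type} [Group Γ] [MulAction Γ ℍ] {e : ℝ}

theorem exists_act [Countable Γ] {l : Γ → SL2} {D : Set ℍ} (h : FD l D)
    (hfree : ∀ (γ : Γ) (z : ℍ), γ • z = z → γ = 1) {K : Set ℍ} (hK : IsCompact K)
    (hc : ∀ z : ℍ, ∃ γ : Γ, γ • z ∈ K) : ∃ e > 0, Act Γ e := by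
  classical
  obtain ⟨R, hR⟩ := hK.isBounded.subset_closedBall I
  have mem : ∀ {ρ : ℝ} {δ : Γ} {z w : ℍ}, z ∈ K → w ∈ K → dist (δ • z) w ≤ ρ →
      δ ∈ {γ : Γ | ∃ z ∈ closedBall I (R + ρ), γ • z ∈ closedBall I (R + ρ)} := by
    intro ρ δ z w hz hw hd
    have h1 := hR hz
    have h2 := hR hw
    have h3 : 0 ≤ ρ := dist_nonneg.trans hd
    rw [mem_closedBall] at h1 h2
    exact ⟨z, mem_closedBall.2 (by linarith),
      mem_closedBall.2 (by linarith [dist_triangle (δ • z) w I])⟩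
  have key : ∀ γ ∈ {γ : Γ | ∃ z ∈ closedBall I (R + 1), γ • z ∈ closedBall I (R + 1)},
      ∀ᶠ ε in 𝓝[>] (0 : ℝ), γ ≠ 1 → ∀ z ∈ K, ε ≤ dist (γ • z) z := by
    intro γ _
    by_cases hγ : γ = 1
    · simp [hγ]
    have hcont : Continuous fun z : ℍ => dist (γ • z) z :=
      (Isometry.of_dist_eq (h.dist_eq γ)).continuous.dist continuous_id
    obtain ⟨a, ha, hb⟩ := hK.exists_forall_le' hcont.continuousOn (a := 0)
      fun z _ => dist_pos.2 fun e => hγ (hfree γ z e)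
    filter_upwards [Ioc_mem_nhdsGT ha] with ε hε _ z hz using hε.2.trans (hb z hz)
  obtain ⟨ε, h2, hε⟩ := (((h.finite (R + 1)).eventually_all.2 key).and
    (Ioc_mem_nhdsGT one_pos)).exists
  refine ⟨ε, hε.1, h.dist_eq, fun γ z hd => ?_, fun ρ => ?_⟩
  · obtain ⟨α, hα⟩ := hc z
    have e1 : dist ((α * γ * α⁻¹) • α • z) (α • z) = dist (γ • z) z := by
      rw [smul_smul, inv_mul_cancel_right, mul_smul, h.dist_eq]
    by_contra hγ
    have := h2 _ (mem hα hα (e1.le.trans (hd.le.trans hε.2))) (by simpa using hγ) _ hα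
    linarith
  · refine ⟨(h.finite (R + ρ)).toFinset.card, fun z w => ?_⟩
    obtain ⟨α, hα⟩ := hc z
    obtain ⟨β, hβ⟩ := hc w
    refine ⟨(h.finite (R + ρ)).toFinset.image fun δ => β⁻¹ * δ * α, Finset.card_image_le,
      fun γ hd => Finset.mem_image.2 ⟨β * γ * α⁻¹, (Finite.mem_toFinset _).2 (mem hα hβ ?_),
        by group⟩⟩
    rwa [smul_smul, inv_mul_cancel_right, mul_smul, h.dist_eq]

theorem Act.sym (H : Act Γ e) {K : Set ℍ} (hK : IsCompact K) (hc : ∀ z : ℍ, ∃ γ : Γ, γ • z ∈ K)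
    {r : ℝ} (hr : 0 < r) : ∃ B : ℕ, 1 ≤ B ∧ ∀ τ : ℝ, ∃ (N : ℕ) (ctr : Fin N → ℍ × ℍ),
      Ov Γ ctr B ∧ ∀ z z' : ℍ, dist z z' ≤ τ → ∃ s, Vs Γ (ctr s) r z z' := by
  classical
  obtain ⟨t, -, ht, hcov⟩ := finite_cover_balls_of_compact hK hr
  lift t to Finset ℍ using ht
  obtain ⟨N₁, hN₁⟩ := H.orb 1
  choose F hF₁ hF₂ using hN₁
  refine ⟨max 1 (t.card * (N₁ * (t.card * N₁))), le_max_left _ _, fun τ => ?_⟩
  obtain ⟨N₂, hN₂⟩ := H.orb (τ + 2 * r)
  choose G _ hG using hN₂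
  let P : Finset (ℍ × ℍ) := t.biUnion fun a => t.biUnion fun b => (G b a).image fun γ => (a, γ • b)
  refine ⟨P.card, fun i => (P.equivFin.symm i : ℍ × ℍ), fun z z' => ?_, fun z z' hd => ?_⟩
  · let Q : Finset (ℍ × ℍ) := t.biUnion fun a => (F z a).biUnion fun δ => t.biUnion fun b =>
      (F b (δ • z')).image fun γ => (a, γ • b)
    refine ⟨Finset.univ.filter fun i => (P.equivFin.symm i : ℍ × ℍ) ∈ Q, ?_, ?_⟩
    · refine le_max_of_le_right ((Finset.card_le_card_of_injOn (t := Q)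
        (fun i => (P.equivFin.symm i : ℍ × ℍ)) (fun i hi => (Finset.mem_filter.1 hi).2)
        fun i _ j _ hij => P.equivFin.symm.injective (Subtype.ext hij)).trans ?_)
      refine Finset.card_biUnion_le_card_mul _ _ _ fun a _ => ?_
      refine (Finset.card_biUnion_le_card_mul _ _ (t.card * N₁) fun δ _ => ?_).trans
        (Nat.mul_le_mul_right _ (hF₁ z a))
      exact Finset.card_biUnion_le_card_mul _ _ _ fun b _ => Finset.card_image_le.trans (hF₁ _ _)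
    · rintro s ⟨δ, h1, h2⟩
      refine Finset.mem_filter.2 ⟨Finset.mem_univ _, ?_⟩
      have hs := (P.equivFin.symm s).2
      beta_reduce at h1 h2 ⊢
      generalize (P.equivFin.symm s : ℍ × ℍ) = p at h1 h2 hs
      simp only [P, Finset.mem_biUnion, Finset.mem_image] at hs
      obtain ⟨a, ha, b, hb, γ, -, rfl⟩ := hs
      simp only [Q, Finset.mem_biUnion, Finset.mem_image]
      exact ⟨a, ha, δ, hF₂ _ _ _ h1.le, b, hb, γ, hF₂ _ _ _ (by rw [dist_comm]; exact h2.le), rfl⟩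
  · obtain ⟨α, hα⟩ := hc z
    obtain ⟨β, hβ⟩ := hc z'
    obtain ⟨a, ha, h1⟩ := mem_iUnion₂.1 (hcov hα)
    obtain ⟨b, hb, h2⟩ := mem_iUnion₂.1 (hcov hβ)
    rw [mem_ball] at h1 h2
    have h3 : dist (α • z') ((α * β⁻¹) • b) < r := by
      rwa [← H.iso (α * β⁻¹), smul_smul, inv_mul_cancel_right] at h2
    have h4 : dist ((α * β⁻¹) • b) a ≤ τ + 2 * r := by
      have h5 := H.iso α z z'
      linarith [dist_triangle_left ((α * β⁻¹) • b) a (α • z'), dist_triangle_left (α • z') a (α • z)]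
    have hp : (a, (α * β⁻¹) • b) ∈ P := by
      simp only [P, Finset.mem_biUnion, Finset.mem_image]
      exact ⟨a, ha, b, hb, _, hG _ _ _ h4, rfl⟩
    refine ⟨P.equivFin ⟨_, hp⟩, α, ?_⟩
    simp only [Equiv.symm_apply_apply]
    exact ⟨h1, h3⟩

private lemma sym1_inv {p : ℍ × ℍ} {r : ℝ} {γ : SL2} (hγ : γ ∈ Lam Γ) (g g' : SL2) :
    Vs Γ p r (bp (γ * g)) (bp (γ * g')) ↔ Vs Γ p r (bp g) (bp g') := by
  obtain ⟨δ, hδ⟩ := hγ
  rw [bp_mul, bp_mul, ← hδ, ← hδ]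
  constructor
  · rintro ⟨α, h1, h2⟩
    exact ⟨α * δ, by rwa [mul_smul], by rwa [mul_smul]⟩
  · rintro ⟨α, h1, h2⟩
    exact ⟨α * δ⁻¹, by rwa [mul_smul, inv_smul_smul], by rwa [mul_smul, inv_smul_smul]⟩

private lemma sym1_cont (h : SL2) : Continuous fun g : SL2 => bp (g * h) := by
  simp only [bp_mul]
  exact continuous_id.smul continuous_const

private lemma sym1_open (H : Act Γ e) (p : ℍ × ℍ) (r : ℝ) (h : SL2) :
    IsOpen {g : SL2 | Vs Γ p r (bp g) (bp (g * h))} := by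
  have : {g : SL2 | Vs Γ p r (bp g) (bp (g * h))} = ⋃ γ : Γ,
      {g | dist (γ • bp (g * 1)) p.1 < r} ∩ {g | dist (γ • bp (g * h)) p.2 < r} := by
    ext g; simp [Vs]
  rw [this]
  refine isOpen_iUnion fun γ => ?_
  have hc := (Isometry.of_dist_eq (H.iso γ)).continuous
  exact (isOpen_lt ((hc.comp (sym1_cont 1)).dist continuous_const) continuous_const).inter
    (isOpen_lt ((hc.comp (sym1_cont h)).dist continuous_const) continuous_const)

theorem Act.col (H : Act Γ e) {N : ℕ} {ctr : Fin N → ℍ × ℍ} {r τ : ℝ}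
    (hc : ∀ g : SL2, ∃ s, Vs Γ (ctr s) r (bp g) (bp (g * aG τ))) :
    ∃ c : SL2 → Fin N, Measurable c ∧ (∀ γ ∈ Lam Γ, ∀ g, c (γ * g) = c g) ∧
      ∀ g, Vs Γ (ctr (c g)) r (bp g) (bp (g * aG τ)) := by
  classical
  have := borel_SL2
  let p : SL2 → ℕ → Prop := fun g n => ∃ h : n < N, Vs Γ (ctr ⟨n, h⟩) r (bp g) (bp (g * aG τ))
  have hp : ∀ g, ∃ n, p g n := fun g => let ⟨s, hs⟩ := hc g; ⟨s, s.2, hs⟩
  have hm : Measurable fun g => Nat.find (hp g) := by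
    refine measurable_find hp fun k => ?_
    by_cases hk : k < N
    · convert (sym1_open H (ctr ⟨k, hk⟩) r (aG τ)).measurableSet using 1
      exact Set.ext fun g => ⟨fun ⟨_, h⟩ => h, fun h => ⟨hk, h⟩⟩
    · simp [p, hk]
  refine ⟨fun g => ⟨Nat.find (hp g), (Nat.find_spec (hp g)).1⟩,
    measurable_to_countable' fun s => ?_, fun γ hγ g => Fin.ext (Nat.find_congr' ?_),
    fun g => (Nat.find_spec (hp g)).2⟩
  · convert hm (measurableSet_singleton s.1) using 1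
    ext g
    simp [Fin.ext_iff]
  · intro n
    simp only [p, mul_assoc, sym1_inv hγ]

theorem Act.dist_fun (H : Act Γ e) {S : Type} (ctr : S → ℍ × ℍ) (τ : ℝ) {A : Finset (List S)}
    {n : ℕ} (hA : ∀ w ∈ A, w.length = n) : ∃ D : SL2 → ℝ, Continuous D ∧
      (∀ γ ∈ Lam Γ, ∀ g, D (γ * g) = D g) ∧
      ∀ r, 0 < r → r ≤ 1 → Sw Γ ctr r τ A = {g | D g < r} := by
  rcases A.eq_empty_or_nonempty with rfl | ⟨w₀, hw₀⟩
  · refine ⟨fun _ => 1, continuous_const, fun _ _ _ => rfl, fun r _ h1 => ?_⟩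
    ext g
    simp [Sw, h1]
  let Φ : SL2 → Fin n → ℍ × ℍ := fun g j =>
    (bp (g * aG ((j : ℕ) * τ)), bp (g * aG (((j : ℕ) + 1 : ℕ) * τ)))
  let T : Set (Fin n → ℍ × ℍ) := {q | ∃ w, ∃ hw : w ∈ A, ∀ j : Fin n, ∃ γ : Γ,
    q j = (γ • (ctr (w[j.1]'(hA w hw ▸ j.2))).1, γ • (ctr (w[j.1]'(hA w hw ▸ j.2))).2)}
  have hT : T.Nonempty := ⟨fun j => ctr (w₀[j.1]'(hA w₀ hw₀ ▸ j.2)), w₀, hw₀, fun j => ⟨1, by simp⟩⟩
  have key : ∀ r, 0 < r → ∀ g, g ∈ Sw Γ ctr r τ A ↔ infDist (Φ g) T < r := by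
    intro r hr g
    rw [infDist_lt_iff hT]
    constructor
    · rintro ⟨w, hw, hn⟩
      choose γ h1 h2 using fun j : Fin n => hn j.1 (hA w hw ▸ j.2)
      refine ⟨fun j => ((γ j)⁻¹ • (ctr (w[j.1]'(hA w hw ▸ j.2))).1,
        (γ j)⁻¹ • (ctr (w[j.1]'(hA w hw ▸ j.2))).2), ⟨w, hw, fun j => ⟨(γ j)⁻¹, rfl⟩⟩,
        (dist_pi_lt_iff hr).2 fun j => ?_⟩
      rw [Prod.dist_eq, max_lt_iff, ← H.iso (γ j), ← H.iso (γ j) (Φ g j).2, smul_inv_smul,
        smul_inv_smul]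
      exact ⟨h1 j, h2 j⟩
    · rintro ⟨q, ⟨w, hw, hq⟩, hd⟩
      refine ⟨w, hw, fun j hj => ?_⟩
      obtain ⟨γ, hγ⟩ := hq ⟨j, hA w hw ▸ hj⟩
      have := (dist_pi_lt_iff hr).1 hd ⟨j, hA w hw ▸ hj⟩
      rw [hγ, Prod.dist_eq, max_lt_iff, ← H.iso γ⁻¹, ← H.iso γ⁻¹ (Φ g _).2, inv_smul_smul,
        inv_smul_smul] at this
      exact ⟨γ⁻¹, this⟩
  have inv : ∀ r, ∀ γ ∈ Lam Γ, ∀ g, γ * g ∈ Sw Γ ctr r τ A ↔ g ∈ Sw Γ ctr r τ A := by
    intro r γ hγ g
    simp only [Sw, Nm, mem_ofPred_eq, mul_assoc, sym1_inv hγ]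
  refine ⟨fun g => infDist (Φ g) T, (continuous_infDist_pt T).comp
    (continuous_pi fun j => (sym1_cont _).prodMk (sym1_cont _)), fun γ hγ g => ?_,
    fun r hr _ => Set.ext (key r hr)⟩
  refine le_antisymm (le_of_forall_gt fun r h => ?_) (le_of_forall_gt fun r h => ?_)
  · have hr := infDist_nonneg.trans_lt h
    exact (key r hr _).1 ((inv r γ hγ g).2 ((key r hr _).2 h))
  · have hr := infDist_nonneg.trans_lt h
    exact (key r hr _).1 ((inv r γ hγ g).1 ((key r hr _).2 h))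

end Pool.Agent.Lib.MP_a52643_an.SE
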